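import Pool.Agent.Hhelper18.Pan.Defs

/-! # MODULE AS : from a transversal path to a Hamiltonian cycle -/

set_option linter.unusedSectionVars false

namespace Pan

variable {α : Type*} [DecidableEq α] [Fintype α]

/-! ### lists -/

section Lists

variable {β γ : Type*}

lemma pair_infix_iff_not_chain {a b : β} {l : List β} :
    [a, b] <:+: l ↔ ¬ l.IsChain fun x y => ¬ (x = a ∧ y = b) := by
  rw [List.isChain_iff_forall_rel_of_append_cons_cons]
  constructor
  · rintro ⟨s, t, h⟩ hcon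
    exact hcon (a := a) (b := b) (l₁ := s) (l₂ := t) (by rw [← h]; simp) ⟨rfl, rfl⟩
  · intro hcon
    by_contra hno
    apply hcon
    rintro x y s t h ⟨rfl, rfl⟩
    exact hno ⟨s, t, by rw [h]; simp⟩

lemma pair_infix_map {f : γ → β} {a b : β} {l : List γ} :
    [a, b] <:+: l.map f ↔ ∃ p q, [p, q] <:+: l ∧ a = f p ∧ b = f q := by
  rw [List.infix_map_iff]
  constructor
  · rintro ⟨l', h, e⟩
    obtain ⟨p, q, rfl⟩ : ∃ p q, l' = [p, q] := by
      rcases l' with _ | ⟨p, _ | ⟨q, _ | ⟨r, t⟩⟩⟩ <;> simp at e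
      exact ⟨p, q, rfl⟩
    simp only [List.map_cons, List.map_nil, List.cons.injEq, and_true] at e
    exact ⟨p, q, h, e.1, e.2⟩
  · rintro ⟨p, q, h, rfl, rfl⟩
    exact ⟨[p, q], h, rfl⟩

lemma pair_infix_append {a b : β} {l l' : List β} :
    [a, b] <:+: l ++ l' ↔ [a, b] <:+: l ∨ [a, b] <:+: l' ∨
      (l.getLast? = some a ∧ l'.head? = some b) := by
  simp only [pair_infix_iff_not_chain, List.isChain_append]
  constructor
  · intro h
    by_contra hcon
    apply h
    refine ⟨not_not.1 fun h1 => hcon (Or.inl h1), not_not.1 fun h1 => hcon (Or.inr (Or.inl h1)), ?_⟩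
    rintro x hx y hy ⟨rfl, rfl⟩
    exact hcon (Or.inr (Or.inr ⟨by simpa using hx, by simpa using hy⟩))
  · rintro (h | h | ⟨h1, h2⟩) ⟨g1, g2, g3⟩
    · exact h g1
    · exact h g2
    · exact g3 a (by simp [h1]) b (by simp [h2]) ⟨rfl, rfl⟩

lemma pair_infix_reverse {a b : β} {l : List β} :
    [a, b] <:+: l.reverse ↔ [b, a] <:+: l := by
  rw [← List.reverse_infix]
  simp

/-- the list `seg 0 ++ seg 1 ++ … ++ seg (N-1)` -/
def glue (seg : ℕ → List β) (N : ℕ) : List β := ((List.range N).map seg).flatten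

lemma glue_succ (seg : ℕ → List β) (N : ℕ) : glue seg (N + 1) = glue seg N ++ seg N := by
  simp [glue, List.range_succ]

lemma mem_glue {seg : ℕ → List β} {N : ℕ} {a : β} : a ∈ glue seg N ↔ ∃ i < N, a ∈ seg i := by
  simp [glue]

lemma glue_ne_nil {seg : ℕ → List β} (hne : ∀ i, seg i ≠ []) {N : ℕ} (hN : 1 ≤ N) :
    glue seg N ≠ [] := by
  obtain ⟨M, rfl⟩ : ∃ M, N = M + 1 := ⟨N - 1, by omega⟩
  rw [glue_succ]
  simp [hne M]

lemma glue_head? {seg : ℕ → List β} (hne : ∀ i, seg i ≠ []) {N : ℕ} (hN : 1 ≤ N) :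
    (glue seg N).head? = (seg 0).head? := by
  induction N with
  | zero => omega
  | succ M ih =>
    rw [glue_succ]
    rcases Nat.eq_zero_or_pos M with rfl | hM
    · simp [glue]
    · rw [List.head?_append_of_ne_nil _ (glue_ne_nil hne hM), ih hM]

lemma glue_getLast? {seg : ℕ → List β} (hne : ∀ i, seg i ≠ []) {N : ℕ} (hN : 1 ≤ N) :
    (glue seg N).getLast? = (seg (N - 1)).getLast? := by
  obtain ⟨M, rfl⟩ : ∃ M, N = M + 1 := ⟨N - 1, by omega⟩
  rw [glue_succ, List.getLast?_append_of_ne_nil _ (hne M)]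
  simp

lemma glue_chain {R : β → β → Prop} {seg : ℕ → List β} (hne : ∀ i, seg i ≠ [])
    (hc : ∀ i, (seg i).IsChain R)
    (hj : ∀ i, ∀ p ∈ (seg i).getLast?, ∀ q ∈ (seg (i + 1)).head?, R p q) (N : ℕ) :
    (glue seg N).IsChain R := by
  induction N with
  | zero => simp [glue]
  | succ M ih =>
    rw [glue_succ, List.isChain_append]
    refine ⟨ih, hc M, ?_⟩
    rcases Nat.eq_zero_or_pos M with rfl | hM
    · simp [glue]
    · intro p hp q hq
      rw [glue_getLast? hne hM] at hp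
      have := hj (M - 1) p hp
      rw [Nat.sub_add_cancel hM] at this
      exact this q hq

lemma glue_pair {seg : ℕ → List β} (hne : ∀ i, seg i ≠ []) {N : ℕ} {a b : β} :
    [a, b] <:+: glue seg N ↔ (∃ i < N, [a, b] <:+: seg i) ∨
      ∃ i, i + 1 < N ∧ (seg i).getLast? = some a ∧ (seg (i + 1)).head? = some b := by
  induction N with
  | zero => simp [glue]
  | succ M ih =>
    rw [glue_succ, pair_infix_append, ih]
    constructor
    · rintro ((⟨i, hi, h⟩ | ⟨i, hi, h⟩) | h | ⟨h1, h2⟩)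
      · exact Or.inl ⟨i, by omega, h⟩
      · exact Or.inr ⟨i, by omega, h⟩
      · exact Or.inl ⟨M, by omega, h⟩
      · rcases Nat.eq_zero_or_pos M with rfl | hM
        · simp [glue] at h1
        · rw [glue_getLast? hne hM] at h1
          exact Or.inr ⟨M - 1, by omega, h1, by rw [Nat.sub_add_cancel hM]; exact h2⟩
    · rintro (⟨i, hi, h⟩ | ⟨i, hi, h1, h2⟩)
      · rcases Nat.lt_succ_iff_lt_or_eq.1 hi with hi | rfl
        · exact Or.inl (Or.inl ⟨i, hi, h⟩)
        · exact Or.inr (Or.inl h)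
      · rcases Nat.lt_succ_iff_lt_or_eq.1 hi with hi | rfl
        · exact Or.inl (Or.inr ⟨i, hi, h1, h2⟩)
        · refine Or.inr (Or.inr ⟨?_, h2⟩)
          rw [glue_getLast? hne (by omega)]
          simpa using h1

lemma glue_nodup {seg : ℕ → List β} {N : ℕ} (hnd : ∀ i < N, (seg i).Nodup)
    (hdis : ∀ i < N, ∀ j < N, ∀ a, a ∈ seg i → a ∈ seg j → i = j) : (glue seg N).Nodup := by
  induction N with
  | zero => simp [glue]
  | succ M ih =>
    rw [glue_succ, List.nodup_append]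
    refine ⟨ih (fun i hi => hnd i (by omega)) (fun i hi j hj => hdis i (by omega) j (by omega)),
      hnd M (by omega), ?_⟩
    rintro a ha b hb rfl
    obtain ⟨i, hi, h⟩ := mem_glue.1 ha
    have := hdis i (by omega) M (by omega) a h hb
    omega

end Lists

/-- adjacency on a cyclic gluing of segments -/
lemma cycAdj_glue {seg : ℕ → List (List α)} (hne : ∀ i, seg i ≠ []) {N : ℕ} (hN : 1 ≤ N)
    (hper : seg N = seg 0) {w w' : List α} :
    CycAdj (glue seg N) w w' ↔ ∃ i < N, [w, w'] <:+: seg i ∨ [w', w] <:+: seg i ∨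
      ((seg i).getLast? = some w ∧ (seg (i + 1)).head? = some w') ∨
      ((seg i).getLast? = some w' ∧ (seg (i + 1)).head? = some w) := by
  have key : ∀ a b : List α, ([a, b] <:+: glue seg N ∨
      ((glue seg N).head? = some b ∧ (glue seg N).getLast? = some a)) ↔
      ∃ i < N, [a, b] <:+: seg i ∨ ((seg i).getLast? = some a ∧ (seg (i + 1)).head? = some b) := by
    intro a b
    rw [glue_pair hne, glue_head? hne hN, glue_getLast? hne hN]
    constructor
    · rintro ((⟨i, hi, h⟩ | ⟨i, hi, h⟩) | ⟨h1, h2⟩)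
      · exact ⟨i, hi, Or.inl h⟩
      · exact ⟨i, by omega, Or.inr h⟩
      · exact ⟨N - 1, by omega, Or.inr ⟨h2, by rw [Nat.sub_add_cancel hN, hper]; exact h1⟩⟩
    · rintro ⟨i, hi, h | ⟨h1, h2⟩⟩
      · exact Or.inl (Or.inl ⟨i, hi, h⟩)
      · rcases Nat.lt_or_ge (i + 1) N with hi' | hi'
        · exact Or.inl (Or.inr ⟨i, hi', h1, h2⟩)
        · obtain rfl : N = i + 1 := by omega
          refine Or.inr ⟨by rw [← hper]; exact h2, by simpa using h1⟩
  have h1 := key w w'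
  have h2 := key w' w
  constructor
  · rintro (h | h | ⟨h, h'⟩ | ⟨h, h'⟩)
    · obtain ⟨i, hi, h | h⟩ := h1.1 (Or.inl h)
      · exact ⟨i, hi, Or.inl h⟩
      · exact ⟨i, hi, Or.inr (Or.inr (Or.inl h))⟩
    · obtain ⟨i, hi, h | h⟩ := h2.1 (Or.inl h)
      · exact ⟨i, hi, Or.inr (Or.inl h)⟩
      · exact ⟨i, hi, Or.inr (Or.inr (Or.inr h))⟩
    · obtain ⟨i, hi, h | h⟩ := h2.1 (Or.inr ⟨h, h'⟩)
      · exact ⟨i, hi, Or.inr (Or.inl h)⟩
      · exact ⟨i, hi, Or.inr (Or.inr (Or.inr h))⟩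
    · obtain ⟨i, hi, h | h⟩ := h1.1 (Or.inr ⟨h, h'⟩)
      · exact ⟨i, hi, Or.inl h⟩
      · exact ⟨i, hi, Or.inr (Or.inr (Or.inl h))⟩
  · rintro ⟨i, hi, h | h | h | h⟩
    · rcases h1.2 ⟨i, hi, Or.inl h⟩ with h | ⟨h, h'⟩
      · exact Or.inl h
      · exact Or.inr (Or.inr (Or.inr ⟨h, h'⟩))
    · rcases h2.2 ⟨i, hi, Or.inl h⟩ with h | ⟨h, h'⟩
      · exact Or.inr (Or.inl h)
      · exact Or.inr (Or.inr (Or.inl ⟨h, h'⟩))
    · rcases h1.2 ⟨i, hi, Or.inr h⟩ with h | ⟨h, h'⟩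
      · exact Or.inl h
      · exact Or.inr (Or.inr (Or.inr ⟨h, h'⟩))
    · rcases h2.2 ⟨i, hi, Or.inr h⟩ with h | ⟨h, h'⟩
      · exact Or.inr (Or.inl h)
      · exact Or.inr (Or.inr (Or.inl ⟨h, h'⟩))

/-- relabelings act freely on words on all letters -/
lemma eq_of_map_eq {w : List α} (hw : Wd Finset.univ w) {g h : Equiv.Perm α}
    (e : w.map g = w.map h) : g = h := by
  ext a
  have ha : a ∈ w := hw.mem.2 (Finset.mem_univ a)
  exact List.map_inj_left.1 e a ha

lemma Wd.map_univ {w : List α} (hw : Wd Finset.univ w) (g : Equiv.Perm α) :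
    Wd Finset.univ (w.map g) := hw.map (fun _ _ => Finset.mem_univ _)

lemma map_mul_eq (w : List α) (g h : Equiv.Perm α) : w.map (g * h) = (w.map h).map g := by
  simp [List.map_map]

/-- there are at least three words on at least three letters -/
lemma three_le_length {L : List (List α)} (hcard : 3 ≤ Fintype.card α)
    (hmem : ∀ w, w ∈ L ↔ Wd Finset.univ w) : 3 ≤ L.length := by
  obtain ⟨w, hw⟩ := exists_wd (Finset.univ : Finset α)
  have hlen : 3 ≤ w.length := by rw [hw.length, Finset.card_univ]; exact hcard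
  obtain ⟨a, b, c, r, rfl⟩ : ∃ a b c r, w = a :: b :: c :: r := by
    rcases w with _ | ⟨a, _ | ⟨b, _ | ⟨c, r⟩⟩⟩ <;> simp at hlen
    exact ⟨a, b, c, r, rfl⟩
  have h1 : Adj (a :: b :: c :: r) (b :: a :: c :: r) := ⟨2, le_rfl, by simp, by simp [rv]⟩
  have h2 : Adj (a :: b :: c :: r) (c :: b :: a :: r) := ⟨3, by omega, by simp, by simp [rv]⟩
  have hnd := hw.1
  simp only [List.nodup_cons, List.mem_cons, not_or] at hnd
  have hsub : ({a :: b :: c :: r, b :: a :: c :: r, c :: b :: a :: r} : Finset (List α))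
      ⊆ L.toFinset := by
    intro w' hw'
    simp only [Finset.mem_insert, Finset.mem_singleton] at hw'
    rw [List.mem_toFinset, hmem]
    rcases hw' with rfl | rfl | rfl
    · exact hw
    · exact h1.wd hw
    · exact h2.wd hw
  have hc3 : ({a :: b :: c :: r, b :: a :: c :: r, c :: b :: a :: r} : Finset (List α)).card
      = 3 := by
    rw [Finset.card_insert_of_notMem, Finset.card_insert_of_notMem, Finset.card_singleton]
    · simp only [Finset.mem_singleton, List.cons.injEq, not_and]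
      intro h; exact absurd h hnd.2.1.1
    · simp only [Finset.mem_insert, Finset.mem_singleton, List.cons.injEq, not_or, not_and]
      exact ⟨fun h => absurd h hnd.1.1, fun h => absurd h hnd.1.2.1⟩
  calc 3 = _ := hc3.symm
    _ ≤ L.toFinset.card := Finset.card_le_card hsub
    _ ≤ L.length := L.toFinset_card_le

theorem asm_cyc {K : Subgroup (Equiv.Perm α)} {σ : Equiv.Perm α} (hK : K = Subgroup.zpowers σ)
    (hcard : 3 ≤ Fintype.card α) {P : List (List α)} (hP : TPon K (Wd Finset.univ) P)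
    {u v : List α} (hu : P.head? = some u) (hv : P.getLast? = some v)
    (hadj : Adj v (u.map σ)) :
    ∃ L, HamL L ∧ ∀ w w', CycAdj L w w' ↔ EK K P [(v, u.map σ)] w w' := by
  have hPne : P ≠ [] := by rintro rfl; simp at hu
  set seg : ℕ → List (List α) := fun i => P.map (List.map (σ ^ i : Equiv.Perm α)) with hseg
  have hne : ∀ i, seg i ≠ [] := fun i => by simp [hseg, hPne]
  set N := orderOf σ with hNdef
  have hN : 1 ≤ N := orderOf_pos σ
  have hper : seg N = seg 0 := by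
    have : σ ^ N = σ ^ 0 := by rw [hNdef, pow_orderOf_eq_one, pow_zero]
    simp only [hseg, this]
  have hlast : ∀ i, (seg i).getLast? = some (v.map (σ ^ i : Equiv.Perm α)) := by
    intro i; simp [hseg, hv]
  have hhead : ∀ i, (seg i).head? = some (u.map (σ ^ i : Equiv.Perm α)) := by
    intro i; simp [hseg, hu]
  have hpow : ∀ i : ℕ, σ ^ i ∈ K := fun i => by
    rw [hK]; exact Subgroup.pow_mem _ (Subgroup.mem_zpowers σ) i
  have hKpow : ∀ k ∈ K, ∃ i < N, k = σ ^ i := by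
    intro k hk
    rw [hK, mem_zpowers_iff_mem_range_orderOf, Finset.mem_image] at hk
    obtain ⟨i, hi, rfl⟩ := hk
    exact ⟨i, Finset.mem_range.1 hi, rfl⟩
  have hu' : ∀ i : ℕ, u.map (σ ^ (i + 1) : Equiv.Perm α) = (u.map σ).map (σ ^ i : Equiv.Perm α) := by
    intro i; rw [pow_succ, map_mul_eq]
  have hjun : ∀ i, ∀ p ∈ (seg i).getLast?, ∀ q ∈ (seg (i + 1)).head?, Adj p q := by
    intro i p hp q hq
    rw [hlast i, Option.mem_some_iff] at hp
    rw [hhead (i + 1), Option.mem_some_iff, hu'] at hq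
    rw [← hp, ← hq]
    exact hadj.map _
  refine ⟨glue seg N, ⟨?_, ?_, ?_, ?_, ?_⟩, ?_⟩
  · refine glue_chain hne (fun i => ?_) hjun N
    rw [hseg, List.isChain_map]
    exact hP.chain.imp (fun a b hab => hab.map _)
  · intro p hp q hq
    rw [glue_getLast? hne hN] at hp
    rw [glue_head? hne hN, ← hper] at hq
    have := hjun (N - 1) p hp
    rw [Nat.sub_add_cancel hN] at this
    exact this q hq
  · refine glue_nodup (fun i _ => ?_) ?_
    · rw [hseg]
      exact hP.nodup.map (List.map_injective_iff.2 (σ ^ i : Equiv.Perm α).injective)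
    · intro i hi j hj a ha hb
      obtain ⟨p, hp, rfl⟩ := List.mem_map.1 ha
      obtain ⟨q, hq, e⟩ := List.mem_map.1 hb
      have hpq : Eqv K p q := by
        refine (Eqv.map (hpow i) (hpow j)).1 ?_
        rw [e]; exact Eqv.refl K _
      obtain rfl := hP.inj_iff hp hq hpq
      have := eq_of_map_eq (hP.mem p hp) e
      exact (pow_injOn_Iio_orderOf (Set.mem_Iio.2 hj) (Set.mem_Iio.2 hi) this).symm
  · intro w
    rw [mem_glue]
    constructor
    · rintro ⟨i, hi, h⟩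
      obtain ⟨p, hp, rfl⟩ := List.mem_map.1 h
      exact (hP.mem p hp).map_univ _
    · intro hw
      obtain ⟨p, hp, k, hk, rfl⟩ := hP.cover w hw
      obtain ⟨i, hi, rfl⟩ := hKpow k hk
      exact ⟨i, hi, List.mem_map.2 ⟨p, hp, rfl⟩⟩
  · refine three_le_length hcard (fun w => ?_)
    rw [mem_glue]
    constructor
    · rintro ⟨i, hi, h⟩
      obtain ⟨p, hp, rfl⟩ := List.mem_map.1 h
      exact (hP.mem p hp).map_univ _
    · intro hw
      obtain ⟨p, hp, k, hk, rfl⟩ := hP.cover w hw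
      obtain ⟨i, hi, rfl⟩ := hKpow k hk
      exact ⟨i, hi, List.mem_map.2 ⟨p, hp, rfl⟩⟩
  · intro w w'
    rw [cycAdj_glue hne hN hper]
    constructor
    · rintro ⟨i, hi, h | h | ⟨h1, h2⟩ | ⟨h1, h2⟩⟩
      · obtain ⟨p, q, hpq, rfl, rfl⟩ := pair_infix_map.1 h
        exact ⟨σ ^ i, hpow i, p, q, Or.inl hpq, Or.inl ⟨rfl, rfl⟩⟩
      · obtain ⟨p, q, hpq, rfl, rfl⟩ := pair_infix_map.1 h
        exact ⟨σ ^ i, hpow i, p, q, Or.inl hpq, Or.inr ⟨rfl, rfl⟩⟩
      · rw [hlast, Option.some_inj] at h1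
        rw [hhead, Option.some_inj, hu'] at h2
        exact ⟨σ ^ i, hpow i, v, u.map σ, Or.inr (by simp), Or.inl ⟨h1.symm, h2.symm⟩⟩
      · rw [hlast, Option.some_inj] at h1
        rw [hhead, Option.some_inj, hu'] at h2
        exact ⟨σ ^ i, hpow i, v, u.map σ, Or.inr (by simp), Or.inr ⟨h2.symm, h1.symm⟩⟩
    · rintro ⟨k, hk, p, q, h, h'⟩
      obtain ⟨i, hi, rfl⟩ := hKpow k hk
      refine ⟨i, hi, ?_⟩
      rcases h with h | h
      · have hin : [p.map (σ ^ i : Equiv.Perm α), q.map (σ ^ i : Equiv.Perm α)] <:+: seg i :=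
          pair_infix_map.2 ⟨p, q, h, rfl, rfl⟩
        rcases h' with ⟨rfl, rfl⟩ | ⟨rfl, rfl⟩
        · exact Or.inl hin
        · exact Or.inr (Or.inl hin)
      · simp only [List.mem_singleton, Prod.mk.injEq] at h
        obtain ⟨rfl, rfl⟩ := h
        rcases h' with ⟨rfl, rfl⟩ | ⟨rfl, rfl⟩
        · exact Or.inr (Or.inr (Or.inl ⟨hlast i, by rw [hhead, hu']⟩))
        · exact Or.inr (Or.inr (Or.inr ⟨hlast i, by rw [hhead, hu']⟩))

/-- elements of a dihedral group -/
lemma dih_elems {τ₁ τ₂ : Equiv.Perm α} (h₁ : τ₁ * τ₁ = 1) (h₂ : τ₂ * τ₂ = 1) {k : Equiv.Perm α}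
    (hk : k ∈ Subgroup.closure {τ₁, τ₂}) :
    k ∈ Subgroup.zpowers (τ₂ * τ₁) ∨ k * τ₂ ∈ Subgroup.zpowers (τ₂ * τ₁) := by
  set ρ := τ₂ * τ₁ with hρ
  have i1 : τ₁⁻¹ = τ₁ := inv_eq_of_mul_eq_one_left h₁
  have i2 : τ₂⁻¹ = τ₂ := inv_eq_of_mul_eq_one_left h₂
  have hconj : ∀ r ∈ Subgroup.zpowers ρ, τ₂ * r * τ₂ ∈ Subgroup.zpowers ρ := by
    rintro r ⟨z, rfl⟩
    have e : τ₂ * ρ * τ₂⁻¹ = ρ⁻¹ := by
      rw [hρ, mul_inv_rev, i1, i2]
      simp only [← mul_assoc, h₂, one_mul]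
    have e2 : τ₂ * ρ ^ z * τ₂⁻¹ = (ρ⁻¹) ^ z := by rw [← e, conj_zpow]
    rw [i2] at e2
    show τ₂ * ρ ^ z * τ₂ ∈ _
    rw [e2, inv_zpow]
    exact Subgroup.inv_mem _ ⟨z, rfl⟩
  induction hk using Subgroup.closure_induction with
  | mem x hx =>
    rcases hx with rfl | hx
    · right
      refine ⟨-1, ?_⟩
      show ρ ^ (-1 : ℤ) = _
      rw [zpow_neg_one, hρ, mul_inv_rev, i1, i2]
    · rw [Set.mem_singleton_iff] at hx
      subst hx
      right
      rw [h₂]; exact Subgroup.one_mem _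
  | one => left; exact Subgroup.one_mem _
  | mul a b _ _ ha hb =>
    rcases ha with ha | ha <;> rcases hb with hb | hb
    · left; exact Subgroup.mul_mem _ ha hb
    · right; rw [mul_assoc]; exact Subgroup.mul_mem _ ha hb
    · right
      have : a * b * τ₂ = (a * τ₂) * (τ₂ * b * τ₂) := by
        simp only [← mul_assoc]
        rw [mul_assoc a τ₂ τ₂, h₂, mul_one]
      rw [this]
      exact Subgroup.mul_mem _ ha (hconj b hb)
    · left
      have : a * b = (a * τ₂) * (τ₂ * (b * τ₂) * τ₂) := by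
        have e1 : τ₂ * (b * τ₂) * τ₂ = τ₂ * b := by
          rw [mul_assoc, mul_assoc, h₂, mul_one]
        rw [e1, ← mul_assoc, mul_assoc a τ₂ τ₂, h₂, mul_one]
      rw [this]
      exact Subgroup.mul_mem _ ha (hconj _ hb)
  | inv a _ ha =>
    rcases ha with ha | ha
    · left; exact Subgroup.inv_mem _ ha
    · right
      have e : a⁻¹ * τ₂ = τ₂ * (a * τ₂)⁻¹ * τ₂ := by
        rw [mul_inv_rev, i2, ← mul_assoc, h₂, one_mul]
      rw [e]
      exact hconj _ (Subgroup.inv_mem _ ha)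

theorem asm_dih {K : Subgroup (Equiv.Perm α)} {τ₁ τ₂ : Equiv.Perm α}
    (hK : K = Subgroup.closure {τ₁, τ₂}) (h₁ : τ₁ * τ₁ = 1) (h₂ : τ₂ * τ₂ = 1)
    (hKc : Nat.card K = 2 * orderOf (τ₁ * τ₂))
    (hcard : 3 ≤ Fintype.card α) {P : List (List α)} (hP : TPon K (Wd Finset.univ) P)
    {u v : List α} (hu : P.head? = some u) (hv : P.getLast? = some v)
    (hadj₁ : Adj u (u.map τ₁)) (hadj₂ : Adj v (v.map τ₂)) :
    ∃ L, HamL L ∧ ∀ w w', CycAdj L w w' ↔ EK K P [(u, u.map τ₁), (v, v.map τ₂)] w w' := by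
  set ρ := τ₂ * τ₁ with hρ
  have i1 : τ₁⁻¹ = τ₁ := inv_eq_of_mul_eq_one_left h₁
  have i2 : τ₂⁻¹ = τ₂ := inv_eq_of_mul_eq_one_left h₂
  have hτ₁ : τ₁ ∈ K := by rw [hK]; exact Subgroup.subset_closure (by simp)
  have hτ₂ : τ₂ ∈ K := by rw [hK]; exact Subgroup.subset_closure (by simp)
  have hρK : Subgroup.zpowers ρ ≤ K := by
    rw [Subgroup.zpowers_le]; exact K.mul_mem hτ₂ hτ₁
  have hor : orderOf (τ₁ * τ₂) = orderOf ρ := by
    rw [← orderOf_inv ρ, hρ, mul_inv_rev, i1, i2]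
  have hnot : τ₂ ∉ Subgroup.zpowers ρ := by
    intro h
    have hle : K ≤ Subgroup.zpowers ρ := by
      rw [hK, Subgroup.closure_le]
      rintro x (rfl | hx)
      · have e : x = τ₂ * ρ := by rw [hρ, ← mul_assoc, h₂, one_mul]
        rw [e]
        exact Subgroup.mul_mem _ h (Subgroup.mem_zpowers ρ)
      · rw [Set.mem_singleton_iff] at hx; rw [hx]; exact h
    have hKe : K = Subgroup.zpowers ρ := le_antisymm hle hρK
    rw [hKe, Nat.card_zpowers, hor] at hKc
    have := orderOf_pos ρ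
    omega
  have hel : ∀ k ∈ K, k ∈ Subgroup.zpowers ρ ∨ ∃ r ∈ Subgroup.zpowers ρ, k = r * τ₂ := by
    intro k hk
    rw [hK] at hk
    rcases dih_elems h₁ h₂ hk with h | h
    · exact Or.inl h
    · exact Or.inr ⟨k * τ₂, h, by rw [mul_assoc, h₂, mul_one]⟩
  have hmm : ∀ w : List α, (w.map τ₂).map τ₂ = w := by
    intro w; rw [← map_mul_eq, h₂]; simp
  -- the doubled path
  set Q : List (List α) := P.reverse.map (List.map τ₂) with hQ
  have hQh : Q.head? = some (v.map τ₂) := by simp [hQ, hv]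
  have hQl : Q.getLast? = some (u.map τ₂) := by simp [hQ, hu]
  have hQmem : ∀ q, q ∈ Q ↔ q.map τ₂ ∈ P := by
    intro q
    rw [hQ, List.mem_map]
    constructor
    · rintro ⟨p, hp, rfl⟩
      rw [hmm]; exact List.mem_reverse.1 hp
    · intro h
      exact ⟨q.map τ₂, List.mem_reverse.2 h, hmm q⟩
  have hPQ : TPon (Subgroup.zpowers ρ) (Wd Finset.univ) (P ++ Q) := by
    have hPne : P ≠ [] := by rintro rfl; simp at hu
    have hfree : ∀ p ∈ P, ∀ q ∈ Q, ¬ Eqv (Subgroup.zpowers ρ) p q := by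
      rintro p hp q hq ⟨r, hr, rfl⟩
      rw [hQmem] at hq
      have hE : Eqv K p ((p.map r).map τ₂) := by
        rw [← map_mul_eq]
        exact ⟨τ₂ * r, K.mul_mem hτ₂ (hρK hr), rfl⟩
      have e := hP.inj_iff hp hq hE
      rw [← map_mul_eq] at e
      have e1 : (1 : Equiv.Perm α) = τ₂ * r := by
        apply eq_of_map_eq (hP.mem p hp)
        rw [← e]; simp
      apply hnot
      have : τ₂ = r⁻¹ := by
        rw [eq_comm, inv_eq_of_mul_eq_one_left e1.symm]
      rw [this]; exact Subgroup.inv_mem _ hr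
    refine ⟨?_, ?_, ?_, ?_⟩
    · rw [List.isChain_append]
      refine ⟨hP.chain, ?_, ?_⟩
      · rw [hQ, List.isChain_map, List.isChain_reverse]
        exact hP.chain.imp (fun a b hab => (hab.map τ₂).symm)
      · intro p hp q hq
        rw [hv, Option.mem_some_iff] at hp
        rw [hQh, Option.mem_some_iff] at hq
        rw [← hp, ← hq]; exact hadj₂
    · intro w hw
      rcases List.mem_append.1 hw with hw | hw
      · exact hP.mem w hw
      · rw [hQmem] at hw
        have := (hP.mem _ hw).map_univ τ₂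
        rwa [hmm] at this
    · intro w hw
      obtain ⟨p, hp, k, hk, rfl⟩ := hP.cover w hw
      rcases hel k hk with h | ⟨r, hr, rfl⟩
      · exact ⟨p, List.mem_append_left _ hp, k, h, rfl⟩
      · exact ⟨p.map τ₂, List.mem_append_right _ ((hQmem _).2 (by rw [hmm]; exact hp)), r, hr,
          map_mul_eq _ _ _⟩
    · rw [List.pairwise_append]
      refine ⟨?_, ?_, hfree⟩
      · refine hP.inj.imp (fun {a b} hab e => hab ?_)
        obtain ⟨k, hk, rfl⟩ := e
        exact ⟨k, hρK hk, rfl⟩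
      · rw [hQ, List.pairwise_map, List.pairwise_reverse]
        refine hP.inj.imp (fun {a b} hab e => hab ?_)
        obtain ⟨k, hk, e⟩ := e
        refine Eqv.symm ((Eqv.map (K := K) hτ₂ hτ₂).1 ⟨k, hρK hk, e⟩)
  have hPne : P ≠ [] := by rintro rfl; simp at hu
  have hQne : Q ≠ [] := by simp [hQ, hPne]
  have hhead : (P ++ Q).head? = some u := by rw [List.head?_append_of_ne_nil _ hPne, hu]
  have hlast : (P ++ Q).getLast? = some (u.map τ₂) := by
    rw [List.getLast?_append_of_ne_nil _ hQne, hQl]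
  have hadj : Adj (u.map τ₂) (u.map ρ) := by
    rw [hρ, map_mul_eq]; exact hadj₁.map τ₂
  obtain ⟨L, hL, hE⟩ := asm_cyc (σ := ρ) rfl hcard hPQ hhead hlast hadj
  refine ⟨L, hL, fun w w' => ?_⟩
  rw [hE]
  constructor
  · rintro ⟨k, hk, p, q, h, h'⟩
    have hkK := hρK hk
    rcases h with h | h
    · rcases pair_infix_append.1 h with h | h | ⟨h1, h2⟩
      · exact ⟨k, hkK, p, q, Or.inl h, h'⟩
      · obtain ⟨a, b, hab, rfl, rfl⟩ := pair_infix_map.1 h
        rw [pair_infix_reverse] at hab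
        refine ⟨k * τ₂, K.mul_mem hkK hτ₂, b, a, Or.inl hab, ?_⟩
        rw [map_mul_eq, map_mul_eq]
        exact h'.symm
      · rw [hv, Option.some_inj] at h1
        rw [hQh, Option.some_inj] at h2
        subst h1 h2
        exact ⟨k, hkK, v, v.map τ₂, Or.inr (by simp), h'⟩
    · simp only [List.mem_singleton, Prod.mk.injEq] at h
      obtain ⟨rfl, rfl⟩ := h
      refine ⟨k * τ₂, K.mul_mem hkK hτ₂, u, u.map τ₁, Or.inr (by simp), ?_⟩
      rw [map_mul_eq, map_mul_eq, ← map_mul_eq u τ₂ τ₁]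
      exact h'
  · rintro ⟨k, hk, p, q, h, h'⟩
    rcases hel k hk with hk' | ⟨r, hr, rfl⟩
    · rcases h with h | h
      · exact ⟨k, hk', p, q, Or.inl (pair_infix_append.2 (Or.inl h)), h'⟩
      · simp only [List.mem_cons, Prod.mk.injEq, List.not_mem_nil, or_false] at h
        rcases h with ⟨rfl, rfl⟩ | ⟨rfl, rfl⟩
        · -- k (u, τ₁ u) = (k ρ⁻¹) (ρ u, τ₂ u)
          refine ⟨k * ρ⁻¹, Subgroup.mul_mem _ hk' (Subgroup.inv_mem _ (Subgroup.mem_zpowers ρ)),
            p.map τ₂, p.map ρ, Or.inr (by simp), ?_⟩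
          have e1 : (p.map τ₂).map (k * ρ⁻¹ : Equiv.Perm α) = (p.map τ₁).map k := by
            rw [← map_mul_eq, ← map_mul_eq]
            congr 1
            rw [hρ, mul_inv_rev, i1, i2, mul_assoc, mul_assoc, h₂, mul_one]
          have e2 : (p.map ρ).map (k * ρ⁻¹ : Equiv.Perm α) = p.map k := by
            rw [← map_mul_eq]
            congr 1
            rw [mul_assoc, inv_mul_cancel, mul_one]
          rw [e1, e2]
          exact h'.symm
        · refine ⟨k, hk', p, p.map τ₂, Or.inl (pair_infix_append.2 (Or.inr (Or.inr ⟨hv, hQh⟩))), h'⟩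
    · rw [map_mul_eq, map_mul_eq] at h'
      rcases h with h | h
      · refine ⟨r, hr, q.map τ₂, p.map τ₂, Or.inl (pair_infix_append.2 (Or.inr (Or.inl ?_))), h'.symm⟩
        exact pair_infix_map.2 ⟨q, p, pair_infix_reverse.2 h, rfl, rfl⟩
      · simp only [List.mem_cons, Prod.mk.injEq, List.not_mem_nil, or_false] at h
        rcases h with ⟨rfl, rfl⟩ | ⟨rfl, rfl⟩
        · refine ⟨r, hr, p.map τ₂, p.map ρ, Or.inr (by simp), ?_⟩
          rw [← map_mul_eq p τ₂ τ₁] at h'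
          exact h'
        · refine ⟨r, hr, p, p.map τ₂, Or.inl (pair_infix_append.2 (Or.inr (Or.inr ⟨hv, hQh⟩))), ?_⟩
          rw [hmm] at h'
          exact h'.symm

/-- the number of symmetries, once they are known to lie in `K` -/
theorem size_of_exact {K : Subgroup (Equiv.Perm α)} {P : List (List α)}
    {cl : List (List α × List α)} {L : List (List α)} (hL : HamL L)
    (hE : ∀ w w', CycAdj L w w' ↔ EK K P cl w w')
    (hex : ∀ g : Equiv.Perm α,
      (∀ w w', EK K P cl w w' → EK K P cl (w.map g) (w'.map g)) → g ∈ K) :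
    SizeAt α (Nat.card K) := by
  refine ⟨L, hL, ?_⟩
  have key : ∀ g : Equiv.Perm α,
      (∀ w w', CycAdj L w w' → CycAdj L (w.map g) (w'.map g)) ↔ g ∈ K := by
    intro g
    simp only [hE]
    refine ⟨hex g, ?_⟩
    rintro hg w w' ⟨k, hk, p, q, h, h'⟩
    refine ⟨g * k, K.mul_mem hg hk, p, q, h, ?_⟩
    rw [map_mul_eq, map_mul_eq]
    rcases h' with ⟨rfl, rfl⟩ | ⟨rfl, rfl⟩
    · exact Or.inl ⟨rfl, rfl⟩
    · exact Or.inr ⟨rfl, rfl⟩
  exact Nat.card_congr (Equiv.subtypeEquivRight key)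

end Pan
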