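import Pool.Agent.Hhelper18.Pan.Graph

/-! # MODULE AU : automorphisms of the pancake graph (Deng and Zhang) -/

namespace Pan

namespace AU

/-- the prefix reversal on positions, as a function on natural numbers -/
def f (k i : ℕ) : ℕ := if i < k then k - 1 - i else i

lemma f_lt {k i : ℕ} (h : i < k) : f k i = k - 1 - i := if_pos h

lemma f_ge {k i : ℕ} (h : k ≤ i) : f k i = i := if_neg (by omega)

lemma val_prefixRev {n k : ℕ} (hk : k ≤ n) (i : Fin n) :
    ((prefixRev n k i : Fin n) : ℕ) = f k i := prefixRev_apply hk i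

lemma prefixRev_mul_self {n k : ℕ} (hk : k ≤ n) : prefixRev n k * prefixRev n k = 1 := by
  ext i
  simp only [Equiv.Perm.coe_mul, Function.comp_apply, val_prefixRev hk, Equiv.Perm.coe_one, id_eq]
  unfold f
  split_ifs <;> omega

lemma prefixRev_inj {n k l : ℕ} (hk : k ≤ n) (hl : l ≤ n) (h2 : 2 ≤ k) (h2' : 2 ≤ l)
    (h : prefixRev n k = prefixRev n l) : k = l := by
  have h1 := val_prefixRev hk ⟨0, by omega⟩
  have h3 := val_prefixRev hl ⟨0, by omega⟩
  rw [h, h3] at h1
  simp only [f] at h1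
  split_ifs at h1 <;> omega

/-- a closed walk of length six, starting with the largest label -/
lemma key {n a0 a1 a2 a3 a4 a5 : ℕ} (h0 : a0 ≤ n) (b1 : 2 ≤ a1) (b2 : 2 ≤ a2)
    (b3 : 2 ≤ a3) (b4 : 2 ≤ a4) (b5 : 2 ≤ a5) (h1 : a1 ≤ a0) (h2 : a2 ≤ a0) (h3 : a3 ≤ a0)
    (h4 : a4 ≤ a0) (h5 : a5 ≤ a0) (d01 : a0 ≠ a1) (d12 : a1 ≠ a2) (d23 : a2 ≠ a3) (d34 : a3 ≠ a4)
    (d45 : a4 ≠ a5) (d50 : a5 ≠ a0)
    (H : ∀ i < n, f a0 (f a1 (f a2 (f a3 (f a4 (f a5 i))))) = i) : a0 ≤ 3 := by
  by_contra hm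
  have e5 : f a5 (a0 - 1) = a0 - 1 := f_ge (by omega)
  have e1 : f a1 (a0 - 1) = a0 - 1 := f_ge (by omega)
  have em : f a0 (a0 - 1) = 0 := by rw [f_lt (by omega)]; omega
  have em0 : f a0 0 = a0 - 1 := by rw [f_lt (by omega)]; omega
  by_cases c3 : a3 = a0
  · -- two labels `a0` at distance three
    have e4 : f a4 (a0 - 1) = a0 - 1 := f_ge (by omega)
    have := H (a0 - 1) (by omega)
    rw [e5, e4, c3, em, f_lt (by omega : 0 < a2)] at this
    unfold f at this
    split_ifs at this <;> omega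
  have e3 : f a3 (a0 - 1) = a0 - 1 := f_ge (by omega)
  by_cases c2 : a2 = a0
  · by_cases c4 : a4 = a0
    · -- three labels `a0`
      rw [c2, c4] at H
      have s1 : a1 + a3 = a0 + 1 := by
        have := H (a0 - 1) (by omega)
        rw [e5, em, f_lt (by omega : 0 < a3)] at this
        unfold f at this
        split_ifs at this <;> omega
      have s2 : a1 = a0 - 1 := by
        by_cases c5 : a5 = a0 - 1
        · have := H 0 (by omega)
          rw [f_lt (by omega : 0 < a5)] at this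
          unfold f at this
          split_ifs at this <;> omega
        · have := H (a0 - 2) (by omega)
          rw [f_ge (by omega : a5 ≤ a0 - 2)] at this
          unfold f at this
          split_ifs at this <;> omega
      have s3 : a5 = a0 - 1 := by
        by_contra c5
        have := H (a0 - 2) (by omega)
        rw [f_ge (by omega : a5 ≤ a0 - 2)] at this
        unfold f at this
        split_ifs at this <;> omega
      have := H 1 (by omega)
      rw [f_lt (by omega : 1 < a5)] at this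
      unfold f at this
      split_ifs at this <;> omega
    · have e4 : f a4 (a0 - 1) = a0 - 1 := f_ge (by omega)
      have := H (a0 - 1) (by omega)
      rw [e5, e4, e3, c2, em, f_lt (by omega : 0 < a1)] at this
      unfold f at this
      split_ifs at this <;> omega
  · have e2 : f a2 (a0 - 1) = a0 - 1 := f_ge (by omega)
    by_cases c4 : a4 = a0
    · have := H (a5 - 1) (by omega)
      rw [f_lt (by omega : a5 - 1 < a5), Nat.sub_self, c4, em0, e3, e2, e1, em] at this
      omega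
    · have e4 : f a4 (a0 - 1) = a0 - 1 := f_ge (by omega)
      have := H (a0 - 1) (by omega)
      rw [e5, e4, e3, e2, e1, em] at this
      omega

/-- products of six prefix reversals -/
lemma hex {n a0 a1 a2 a3 a4 a5 : ℕ} (b0 : 2 ≤ a0) (b1 : 2 ≤ a1) (b2 : 2 ≤ a2)
    (b3 : 2 ≤ a3) (b4 : 2 ≤ a4) (b5 : 2 ≤ a5) (h0 : a0 ≤ n) (h1 : a1 ≤ n) (h2 : a2 ≤ n)
    (h3 : a3 ≤ n) (h4 : a4 ≤ n) (h5 : a5 ≤ n) (d01 : a0 ≠ a1) (d12 : a1 ≠ a2) (d23 : a2 ≠ a3)
    (d34 : a3 ≠ a4) (d45 : a4 ≠ a5) (d50 : a5 ≠ a0)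
    (H : prefixRev n a0 * prefixRev n a1 * prefixRev n a2 * prefixRev n a3 * prefixRev n a4 *
      prefixRev n a5 = 1) : a0 ≤ 3 := by
  -- product equal to one gives the equations on positions
  have toH : ∀ c0 c1 c2 c3 c4 c5 : ℕ, c0 ≤ n → c1 ≤ n → c2 ≤ n → c3 ≤ n → c4 ≤ n → c5 ≤ n →
      prefixRev n c0 * prefixRev n c1 * prefixRev n c2 * prefixRev n c3 * prefixRev n c4 *
        prefixRev n c5 = 1 → ∀ i < n, f c0 (f c1 (f c2 (f c3 (f c4 (f c5 i))))) = i := by
    intro c0 c1 c2 c3 c4 c5 g0 g1 g2 g3 g4 g5 h i hi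
    have := congrArg (fun p : Equiv.Perm (Fin n) => ((p ⟨i, hi⟩ : Fin n) : ℕ)) h
    simpa [val_prefixRev g0, val_prefixRev g1, val_prefixRev g2, val_prefixRev g3,
      val_prefixRev g4, val_prefixRev g5] using this
  have rot : ∀ A B : Equiv.Perm (Fin n), A * B = 1 → B * A = 1 := fun A B h => by
    rw [mul_eq_one_iff_eq_inv] at h
    rw [h]; simp
  set R := prefixRev n with hR
  have H1 : R a1 * R a2 * R a3 * R a4 * R a5 * R a0 = 1 := rot _ _ (by simpa only [mul_assoc] using H)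
  have H2 : R a2 * R a3 * R a4 * R a5 * R a0 * R a1 = 1 :=
    rot _ _ (by simpa only [mul_assoc] using H1)
  have H3 : R a3 * R a4 * R a5 * R a0 * R a1 * R a2 = 1 :=
    rot _ _ (by simpa only [mul_assoc] using H2)
  have H4 : R a4 * R a5 * R a0 * R a1 * R a2 * R a3 = 1 :=
    rot _ _ (by simpa only [mul_assoc] using H3)
  have H5 : R a5 * R a0 * R a1 * R a2 * R a3 * R a4 = 1 :=
    rot _ _ (by simpa only [mul_assoc] using H4)
  by_contra hc
  rcases (by omega : (a1 ≤ a0 ∧ a2 ≤ a0 ∧ a3 ≤ a0 ∧ a4 ≤ a0 ∧ a5 ≤ a0) ∨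
    (a0 ≤ a1 ∧ a2 ≤ a1 ∧ a3 ≤ a1 ∧ a4 ≤ a1 ∧ a5 ≤ a1) ∨
    (a0 ≤ a2 ∧ a1 ≤ a2 ∧ a3 ≤ a2 ∧ a4 ≤ a2 ∧ a5 ≤ a2) ∨
    (a0 ≤ a3 ∧ a1 ≤ a3 ∧ a2 ≤ a3 ∧ a4 ≤ a3 ∧ a5 ≤ a3) ∨
    (a0 ≤ a4 ∧ a1 ≤ a4 ∧ a2 ≤ a4 ∧ a3 ≤ a4 ∧ a5 ≤ a4) ∨
    (a0 ≤ a5 ∧ a1 ≤ a5 ∧ a2 ≤ a5 ∧ a3 ≤ a5 ∧ a4 ≤ a5)) with
    ⟨g1, g2, g3, g4, g5⟩ | ⟨g1, g2, g3, g4, g5⟩ | ⟨g1, g2, g3, g4, g5⟩ | ⟨g1, g2, g3, g4, g5⟩ |
    ⟨g1, g2, g3, g4, g5⟩ | ⟨g1, g2, g3, g4, g5⟩
  · have := key h0 b1 b2 b3 b4 b5 g1 g2 g3 g4 g5 d01 d12 d23 d34 d45 d50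
      (toH _ _ _ _ _ _ h0 h1 h2 h3 h4 h5 H)
    omega
  · have := key h1 b2 b3 b4 b5 b0 g2 g3 g4 g5 g1 d12 d23 d34 d45 d50 d01
      (toH _ _ _ _ _ _ h1 h2 h3 h4 h5 h0 H1)
    omega
  · have := key h2 b3 b4 b5 b0 b1 g3 g4 g5 g1 g2 d23 d34 d45 d50 d01 d12
      (toH _ _ _ _ _ _ h2 h3 h4 h5 h0 h1 H2)
    omega
  · have := key h3 b4 b5 b0 b1 b2 g4 g5 g1 g2 g3 d34 d45 d50 d01 d12 d23
      (toH _ _ _ _ _ _ h3 h4 h5 h0 h1 h2 H3)
    omega
  · have := key h4 b5 b0 b1 b2 b3 g5 g1 g2 g3 g4 d45 d50 d01 d12 d23 d34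
      (toH _ _ _ _ _ _ h4 h5 h0 h1 h2 h3 H4)
    omega
  · have := key h5 b0 b1 b2 b3 b4 g1 g2 g3 g4 g5 d50 d01 d12 d23 d34 d45
      (toH _ _ _ _ _ _ h5 h0 h1 h2 h3 h4 H5)
    omega

end AU

namespace AU

/-- an automorphism maps edges to edges -/
lemma label {n : ℕ} (φ : pancake n ≃g pancake n) (g : Equiv.Perm (Fin n)) {k : ℕ} (h2 : 2 ≤ k)
    (hk : k ≤ n) : ∃ k', 2 ≤ k' ∧ k' ≤ n ∧ φ (g * prefixRev n k) = φ g * prefixRev n k' := by
  have h1 : (pancake n).Adj g (g * prefixRev n k) := by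
    rw [pancake_adj]
    exact ⟨k, h2, by simpa using hk, word_rv hk g⟩
  have h3 := φ.map_rel_iff.2 h1
  rw [pancake_adj] at h3
  obtain ⟨k', h2', hk', e⟩ := h3
  rw [word_length] at hk'
  rw [← word_rv hk'] at e
  exact ⟨k', h2', hk', word_injective e⟩

lemma hexrel {n : ℕ} (hn : 3 ≤ n) : prefixRev n 2 * prefixRev n 3 * prefixRev n 2 * prefixRev n 3 *
    prefixRev n 2 * prefixRev n 3 = 1 := by
  ext i
  simp only [Equiv.Perm.coe_mul, Function.comp_apply, val_prefixRev (by omega : 2 ≤ n),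
    val_prefixRev hn, Equiv.Perm.coe_one, id_eq]
  unfold f
  split_ifs <;> omega

lemma hexrel' {n : ℕ} (hn : 3 ≤ n) : prefixRev n 3 * prefixRev n 2 * prefixRev n 3 * prefixRev n 2 *
    prefixRev n 3 * prefixRev n 2 = 1 := by
  ext i
  simp only [Equiv.Perm.coe_mul, Function.comp_apply, val_prefixRev (by omega : 2 ≤ n),
    val_prefixRev hn, Equiv.Perm.coe_one, id_eq]
  unfold f
  split_ifs <;> omega

/-- consecutive labels of the image of a path without backtracking are different -/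
lemma nonback {n : ℕ} (φ : pancake n ≃g pancake n) {g : Equiv.Perm (Fin n)} {k l k' l' : ℕ}
    (h2k : 2 ≤ k) (h2l : 2 ≤ l) (hk : k ≤ n) (hl : l ≤ n) (hk' : k' ≤ n) (hkl : k ≠ l)
    (e1 : φ (g * prefixRev n k) = φ g * prefixRev n k')
    (e2 : φ (g * prefixRev n k * prefixRev n l) = φ (g * prefixRev n k) * prefixRev n l') :
    k' ≠ l' := by
  rintro rfl
  rw [e1, mul_assoc (φ g), prefixRev_mul_self hk', mul_one] at e2
  have e3 := φ.injective e2
  rw [mul_assoc] at e3
  have e4 : prefixRev n k * prefixRev n l = 1 := mul_eq_left.1 e3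
  have e5 : prefixRev n k = prefixRev n l := by
    have := congrArg (· * prefixRev n l) e4
    simp only [mul_assoc, prefixRev_mul_self hl, mul_one, one_mul] at this
    exact this
  exact hkl (prefixRev_inj hk hl h2k h2l e5)

/-- the labels `2, 3` are mapped to `2, 3` -/
lemma P3 {n : ℕ} (hn : 3 ≤ n) (φ : pancake n ≃g pancake n) (g : Equiv.Perm (Fin n)) (k k' : ℕ)
    (hk : k = 2 ∨ k = 3) (h2 : 2 ≤ k') (hk' : k' ≤ n)
    (e : φ (g * prefixRev n k) = φ g * prefixRev n k') : k' = 2 ∨ k' = 3 := by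
  obtain ⟨l, hl, hkl, hrel⟩ : ∃ l, (l = 2 ∨ l = 3) ∧ k ≠ l ∧
      prefixRev n k * prefixRev n l * prefixRev n k * prefixRev n l * prefixRev n k *
        prefixRev n l = 1 := by
    rcases hk with rfl | rfl
    · exact ⟨3, Or.inr rfl, by omega, hexrel hn⟩
    · exact ⟨2, Or.inl rfl, by omega, hexrel' hn⟩
  have hkn : k ≤ n := by omega
  have hln : l ≤ n := by omega
  have h2k : 2 ≤ k := by omega
  have h2l : 2 ≤ l := by omega
  obtain ⟨a1, c1, d1, e1⟩ := label φ (g * prefixRev n k) h2l hln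
  obtain ⟨a2, c2, d2, e2⟩ := label φ (g * prefixRev n k * prefixRev n l) h2k hkn
  obtain ⟨a3, c3, d3, e3⟩ := label φ (g * prefixRev n k * prefixRev n l * prefixRev n k) h2l hln
  obtain ⟨a4, c4, d4, e4⟩ := label φ (g * prefixRev n k * prefixRev n l * prefixRev n k * prefixRev n l) h2k hkn
  obtain ⟨a5, c5, d5, e5⟩ := label φ (g * prefixRev n k * prefixRev n l * prefixRev n k * prefixRev n l * prefixRev n k) h2l hln
  have hclose : g * prefixRev n k * prefixRev n l * prefixRev n k * prefixRev n l * prefixRev n k * prefixRev n l = g := by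
    have : g * (prefixRev n k * prefixRev n l * prefixRev n k * prefixRev n l * prefixRev n k * prefixRev n l) = g := by rw [hrel, mul_one]
    simpa only [mul_assoc] using this
  have hprod : prefixRev n k' * prefixRev n a1 * prefixRev n a2 * prefixRev n a3 * prefixRev n a4 * prefixRev n a5 = 1 := by
    have h1 : φ (g * prefixRev n k * prefixRev n l * prefixRev n k * prefixRev n l * prefixRev n k * prefixRev n l)
        = φ g * (prefixRev n k' * prefixRev n a1 * prefixRev n a2 * prefixRev n a3 * prefixRev n a4 * prefixRev n a5) := by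
      rw [e5, e4, e3, e2, e1, e]
      simp only [mul_assoc]
    rw [hclose] at h1
    exact (mul_eq_left.1 h1.symm)
  have n0 := nonback φ h2k h2l hkn hln hk' hkl e e1
  have n1 := nonback φ h2l h2k hln hkn d1 hkl.symm e1 e2
  have n2 := nonback φ h2k h2l hkn hln d2 hkl e2 e3
  have n3 := nonback φ h2l h2k hln hkn d3 hkl.symm e3 e4
  have n4 := nonback φ h2k h2l hkn hln d4 hkl e4 e5
  have e6 : φ (g * prefixRev n k * prefixRev n l * prefixRev n k * prefixRev n l * prefixRev n k * prefixRev n l * prefixRev n k)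
      = φ (g * prefixRev n k * prefixRev n l * prefixRev n k * prefixRev n l * prefixRev n k * prefixRev n l) * prefixRev n k' := by
    rw [hclose]; exact e
  have n5 := nonback φ h2l h2k hln hkn d5 hkl.symm e5 e6
  have := hex h2 c1 c2 c3 c4 c5 hk' d1 d2 d3 d4 d5 n0 n1 n2 n3 n4 n5 hprod
  omega

/-- the antipode in the hexagon -/
lemma antipode {n : ℕ} (hn : 3 ≤ n) (φ : pancake n ≃g pancake n) (g : Equiv.Perm (Fin n)) :
    φ (g * (prefixRev n 3 * prefixRev n 2 * prefixRev n 3))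
      = φ g * (prefixRev n 3 * prefixRev n 2 * prefixRev n 3) := by
  obtain ⟨a0, c0, d0, e0⟩ := label φ g (by omega : 2 ≤ 3) hn
  obtain ⟨a1, c1, d1, e1⟩ := label φ (g * prefixRev n 3) (by omega : 2 ≤ 2) (by omega)
  obtain ⟨a2, c2, d2, e2⟩ := label φ (g * prefixRev n 3 * prefixRev n 2) (by omega : 2 ≤ 3) hn
  have n0 := nonback φ (by omega) (by omega) hn (by omega) d0 (by omega) e0 e1
  have n1 := nonback φ (by omega) (by omega) (by omega) hn d1 (by omega) e1 e2
  have p0 := P3 hn φ _ _ _ (Or.inr rfl) c0 d0 e0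
  have p1 := P3 hn φ _ _ _ (Or.inl rfl) c1 d1 e1
  have p2 := P3 hn φ _ _ _ (Or.inr rfl) c2 d2 e2
  have h1 : φ (g * prefixRev n 3 * prefixRev n 2 * prefixRev n 3) = φ g * (prefixRev n a0 * prefixRev n a1 * prefixRev n a2) := by
    rw [e2, e1, e0]; simp only [mul_assoc]
  have h2 : g * prefixRev n 3 * prefixRev n 2 * prefixRev n 3 = g * (prefixRev n 3 * prefixRev n 2 * prefixRev n 3) := by simp only [mul_assoc]
  rw [h2] at h1
  rw [h1]
  congr 1
  rcases p0 with rfl | rfl <;> rcases p1 with rfl | rfl <;> rcases p2 with rfl | rfl <;>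
    first
      | omega
      | rfl
      | skip
  · -- 2 3 2 = 3 2 3
    ext i
    simp only [Equiv.Perm.coe_mul, Function.comp_apply, val_prefixRev (by omega : 2 ≤ n),
      val_prefixRev hn]
    unfold f
    split_ifs <;> omega

/-- `φ` maps labels at most `j` to labels at most `j` -/
def PP (n j : ℕ) : Prop := ∀ (φ : pancake n ≃g pancake n) (g : Equiv.Perm (Fin n)) (k k' : ℕ),
  2 ≤ k → k ≤ j → 2 ≤ k' → k' ≤ n → φ (g * prefixRev n k) = φ g * prefixRev n k' → k' ≤ j

/-- `φ` preserves the label `k` -/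
def QQ (n k : ℕ) : Prop := ∀ (φ : pancake n ≃g pancake n) (g : Equiv.Perm (Fin n)),
  φ (g * prefixRev n k) = φ g * prefixRev n k

/-- larger labels are mapped to larger labels -/
lemma big {n j : ℕ} (hj : j ≤ n) (hP : PP n j) (φ : pancake n ≃g pancake n)
    (g : Equiv.Perm (Fin n)) (k k' : ℕ) (h2 : 2 ≤ k) (hk : k ≤ n) (hjk : j < k) (h2' : 2 ≤ k')
    (hk' : k' ≤ n) (e : φ (g * prefixRev n k) = φ g * prefixRev n k') : j < k' := by
  by_contra hcon
  push Not at hcon
  have h1 : φ.symm (φ g * prefixRev n k') = φ.symm (φ g) * prefixRev n k := by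
    rw [← e]; simp
  have := hP φ.symm (φ g) k' k h2' hcon h2 hk h1
  omega

/-- the octagon relation -/
lemma octrel {n j : ℕ} (hj : 3 ≤ j) (hjn : j + 1 ≤ n) :
    prefixRev n 3 * prefixRev n 2 * prefixRev n 3 * prefixRev n (j + 1)
      = prefixRev n (j + 1) * prefixRev n j * prefixRev n 2 * prefixRev n j := by
  ext i
  simp only [Equiv.Perm.coe_mul, Function.comp_apply, val_prefixRev (by omega : 2 ≤ n),
    val_prefixRev (by omega : 3 ≤ n), val_prefixRev hjn, val_prefixRev (by omega : j ≤ n)]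
  have hi := i.2
  generalize (i : ℕ) = i at hi
  -- small cases by the position
  have e3 : ∀ x, f 3 (f 2 (f 3 x)) = if x = 1 then 2 else if x = 2 then 1 else x := by
    intro x
    unfold f
    split_ifs <;> omega
  have e4 : ∀ x, f j (f 2 (f j x))
      = if x = j - 1 then j - 2 else if x = j - 2 then j - 1 else x := by
    intro x
    have h2 : ∀ y, f 2 y = if y = 0 then 1 else if y = 1 then 0 else y := by
      intro y
      unfold f
      split_ifs <;> omega
    rw [h2]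
    unfold f
    split_ifs <;> omega
  rw [e3, e4]
  unfold f
  split_ifs <;> omega

lemma step {n j : ℕ} (hj : 3 ≤ j) (hjn : j + 1 ≤ n) (hP : PP n j) : QQ n (j + 1) := by
  intro φ g
  obtain ⟨k1, c1, d1, e1⟩ := label φ
    (g * (prefixRev n 3 * prefixRev n 2 * prefixRev n 3)) (by omega : 2 ≤ j + 1) hjn
  obtain ⟨k2, c2, d2, e2⟩ := label φ g (by omega : 2 ≤ j + 1) hjn
  have hk1 := big (by omega) hP φ _ _ _ (by omega) hjn (by omega) c1 d1 e1
  have hk2 := big (by omega) hP φ _ _ _ (by omega) hjn (by omega) c2 d2 e2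
  obtain ⟨b1, f1, g1, h1⟩ := label φ (g * prefixRev n (j + 1)) (by omega : 2 ≤ j) (by omega)
  obtain ⟨b2, f2, g2, h2⟩ := label φ (g * prefixRev n (j + 1) * prefixRev n j)
    (by omega : 2 ≤ 2) (by omega)
  obtain ⟨b3, f3, g3, h3⟩ := label φ (g * prefixRev n (j + 1) * prefixRev n j * prefixRev n 2)
    (by omega : 2 ≤ j) (by omega)
  have hb1 := hP φ _ _ _ (by omega) (by omega) f1 g1 h1
  have hb2 := hP φ _ _ _ (by omega) (by omega) f2 g2 h2
  have hb3 := hP φ _ _ _ (by omega) (by omega) f3 g3 h3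
  have hrel : g * (prefixRev n 3 * prefixRev n 2 * prefixRev n 3) * prefixRev n (j + 1)
      = g * prefixRev n (j + 1) * prefixRev n j * prefixRev n 2 * prefixRev n j := by
    have := congrArg (g * ·) (octrel hj hjn)
    simpa only [mul_assoc] using this
  rw [hrel, h3, h2, h1, e2, antipode (by omega)] at e1
  have e : prefixRev n k2 * prefixRev n b1 * prefixRev n b2 * prefixRev n b3
      = prefixRev n 3 * prefixRev n 2 * prefixRev n 3 * prefixRev n k1 := by
    have h4 : φ g * (prefixRev n k2 * prefixRev n b1 * prefixRev n b2 * prefixRev n b3)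
        = φ g * (prefixRev n 3 * prefixRev n 2 * prefixRev n 3 * prefixRev n k1) := by
      simpa only [mul_assoc] using e1
    exact mul_left_cancel h4
  have H : ∀ i, j ≤ i → i < n → f k2 i = f 3 (f 2 (f 3 (f k1 i))) := by
    intro i hi hin
    have := congrArg (fun p : Equiv.Perm (Fin n) => ((p ⟨i, hin⟩ : Fin n) : ℕ)) e
    simp only [Equiv.Perm.coe_mul, Function.comp_apply, val_prefixRev (by omega : 2 ≤ n),
      val_prefixRev (by omega : 3 ≤ n), val_prefixRev d1, val_prefixRev d2, val_prefixRev g1,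
      val_prefixRev g2, val_prefixRev g3] at this
    rwa [f_ge (by omega : b3 ≤ i), f_ge (by omega : b2 ≤ i), f_ge (by omega : b1 ≤ i)] at this
  have hk : k1 = k2 := by
    by_contra hne
    rcases Nat.lt_or_gt_of_ne hne with h | h
    · have := H (k2 - 1) (by omega) (by omega)
      rw [f_lt (by omega : k2 - 1 < k2), f_ge (by omega : k1 ≤ k2 - 1),
        f_ge (by omega : 3 ≤ k2 - 1), f_ge (by omega : 2 ≤ k2 - 1),
        f_ge (by omega : 3 ≤ k2 - 1)] at this
      omega
    · have := H (k1 - 1) (by omega) (by omega)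
      rw [f_ge (by omega : k2 ≤ k1 - 1), f_lt (by omega : k1 - 1 < k1), Nat.sub_self] at this
      norm_num [f] at this
      omega
  subst hk
  have : k1 = j + 1 := by
    by_contra hne
    have := H (k1 - 2) (by omega) (by omega)
    rw [f_lt (by omega : k1 - 2 < k1), (by omega : k1 - 1 - (k1 - 2) = 1)] at this
    norm_num [f] at this
  subst this
  exact e2

lemma step' {n j : ℕ} (hj : 3 ≤ j) (hjn : j + 1 ≤ n) (hP : PP n j) : PP n (j + 1) := by
  intro φ g k k' h2 hk h2' hk' e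
  rcases Nat.lt_or_ge k (j + 1) with h | h
  · have := hP φ g k k' h2 (by omega) h2' hk' e
    omega
  · obtain rfl : k = j + 1 := by omega
    rw [step hj hjn hP φ g] at e
    have := prefixRev_inj hjn hk' (by omega) h2' (mul_left_cancel e)
    omega

lemma all {n : ℕ} (hn : 3 ≤ n) (j : ℕ) (hj : 3 ≤ j) (hjn : j ≤ n) : PP n j := by
  induction j with
  | zero => omega
  | succ j ih =>
    rcases Nat.lt_or_ge j 3 with h | h
    · obtain rfl : j = 2 := by omega
      intro φ g k k' h2 hk h2' hk' e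
      have := P3 hn φ g k k' (by omega) h2' hk' e
      omega
    · exact step' h hjn (ih h (by omega))

lemma big_labels {n : ℕ} (k : ℕ) (hk : 4 ≤ k) (hkn : k ≤ n) : QQ n k := by
  obtain ⟨j, rfl⟩ : ∃ j, k = j + 1 := ⟨k - 1, by omega⟩
  exact step (by omega) hkn (all (by omega) j (by omega) (by omega))

/-- the relation which separates the labels `2` and `3` -/
lemma rel7 {n a b : ℕ} (hn : 5 ≤ n) (ha : a = 2 ∨ a = 3) (hb : b = 2 ∨ b = 3)
    (h : prefixRev n 5 * prefixRev n 4 * prefixRev n 5 * prefixRev n 4 * prefixRev n a *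
      prefixRev n 5 * prefixRev n b = 1) : b = 2 := by
  have toH : ∀ i (hi : i < n), f 5 (f 4 (f 5 (f 4 (f a (f 5 (f b i)))))) = i := by
    intro i hi
    have := congrArg (fun p : Equiv.Perm (Fin n) => ((p ⟨i, hi⟩ : Fin n) : ℕ)) h
    simpa [val_prefixRev (by omega : 5 ≤ n), val_prefixRev (by omega : 4 ≤ n),
      val_prefixRev (by omega : a ≤ n), val_prefixRev (by omega : b ≤ n)] using this
  have t0 := toH 0 (by omega)
  rcases ha with rfl | rfl <;> rcases hb with rfl | rfl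
  · rfl
  · revert t0; decide
  · rfl
  · revert t0; decide

lemma rel7' {n : ℕ} (hn : 5 ≤ n) : prefixRev n 5 * prefixRev n 4 * prefixRev n 5 *
    prefixRev n 4 * prefixRev n 3 * prefixRev n 5 * prefixRev n 2 = 1 := by
  ext i
  simp only [Equiv.Perm.coe_mul, Function.comp_apply, val_prefixRev (by omega : 2 ≤ n),
    val_prefixRev (by omega : 3 ≤ n), val_prefixRev (by omega : 4 ≤ n), val_prefixRev hn,
    Equiv.Perm.coe_one, id_eq]
  generalize (i : ℕ) = i
  rcases Nat.lt_or_ge i 5 with h | h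
  · interval_cases i <;> decide
  · rw [f_ge (by omega : 2 ≤ i), f_ge h, f_ge (by omega : 3 ≤ i), f_ge (by omega : 4 ≤ i), f_ge h,
      f_ge (by omega : 4 ≤ i), f_ge h]

lemma Q2 {n : ℕ} (hn : 5 ≤ n) : QQ n 2 := by
  intro φ g0
  obtain ⟨g, rfl⟩ : ∃ g, g0 = g * prefixRev n 5 * prefixRev n 4 * prefixRev n 5 *
      prefixRev n 4 * prefixRev n 3 * prefixRev n 5 :=
    ⟨g0 * prefixRev n 5 * prefixRev n 3 * prefixRev n 4 * prefixRev n 5 * prefixRev n 4 *
      prefixRev n 5, by
      have e5 := prefixRev_mul_self (n := n) (k := 5) hn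
      have e4 := prefixRev_mul_self (n := n) (k := 4) (by omega)
      have e3 := prefixRev_mul_self (n := n) (k := 3) (by omega)
      have c5 : ∀ h, prefixRev n 5 * (prefixRev n 5 * h) = h := fun h => by
        rw [← mul_assoc, e5, one_mul]
      have c4 : ∀ h, prefixRev n 4 * (prefixRev n 4 * h) = h := fun h => by
        rw [← mul_assoc, e4, one_mul]
      have c3 : ∀ h, prefixRev n 3 * (prefixRev n 3 * h) = h := fun h => by
        rw [← mul_assoc, e3, one_mul]
      simp only [mul_assoc, c5, c4, c3, e5, mul_one]⟩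
  have q5 := big_labels (n := n) 5 (by omega) hn
  have q4 := big_labels (n := n) 4 (by omega) (by omega)
  obtain ⟨a, a1, a2, a3⟩ := label φ (g * prefixRev n 5 * prefixRev n 4 * prefixRev n 5 *
    prefixRev n 4) (by omega : 2 ≤ 3) (by omega)
  obtain ⟨b, b1, b2, b3⟩ := label φ (g * prefixRev n 5 * prefixRev n 4 * prefixRev n 5 *
    prefixRev n 4 * prefixRev n 3 * prefixRev n 5) (by omega : 2 ≤ 2) (by omega)
  have pa := P3 (by omega) φ _ _ _ (Or.inr rfl) a1 a2 a3
  have pb := P3 (by omega) φ _ _ _ (Or.inl rfl) b1 b2 b3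
  have hb : b = 2 := by
    refine rel7 (a := a) hn pa pb ?_
    have h1 := b3
    rw [q5 φ, a3, q4 φ, q5 φ, q4 φ, q5 φ] at h1
    have h2 : g * prefixRev n 5 * prefixRev n 4 * prefixRev n 5 * prefixRev n 4 *
        prefixRev n 3 * prefixRev n 5 * prefixRev n 2 = g := by
      have := congrArg (g * ·) (rel7' hn)
      simpa only [mul_assoc, mul_one] using this
    rw [h2] at h1
    have h3 : φ g * (prefixRev n 5 * prefixRev n 4 * prefixRev n 5 * prefixRev n 4 *
        prefixRev n a * prefixRev n 5 * prefixRev n b) = φ g := by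
      simpa only [mul_assoc] using h1.symm
    exact mul_eq_left.1 h3
  rw [hb] at b3
  exact b3

lemma Q3 {n : ℕ} (hn : 5 ≤ n) : QQ n 3 := by
  intro φ g
  obtain ⟨a, a1, a2, a3⟩ := label φ g (by omega : 2 ≤ 3) (by omega)
  rcases P3 (by omega) φ _ _ _ (Or.inr rfl) a1 a2 a3 with rfl | rfl
  · exfalso
    have h1 := Q2 hn φ g
    rw [← h1] at a3
    have h2 := mul_left_cancel (φ.injective a3)
    have := prefixRev_inj (by omega) (by omega) (by omega) (by omega) h2
    omega
  · exact a3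

end AU

namespace AU

lemma QQ_all {n : ℕ} (hn : 5 ≤ n) (k : ℕ) (h2 : 2 ≤ k) (hk : k ≤ n) : QQ n k := by
  rcases Nat.lt_or_ge k 4 with h | h
  · rcases (by omega : k = 2 ∨ k = 3) with rfl | rfl
    · exact Q2 hn
    · exact Q3 hn
  · exact big_labels k h hk

/-- adjacent transpositions are products of prefix reversals -/
lemma swap_eq {m : ℕ} (i : Fin m) : prefixRev (m + 1) ((i : ℕ) + 2) * prefixRev (m + 1) 2 *
    prefixRev (m + 1) ((i : ℕ) + 2) = Equiv.swap i.castSucc i.succ := by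
  have hi := i.2
  ext j
  simp only [Equiv.Perm.coe_mul, Function.comp_apply, val_prefixRev (by omega : 2 ≤ m + 1),
    val_prefixRev (by omega : (i : ℕ) + 2 ≤ m + 1)]
  have h2 : ∀ y, f 2 y = if y = 0 then 1 else if y = 1 then 0 else y := by
    intro y
    unfold f
    split_ifs <;> omega
  rw [h2, Equiv.swap_apply_def]
  have e1 : (j = i.castSucc) ↔ (j : ℕ) = i := by
    rw [Fin.ext_iff]; simp
  have e2 : (j = i.succ) ↔ (j : ℕ) = i + 1 := by
    rw [Fin.ext_iff]; simp
  by_cases c1 : (j : ℕ) = i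
  · rw [if_pos (e1.2 c1)]
    simp only [Fin.val_succ]
    unfold f
    split_ifs <;> omega
  · rw [if_neg (fun h => c1 (e1.1 h))]
    by_cases c2 : (j : ℕ) = i + 1
    · rw [if_pos (e2.2 c2)]
      simp only [Fin.val_castSucc]
      unfold f
      split_ifs <;> omega
    · rw [if_neg (fun h => c2 (e2.1 h))]
      unfold f
      split_ifs <;> omega

/-- left translations are automorphisms -/
def leftIso (n : ℕ) (σ : Equiv.Perm (Fin n)) : pancake n ≃g pancake n where
  toEquiv := Equiv.mulLeft σ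
  map_rel_iff' := by
    intro g h
    simp only [Equiv.coe_mulLeft]
    rw [pancake_adj, pancake_adj, ← word_map, ← word_map]
    constructor
    · intro h1
      have := h1.map (σ⁻¹ : Equiv.Perm (Fin n))
      simpa using this
    · intro h1
      exact h1.map σ

end AU

theorem aut_left (n : ℕ) (hn : 5 ≤ n) (φ : pancake n ≃g pancake n) :
    ∃ σ : Equiv.Perm (Fin n), ∀ g, φ g = σ * g := by
  obtain ⟨m, rfl⟩ : ∃ m, n = m + 1 := ⟨n - 1, by omega⟩
  have key : ∀ x ∈ Submonoid.closure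
      (Set.range fun i : Fin m => Equiv.swap i.castSucc i.succ), ∀ g, φ (g * x) = φ g * x := by
    intro x hx
    induction hx using Submonoid.closure_induction with
    | mem x hx =>
      obtain ⟨i, rfl⟩ := hx
      intro g
      have hi := i.2
      have q := AU.QQ_all hn ((i : ℕ) + 2) (by omega) (by omega) φ
      have q2 := AU.QQ_all hn 2 (by omega) (by omega) φ
      show φ (g * Equiv.swap i.castSucc i.succ) = φ g * Equiv.swap i.castSucc i.succ
      rw [← AU.swap_eq, ← mul_assoc, ← mul_assoc, q, q2, q]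
      simp only [mul_assoc]
    | one => intro g; simp
    | mul x y _ _ hx hy =>
      intro g
      rw [← mul_assoc, hy, hx, mul_assoc]
  refine ⟨φ 1, fun g => ?_⟩
  have hg : g ∈ Submonoid.closure (Set.range fun i : Fin m => Equiv.swap i.castSucc i.succ) := by
    rw [Equiv.Perm.mclosure_swap_castSucc_succ]
    trivial
  have := key g hg 1
  rwa [one_mul] at this

theorem sigma_eq (n : ℕ) (hn : 5 ≤ n) : Sigma n = SigmaL n := by
  have h : ∀ C, Nat.card (autStab n C) = Nat.card (leftStab n C) := by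
    intro C
    symm
    refine Nat.card_congr (Equiv.ofBijective
      (fun s : leftStab n C => (⟨AU.leftIso n s.1, s.2⟩ : autStab n C)) ⟨?_, ?_⟩)
    · rintro ⟨s, hs⟩ ⟨t, ht⟩ e
      have e1 : AU.leftIso n s = AU.leftIso n t := congrArg Subtype.val e
      have e2 : s * 1 = t * 1 := congrArg (fun φ : pancake n ≃g pancake n => φ 1) e1
      rw [mul_one, mul_one] at e2
      subst e2
      rfl
    · rintro ⟨φ, hφ⟩
      obtain ⟨σ, hσ⟩ := aut_left n hn φ
      have e : φ = AU.leftIso n σ := by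
        ext1 g
        exact hσ g
      subst e
      exact ⟨⟨σ, hφ⟩, rfl⟩
  unfold Sigma SigmaL
  ext s
  simp only [Set.mem_setOf_eq, h]

end Pan
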