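import Pool.Agent.Hhelper18.Pan.Defs

/-! # Certificate checker for `Good` of cyclic groups of relabelings

Words on `n` letters are numbered by the list `words n`; the certificates are checked by the kernel
on the numbers of the words, with tables coded as natural numbers. -/

namespace Pan

namespace B5

/-- all words on `n` letters, in a fixed order -/
def words (n : ℕ) : List (List (Fin n)) := (List.finRange n).permutations'

/-- the `p`-th word -/
def W (n p : ℕ) : List (Fin n) := (words n).getD p []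

/-- byte number `i` of `T` -/
def byte (T i : ℕ) : ℕ := (T >>> (8 * i)) % 256

/-- evaluate `n` before applying `f` (for the kernel) -/
def force (n : ℕ) (f : ℕ → Bool) : Bool :=
  Nat.rec (motive := fun _ => Bool) (f 0) (fun k _ => f (k + 1)) n

lemma force_eq (n : ℕ) (f : ℕ → Bool) : force n f = f n := by
  cases n <;> rfl

/-- the bits of the pair of orbits `a`, `b` -/
def pbit (a b : ℕ) : ℕ := (1 <<< (5 * a + b)) ||| (1 <<< (5 * b + a))

/-- walk along a path: `S` is the list of lengths of the reversals minus 2 (base 4), `p` the number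
of the present word, `M` the mask of the classes met, `E` the mask of the pairs of letter orbits. -/
def run (n NB R H FULL NEED : ℕ) (t : ℕ) (fuel : ℕ) : ℕ → ℕ → ℕ → ℕ → Bool :=
  Nat.rec (motive := fun _ => ℕ → ℕ → ℕ → ℕ → Bool)
    (fun _ p M E => (M == FULL) && ((E &&& NEED == NEED) && (p == t)))
    (fun _ ih S p M E =>
      (Nat.ble (S % 4 + 2) n) && force (byte NB ((n - 1) * p + S % 4)) fun q =>
        force (byte R q) fun r =>
          ((M >>> r) % 2 == 0) &&
            force (M ||| (1 <<< r)) fun M' =>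
              force (E ||| pbit (byte H p) (byte H q)) fun E' => ih (S / 4) q M' E') fuel

lemma testBit_of_shift {M r : ℕ} (h : (M >>> r) % 2 = 0) : M.testBit r = false := by
  rw [Nat.testBit_eq_decide_div_mod_eq]
  rw [Nat.shiftRight_eq_div_pow] at h
  rw [h]; rfl

lemma testBit_pbit {a b i : ℕ} : (pbit a b).testBit i = true ↔ i = 5 * a + b ∨ i = 5 * b + a := by
  unfold pbit
  rw [Nat.testBit_or, Nat.one_shiftLeft, Nat.one_shiftLeft, Nat.testBit_two_pow, Nat.testBit_two_pow]
  simp only [Bool.or_eq_true, decide_eq_true_eq]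
  constructor
  · rintro (h | h)
    · exact Or.inl h.symm
    · exact Or.inr h.symm
  · rintro (h | h)
    · exact Or.inl h.symm
    · exact Or.inr h.symm

/-- the table of prefix reversals is correct -/
def NBok (n NB N : ℕ) : Prop :=
  ∀ p < N, ∀ k < n - 1, byte NB ((n - 1) * p + k) < N ∧
    W n (byte NB ((n - 1) * p + k)) = rv (k + 2) (W n p)

theorem run_sound {n NB R H FULL NEED t N : ℕ} (hNB : NBok n NB N) (fuel : ℕ) :
    ∀ S p M E, p < N → run n NB R H FULL NEED t fuel S p M E = true →
      ∃ P : List ℕ, P.head? = some p ∧ P.getLast? = some t ∧ (∀ a ∈ P, a < N) ∧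
        P.IsChain (fun a b => ∃ k, k + 2 ≤ n ∧ W n b = rv (k + 2) (W n a)) ∧
        (∀ q ∈ P.tail, M.testBit (byte R q) = false) ∧
        P.tail.Pairwise (fun a b => byte R a ≠ byte R b) ∧
        (∀ i, FULL.testBit i = true → M.testBit i = true ∨ ∃ q ∈ P.tail, byte R q = i) ∧
        (∀ i, NEED.testBit i = true → E.testBit i = true ∨ ∃ a b, [a, b] <:+: P ∧
          (i = 5 * byte H a + byte H b ∨ i = 5 * byte H b + byte H a)) := by
  induction fuel with
  | zero =>
    intro S p M E hp h
    have h' : ((M == FULL) && ((E &&& NEED == NEED) && (p == t))) = true := h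
    simp only [Bool.and_eq_true, beq_iff_eq] at h'
    obtain ⟨h1, h2, h3⟩ := h'
    refine ⟨[p], rfl, by simp [h3], by simpa using hp, by simp, by simp, by simp, ?_, ?_⟩
    · intro i hi
      left; rw [h1]; exact hi
    · intro i hi
      left
      rw [← h2, Nat.testBit_and] at hi
      simp only [Bool.and_eq_true] at hi
      exact hi.1
  | succ f ih =>
    intro S p M E hp h
    have h' : ((Nat.ble (S % 4 + 2) n) && force (byte NB ((n - 1) * p + S % 4)) fun q =>
        force (byte R q) fun r =>
          ((M >>> r) % 2 == 0) &&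
            force (M ||| (1 <<< r)) fun M' =>
              force (E ||| pbit (byte H p) (byte H q)) fun E' =>
                run n NB R H FULL NEED t f (S / 4) q M' E') = true := h
    simp only [force_eq, Bool.and_eq_true, beq_iff_eq, Nat.ble_eq] at h'
    obtain ⟨hk, hM, h'⟩ := h'
    set q := byte NB ((n - 1) * p + S % 4) with hq
    obtain ⟨hqN, hqW⟩ := hNB p hp (S % 4) (by omega)
    obtain ⟨P, h1, h2, h3, h4, h5, h6, h7, h8⟩ := ih _ _ _ _ hqN h'
    obtain ⟨P', rfl⟩ : ∃ P', P = q :: P' := by
      cases P with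
      | nil => simp at h1
      | cons a P' => simp only [List.head?_cons, Option.some.injEq] at h1; exact ⟨P', by rw [h1]⟩
    have hMr := testBit_of_shift hM
    simp only [List.tail_cons] at h5 h6 h7
    have h5' : ∀ q' ∈ P', M.testBit (byte R q') = false ∧ byte R q ≠ byte R q' := by
      intro q' hq'
      have := h5 q' hq'
      rw [Nat.testBit_or, Nat.one_shiftLeft, Nat.testBit_two_pow] at this
      simp only [Bool.or_eq_false_iff, decide_eq_false_iff_not] at this
      exact ⟨this.1, fun e => this.2 e⟩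
    refine ⟨p :: q :: P', rfl, ?_, ?_, ?_, ?_, ?_, ?_, ?_⟩
    · rw [List.getLast?_cons_cons]; exact h2
    · intro a ha
      rcases List.mem_cons.1 ha with rfl | ha
      · exact hp
      · exact h3 a ha
    · rw [List.isChain_cons_cons]
      exact ⟨⟨S % 4, hk, hqW⟩, h4⟩
    · intro q' hq'
      simp only [List.tail_cons] at hq'
      rcases List.mem_cons.1 hq' with rfl | hq'
      · exact hMr
      · exact (h5' q' hq').1
    · simp only [List.tail_cons, List.pairwise_cons]
      exact ⟨fun a ha => (h5' a ha).2, h6⟩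
    · intro i hi
      simp only [List.tail_cons]
      rcases h7 i hi with h | ⟨q', hq', e⟩
      · rw [Nat.testBit_or, Nat.one_shiftLeft, Nat.testBit_two_pow] at h
        simp only [Bool.or_eq_true, decide_eq_true_eq] at h
        rcases h with h | h
        · exact Or.inl h
        · exact Or.inr ⟨q, by simp, h⟩
      · exact Or.inr ⟨q', List.mem_cons_of_mem _ hq', e⟩
    · intro i hi
      rcases h8 i hi with h | ⟨a, b, hab, e⟩
      · rw [Nat.testBit_or] at h
        simp only [Bool.or_eq_true] at h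
        rcases h with h | h
        · exact Or.inl h
        · exact Or.inr ⟨p, q, ⟨[], P', rfl⟩, testBit_pbit.1 h⟩
      · refine Or.inr ⟨a, b, ?_, e⟩
        exact hab.trans (List.suffix_cons p (q :: P')).isInfix

/-! ### words and their numbers -/

lemma mem_words {n : ℕ} {w : List (Fin n)} : w ∈ words n ↔ Wd Finset.univ w := by
  unfold words
  rw [List.mem_permutations']
  constructor
  · intro h
    exact ⟨h.nodup_iff.2 (List.nodup_finRange n), by
      rw [List.toFinset_eq_of_perm _ _ h]; ext a; simp⟩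
  · rintro ⟨h1, h2⟩
    rw [List.perm_ext_iff_of_nodup h1 (List.nodup_finRange n)]
    intro a
    have : a ∈ w.toFinset := by rw [h2]; simp
    simpa using this

lemma words_nodup (n : ℕ) : (words n).Nodup := by
  unfold words
  rw [← (List.permutations_perm_permutations' _).nodup_iff]
  exact List.nodup_permutations _ (List.nodup_finRange n)

lemma W_idxOf {n : ℕ} {w : List (Fin n)} (h : Wd Finset.univ w) :
    (words n).idxOf w < (words n).length ∧ W n ((words n).idxOf w) = w := by
  have hlt : (words n).idxOf w < (words n).length := List.idxOf_lt_length_iff.2 (mem_words.2 h)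
  refine ⟨hlt, ?_⟩
  unfold W
  rw [List.getD_eq_getElem _ _ hlt]
  exact List.getElem_idxOf hlt

lemma idxOf_W {n p : ℕ} (h : p < (words n).length) : (words n).idxOf (W n p) = p := by
  unfold W
  rw [List.getD_eq_getElem _ _ h]
  exact (words_nodup n).idxOf_getElem p h

lemma wd_W {n p : ℕ} (h : p < (words n).length) : Wd Finset.univ (W n p) := by
  rw [← mem_words]
  unfold W
  rw [List.getD_eq_getElem _ _ h]
  exact List.getElem_mem h

/-! ### the group generated by `g` -/

section group

variable {n : ℕ} (g : Equiv.Perm (Fin n))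

lemma mem_K {k : Equiv.Perm (Fin n)} (hk : k ∈ Subgroup.zpowers g) : ∃ i : ℕ, k = g ^ i := by
  have h : IsOfFinOrder g := isOfFinOrder_of_finite g
  obtain ⟨i, hi⟩ := (h.mem_powers_iff_mem_zpowers).2 hk
  exact ⟨i, hi.symm⟩

lemma pow_mem_K (i : ℕ) : g ^ i ∈ Subgroup.zpowers g := Subgroup.npow_mem_zpowers g i

/-- `s` normalises the group generated by `g` -/
def NormOk (c : ℕ) (s : Equiv.Perm (Fin n)) : Prop :=
  (∃ j < c, s * g = g ^ j * s) ∧ ∃ j < c, g * s = s * g ^ j

instance (c : ℕ) (s : Equiv.Perm (Fin n)) : Decidable (NormOk g c s) := by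
  unfold NormOk; infer_instance

lemma NormOk.conj {c : ℕ} {s : Equiv.Perm (Fin n)} (h : NormOk g c s) {k : Equiv.Perm (Fin n)}
    (hk : k ∈ Subgroup.zpowers g) : s * k * s⁻¹ ∈ Subgroup.zpowers g := by
  obtain ⟨i, rfl⟩ := mem_K g hk
  obtain ⟨⟨j, -, hj⟩, -⟩ := h
  have : s * g * s⁻¹ = g ^ j := by rw [hj]; group
  rw [← conj_pow, this, ← pow_mul]
  exact pow_mem_K g _

lemma NormOk.conj' {c : ℕ} {s : Equiv.Perm (Fin n)} (h : NormOk g c s) {k : Equiv.Perm (Fin n)}
    (hk : k ∈ Subgroup.zpowers g) : s⁻¹ * k * s ∈ Subgroup.zpowers g := by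
  obtain ⟨i, rfl⟩ := mem_K g hk
  obtain ⟨-, ⟨j, -, hj⟩⟩ := h
  have h1 : s⁻¹ * g * (s⁻¹)⁻¹ = g ^ j := by rw [inv_inv, mul_assoc, hj]; group
  have h2 : s⁻¹ * g ^ i * s = s⁻¹ * g ^ i * (s⁻¹)⁻¹ := by rw [inv_inv]
  rw [h2, ← conj_pow, h1, ← pow_mul]
  exact pow_mem_K g _

lemma map_conj {s k : Equiv.Perm (Fin n)} (w : List (Fin n)) :
    (w.map s).map (s * k * s⁻¹ : Equiv.Perm (Fin n)) = (w.map k).map s := by
  simp [List.map_map, Function.comp_def]

/-- transport by an element of the normaliser -/
lemma conn_norm {c : ℕ} {s : Equiv.Perm (Fin n)} (h : NormOk g c s) {u v : List (Fin n)}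
    (hc : Conn (Subgroup.zpowers g) Finset.univ u v) :
    Conn (Subgroup.zpowers g) Finset.univ (u.map s) (v.map s) := by
  obtain ⟨P, h1, h2, h3, h4⟩ := hc
  refine ⟨P.map (List.map s), ⟨?_, ?_, ?_, ?_⟩, by simp [h2], by simp [h3], ?_⟩
  · rw [List.isChain_map]
    exact h1.chain.imp fun a b hab => hab.map s
  · intro w hw
    obtain ⟨p, hp, rfl⟩ := List.mem_map.1 hw
    exact (h1.mem p hp).map fun a _ => Finset.mem_univ _
  · intro w hw
    have hw' : Wd Finset.univ (w.map (s⁻¹ : Equiv.Perm (Fin n))) :=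
      hw.map fun a _ => Finset.mem_univ _
    obtain ⟨p, hp, k, hk, e⟩ := h1.cover _ hw'
    refine ⟨p.map s, List.mem_map_of_mem hp, s * k * s⁻¹, h.conj g hk, ?_⟩
    rw [map_conj, ← e]
    simp [List.map_map]
  · rw [List.pairwise_map]
    refine h1.inj.imp ?_
    intro a b hab
    rintro ⟨k, hk, e⟩
    refine hab ⟨s⁻¹ * k * s, h.conj' g hk, ?_⟩
    have e2 : b = (b.map s).map (s⁻¹ : Equiv.Perm (Fin n)) := by simp [List.map_map]
    rw [e2, e]
    simp [List.map_map, Function.comp_def]
  · intro y _ y' _ hyy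
    have hi : Inq (Subgroup.zpowers g) (s⁻¹ y) (s⁻¹ y') := by
      intro k hk e
      refine hyy (s * k * s⁻¹) (h.conj g hk) ?_
      rw [Equiv.Perm.mul_apply, Equiv.Perm.mul_apply, e]
      simp
    obtain ⟨p, q, hpq, hh⟩ := h4 _ (Finset.mem_univ _) _ (Finset.mem_univ _) hi
    refine ⟨p.map s, q.map s, ?_, ?_⟩
    · simpa using hpq.map (List.map s)
    · rcases hh with ⟨k, hk, l, hl, e1, e2⟩ | ⟨k, hk, l, hl, e1, e2⟩
      · exact Or.inl ⟨s * k * s⁻¹, h.conj g hk, s * l * s⁻¹, h.conj g hl,
          by simp [e1], by simp [e2]⟩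
      · exact Or.inr ⟨s * k * s⁻¹, h.conj g hk, s * l * s⁻¹, h.conj g hl,
          by simp [e1], by simp [e2]⟩

lemma adm_norm {c : ℕ} {s : Equiv.Perm (Fin n)} (h : NormOk g c s) {u v : List (Fin n)}
    (hc : Adm (Subgroup.zpowers g) (u.map s) (v.map s)) : Adm (Subgroup.zpowers g) u v := by
  intro k hk e
  refine hc (s * k * s⁻¹) (h.conj g hk) ?_
  rw [map_conj]
  have h1 : ∀ w : List (Fin n), (w.map s).reverse.take 2 = (w.reverse.take 2).map s := by
    intro w; simp [← List.map_reverse, List.map_take]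
  rw [h1, h1, e]

end group

/-- the tables for the group generated by `g` are correct -/
structure TabOk (n : ℕ) (g : Equiv.Perm (Fin n)) (c R H FULL NEED : ℕ) (ρ : Fin n → Fin n) :
    Prop where
  r1 : ∀ p < (words n).length, ∃ i < c, W n (byte R p) = (W n p).map (g ^ i : Equiv.Perm (Fin n))
  r2 : ∀ p < (words n).length, byte R ((words n).idxOf ((W n p).map g)) = byte R p
  full : ∀ p < (words n).length, FULL.testBit (byte R p) = true
  h1 : ∀ p < (words n).length, (W n p).head?.map (fun a => (ρ a).val) = some (byte H p)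
  h2 : ∀ y, ∃ i < c, (g ^ i : Equiv.Perm (Fin n)) y = ρ y
  h3 : ∀ y y', ρ y ≠ ρ y' → NEED.testBit (5 * (ρ y).val + (ρ y').val) = true

section sound

variable {n : ℕ} {g : Equiv.Perm (Fin n)} {c NB R H FULL NEED : ℕ} {ρ : Fin n → Fin n}

lemma TabOk.eqv_iff (h : TabOk n g c R H FULL NEED ρ) {p q : ℕ} (hp : p < (words n).length)
    (hq : q < (words n).length) :
    Eqv (Subgroup.zpowers g) (W n p) (W n q) ↔ byte R p = byte R q := by
  constructor
  · rintro ⟨k, hk, e⟩
    obtain ⟨i, rfl⟩ := mem_K g hk
    have key : ∀ i : ℕ, ∀ w : List (Fin n), Wd Finset.univ w →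
        byte R ((words n).idxOf (w.map (g ^ i : Equiv.Perm (Fin n)))) =
          byte R ((words n).idxOf w) := by
      intro i
      induction i with
      | zero => intro w _; simp
      | succ i ih =>
        intro w hw
        have hw' : Wd Finset.univ (w.map g) := hw.map fun a _ => Finset.mem_univ _
        have e1 : w.map (g ^ (i + 1) : Equiv.Perm (Fin n)) =
            (w.map g).map (g ^ i : Equiv.Perm (Fin n)) := by
          rw [List.map_map, pow_succ]; rfl
        rw [e1, ih _ hw']
        obtain ⟨h1, h2⟩ := W_idxOf hw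
        have := h.r2 _ h1
        rwa [h2] at this
    have := key i (W n p) (wd_W hp)
    rw [← e, idxOf_W hq, idxOf_W hp] at this
    exact this.symm
  · intro e
    obtain ⟨i, -, e1⟩ := h.r1 p hp
    obtain ⟨j, -, e2⟩ := h.r1 q hq
    have h1 : Eqv (Subgroup.zpowers g) (W n p) (W n (byte R p)) := ⟨g ^ i, pow_mem_K g i, e1⟩
    have h2 : Eqv (Subgroup.zpowers g) (W n q) (W n (byte R q)) := ⟨g ^ j, pow_mem_K g j, e2⟩
    rw [e] at h1
    exact h1.trans h2.symm

theorem conn_of_run (hn : n ≤ 5) (hNB : NBok n NB (words n).length) (h : TabOk n g c R H FULL NEED ρ)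
    {fuel S u v : ℕ} (hu : u < (words n).length)
    (hr : run n NB R H FULL NEED v fuel S u (1 <<< byte R u) 0 = true) :
    Conn (Subgroup.zpowers g) Finset.univ (W n u) (W n v) := by
  obtain ⟨P, h1, h2, h3, h4, h5, h6, h7, h8⟩ := run_sound hNB fuel S u _ _ hu hr
  obtain ⟨P', rfl⟩ : ∃ P', P = u :: P' := by
    cases P with
    | nil => simp at h1
    | cons a P' => simp only [List.head?_cons, Option.some.injEq] at h1; exact ⟨P', by rw [h1]⟩
  simp only [List.tail_cons] at h5 h6 h7
  have hlenW : ∀ p < (words n).length, (W n p).length = n := by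
    intro p hp
    rw [(wd_W hp).length]; simp
  refine ⟨(u :: P').map (W n), ⟨?_, ?_, ?_, ?_⟩, rfl, ?_, ?_⟩
  · rw [List.isChain_map]
    have : (u :: P').IsChain (fun a b => a < (words n).length ∧
        ∃ k, k + 2 ≤ n ∧ W n b = rv (k + 2) (W n a)) := by
      have key : ∀ L : List ℕ, (∀ a ∈ L, a < (words n).length) →
          L.IsChain (fun a b => ∃ k, k + 2 ≤ n ∧ W n b = rv (k + 2) (W n a)) →
          L.IsChain (fun a b => a < (words n).length ∧
            ∃ k, k + 2 ≤ n ∧ W n b = rv (k + 2) (W n a)) := by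
        intro L
        induction L with
        | nil => intro _ _; simp
        | cons a L ih =>
          intro hL hc
          cases L with
          | nil => simp
          | cons b L =>
            rw [List.isChain_cons_cons] at hc ⊢
            exact ⟨⟨hL a (by simp), hc.1⟩, ih (fun x hx => hL x (List.mem_cons_of_mem _ hx)) hc.2⟩
      exact key _ h3 h4
    refine this.imp ?_
    rintro a b ⟨ha, k, hk, e⟩
    exact ⟨k + 2, by omega, by rw [hlenW a ha]; omega, e⟩
  · intro w hw
    obtain ⟨p, hp, rfl⟩ := List.mem_map.1 hw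
    exact wd_W (h3 p hp)
  · intro w hw
    obtain ⟨hi, e⟩ := W_idxOf hw
    have hbit := h.full _ hi
    have : ∃ q ∈ u :: P', byte R q = byte R ((words n).idxOf w) := by
      rcases h7 _ hbit with hb | ⟨q, hq, e'⟩
      · rw [Nat.one_shiftLeft, Nat.testBit_two_pow] at hb
        simp only [decide_eq_true_eq] at hb
        exact ⟨u, by simp, hb⟩
      · exact ⟨q, List.mem_cons_of_mem _ hq, e'⟩
    obtain ⟨q, hq, e'⟩ := this
    refine ⟨W n q, List.mem_map_of_mem hq, ?_⟩
    have := (h.eqv_iff (h3 q hq) hi).2 e'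
    rwa [e] at this
  · rw [List.pairwise_map]
    have hpw : (u :: P').Pairwise (fun a b => byte R a ≠ byte R b) := by
      rw [List.pairwise_cons]
      refine ⟨?_, h6⟩
      intro a ha e
      have := h5 a ha
      rw [Nat.one_shiftLeft, Nat.testBit_two_pow] at this
      simp only [decide_eq_false_iff_not] at this
      exact this e
    refine (List.pairwise_iff_getElem).2 ?_
    intro i j hi hj hij
    have hne := (List.pairwise_iff_getElem.1 hpw) i j hi hj hij
    intro hE
    exact hne ((h.eqv_iff (h3 _ (List.getElem_mem hi)) (h3 _ (List.getElem_mem hj))).1 hE)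
  · rw [List.getLast?_map, h2]; rfl
  · intro y _ y' _ hyy
    have hne : ρ y ≠ ρ y' := by
      intro e
      obtain ⟨i, -, e1⟩ := h.h2 y
      obtain ⟨j, -, e2⟩ := h.h2 y'
      refine hyy ((g ^ j)⁻¹ * g ^ i)
        (Subgroup.mul_mem _ (Subgroup.inv_mem _ (pow_mem_K g j)) (pow_mem_K g i)) ?_
      rw [Equiv.Perm.mul_apply, e1, e, ← e2]
      simp
    have hb := h.h3 y y' hne
    rcases h8 _ hb with hb0 | ⟨a, b, hab, e⟩
    · simp at hb0
    · have ha : a < (words n).length := h3 a (hab.subset (by simp))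
      have hb' : b < (words n).length := h3 b (hab.subset (by simp))
      have hha := h.h1 a ha
      have hhb := h.h1 b hb'
      obtain ⟨x, hx, hx'⟩ := Option.map_eq_some_iff.1 hha
      obtain ⟨z, hz, hz'⟩ := Option.map_eq_some_iff.1 hhb
      -- letters in the same orbit as their representative
      have orb : ∀ x y : Fin n, ρ x = ρ y → ∃ k ∈ Subgroup.zpowers g, x = k y := by
        intro x y exy
        obtain ⟨i, -, e1⟩ := h.h2 x
        obtain ⟨j, -, e2⟩ := h.h2 y
        refine ⟨(g ^ i)⁻¹ * g ^ j,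
          Subgroup.mul_mem _ (Subgroup.inv_mem _ (pow_mem_K g i)) (pow_mem_K g j), ?_⟩
        rw [Equiv.Perm.mul_apply, e2, ← exy, ← e1]
        simp
      have hlt : ∀ x : Fin n, (ρ x).val < n := fun x => (ρ x).isLt
      refine ⟨W n a, W n b, ?_, ?_⟩
      · simpa using hab.map (W n)
      · have l1 := hlt x
        have l2 := hlt z
        have l3 := hlt y
        have l4 := hlt y'
        rw [← hx', ← hz'] at e
        rw [hx, hz]
        rcases e with e | e
        · have e1 : ρ x = ρ y := by apply Fin.ext; omega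
          have e2 : ρ z = ρ y' := by apply Fin.ext; omega
          obtain ⟨k, hk, rfl⟩ := orb _ _ e1
          obtain ⟨l, hl, rfl⟩ := orb _ _ e2
          exact Or.inl ⟨k, hk, l, hl, rfl, rfl⟩
        · have e1 : ρ z = ρ y := by apply Fin.ext; omega
          have e2 : ρ x = ρ y' := by apply Fin.ext; omega
          obtain ⟨k, hk, rfl⟩ := orb _ _ e1
          obtain ⟨l, hl, rfl⟩ := orb _ _ e2
          exact Or.inr ⟨l, hl, k, hk, rfl, rfl⟩

/-- the pairs of last letters of `u` and `v` are equivalent -/
def nadm (n : ℕ) (g : Equiv.Perm (Fin n)) (c u v : ℕ) : Bool :=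
  (List.range c).any fun i =>
    decide (((W n u).map (g ^ i : Equiv.Perm (Fin n))).reverse.take 2 = (W n v).reverse.take 2)

/-- all certificates for the first word `u`; `w` is the number of bits of a certificate -/
def checkU (n : ℕ) (g : Equiv.Perm (Fin n)) (c NB R H FULL NEED fuel w : ℕ) (u D : ℕ)
    (m : ℕ) : Bool :=
  Nat.rec (motive := fun _ => Bool) true
    (fun v ih => (nadm n g c u v ||
      force ((D >>> (w * v)) % 2 ^ w) fun S =>
        run n NB R H FULL NEED v fuel S u (1 <<< byte R u) 0) && ih) m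

theorem checkU_sound (g : Equiv.Perm (Fin n)) {c NB R H FULL NEED fuel w u D m : ℕ}
    (h : checkU n g c NB R H FULL NEED fuel w u D m = true) :
    ∀ v < m, nadm n g c u v = true ∨
      ∃ S, run n NB R H FULL NEED v fuel S u (1 <<< byte R u) 0 = true := by
  induction m with
  | zero => intro v hv; omega
  | succ m ih =>
    have h' : ((nadm n g c u m ||
      force ((D >>> (w * m)) % 2 ^ w) fun S =>
        run n NB R H FULL NEED m fuel S u (1 <<< byte R u) 0) &&
        checkU n g c NB R H FULL NEED fuel w u D m) = true := h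
    rw [Bool.and_eq_true, Bool.or_eq_true, force_eq] at h'
    intro v hv
    rcases Nat.lt_succ_iff_lt_or_eq.1 hv with hv | rfl
    · exact ih h'.2 v hv
    · rcases h'.1 with h1 | h1
      · exact Or.inl h1
      · exact Or.inr ⟨_, h1⟩

/-- the main theorem of the checker -/
theorem good_of_check (hn : n ≤ 5) (hNB : NBok n NB (words n).length)
    (h : TabOk n g c R H FULL NEED ρ) (fuel w : ℕ) (U : List (ℕ × ℕ))
    (hU : ∀ x ∈ U, x.1 < (words n).length ∧
      checkU n g c NB R H FULL NEED fuel w x.1 x.2 (words n).length = true)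
    (N : List (Equiv.Perm (Fin n))) (hN : ∀ s ∈ N, NormOk g c s)
    (hUN : ∀ p < (words n).length, ∃ x ∈ U, ∃ s ∈ N, W n p = (W n x.1).map s) :
    Good (Subgroup.zpowers g) Finset.univ := by
  have key : ∀ x ∈ U, ∀ v, Wd Finset.univ v → Adm (Subgroup.zpowers g) (W n x.1) v →
      Conn (Subgroup.zpowers g) Finset.univ (W n x.1) v := by
    intro x hx v hv hadm
    obtain ⟨hi, e⟩ := W_idxOf hv
    obtain ⟨hu, hc⟩ := hU x hx
    rcases checkU_sound g hc _ hi with h1 | ⟨S, h1⟩
    · exfalso
      unfold nadm at h1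
      rw [List.any_eq_true] at h1
      obtain ⟨i, -, h2⟩ := h1
      rw [decide_eq_true_eq, e] at h2
      exact hadm _ (pow_mem_K g i) h2
    · have := conn_of_run hn hNB h hu h1
      rwa [e] at this
  intro u v hu hv hadm
  obtain ⟨hi, e⟩ := W_idxOf hu
  obtain ⟨x, hx, s, hs, e2⟩ := hUN _ hi
  rw [e] at e2
  have hv' : v = (v.map (s⁻¹ : Equiv.Perm (Fin n))).map s := by simp [List.map_map]
  rw [e2, hv'] at hadm ⊢
  exact conn_norm g (hN s hs) (key x hx _ (hv.map fun a _ => Finset.mem_univ _)
    (adm_norm g (hN s hs) hadm))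

end sound

end B5

end Pan
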