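import Mathlib

/-! # Words, prefix reversals, transversal paths

Words are lists of letters.  The first letter is the head of the list; prefix reversals reverse the
first `k` letters.  A subgroup `K` of `Equiv.Perm α` acts on words letterwise (`List.map`). -/

set_option linter.unusedSectionVars false

namespace Pan

variable {α : Type*} [DecidableEq α]

/-- reverse the first `k` letters -/
def rv (k : ℕ) (w : List α) : List α := (w.take k).reverse ++ w.drop k

/-- adjacency of words: one prefix reversal of length `k`, `2 ≤ k ≤ length` -/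
def Adj (w w' : List α) : Prop := ∃ k, 2 ≤ k ∧ k ≤ w.length ∧ w' = rv k w

/-- `w` uses every letter of `A` exactly once -/
def Wd (A : Finset α) (w : List α) : Prop := w.Nodup ∧ w.toFinset = A

/-- `w'` is in the `K`-orbit of `w` -/
def Eqv (K : Subgroup (Equiv.Perm α)) (w w' : List α) : Prop := ∃ k ∈ K, w' = w.map k

/-- the letters `y`, `y'` are in different `K`-orbits -/
def Inq (K : Subgroup (Equiv.Perm α)) (y y' : α) : Prop := ∀ k ∈ K, k y ≠ y'

/-- the pairs of last letters of `u` and `v` are in different `K`-orbits -/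
def Adm (K : Subgroup (Equiv.Perm α)) (u v : List α) : Prop :=
  ∀ k ∈ K, (u.map k).reverse.take 2 ≠ v.reverse.take 2

/-- the stabiliser of a letter in `K` -/
def stb (K : Subgroup (Equiv.Perm α)) (x : α) : Subgroup (Equiv.Perm α) :=
  K ⊓ MulAction.stabilizer (Equiv.Perm α) x

/-- A transversal path on a set `S` of words: consecutive words are adjacent, all words are in `S`,
and every word of `S` is in the `K`-orbit of exactly one term of the path. -/
structure TPon (K : Subgroup (Equiv.Perm α)) (S : List α → Prop) (P : List (List α)) : Prop where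
  chain : P.IsChain Adj
  mem : ∀ w ∈ P, S w
  cover : ∀ w, S w → ∃ p ∈ P, Eqv K p w
  inj : P.Pairwise fun p q => ¬ Eqv K p q

/-- `P` has two consecutive words whose first letters are in the orbits of `y` and `y'`,
in this or in the other order -/
def HasEdge (K : Subgroup (Equiv.Perm α)) (P : List (List α)) (y y' : α) : Prop :=
  ∃ p q : List α, [p, q] <:+: P ∧
    ((∃ k ∈ K, ∃ l ∈ K, p.head? = some (k y) ∧ q.head? = some (l y')) ∨
     (∃ k ∈ K, ∃ l ∈ K, p.head? = some (k y') ∧ q.head? = some (l y)))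

/-- what we want for a group `K` of permutations of the letter set `A`: any two words on `A` with
inequivalent pairs of last letters are the ends of a transversal path with all kinds of edges -/
def Good (K : Subgroup (Equiv.Perm α)) (A : Finset α) : Prop :=
  ∀ u v, Wd A u → Wd A v → Adm K u v →
    ∃ P, TPon K (Wd A) P ∧ P.head? = some u ∧ P.getLast? = some v ∧
      ∀ y ∈ A, ∀ y' ∈ A, Inq K y y' → HasEdge K P y y'

/-- words equivalent to a word `w' ++ [x]` with `w'` in `S` -/
def lift (K : Subgroup (Equiv.Perm α)) (x : α) (S : List α → Prop) (w : List α) : Prop :=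
  ∃ k ∈ K, ∃ w', S w' ∧ w = (w' ++ [x]).map k

/-! ### elementary facts -/

lemma mem_stb {K : Subgroup (Equiv.Perm α)} {x : α} {k : Equiv.Perm α} :
    k ∈ stb K x ↔ k ∈ K ∧ k x = x := by
  simp [stb, MulAction.mem_stabilizer_iff]

@[simp] lemma rv_length (k : ℕ) (w : List α) : (rv k w).length = w.length := by
  simp [rv]; omega

lemma rv_rv {k : ℕ} {w : List α} (hk : k ≤ w.length) : rv k (rv k w) = w := by
  have h1 : ((w.take k).reverse ++ w.drop k).take k = (w.take k).reverse := by
    rw [List.take_append_of_le_length (by simp; omega)]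
    exact List.take_of_length_le (by simp)
  have h2 : ((w.take k).reverse ++ w.drop k).drop k = w.drop k := by
    rw [List.drop_append, List.drop_of_length_le (by simp)]
    simp [hk]
  simp only [rv, h1, h2, List.reverse_reverse, List.take_append_drop]

lemma rv_map {β : Type*} (f : α → β) (k : ℕ) (w : List α) : rv k (w.map f) = (rv k w).map f := by
  simp [rv]

lemma rv_append {k : ℕ} {w : List α} (s : List α) (hk : k ≤ w.length) :
    rv k (w ++ s) = rv k w ++ s := by
  simp [rv, List.take_append_of_le_length hk, List.drop_append_of_le_length hk]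

lemma rv_full (w : List α) : rv w.length w = w.reverse := by simp [rv]

lemma rv_perm (k : ℕ) (w : List α) : (rv k w).Perm w := by
  have := List.Perm.append_right (w.drop k) (List.reverse_perm (w.take k))
  simpa [rv] using this

lemma Adj.symm {w w' : List α} (h : Adj w w') : Adj w' w := by
  obtain ⟨k, h2, hk, rfl⟩ := h
  exact ⟨k, h2, by simpa using hk, (rv_rv hk).symm⟩

lemma Adj.map {β : Type*} {w w' : List α} (f : α → β) (h : Adj w w') : Adj (w.map f) (w'.map f) := by
  obtain ⟨k, h2, hk, rfl⟩ := h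
  exact ⟨k, h2, by simpa using hk, (rv_map f k w).symm⟩

lemma Adj.append {w w' : List α} (s : List α) (h : Adj w w') : Adj (w ++ s) (w' ++ s) := by
  obtain ⟨k, h2, hk, rfl⟩ := h
  exact ⟨k, h2, by simp; omega, (rv_append s hk).symm⟩

lemma Adj.wd {A : Finset α} {w w' : List α} (h : Adj w w') (hw : Wd A w) : Wd A w' := by
  obtain ⟨k, h2, hk, rfl⟩ := h
  exact ⟨(rv_perm k w).nodup_iff.2 hw.1, by rw [List.toFinset_eq_of_perm _ _ (rv_perm k w)]; exact hw.2⟩

/-- the full reversal is an adjacency -/
lemma adj_reverse {w : List α} (h : 2 ≤ w.length) : Adj w w.reverse :=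
  ⟨w.length, h, le_rfl, (rv_full w).symm⟩

lemma Wd.length {A : Finset α} {w : List α} (h : Wd A w) : w.length = A.card := by
  rw [← h.2, List.toFinset_card_of_nodup h.1]

lemma Wd.mem {A : Finset α} {w : List α} (h : Wd A w) {a : α} : a ∈ w ↔ a ∈ A := by
  rw [← h.2]; simp

lemma Wd.reverse {A : Finset α} {w : List α} (h : Wd A w) : Wd A w.reverse :=
  ⟨List.nodup_reverse.2 h.1, by rw [List.toFinset_reverse]; exact h.2⟩

lemma Wd.map {A : Finset α} {w : List α} (h : Wd A w) {k : Equiv.Perm α}
    (hk : ∀ a ∈ A, k a ∈ A) : Wd A (w.map k) := by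
  refine ⟨h.1.map k.injective, ?_⟩
  have hsub : (w.map k).toFinset ⊆ A := by
    intro a ha
    simp only [List.mem_toFinset, List.mem_map] at ha
    obtain ⟨b, hb, rfl⟩ := ha
    exact hk b (h.mem.1 hb)
  apply Finset.eq_of_subset_of_card_le hsub
  rw [List.toFinset_card_of_nodup (h.1.map k.injective), List.length_map, h.length]

lemma wd_append {A : Finset α} {w : List α} {x : α} (hx : x ∈ A) :
    Wd A (w ++ [x]) ↔ Wd (A.erase x) w := by
  constructor
  · rintro ⟨h1, h2⟩
    have hxw : x ∉ w := by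
      have := (List.nodup_append.1 h1).2.2
      intro hx'
      exact this x hx' x (by simp) rfl
    refine ⟨(List.nodup_append.1 h1).1, ?_⟩
    rw [← h2]
    ext a
    simp only [List.mem_toFinset, Finset.mem_erase, List.mem_append, List.mem_singleton]
    constructor
    · intro ha; exact ⟨fun h => hxw (h ▸ ha), Or.inl ha⟩
    · rintro ⟨h3, h4 | h4⟩
      · exact h4
      · exact absurd h4 h3
  · rintro ⟨h1, h2⟩
    have hxw : x ∉ w := by
      intro hx'
      have : x ∈ w.toFinset := by simpa using hx'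
      rw [h2] at this; simp at this
    refine ⟨?_, ?_⟩
    · rw [List.nodup_append]
      refine ⟨h1, by simp, ?_⟩
      intro a ha b hb hab
      simp only [List.mem_singleton] at hb
      exact hxw (hb ▸ hab ▸ ha)
    · ext a
      simp only [List.mem_toFinset, List.mem_append, List.mem_singleton]
      have : a ∈ w ↔ a ∈ A.erase x := by rw [← h2]; simp
      rw [this, Finset.mem_erase]
      constructor
      · rintro (h | rfl)
        · exact h.2
        · exact hx
      · intro ha
        by_cases hax : a = x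
        · exact Or.inr hax
        · exact Or.inl ⟨hax, ha⟩

lemma Wd.exists_last {A : Finset α} {w : List α} (h : Wd A w) (hA : A.Nonempty) :
    ∃ w' x, x ∈ A ∧ w = w' ++ [x] ∧ Wd (A.erase x) w' := by
  have hne : w ≠ [] := by
    rintro rfl
    obtain ⟨a, ha⟩ := hA
    rw [← h.2] at ha; simp at ha
  have hx : w.getLast hne ∈ A := h.mem.1 (List.getLast_mem hne)
  refine ⟨w.dropLast, w.getLast hne, hx, (List.dropLast_append_getLast hne).symm, ?_⟩
  have := h
  rw [← List.dropLast_append_getLast hne, wd_append hx] at this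
  exact this

lemma exists_wd (A : Finset α) : ∃ w, Wd A w := ⟨A.toList, A.nodup_toList, by simp⟩

lemma Eqv.refl (K : Subgroup (Equiv.Perm α)) (w : List α) : Eqv K w w :=
  ⟨1, K.one_mem, by simp⟩

lemma Eqv.symm {K : Subgroup (Equiv.Perm α)} {w w' : List α} (h : Eqv K w w') : Eqv K w' w := by
  obtain ⟨k, hk, rfl⟩ := h
  exact ⟨k⁻¹, K.inv_mem hk, by simp [List.map_map, Function.comp_def]⟩

lemma Eqv.trans {K : Subgroup (Equiv.Perm α)} {w w' w'' : List α} (h : Eqv K w w')
    (h' : Eqv K w' w'') : Eqv K w w'' := by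
  obtain ⟨k, hk, rfl⟩ := h
  obtain ⟨l, hl, rfl⟩ := h'
  exact ⟨l * k, K.mul_mem hl hk, by simp [List.map_map]⟩

lemma Eqv.map {K : Subgroup (Equiv.Perm α)} {w w' : List α} {k l : Equiv.Perm α} (hk : k ∈ K)
    (hl : l ∈ K) : Eqv K (w.map k) (w'.map l) ↔ Eqv K w w' := by
  constructor
  · intro h
    exact (Eqv.trans ⟨k, hk, rfl⟩ h).trans (Eqv.symm ⟨l, hl, rfl⟩)
  · intro h
    exact (Eqv.symm ⟨k, hk, rfl⟩).trans (h.trans ⟨l, hl, rfl⟩)

lemma Inq.symm {K : Subgroup (Equiv.Perm α)} {y y' : α} (h : Inq K y y') : Inq K y' y := by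
  intro k hk e
  exact h k⁻¹ (K.inv_mem hk) (by rw [← e]; simp)

lemma Inq.map {K : Subgroup (Equiv.Perm α)} {y y' : α} (h : Inq K y y') {k l : Equiv.Perm α}
    (hk : k ∈ K) (hl : l ∈ K) : Inq K (k y) (l y') := by
  intro m hm e
  refine h (l⁻¹ * m * k) (K.mul_mem (K.mul_mem (K.inv_mem hl) hm) hk) ?_
  simp only [Equiv.Perm.coe_mul, Function.comp_apply, e]
  simp

lemma Inq.mono {K L : Subgroup (Equiv.Perm α)} (hL : L ≤ K) {y y' : α} (h : Inq K y y') :
    Inq L y y' := fun k hk => h k (hL hk)

lemma stb_le (K : Subgroup (Equiv.Perm α)) (x : α) : stb K x ≤ K := inf_le_left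

/-- two forms of `Adm` for words with named last letters -/
lemma adm_iff {K : Subgroup (Equiv.Perm α)} {u v : List α} {q x w z : α} :
    Adm K (u ++ [q, x]) (v ++ [w, z]) ↔ ∀ k ∈ K, ¬ (k q = w ∧ k x = z) := by
  unfold Adm
  constructor
  · intro h k hk e
    apply h k hk
    simp [e.1, e.2]
  · intro h k hk e
    apply h k hk
    simp only [List.map_append, List.map_cons, List.map_nil, List.reverse_append,
      List.reverse_cons, List.reverse_nil, List.nil_append, List.singleton_append,
      List.cons_append, List.take_succ_cons, List.take_zero, List.cons.injEq, and_true] at e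
    exact ⟨e.2, e.1⟩

lemma Adm.symm {K : Subgroup (Equiv.Perm α)} {u v : List α} (h : Adm K u v) : Adm K v u := by
  intro k hk e
  apply h k⁻¹ (K.inv_mem hk)
  have : (v.map k).reverse.take 2 = (v.reverse.take 2).map k := by
    simp [← List.map_reverse, List.map_take]
  rw [this] at e
  rw [← List.map_reverse, ← List.map_take, ← e, List.map_map]
  simp

/-- `Adm` is invariant under translating the words by elements of `K` -/
lemma Adm.map {K : Subgroup (Equiv.Perm α)} {u v : List α} (h : Adm K u v) {k l : Equiv.Perm α}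
    (hk : k ∈ K) (hl : l ∈ K) : Adm K (u.map k) (v.map l) := by
  intro m hm e
  apply h (l⁻¹ * m * k) (K.mul_mem (K.mul_mem (K.inv_mem hl) hm) hk)
  have h1 : ((v.map l).reverse.take 2) = (v.reverse.take 2).map l := by
    simp [← List.map_reverse, List.map_take]
  have h2 : ((u.map (l⁻¹ * m * k)).reverse.take 2)
      = ((((u.map k).map m).reverse.take 2)).map (l⁻¹ : Equiv.Perm α) := by
    simp [← List.map_reverse, List.map_take, Function.comp_def]
  rw [h2, e, h1, List.map_map]
  simp

/-- inequivalent last letters give `Adm` -/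
lemma adm_of_inq {K : Subgroup (Equiv.Perm α)} {u v : List α} {x z : α} (h : Inq K x z) :
    Adm K (u ++ [x]) (v ++ [z]) := by
  intro k hk e
  apply h k hk
  have := congrArg List.head? e
  simpa using this

/-! ### transversal paths -/

namespace TPon

variable {K : Subgroup (Equiv.Perm α)} {S T : List α → Prop} {P Q : List (List α)}

lemma congr (h : TPon K S P) (hST : ∀ w, S w ↔ T w) : TPon K T P :=
  ⟨h.chain, fun w hw => (hST w).1 (h.mem w hw), fun w hw => h.cover w ((hST w).2 hw), h.inj⟩

lemma inj_iff (h : TPon K S P) {p q : List α} (hp : p ∈ P) (hq : q ∈ P) (e : Eqv K p q) :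
    p = q := by
  by_contra hne
  have hsym : Std.Symm (fun p q => ¬ Eqv K p q) := ⟨fun a b hab h' => hab h'.symm⟩
  exact h.inj.forall hp hq hne e

lemma nodup (h : TPon K S P) : P.Nodup :=
  List.Pairwise.imp (R := fun p q => ¬ Eqv K p q) (S := fun a b => a ≠ b)
    (fun {a b} hab e => hab (by rw [← e]; exact Eqv.refl K a)) h.inj

lemma reverse (h : TPon K S P) : TPon K S P.reverse := by
  refine ⟨?_, fun w hw => h.mem w (List.mem_reverse.1 hw), ?_, ?_⟩
  · rw [List.isChain_reverse]
    exact h.chain.imp (fun a b hab => hab.symm)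
  · intro w hw
    obtain ⟨p, hp, e⟩ := h.cover w hw
    exact ⟨p, List.mem_reverse.2 hp, e⟩
  · rw [List.pairwise_reverse]
    exact h.inj.imp (fun {a b} hab e => hab e.symm)

lemma map (h : TPon K S P) {k : Equiv.Perm α} (hk : k ∈ K) (hS : ∀ w, S w → S (w.map k)) :
    TPon K S (P.map (List.map k)) := by
  refine ⟨?_, ?_, ?_, ?_⟩
  · rw [List.isChain_map]
    exact h.chain.imp (fun a b hab => hab.map k)
  · intro w hw
    obtain ⟨p, hp, rfl⟩ := List.mem_map.1 hw
    exact hS p (h.mem p hp)
  · intro w hw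
    obtain ⟨p, hp, e⟩ := h.cover w hw
    refine ⟨p.map k, List.mem_map_of_mem hp, ?_⟩
    have := (Eqv.map (K := K) (w := p) (w' := w) hk K.one_mem).2 e
    simpa using this
  · rw [List.pairwise_map]
    exact h.inj.imp (fun {a b} hab e => hab ((Eqv.map hk hk).1 e))

/-- concatenation of two transversal paths on disjoint invariant sets -/
lemma append (h : TPon K S P) (h' : TPon K T Q) (hST : ∀ w w', S w → T w' → ¬ Eqv K w w')
    (hadj : ∀ p ∈ P.getLast?, ∀ q ∈ Q.head?, Adj p q) :
    TPon K (fun w => S w ∨ T w) (P ++ Q) := by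
  refine ⟨?_, ?_, ?_, ?_⟩
  · rw [List.isChain_append]
    exact ⟨h.chain, h'.chain, hadj⟩
  · intro w hw
    rcases List.mem_append.1 hw with hw | hw
    · exact Or.inl (h.mem w hw)
    · exact Or.inr (h'.mem w hw)
  · rintro w (hw | hw)
    · obtain ⟨p, hp, e⟩ := h.cover w hw
      exact ⟨p, List.mem_append_left _ hp, e⟩
    · obtain ⟨p, hp, e⟩ := h'.cover w hw
      exact ⟨p, List.mem_append_right _ hp, e⟩
  · rw [List.pairwise_append]
    exact ⟨h.inj, h'.inj, fun a ha b hb => hST a b (h.mem a ha) (h'.mem b hb)⟩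

/-- a transversal path for the stabiliser of `x`, with `x` appended to all words -/
lemma lift {x : α} (h : TPon (stb K x) S P) : TPon K (Pan.lift K x S) (P.map (· ++ [x])) := by
  refine ⟨?_, ?_, ?_, ?_⟩
  · rw [List.isChain_map]
    exact h.chain.imp (fun a b hab => hab.append [x])
  · intro w hw
    obtain ⟨p, hp, rfl⟩ := List.mem_map.1 hw
    exact ⟨1, K.one_mem, p, h.mem p hp, by simp⟩
  · rintro w ⟨k, hk, w', hw', rfl⟩
    obtain ⟨p, hp, l, hl, rfl⟩ := h.cover w' hw'
    refine ⟨p ++ [x], List.mem_map.2 ⟨p, hp, rfl⟩, k * l, K.mul_mem hk (stb_le K x hl), ?_⟩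
    have := (mem_stb.1 hl).2
    simp [List.map_map, this]
  · rw [List.pairwise_map]
    refine h.inj.imp (fun {a b} hab => ?_)
    rintro ⟨k, hk, e⟩
    apply hab
    rw [List.map_append, List.map_cons, List.map_nil] at e
    have := List.append_inj' e rfl
    refine ⟨k, mem_stb.2 ⟨hk, ?_⟩, this.1⟩
    simpa using this.2.symm

end TPon

/-! ### edges -/

namespace HasEdge

variable {K : Subgroup (Equiv.Perm α)} {P Q : List (List α)} {y y' : α}

lemma swap (h : HasEdge K P y y') : HasEdge K P y' y := by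
  obtain ⟨p, q, h1, h2 | h2⟩ := h
  · exact ⟨p, q, h1, Or.inr h2⟩
  · exact ⟨p, q, h1, Or.inl h2⟩

lemma mono (h : HasEdge K P y y') (hPQ : P <:+: Q) : HasEdge K Q y y' := by
  obtain ⟨p, q, h1, h2⟩ := h
  exact ⟨p, q, h1.trans hPQ, h2⟩

lemma reverse (h : HasEdge K P y y') : HasEdge K P.reverse y y' := by
  obtain ⟨p, q, h1, h2⟩ := h
  refine ⟨q, p, ?_, ?_⟩
  · have := List.reverse_infix.2 h1
    simpa using this
  · rcases h2 with ⟨k, hk, l, hl, e1, e2⟩ | ⟨k, hk, l, hl, e1, e2⟩
    · exact Or.inr ⟨l, hl, k, hk, e2, e1⟩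
    · exact Or.inl ⟨l, hl, k, hk, e2, e1⟩

lemma map (h : HasEdge K P y y') {k : Equiv.Perm α} (hk : k ∈ K) :
    HasEdge K (P.map (List.map k)) y y' := by
  obtain ⟨p, q, h1, h2⟩ := h
  refine ⟨p.map k, q.map k, ?_, ?_⟩
  · have := h1.map (List.map k)
    simpa using this
  · rcases h2 with ⟨l, hl, m, hm, e1, e2⟩ | ⟨l, hl, m, hm, e1, e2⟩
    · exact Or.inl ⟨k * l, K.mul_mem hk hl, k * m, K.mul_mem hk hm, by simp [e1], by simp [e2]⟩
    · exact Or.inr ⟨k * l, K.mul_mem hk hl, k * m, K.mul_mem hk hm, by simp [e1], by simp [e2]⟩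

/-- changing the letters inside their orbits -/
lemma letters (h : HasEdge K P y y') {k l : Equiv.Perm α} (hk : k ∈ K) (hl : l ∈ K) :
    HasEdge K P (k y) (l y') := by
  obtain ⟨p, q, h1, h2⟩ := h
  refine ⟨p, q, h1, ?_⟩
  rcases h2 with ⟨a, ha, b, hb, e1, e2⟩ | ⟨a, ha, b, hb, e1, e2⟩
  · exact Or.inl ⟨a * k⁻¹, K.mul_mem ha (K.inv_mem hk), b * l⁻¹, K.mul_mem hb (K.inv_mem hl),
      by simp [e1], by simp [e2]⟩
  · exact Or.inr ⟨a * l⁻¹, K.mul_mem ha (K.inv_mem hl), b * k⁻¹, K.mul_mem hb (K.inv_mem hk),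
      by simp [e1], by simp [e2]⟩

lemma lift {x : α} (h : HasEdge (stb K x) P y y') : HasEdge K (P.map (· ++ [x])) y y' := by
  obtain ⟨p, q, h1, h2⟩ := h
  refine ⟨p ++ [x], q ++ [x], ?_, ?_⟩
  · have := h1.map (· ++ [x])
    simpa using this
  · rcases h2 with ⟨a, ha, b, hb, e1, e2⟩ | ⟨a, ha, b, hb, e1, e2⟩
    · refine Or.inl ⟨a, stb_le K x ha, b, stb_le K x hb, ?_, ?_⟩ <;>
        simp [List.head?_append, e1, e2]
    · refine Or.inr ⟨a, stb_le K x ha, b, stb_le K x hb, ?_, ?_⟩ <;>
        simp [List.head?_append, e1, e2]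

end HasEdge

/-- conclusion of `Good` for a pair of words -/
def Conn (K : Subgroup (Equiv.Perm α)) (A : Finset α) (u v : List α) : Prop :=
  ∃ P, TPon K (Wd A) P ∧ P.head? = some u ∧ P.getLast? = some v ∧
    ∀ y ∈ A, ∀ y' ∈ A, Inq K y y' → HasEdge K P y y'

lemma Conn.symm {K : Subgroup (Equiv.Perm α)} {A : Finset α} {u v : List α} (h : Conn K A u v) :
    Conn K A v u := by
  obtain ⟨P, h1, h2, h3, h4⟩ := h
  exact ⟨P.reverse, h1.reverse, by simpa using h3, by simpa using h2,
    fun y hy y' hy' hi => (h4 y hy y' hy' hi).reverse⟩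

end Pan
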