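import Pool.Agent.Hhelper18.Pan.Defs

/-! # MODULE CH : chains of blocks

See the blueprint.  `Adj w w.reverse` is `adj_reverse`. -/

set_option linter.unusedSectionVars false

namespace Pan

variable {α : Type*} [DecidableEq α]

lemma getLast?_cons_concat (x z : α) (l : List α) : (x :: (l ++ [z])).getLast? = some z := by
  rw [← List.cons_append]
  exact List.getLast?_concat

lemma flat_nil : flat ([] : List (α × List (List α))) = [] := rfl

lemma flat_cons (b : α × List (List α)) (bs : List (α × List (List α))) :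
    flat (b :: bs) = b.2.map (· ++ [b.1]) ++ flat bs := rfl

lemma tp_ne_nil {K : Subgroup (Equiv.Perm α)} {B : Finset α} {P : List (List α)}
    (h : TPon K (Wd B) P) : P ≠ [] := by
  rintro rfl
  obtain ⟨w, hw⟩ := exists_wd B
  obtain ⟨p, hp, -⟩ := h.cover w hw
  simp at hp

lemma BC.tail {K : Subgroup (Equiv.Perm α)} {A : Finset α} {b : α × List (List α)}
    {bs : List (α × List (List α))} (h : BC K A (b :: bs)) : BC K A bs :=
  ⟨fun c hc => h.mem c (List.mem_cons_of_mem _ hc), fun c hc => h.tp c (List.mem_cons_of_mem _ hc),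
    h.junc.tail⟩

lemma BC.flat_head {K : Subgroup (Equiv.Perm α)} {A : Finset α} {b : α × List (List α)}
    {bs : List (α × List (List α))} (h : BC K A (b :: bs)) :
    (flat (b :: bs)).head? = b.2.head?.map (· ++ [b.1]) := by
  have hne := tp_ne_nil (h.tp b List.mem_cons_self)
  rw [flat_cons]
  cases hb : b.2 with
  | nil => exact absurd hb hne
  | cons p P => simp

lemma lift_iff {K : Subgroup (Equiv.Perm α)} {A : Finset α} {x : α} (hx : x ∈ A)
    (hp : ∀ k ∈ K, ∀ a ∈ A, k a ∈ A) (w : List α) :
    lift K x (Wd (A.erase x)) w ↔ Wd A w ∧ ∃ k ∈ K, w.getLast? = some (k x) := by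
  constructor
  · rintro ⟨k, hk, w', hw', rfl⟩
    refine ⟨((wd_append hx).2 hw').map (hp k hk), k, hk, ?_⟩
    simp
  · rintro ⟨hw, k, hk, hl⟩
    have h1 : Wd A (w.map (k⁻¹ : Equiv.Perm α)) := hw.map (hp _ (K.inv_mem hk))
    have h2 : (w.map (k⁻¹ : Equiv.Perm α)).getLast? = some x := by
      rw [List.getLast?_map, hl]
      simp
    obtain ⟨w', y, hy, hw', hw''⟩ := h1.exists_last ⟨x, hx⟩
    rw [hw'] at h2
    have hyx : y = x := by simpa using h2
    subst hyx
    refine ⟨k, hk, w', hw'', ?_⟩
    rw [← hw', List.map_map]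
    simp

/-- the path of a block chain with inequivalent letters is transversal -/
theorem BC.tpon {K : Subgroup (Equiv.Perm α)} {A : Finset α} {bs : List (α × List (List α))}
    (h : BC K A bs) (hA : 2 ≤ A.card) (hp : ∀ k ∈ K, ∀ a ∈ A, k a ∈ A)
    (hpw : (bs.map Prod.fst).Pairwise (Inq K)) :
    TPon K (LastIn K A (bs.map Prod.fst)) (flat bs) := by
  induction bs with
  | nil =>
    refine ⟨List.isChain_nil, by simp [flat_nil], ?_, List.Pairwise.nil⟩
    rintro w ⟨-, x, hx, -⟩
    simp at hx
  | cons b bs ih =>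
    rw [List.map_cons, List.pairwise_cons] at hpw
    have hbA : b.1 ∈ A := h.mem b List.mem_cons_self
    have htp := h.tp b List.mem_cons_self
    have h1 := htp.lift
    have h2 := ih h.tail hpw.2
    have h3 := h1.append h2 (by
      intro w w' hw hw' he
      rw [lift_iff hbA hp] at hw
      obtain ⟨-, k, hk, hwl⟩ := hw
      obtain ⟨-, y, hy, l, hl, hwl'⟩ := hw'
      obtain ⟨m, hm, rfl⟩ := he
      rw [List.getLast?_map, hwl] at hwl'
      simp only [Option.map_some, Option.some.injEq] at hwl'
      refine hpw.1 y hy (l⁻¹ * m * k) (K.mul_mem (K.mul_mem (K.inv_mem hl) hm) hk) ?_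
      simp only [Equiv.Perm.coe_mul, Function.comp_apply, hwl']
      simp) (by
      intro p hp' q hq
      cases bs with
      | nil => simp [flat_nil] at hq
      | cons c bs =>
        rw [h.tail.flat_head] at hq
        rw [List.getLast?_map] at hp'
        simp only [Option.mem_def, Option.map_eq_some_iff] at hp' hq
        obtain ⟨p', hp', rfl⟩ := hp'
        obtain ⟨q', hq', rfl⟩ := hq
        have hj := h.junc
        rw [List.isChain_cons_cons] at hj
        have hj' := hj.1 p' hp' q' hq'
        show Adj (p' ++ [b.1]) (q' ++ [c.1])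
        rw [hj']
        refine adj_reverse ?_
        have hwd : Wd A (p' ++ [b.1]) := (wd_append hbA).2 (htp.mem p' (List.mem_of_getLast? hp'))
        rw [hwd.length]
        exact hA)
    rw [flat_cons]
    refine h3.congr (fun w => ?_)
    rw [lift_iff hbA hp]
    constructor
    · rintro (⟨hw, k, hk, hl⟩ | ⟨hw, y, hy, k, hk, hl⟩)
      · exact ⟨hw, b.1, by simp, k, hk, hl⟩
      · exact ⟨hw, y, by rw [List.map_cons]; exact List.mem_cons_of_mem _ hy, k, hk, hl⟩
    · rintro ⟨hw, y, hy, k, hk, hl⟩
      rw [List.map_cons, List.mem_cons] at hy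
      rcases hy with rfl | hy
      · exact Or.inl ⟨hw, k, hk, hl⟩
      · exact Or.inr ⟨hw, y, hy, k, hk, hl⟩

/-- representatives of the orbits contained in an invariant set, with prescribed first and last
element -/
theorem exists_reps (K : Subgroup (Equiv.Perm α)) (B : Finset α)
    (hB : ∀ k ∈ K, ∀ b ∈ B, k b ∈ B) {x z : α} (hx : x ∈ B) (hz : z ∈ B) (hi : Inq K x z) :
    ∃ xs : List α, xs.head? = some x ∧ xs.getLast? = some z ∧ 2 ≤ xs.length ∧
      xs.Pairwise (Inq K) ∧ (∀ y ∈ xs, y ∈ B) ∧ ∀ b ∈ B, ∃ y ∈ xs, ∃ k ∈ K, k y = b := by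
  classical
  let s : Setoid α := MulAction.orbitRel K α
  let rep : α → α := fun b => (Quotient.mk s b).out
  have hrep : ∀ b, ∃ k ∈ K, k (rep b) = b := by
    intro b
    have h1 : s (rep b) b := Quotient.mk_out b
    have h2 : b ∈ MulAction.orbit K (rep b) := by
      have h3 : s b (rep b) := s.symm h1
      exact h3
    obtain ⟨⟨k, hk⟩, h4⟩ := h2
    exact ⟨k, hk, h4⟩
  have hrep2 : ∀ b b', (∃ k ∈ K, k b = b') → rep b = rep b' := by
    rintro b b' ⟨k, hk, rfl⟩
    show (Quotient.mk s b).out = (Quotient.mk s (k b)).out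
    congr 1
    apply Quotient.sound
    show b ∈ MulAction.orbit K (k b)
    exact ⟨⟨k⁻¹, K.inv_mem hk⟩, by
      show (k⁻¹ : Equiv.Perm α) (k b) = b
      simp⟩
  let C : Finset α := (B.image rep).filter (fun y => Inq K x y ∧ Inq K z y)
  have hC : ∀ y ∈ C.toList, (∃ b ∈ B, rep b = y) ∧ Inq K x y ∧ Inq K z y := by
    intro y hy
    rw [Finset.mem_toList, Finset.mem_filter, Finset.mem_image] at hy
    exact ⟨hy.1, hy.2.1, hy.2.2⟩
  refine ⟨x :: (C.toList ++ [z]), rfl, getLast?_cons_concat _ _ _, by simp, ?_, ?_, ?_⟩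
  · rw [List.pairwise_cons]
    constructor
    · intro y hy
      rw [List.mem_append, List.mem_singleton] at hy
      rcases hy with hy | rfl
      · exact (hC y hy).2.1
      · exact hi
    · rw [List.pairwise_append]
      refine ⟨?_, List.pairwise_singleton _ _, ?_⟩
      · have hnd : C.toList.Pairwise (· ≠ ·) := C.nodup_toList
        refine List.Pairwise.imp_of_mem ?_ hnd
        intro y y' hy hy' hne k hk hky
        obtain ⟨⟨b, hb, rfl⟩, -⟩ := hC y hy
        obtain ⟨⟨b', hb', rfl⟩, -⟩ := hC y' hy'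
        apply hne
        apply hrep2
        obtain ⟨l, hl, hlb⟩ := hrep b
        obtain ⟨l', hl', hlb'⟩ := hrep b'
        refine ⟨l' * k * l⁻¹, K.mul_mem (K.mul_mem hl' hk) (K.inv_mem hl), ?_⟩
        rw [← hlb]
        simp [hky, hlb']
      · intro y hy w hw
        rw [List.mem_singleton] at hw
        subst hw
        exact (hC y hy).2.2.symm
  · intro y hy
    rw [List.mem_cons, List.mem_append, List.mem_singleton] at hy
    rcases hy with rfl | hy | rfl
    · exact hx
    · obtain ⟨⟨b, hb, rfl⟩, -⟩ := hC y hy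
      obtain ⟨l, hl, hlb⟩ := hrep b
      have h5 : rep b = (l⁻¹ : Equiv.Perm α) b := by
        rw [Equiv.Perm.eq_inv_iff_eq]
        exact hlb
      rw [h5]
      exact hB l⁻¹ (K.inv_mem hl) b hb
    · exact hz
  · intro b hb
    obtain ⟨l, hl, hlb⟩ := hrep b
    by_cases h1 : Inq K x (rep b)
    · by_cases h2 : Inq K z (rep b)
      · refine ⟨rep b, ?_, l, hl, hlb⟩
        rw [List.mem_cons, List.mem_append, Finset.mem_toList, Finset.mem_filter]
        exact Or.inr (Or.inl ⟨Finset.mem_image_of_mem _ hb, h1, h2⟩)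
      · unfold Inq at h2
        push Not at h2
        obtain ⟨k, hk, hkz⟩ := h2
        refine ⟨z, by simp, l * k, K.mul_mem hl hk, ?_⟩
        rw [Equiv.Perm.mul_apply, hkz, hlb]
    · unfold Inq at h1
      push Not at h1
      obtain ⟨k, hk, hkx⟩ := h1
      refine ⟨x, by simp, l * k, K.mul_mem hl hk, ?_⟩
      rw [Equiv.Perm.mul_apply, hkx, hlb]

/-- a block chain with one block -/
theorem blockOne {K : Subgroup (Equiv.Perm α)} {A : Finset α} {x : α} (hx : x ∈ A)
    (hp : ∀ k ∈ K, ∀ a ∈ A, k a ∈ A)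
    (h : Good (stb K x) (A.erase x)) {u v : List α} (hu : Wd A (u ++ [x])) (hv : Wd A (v ++ [x]))
    (hadm : Adm (stb K x) u v) :
    ∃ bs, BC K A bs ∧ bs.map Prod.fst = [x] ∧ (flat bs).head? = some (u ++ [x]) ∧
      (flat bs).getLast? = some (v ++ [x]) ∧
      (∀ y ∈ A, ∀ y' ∈ A, y ≠ x → y' ≠ x → Inq K y y' → HasEdge K (flat bs) y y') := by
  obtain ⟨P, hP, hPh, hPl, hPe⟩ := h u v ((wd_append hx).1 hu) ((wd_append hx).1 hv) hadm
  refine ⟨[(x, P)], ⟨?_, ?_, ?_⟩, rfl, ?_, ?_, ?_⟩
  · intro b hb
    rw [List.mem_singleton] at hb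
    rw [hb]
    exact hx
  · intro b hb
    rw [List.mem_singleton] at hb
    rw [hb]
    exact hP
  · exact List.isChain_singleton _
  · rw [flat_cons, flat_nil, List.append_nil]
    show (P.map (· ++ [x])).head? = _
    rw [List.head?_map, hPh]
    rfl
  · rw [flat_cons, flat_nil, List.append_nil]
    show (P.map (· ++ [x])).getLast? = _
    rw [List.getLast?_map, hPl]
    rfl
  · intro y hy y' hy' hyx hy'x hi
    rw [flat_cons, flat_nil, List.append_nil]
    exact (hPe y (Finset.mem_erase.2 ⟨hyx, hy⟩) y' (Finset.mem_erase.2 ⟨hy'x, hy'⟩)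
      (hi.mono (stb_le K x))).lift

/-- prepend a block to a block chain -/
lemma BC.cons {K : Subgroup (Equiv.Perm α)} {A : Finset α} {x x2 : α}
    {P : List (List α)} {bs : List (α × List (List α))} {xs : List α} {mid : List α}
    (hx : x ∈ A) (hP : TPon (stb K x) (Wd (A.erase x)) P) (hPl : P.getLast? = some (x2 :: mid))
    (hbs : BC K A bs) (hfst : bs.map Prod.fst = x2 :: xs)
    (hh : (flat bs).head? = some (x :: mid.reverse ++ [x2])) : BC K A ((x, P) :: bs) := by
  cases bs with
  | nil => simp at hfst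
  | cons c bs =>
    have hc : c.1 = x2 := by
      rw [List.map_cons, List.cons.injEq] at hfst
      exact hfst.1
    refine ⟨?_, ?_, ?_⟩
    · intro b hb
      rw [List.mem_cons] at hb
      rcases hb with rfl | hb
      · exact hx
      · exact hbs.mem b hb
    · intro b hb
      rw [List.mem_cons] at hb
      rcases hb with rfl | hb
      · exact hP
      · exact hbs.tp b hb
    · rw [List.isChain_cons_cons]
      refine ⟨?_, hbs.junc⟩
      intro p hp q hq
      rw [hbs.flat_head] at hh
      have hq' : c.2.head? = some q := hq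
      rw [hq', Option.map_some, Option.some.injEq] at hh
      have hp' : P.getLast? = some p := hp
      rw [hPl, Option.some.injEq] at hp'
      subst hp'
      rw [hh]
      simp

lemma flat_ne_nil {K : Subgroup (Equiv.Perm α)} {A : Finset α} {b : α × List (List α)}
    {bs : List (α × List (List α))} (h : BC K A (b :: bs)) : flat (b :: bs) ≠ [] := by
  intro h'
  have h1 := h.flat_head
  rw [h'] at h1
  have hne := tp_ne_nil (h.tp b List.mem_cons_self)
  cases hb : b.2 with
  | nil => exact hne hb
  | cons p P => rw [hb] at h1; simp at h1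

/-- the induction for `chainSome` -/
theorem chainSome_aux {K : Subgroup (Equiv.Perm α)} {A : Finset α} (h : ChainHyp K A)
    (v : List α) (hv : Wd A v) (rest : List α) :
    ∀ (x x2 : α), (∀ y ∈ x :: x2 :: rest, y ∈ A) → (x :: x2 :: rest).Pairwise (Inq K) →
    ∀ u : List α, Wd A u → u.getLast? = some x → v.getLast? = (x :: x2 :: rest).getLast? →
    ∃ bs, BC K A bs ∧ bs.map Prod.fst = x :: x2 :: rest ∧ (flat bs).head? = some u ∧
      (flat bs).getLast? = some v ∧
      (∀ w ∈ x :: x2 :: rest, ∀ y ∈ A, ∀ y' ∈ A, y ≠ w → y' ≠ w → Inq K y y' →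
        HasEdge K (flat bs) y y') ∧
      (rest = [] → HasEdge K (flat bs) x x2) := by
  induction rest with
  | nil =>
    intro x z hsub hpw u hu hux hvz
    have hx : x ∈ A := hsub x (by simp)
    have hz : z ∈ A := hsub z (by simp)
    have hi : Inq K x z := (List.pairwise_cons.1 hpw).1 z (by simp)
    have hxz : x ≠ z := by
      rintro rfl
      exact hi 1 K.one_mem rfl
    obtain ⟨u0, x', hx', rfl, hu0⟩ := hu.exists_last ⟨x, hx⟩
    have hxx : x' = x := by simpa using hux
    subst hxx
    obtain ⟨v0, z', hz', rfl, hv0⟩ := hv.exists_last ⟨z, hz⟩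
    have hzz : z' = z := by simpa using hvz
    subst hzz
    obtain ⟨mid, hmid, hadm1, hadm2⟩ := h.pick x' hx z' hz hxz u0 v0 hu0 hv0
    have hw1 : Wd (A.erase x') (z' :: mid) := (wd_append hx).1 hmid
    have hw2 : Wd (A.erase z') (x' :: mid.reverse) := by
      apply (wd_append hz).1
      have := hmid.reverse
      simpa using this
    obtain ⟨P1, hP1, hP1h, hP1l, hP1e⟩ := h.good x' hx u0 (z' :: mid) hu0 hw1 hadm1
    obtain ⟨P2, hP2, hP2h, hP2l, hP2e⟩ := h.good z' hz (x' :: mid.reverse) v0 hw2 hv0 hadm2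
    have hbc2 : BC K A [(z', P2)] := by
      refine ⟨?_, ?_, List.isChain_singleton _⟩
      · intro b hb
        rw [List.mem_singleton] at hb
        rw [hb]
        exact hz
      · intro b hb
        rw [List.mem_singleton] at hb
        rw [hb]
        exact hP2
    have hflat2 : flat [(z', P2)] = P2.map (· ++ [z']) := by
      rw [flat_cons, flat_nil, List.append_nil]
    have hbc := BC.cons hx hP1 hP1l hbc2 (xs := []) rfl (by
      rw [hflat2, List.head?_map, hP2h]
      rfl)
    have hflat : flat [(x', P1), (z', P2)] = P1.map (· ++ [x']) ++ P2.map (· ++ [z']) := by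
      rw [flat_cons, hflat2]
    refine ⟨_, hbc, rfl, ?_, ?_, ?_, ?_⟩
    · rw [hflat, List.head?_append, List.head?_map, hP1h]
      rfl
    · rw [hflat, List.getLast?_append, List.getLast?_map, List.getLast?_map, hP2l]
      rfl
    · intro w hw y hy y' hy' hyw hy'w hi'
      rw [hflat]
      simp only [List.mem_cons, List.not_mem_nil, or_false] at hw
      rcases hw with rfl | rfl
      · refine ((hP1e y (Finset.mem_erase.2 ⟨hyw, hy⟩) y' (Finset.mem_erase.2 ⟨hy'w, hy'⟩)
          (hi'.mono (stb_le K _))).lift).mono ?_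
        exact (List.prefix_append _ _).isInfix
      · refine ((hP2e y (Finset.mem_erase.2 ⟨hyw, hy⟩) y' (Finset.mem_erase.2 ⟨hy'w, hy'⟩)
          (hi'.mono (stb_le K _))).lift).mono ?_
        exact (List.suffix_append _ _).isInfix
    · intro _
      rw [hflat]
      refine ⟨z' :: mid ++ [x'], x' :: mid.reverse ++ [z'], ?_, Or.inr ⟨1, K.one_mem, 1, K.one_mem, ?_, ?_⟩⟩
      · obtain ⟨Q1, hQ1⟩ := List.getLast?_eq_some_iff.1 hP1l
        obtain ⟨Q2, hQ2⟩ : ∃ Q2, P2 = (x' :: mid.reverse) :: Q2 := by
          cases P2 with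
          | nil => simp at hP2h
          | cons p P => exact ⟨P, by simpa using hP2h⟩
        refine ⟨Q1.map (· ++ [x']), Q2.map (· ++ [z']), ?_⟩
        rw [hQ1, hQ2]
        simp
      · simp
      · simp
  | cons x3 rest ih =>
    intro x x2 hsub hpw u hu hux hvz
    have hx : x ∈ A := hsub x (by simp)
    have hx2 : x2 ∈ A := hsub x2 (by simp)
    have hi : Inq K x x2 := (List.pairwise_cons.1 hpw).1 x2 (by simp)
    have hxz : x ≠ x2 := by
      rintro rfl
      exact hi 1 K.one_mem rfl
    obtain ⟨u0, x', hx', rfl, hu0⟩ := hu.exists_last ⟨x, hx⟩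
    have hxx : x' = x := by simpa using hux
    subst hxx
    obtain ⟨c, hc⟩ := exists_wd (A.erase x2)
    obtain ⟨mid, hmid, hadm1, -⟩ := h.pick x' hx x2 hx2 hxz u0 c hu0 hc
    have hw1 : Wd (A.erase x') (x2 :: mid) := (wd_append hx).1 hmid
    have hw2 : Wd A (x' :: mid.reverse ++ [x2]) := by
      have := hmid.reverse
      simpa using this
    obtain ⟨P1, hP1, hP1h, hP1l, hP1e⟩ := h.good x' hx u0 (x2 :: mid) hu0 hw1 hadm1
    obtain ⟨bs, hbs, hfst, hbh, hbl, hbe, -⟩ := ih x2 x3
      (fun y hy => hsub y (List.mem_cons_of_mem _ hy)) (List.pairwise_cons.1 hpw).2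
      (x' :: mid.reverse ++ [x2]) hw2 (getLast?_cons_concat _ _ _) (by rw [hvz, List.getLast?_cons_cons])
    have hbc := BC.cons hx hP1 hP1l hbs hfst hbh
    have hflat : flat ((x', P1) :: bs) = P1.map (· ++ [x']) ++ flat bs := flat_cons _ _
    refine ⟨_, hbc, by rw [List.map_cons, hfst], ?_, ?_, ?_, ?_⟩
    · rw [hflat, List.head?_append, List.head?_map, hP1h]
      rfl
    · rw [hflat, List.getLast?_append, hbl]
      rfl
    · intro w hw y hy y' hy' hyw hy'w hi'
      rw [hflat]
      rw [List.mem_cons] at hw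
      rcases hw with rfl | hw
      · refine ((hP1e y (Finset.mem_erase.2 ⟨hyw, hy⟩) y' (Finset.mem_erase.2 ⟨hy'w, hy'⟩)
          (hi'.mono (stb_le K _))).lift).mono ?_
        exact (List.prefix_append _ _).isInfix
      · exact (hbe w hw y hy y' hy' hyw hy'w hi').mono (List.suffix_append _ _).isInfix
    · intro h'
      simp at h'

/-- chains through given orbits with arbitrary ends -/
theorem chainSome {K : Subgroup (Equiv.Perm α)} {A : Finset α} (h : ChainHyp K A)
    (xs : List α) (hsub : ∀ x ∈ xs, x ∈ A) (hpw : xs.Pairwise (Inq K)) (hlen : 2 ≤ xs.length)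
    (u v : List α) (hu : Wd A u) (hv : Wd A v) (hu' : u.getLast? = xs.head?)
    (hv' : v.getLast? = xs.getLast?) :
    ∃ bs, BC K A bs ∧ bs.map Prod.fst = xs ∧ (flat bs).head? = some u ∧
      (flat bs).getLast? = some v ∧
      (∀ x ∈ xs, ∀ y ∈ A, ∀ y' ∈ A, y ≠ x → y' ≠ x → Inq K y y' → HasEdge K (flat bs) y y') ∧
      (∀ x x', xs = [x, x'] → HasEdge K (flat bs) x x') := by
  match xs, hlen with
  | x :: x2 :: rest, _ =>
    obtain ⟨bs, h1, h2, h3, h4, h5, h6⟩ := chainSome_aux h v hv rest x x2 hsub hpw u hu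
      (by rw [hu']; rfl) hv'
    refine ⟨bs, h1, h2, h3, h4, h5, ?_⟩
    intro y y' hyy
    simp only [List.cons.injEq] at hyy
    obtain ⟨rfl, rfl, hr⟩ := hyy
    exact h6 hr

/-- words with inequivalent last letters -/
theorem conn_chain {K : Subgroup (Equiv.Perm α)} {A : Finset α} (h : ChainHyp K A)
    (h3 : 3 ≤ A.card) {u v : List α} {x z : α} (hu : Wd A (u ++ [x])) (hv : Wd A (v ++ [z]))
    (hi : Inq K x z) : Conn K A (u ++ [x]) (v ++ [z]) := by
  have hx : x ∈ A := hu.mem.1 (by simp)
  have hz : z ∈ A := hv.mem.1 (by simp)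
  obtain ⟨xs, hh, hl, hlen, hpw, hxA, hcov⟩ := exists_reps K A h.pres hx hz hi
  obtain ⟨bs, hbs, hfst, hbh, hbl, hbe, -⟩ := chainSome h xs hxA hpw hlen (u ++ [x]) (v ++ [z])
    hu hv (by rw [hh]; simp) (by rw [hl]; simp)
  have htp := hbs.tpon (by omega) h.pres (by rw [hfst]; exact hpw)
  rw [hfst] at htp
  refine ⟨flat bs, htp.congr ?_, hbh, hbl, ?_⟩
  · intro w
    constructor
    · exact fun hw => hw.1
    · intro hw
      refine ⟨hw, ?_⟩
      obtain ⟨w', y, hy, rfl, -⟩ := hw.exists_last ⟨x, hx⟩
      obtain ⟨r, hr, k, hk, hkr⟩ := hcov y hy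
      exact ⟨r, hr, k, hk, by simp [hkr]⟩
  · intro y hy y' hy' hyy
    by_cases hex : ∃ r ∈ xs, Inq K r y ∧ Inq K r y'
    · obtain ⟨r, hr, h1, h2⟩ := hex
      refine hbe r hr y hy y' hy' ?_ ?_ hyy
      · rintro rfl
        exact h1 1 K.one_mem rfl
      · rintro rfl
        exact h2 1 K.one_mem rfl
    · push Not at hex
      -- every representative is equivalent to `y` or to `y'`
      have hor : ∀ r ∈ xs, (∃ k ∈ K, k r = y) ∨ (∃ k ∈ K, k r = y') := by
        intro r hr
        by_cases h1 : Inq K r y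
        · have h2 := hex r hr h1
          unfold Inq at h2
          push Not at h2
          exact Or.inr h2
        · unfold Inq at h1
          push Not at h1
          exact Or.inl h1
      -- the key claim
      have key : ∀ r ∈ xs, ∀ k ∈ K, k r ∈ A → k r ≠ r → HasEdge K (flat bs) y y' := by
        intro r hr k hk hkA hkr
        rcases hor r hr with ⟨l, hl, hly⟩ | ⟨l, hl, hly⟩
        · have h1 : Inq K (k r) y' := by
            have := hyy.map (K.mul_mem hk (K.inv_mem hl)) K.one_mem
            simpa [← hly] using this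
          have h2 : y' ≠ r := by
            rintro rfl
            exact hyy l⁻¹ (K.inv_mem hl) (by rw [← hly]; simp)
          have h4 := hbe r hr (k r) hkA y' hy' hkr h2 h1
          have h5 := h4.letters (K.mul_mem hl (K.inv_mem hk)) K.one_mem
          simpa [hly] using h5
        · have h1 : Inq K (k r) y := by
            have := hyy.symm.map (K.mul_mem hk (K.inv_mem hl)) K.one_mem
            simpa [← hly] using this
          have h2 : y ≠ r := by
            rintro rfl
            exact hyy l hl hly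
          have h4 := hbe r hr (k r) hkA y hy hkr h2 h1
          have h5 := h4.letters (K.mul_mem hl (K.inv_mem hk)) K.one_mem
          have h6 : HasEdge K (flat bs) y' y := by simpa [hly] using h5
          exact h6.swap
      -- there is a letter which is not a representative
      by_contra hno
      have hfix : ∀ a ∈ A, a ∈ xs := by
        intro a ha
        obtain ⟨r, hr, k, hk, hkr⟩ := hcov a ha
        by_cases har : k r = r
        · rw [← hkr, har]
          exact hr
        · exact absurd (key r hr k hk (by rw [hkr]; exact ha) har) hno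
      -- so all orbits are single letters and there are at least three of them
      have hsing : ∀ a ∈ A, ∀ k ∈ K, k a = a := by
        intro a ha k hk
        by_contra hne
        exact hno (key a (hfix a ha) k hk (h.pres k hk a ha) hne)
      obtain ⟨a, ha, hay, hay'⟩ : ∃ a ∈ A, a ≠ y ∧ a ≠ y' := by
        by_contra hcon
        push Not at hcon
        have : A ⊆ {y, y'} := by
          intro a ha
          rw [Finset.mem_insert, Finset.mem_singleton]
          by_cases h1 : a = y
          · exact Or.inl h1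
          · exact Or.inr (hcon a ha h1)
        have h5 := (Finset.card_le_card this).trans Finset.card_le_two
        omega
      rcases hor a (hfix a ha) with ⟨k, hk, e⟩ | ⟨k, hk, e⟩
      · exact hay (by rw [← e, hsing a ha k hk])
      · exact hay' (by rw [← e, hsing a ha k hk])

end Pan
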