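import Pool.Agent.Hhelper18.Pan.Defs

/-! # MODULE CL : the class of groups -/

set_option linter.unusedSectionVars false

namespace Pan

variable {α : Type*} [DecidableEq α]

namespace Cls

variable {R K : Subgroup (Equiv.Perm α)} {A : Finset α}

theorem inv_apply_self' (k : Equiv.Perm α) (a : α) : k⁻¹ (k a) = a := k.symm_apply_apply a

theorem bot (A : Finset α) : Cls (⊥ : Subgroup (Equiv.Perm α)) ⊥ A := by
  refine ⟨le_rfl, ⟨1, Subgroup.zpowers_one_eq_bot.symm⟩, ?_, ?_, ?_, ?_, ?_, ?_⟩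
  · intro k hk hk'; exact absurd hk hk'
  · intro k hk l hl hk'; exact absurd hk hk'
  · intro k hk a _
    rw [Subgroup.mem_bot] at hk
    rw [hk]; rfl
  · intro k hk hk'; exact absurd hk hk'
  · intro r hr b hb
    rw [Subgroup.mem_bot] at hr
    subst hr
    exact ⟨1, Subgroup.one_mem _, fun a => ⟨fun _ => rfl, fun _ => rfl⟩⟩
  · rintro k hk a ha ⟨r, hr, hra⟩
    rw [Subgroup.mem_bot] at hr
    subst hr
    exact absurd rfl hra

theorem pres (h : Cls R K A) : ∀ k ∈ K, ∀ a ∈ A, k a ∈ A := by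
  intro k hk a ha
  by_contra hcon
  have h1 := h.out k hk (k a) hcon
  have h2 : k a = a := k.injective h1
  exact hcon (h2.symm ▸ ha)

theorem comm (h : Cls R K A) : ∀ r ∈ R, ∀ s ∈ R, r * s = s * r := by
  obtain ⟨g, hg⟩ := h.cyc
  intro r hr s hs
  rw [hg, Subgroup.mem_zpowers_iff] at hr hs
  obtain ⟨m, rfl⟩ := hr
  obtain ⟨n, rfl⟩ := hs
  rw [← zpow_add, ← zpow_add, add_comm]

/-- The stabiliser of `x` in `R` has the same orbits as `R` outside the orbit of `x`. -/
theorem key (h : Cls R K A) {x b : α} (hb : b ∈ A) (hbx : ¬ ∃ s ∈ R, s b = x) {s : Equiv.Perm α}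
    (hs : s ∈ R) : ∃ s' ∈ Pan.stb R x, s' b = s b := by
  obtain ⟨r', hr', hr⟩ := h.prod s hs b hb
  refine ⟨r', mem_stb.2 ⟨hr', (hr x).2 hbx⟩, (hr b).1 ⟨1, R.one_mem, rfl⟩⟩

/-- Elements of the stabiliser of `x` in `R` fix the orbit of `x`. -/
theorem fix_orbit (h : Cls R K A) {x b : α} (hbx : ∃ s ∈ R, s b = x) {r : Equiv.Perm α}
    (hr : r ∈ Pan.stb R x) : r b = b := by
  obtain ⟨s, hs, hsb⟩ := hbx
  rw [mem_stb] at hr
  have h1 : s (r b) = s b := by
    have h2 : (s * r) b = (r * s) b := by rw [h.comm s hs r hr.1]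
    rw [Equiv.Perm.mul_apply, Equiv.Perm.mul_apply, hsb, hr.2] at h2
    rw [h2, hsb]
  exact s.injective h1

/-- the class is closed under stabilisers of letters -/
theorem stb (h : Cls R K A) {x : α} (hx : x ∈ A) :
    Cls (Pan.stb R x) (Pan.stb K x) (A.erase x) := by
  refine ⟨?_, ?_, ?_, ?_, ?_, ?_, ?_, ?_⟩
  · intro r hr
    rw [mem_stb] at hr ⊢
    exact ⟨h.le hr.1, hr.2⟩
  · obtain ⟨g, hg⟩ := h.cyc
    have hle : Pan.stb R x ≤ Subgroup.zpowers g := by
      rw [← hg]; intro r hr; exact (mem_stb.1 hr).1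
    have hcyc : IsCyclic (Pan.stb R x) := Subgroup.isCyclic_of_le hle
    obtain ⟨g', hg'⟩ := (Subgroup.isCyclic_iff_exists_zpowers_eq_top _).1 hcyc
    exact ⟨g', hg'.symm⟩
  · intro k hk hk' r hr
    rw [mem_stb] at hk hr
    have hkR : k ∉ R := fun hkR => hk' (mem_stb.2 ⟨hkR, hk.2⟩)
    exact h.inv k hk.1 hkR r hr.1
  · intro k hk l hl hk' hl'
    rw [mem_stb] at hk hl
    have hkR : k ∉ R := fun hkR => hk' (mem_stb.2 ⟨hkR, hk.2⟩)
    have hlR : l ∉ R := fun hlR => hl' (mem_stb.2 ⟨hlR, hl.2⟩)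
    refine mem_stb.2 ⟨h.idx k hk.1 l hl.1 hkR hlR, ?_⟩
    rw [Equiv.Perm.mul_apply, hl.2, hk.2]
  · intro k hk a ha
    rw [mem_stb] at hk
    by_cases hax : a = x
    · rw [hax]; exact hk.2
    · exact h.out k hk.1 a fun haA => ha (Finset.mem_erase.2 ⟨hax, haA⟩)
  · intro k hk hk'
    rw [mem_stb] at hk
    have hkR : k ∉ R := fun hkR => hk' (mem_stb.2 ⟨hkR, hk.2⟩)
    refine (h.refl k hk.1 hkR).trans (le_of_eq ?_)
    congr 1
    ext a
    simp only [Finset.mem_filter, Finset.mem_erase]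
    constructor
    · rintro ⟨h1, h2⟩
      exact ⟨⟨fun hax => h2 (by rw [hax]; exact hk.2), h1⟩, h2⟩
    · rintro ⟨⟨_, h1⟩, h2⟩
      exact ⟨h1, h2⟩
  · intro r hr b hb
    rw [Finset.mem_erase] at hb
    have hr0 := hr
    rw [mem_stb] at hr
    by_cases hbx : ∃ s ∈ R, s b = x
    · refine ⟨1, Subgroup.one_mem _, fun a => ⟨?_, fun _ => rfl⟩⟩
      rintro ⟨s, hs, hsb⟩
      rw [h.fix_orbit hbx hs] at hsb
      rw [← hsb, h.fix_orbit hbx hr0]
      rfl
    · obtain ⟨r', hr', hrr⟩ := h.prod r hr.1 b hb.2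
      refine ⟨r', mem_stb.2 ⟨hr', (hrr x).2 hbx⟩, fun a => ⟨?_, ?_⟩⟩
      · rintro ⟨s, hs, hsb⟩
        exact (hrr a).1 ⟨s, (mem_stb.1 hs).1, hsb⟩
      · intro hna
        refine (hrr a).2 ?_
        rintro ⟨s, hs, hsb⟩
        obtain ⟨s', hs', hs'b⟩ := h.key hb.2 hbx hs
        exact hna ⟨s', hs', hs'b.trans hsb⟩
  · rintro k hk a ha ⟨r, hr, hra⟩
    rw [mem_stb] at hk
    rw [Finset.mem_erase] at ha
    have hax : ¬ ∃ s ∈ R, s a = x := fun hax => hra (h.fix_orbit hax hr)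
    obtain ⟨s, hs, hsa⟩ := h.same k hk.1 a ha.2 ⟨r, (mem_stb.1 hr).1, hra⟩
    obtain ⟨s', hs', hs'a⟩ := h.key ha.2 hax hs
    exact ⟨s', hs', hs'a.trans hsa⟩

theorem eq_of_card (h : Cls R K A) (hA : A.card ≤ 5) : K = R := by
  refine le_antisymm ?_ h.le
  intro k hk
  by_contra hkR
  have h1 := h.refl k hk hkR
  have h2 := Finset.card_filter_le A (fun a => k a ≠ a)
  omega

/-- With at most six letters, a reflection moves all letters and there are no rotations. -/
theorem small (h : Cls R K A) (hA : A.card ≤ 6) {k₀ : Equiv.Perm α} (hk₀ : k₀ ∈ K)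
    (hk₀R : k₀ ∉ R) : (∀ k ∈ K, k ∉ R → ∀ a ∈ A, k a ≠ a) ∧ R = ⊥ := by
  have hall : ∀ k ∈ K, k ∉ R → ∀ a ∈ A, k a ≠ a := by
    intro k hk hkR a ha
    have h1 := h.refl k hk hkR
    have h2 := Finset.card_filter_le A (fun a => k a ≠ a)
    have h3 : A.filter (fun a => k a ≠ a) = A :=
      Finset.eq_of_subset_of_card_le (Finset.filter_subset _ _) (by omega)
    have h4 : a ∈ A.filter (fun a => k a ≠ a) := by rw [h3]; exact ha
    exact (Finset.mem_filter.1 h4).2
  refine ⟨hall, ?_⟩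
  rw [Subgroup.eq_bot_iff_forall]
  intro r hr
  ext a
  rw [Equiv.Perm.one_apply]
  by_contra hra
  have haA : a ∈ A := by
    by_contra haA
    exact hra (h.out r (h.le hr) a haA)
  obtain ⟨s, hs, hsa⟩ := h.same k₀ hk₀ a haA ⟨r, hr, hra⟩
  have h1 : s⁻¹ * k₀ ∈ K := K.mul_mem (K.inv_mem (h.le hs)) hk₀
  have h2 : s⁻¹ * k₀ ∉ R := by
    intro h3
    apply hk₀R
    have := R.mul_mem hs h3
    rwa [mul_inv_cancel_left] at this
  apply hall _ h1 h2 a haA
  rw [Equiv.Perm.mul_apply, ← hsa, Pan.Cls.inv_apply_self']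

theorem comm_of_card (h : Cls R K A) (hA : A.card ≤ 6) : ∀ k ∈ K, ∀ l ∈ K, k * l = l * k := by
  by_cases hKR : ∀ k ∈ K, k ∈ R
  · intro k hk l hl
    exact h.comm k (hKR k hk) l (hKR l hl)
  · push Not at hKR
    obtain ⟨k₀, hk₀, hk₀R⟩ := hKR
    obtain ⟨_, hbot⟩ := h.small hA hk₀ hk₀R
    intro k hk l hl
    by_cases hkR : k ∈ R
    · rw [hbot, Subgroup.mem_bot] at hkR
      rw [hkR, one_mul, mul_one]
    · by_cases hlR : l ∈ R
      · rw [hbot, Subgroup.mem_bot] at hlR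
        rw [hlR, one_mul, mul_one]
      · have h1 := h.idx k hk l hl hkR hlR
        have h2 := h.idx l hl k hk hlR hkR
        rw [hbot, Subgroup.mem_bot] at h1 h2
        rw [h1, h2]

/-- orbits of the stabiliser of `x` on the orbit of `x` have at most two elements -/
theorem orb2 (h : Cls R K A) {x z : α} (hx : x ∈ A) (hz : ∃ k ∈ K, k x = z) :
    ∀ k ∈ Pan.stb K x, ∀ l ∈ Pan.stb K x, k z ≠ z → l z ≠ z → k z = l z := by
  intro k hk l hl hkz hlz
  rw [mem_stb] at hk hl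
  obtain ⟨k₀, hk₀, rfl⟩ := hz
  by_cases hmv : ∃ r ∈ R, r x ≠ x
  · obtain ⟨r₀, hr₀, hr₀x⟩ := h.same k₀ hk₀ x hx hmv
    rw [← hr₀x] at hkz hlz ⊢
    have aux : ∀ m ∈ K, m x = x → m (r₀ x) ≠ r₀ x → m (r₀ x) = r₀⁻¹ x := by
      intro m hm hmx hmz
      have hmR : m ∉ R := by
        intro hmR
        apply hmz
        have := h.comm m hmR r₀ hr₀
        rw [← Equiv.Perm.mul_apply, this, Equiv.Perm.mul_apply, hmx]
      have h1 := h.inv m hm hmR r₀ hr₀
      have h2 : m * r₀ = r₀⁻¹ * m := by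
        rw [← h1]; group
      rw [← Equiv.Perm.mul_apply, h2, Equiv.Perm.mul_apply, hmx]
    rw [aux k hk.1 hk.2 hkz, aux l hl.1 hl.2 hlz]
  · exfalso
    push Not at hmv
    have hk₀R : k₀ ∉ R := by
      intro hk₀R
      apply hkz
      rw [hmv k₀ hk₀R, hk.2]
    by_cases hkR : k ∈ R
    · -- k * k₀ and k₀ agree at x
      apply hkz
      have h1 : k₀⁻¹ * (k * k₀) ∈ R := by
        have h2 : k * k₀ ∈ K := K.mul_mem hk.1 hk₀
        have h3 : k * k₀ ∉ R := by
          intro h4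
          apply hk₀R
          have := R.mul_mem (R.inv_mem hkR) h4
          rwa [inv_mul_cancel_left] at this
        have h5 : k₀⁻¹ ∉ R := fun h6 => hk₀R (by simpa using R.inv_mem h6)
        exact h.idx k₀⁻¹ (K.inv_mem hk₀) (k * k₀) h2 h5 h3
      have h6 := hmv _ h1
      rw [Equiv.Perm.mul_apply, Equiv.Perm.mul_apply, Equiv.Perm.inv_eq_iff_eq] at h6
      exact h6
    · have h1 := hmv _ (h.idx k hk.1 k₀ hk₀ hkR hk₀R)
      rw [Equiv.Perm.mul_apply] at h1
      -- k (k₀ x) = x = k x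
      have h2 : k₀ x = x := by
        apply k.injective
        rw [h1, hk.2]
      apply hkz
      rw [h2, hk.2]

theorem orb1 (h : Cls R K A) (hA : A.card ≤ 6) {x z : α} (hz : ∃ k ∈ K, k x = z) :
    ∀ k ∈ Pan.stb K x, k z = z := by
  intro k hk
  rw [mem_stb] at hk
  obtain ⟨k₀, hk₀, rfl⟩ := hz
  rw [← Equiv.Perm.mul_apply, h.comm_of_card hA k hk.1 k₀ hk₀, Equiv.Perm.mul_apply, hk.2]

theorem orb_eq (K : Subgroup (Equiv.Perm α)) (A : Finset α) (hpres : ∀ k ∈ K, ∀ a ∈ A, k a ∈ A)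
    {x : α} (hx : x ∈ A) [DecidablePred fun y => ∃ k ∈ K, k x = y] :
    orb K x = (A.filter fun y => ∃ k ∈ K, k x = y).card := by
  unfold orb
  apply Nat.subtype_card
  intro y
  rw [Finset.mem_filter]
  constructor
  · rintro ⟨_, h⟩; exact h
  · rintro ⟨k, hk, rfl⟩
    exact ⟨hpres k hk x hx, k, hk, rfl⟩

/-- nontrivial orbits of `R` in different positions have coprime sizes -/
theorem coprime (h : Cls R K A) {x y : α} (hx : x ∈ A) (hy : y ∈ A) (hxy : Inq R x y) :
    Nat.Coprime (orb R x) (orb R y) := by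
  classical
  obtain ⟨g, hg⟩ := h.cyc
  have hgR : g ∈ R := by rw [hg]; exact Subgroup.mem_zpowers g
  have hper : ∀ b ∈ A, orb R b = Function.minimalPeriod (fun z => g • z) b := by
    intro b hb
    have hiff : ∀ z, z ∈ MulAction.orbit (Subgroup.zpowers g) b ↔ ∃ k ∈ R, k b = z := by
      intro z
      rw [MulAction.mem_orbit_iff]
      constructor
      · rintro ⟨k, hk⟩
        exact ⟨k.1, by rw [hg]; exact k.2, hk⟩
      · rintro ⟨k, hk, hkz⟩
        exact ⟨⟨k, by rw [← hg]; exact hk⟩, hkz⟩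
    have hfin : Finite (MulAction.orbit (Subgroup.zpowers g) b) := by
      apply Set.Finite.subset (Finset.finite_toSet A)
      intro z hz
      obtain ⟨k, hk, rfl⟩ := (hiff z).1 hz
      exact h.pres k (h.le hk) b hb
    haveI : Fintype (MulAction.orbit (Subgroup.zpowers g) b) := Fintype.ofFinite _
    rw [MulAction.minimalPeriod_eq_card, ← Nat.card_eq_fintype_card]
    unfold orb
    apply Nat.card_congr
    exact Equiv.subtypeEquivRight fun z => (hiff z).symm
  obtain ⟨g', hg', hgg⟩ := h.prod g hgR x hx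
  have hg'2 := hg'
  rw [hg, Subgroup.mem_zpowers_iff] at hg'2
  obtain ⟨a, rfl⟩ := hg'2
  have h1 : (g ^ a) x = g x := (hgg x).1 ⟨1, R.one_mem, rfl⟩
  have h2 : (g ^ a) y = y := (hgg y).2 (by
    rintro ⟨s, hs, hsx⟩
    exact hxy s hs hsx)
  rw [hper x hx, hper y hy]
  have d1 : ((Function.minimalPeriod (fun z => g • z) x : ℕ) : ℤ) ∣ a - 1 := by
    rw [← MulAction.zpow_smul_eq_iff_minimalPeriod_dvd, Equiv.Perm.smul_def, zpow_sub, zpow_one]
    have h3 : g ^ a * g⁻¹ = g⁻¹ * g ^ a := by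
      rw [← zpow_neg_one, ← zpow_add, ← zpow_add, add_comm]
    rw [h3, Equiv.Perm.mul_apply, h1, Pan.Cls.inv_apply_self']
  have d2 : ((Function.minimalPeriod (fun z => g • z) y : ℕ) : ℤ) ∣ a := by
    rw [← MulAction.zpow_smul_eq_iff_minimalPeriod_dvd, Equiv.Perm.smul_def]
    exact h2
  rw [← Nat.isCoprime_iff_coprime]
  obtain ⟨u, hu⟩ := d1
  obtain ⟨v, hv⟩ := d2
  refine ⟨-u, v, ?_⟩
  have : a - (a - 1) = 1 := by ring
  rw [hu] at this
  nth_rewrite 1 [hv] at this
  linarith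

/-- six letters, at most two orbits: the stabiliser of a letter with a nontrivial orbit is trivial -/
theorem stb_bot (h : Cls R K A) (hA : A.card = 6) {x z : α} (hx : x ∈ A) (hz : z ∈ A)
    (htwo : ∀ y ∈ A, ¬ Inq K x y ∨ ¬ Inq K z y) (hmv : ∃ k ∈ K, k x ≠ x) :
    Pan.stb K x = ⊥ := by
  classical
  rw [Subgroup.eq_bot_iff_forall]
  intro k hk
  have hk0 := hk
  rw [mem_stb] at hk
  by_cases hKR : ∀ k ∈ K, k ∈ R
  · have hKR' : K = R := le_antisymm hKR h.le
    subst hKR'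
    by_contra hk1
    -- a moved letter
    have hb : ∃ b, k b ≠ b := by
      by_contra hcon
      push Not at hcon
      exact hk1 (Equiv.ext hcon)
    obtain ⟨b, hb⟩ := hb
    have hbA : b ∈ A := by
      by_contra hbA
      exact hb (h.out k hk.1 b hbA)
    have hbx : ¬ ∃ s ∈ K, s b = x := fun hbx => hb (h.fix_orbit hbx hk0)
    have hbx' : Inq K x b := by
      intro s hs hsx
      apply hbx
      refine ⟨s⁻¹, K.inv_mem hs, ?_⟩
      rw [← hsx, Pan.Cls.inv_apply_self']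
    have hzb : ¬ Inq K z b := by
      rcases htwo b hbA with h1 | h1
      · exact absurd hbx' h1
      · exact h1
    have hzb' : ∃ s ∈ K, s z = b := by
      unfold Inq at hzb
      push Not at hzb
      exact hzb
    have hxz : Inq K x z := by
      intro s hs hsx
      obtain ⟨t, ht, htz⟩ := hzb'
      apply hbx' (t * s) (K.mul_mem ht hs)
      rw [Equiv.Perm.mul_apply, hsx, htz]
    have hcop := h.coprime hx hz hxz
    rw [orb_eq K A h.pres hx, orb_eq K A h.pres hz] at hcop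
    set X := A.filter fun y => ∃ k ∈ K, k x = y with hX
    set Z := A.filter fun y => ∃ k ∈ K, k z = y with hZ
    have hdisj : Disjoint X Z := by
      rw [Finset.disjoint_left]
      intro y hy hy'
      obtain ⟨s, hs, hsx⟩ := (Finset.mem_filter.1 hy).2
      obtain ⟨t, ht, htz⟩ := (Finset.mem_filter.1 hy').2
      apply hxz (t⁻¹ * s) (K.mul_mem (K.inv_mem ht) hs)
      rw [Equiv.Perm.mul_apply, hsx, ← htz, Pan.Cls.inv_apply_self']
    have hunion : X ∪ Z = A := by
      ext y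
      rw [Finset.mem_union, hX, hZ, Finset.mem_filter, Finset.mem_filter]
      constructor
      · rintro (⟨h1, _⟩ | ⟨h1, _⟩) <;> exact h1
      · intro hy
        rcases htwo y hy with h1 | h1
        · unfold Inq at h1
          push Not at h1
          exact Or.inl ⟨hy, h1⟩
        · unfold Inq at h1
          push Not at h1
          exact Or.inr ⟨hy, h1⟩
    have hcard : X.card + Z.card = 6 := by
      rw [← Finset.card_union_of_disjoint hdisj, hunion, hA]
    have hX2 : 1 < X.card := by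
      rw [Finset.one_lt_card]
      obtain ⟨s, hs, hsx⟩ := hmv
      exact ⟨x, Finset.mem_filter.2 ⟨hx, 1, K.one_mem, rfl⟩, s x,
        Finset.mem_filter.2 ⟨h.pres s hs x hx, s, hs, rfl⟩, hsx.symm⟩
    have hZ2 : 1 < Z.card := by
      rw [Finset.one_lt_card]
      obtain ⟨t, ht, htz⟩ := hzb'
      refine ⟨b, Finset.mem_filter.2 ⟨hbA, t, ht, htz⟩, k b,
        Finset.mem_filter.2 ⟨h.pres k hk.1 b hbA, k * t, K.mul_mem hk.1 ht, ?_⟩, hb.symm⟩
      rw [Equiv.Perm.mul_apply, htz]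
    have hXc : X.card = 2 ∨ X.card = 3 ∨ X.card = 4 := by omega
    rcases hXc with h1 | h1 | h1
    · have h2 : Z.card = 4 := by omega
      rw [h1, h2] at hcop
      exact absurd hcop (by decide)
    · have h2 : Z.card = 3 := by omega
      rw [h1, h2] at hcop
      exact absurd hcop (by decide)
    · have h2 : Z.card = 2 := by omega
      rw [h1, h2] at hcop
      exact absurd hcop (by decide)
  · push Not at hKR
    obtain ⟨k₀, hk₀, hk₀R⟩ := hKR
    obtain ⟨hall, hbot⟩ := h.small hA.le hk₀ hk₀R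
    by_cases hkR : k ∈ R
    · rw [hbot, Subgroup.mem_bot] at hkR
      exact hkR
    · exact absurd hk.2 (hall k hk.1 hkR x hx)

/-- a transitive group of the class on at least six letters: the rotations act regularly -/
theorem transitive (h : Cls R K A) (hA : 6 ≤ A.card) (hone : ∀ x ∈ A, ∀ y ∈ A, ¬ Inq K x y) :
    (∀ x ∈ A, ∀ y ∈ A, ∃ r ∈ R, r x = y) ∧ ∀ r ∈ R, ∀ x ∈ A, r x = x → r = 1 := by
  have hone' : ∀ x ∈ A, ∀ y ∈ A, ∃ k ∈ K, k x = y := by
    intro x hx y hy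
    have h1 := hone x hx y hy
    unfold Inq at h1
    push Not at h1
    exact h1
  by_cases hmv : ∃ x₀ ∈ A, ∃ r ∈ R, r x₀ ≠ x₀
  · obtain ⟨x₀, hx₀, hmv⟩ := hmv
    have htr : ∀ y ∈ A, ∃ r ∈ R, r x₀ = y := by
      intro y hy
      obtain ⟨k, hk, hky⟩ := hone' x₀ hx₀ y hy
      obtain ⟨r, hr, hrx⟩ := h.same k hk x₀ hx₀ hmv
      exact ⟨r, hr, hrx.trans hky⟩
    have htr' : ∀ x ∈ A, ∀ y ∈ A, ∃ r ∈ R, r x = y := by
      intro x hx y hy
      obtain ⟨r, hr, hrx⟩ := htr x hx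
      obtain ⟨s, hs, hsy⟩ := htr y hy
      refine ⟨s * r⁻¹, R.mul_mem hs (R.inv_mem hr), ?_⟩
      rw [Equiv.Perm.mul_apply, ← hrx, Pan.Cls.inv_apply_self', hsy]
    refine ⟨htr', fun r hr x hx hrx => ?_⟩
    ext y
    rw [Equiv.Perm.one_apply]
    by_cases hy : y ∈ A
    · obtain ⟨s, hs, rfl⟩ := htr' x hx y hy
      rw [← Equiv.Perm.mul_apply, h.comm r hr s hs, Equiv.Perm.mul_apply, hrx]
    · exact h.out r (h.le hr) y hy
  · exfalso
    push Not at hmv
    obtain ⟨x₀, hx₀⟩ : A.Nonempty := Finset.card_pos.1 (by omega)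
    -- elements of `R` are trivial
    have hR : ∀ r ∈ R, r = 1 := by
      intro r hr
      ext a
      rw [Equiv.Perm.one_apply]
      by_cases ha : a ∈ A
      · exact hmv a ha r hr
      · exact h.out r (h.le hr) a ha
    by_cases hKR : ∀ k ∈ K, k ∈ R
    · have h1 : A ⊆ {x₀} := by
        intro y hy
        obtain ⟨k, hk, hky⟩ := hone' x₀ hx₀ y hy
        rw [hR k (hKR k hk)] at hky
        rw [Finset.mem_singleton]
        exact hky.symm
      have h2 := Finset.card_le_card h1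
      rw [Finset.card_singleton] at h2
      omega
    · push Not at hKR
      obtain ⟨k₀, hk₀, hk₀R⟩ := hKR
      have h1 : A ⊆ {x₀, k₀ x₀} := by
        intro y hy
        obtain ⟨k, hk, hky⟩ := hone' x₀ hx₀ y hy
        rw [Finset.mem_insert, Finset.mem_singleton]
        by_cases hkR : k ∈ R
        · rw [hR k hkR] at hky
          exact Or.inl hky.symm
        · right
          have h3 : k₀⁻¹ ∉ R := fun h6 => hk₀R (by simpa using R.inv_mem h6)
          have h4 := hR _ (h.idx k₀⁻¹ (K.inv_mem hk₀) k hk h3 hkR)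
          have h5 : k = k₀ := by
            rw [inv_mul_eq_one] at h4
            exact h4.symm
          rw [← hky, h5]
      have h2 := Finset.card_le_card h1
      have h3 := Finset.card_le_two (a := x₀) (b := k₀ x₀)
      omega

end Cls

end Pan
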