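import Pool.Agent.Hhelper18.Pan.Chain

/-! # Pieces of copies (used in modules TW and ON) -/

set_option linter.unusedSectionVars false

namespace Pan

variable {α : Type*} [DecidableEq α]

/-- words which are equivalent to a word whose last letters are `q, x` with `q` in `X` -/
def Piece (K : Subgroup (Equiv.Perm α)) (A : Finset α) (x : α) (X : List α) : List α → Prop :=
  lift K x (LastIn (stb K x) (A.erase x) X)

lemma piece_iff {K : Subgroup (Equiv.Perm α)} {A : Finset α} (hp : ∀ k ∈ K, ∀ a ∈ A, k a ∈ A)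
    {x : α} (hx : x ∈ A) {X : List α} {w : List α} :
    Piece K A x X w ↔ Wd A w ∧ ∃ q ∈ X, ∃ k ∈ K, ∃ w0, w = w0 ++ [k q, k x] := by
  constructor
  · rintro ⟨k, hk, w', ⟨hw', q, hq, l, hl, hlast⟩, rfl⟩
    refine ⟨((wd_append hx).2 hw').map (hp k hk), q, hq, k * l, K.mul_mem hk (stb_le K x hl), ?_⟩
    obtain ⟨w0, rfl⟩ : ∃ w0, w' = w0 ++ [l q] := by
      rw [List.getLast?_eq_some_iff] at hlast
      exact hlast
    refine ⟨w0.map k, ?_⟩
    simp [(mem_stb.1 hl).2]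
  · rintro ⟨hw, q, hq, k, hk, w0, rfl⟩
    have hk' : k⁻¹ ∈ K := K.inv_mem hk
    have h1 : Wd A ((w0 ++ [k q, k x]).map (k⁻¹ : Equiv.Perm α)) := hw.map (hp _ hk')
    have h2 : (w0 ++ [k q, k x]).map (k⁻¹ : Equiv.Perm α)
        = (w0.map (k⁻¹ : Equiv.Perm α) ++ [q]) ++ [x] := by simp
    rw [h2, wd_append hx] at h1
    refine ⟨k, hk, w0.map (k⁻¹ : Equiv.Perm α) ++ [q], ⟨h1, q, hq, 1, one_mem _, by simp⟩, ?_⟩
    simp [Function.comp_def]

/-- the pieces of `x` with `X` and of `κ x` with `X'` are disjoint -/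
lemma piece_disj {K : Subgroup (Equiv.Perm α)} {A : Finset α} (hp : ∀ k ∈ K, ∀ a ∈ A, k a ∈ A)
    {x x' : α} (hx : x ∈ A) (hx'A : x' ∈ A) {κ : Equiv.Perm α} (hκ : κ ∈ K) (hx' : κ x = x')
    {X X' : List α} (hX : ∀ q ∈ X, ∀ q' ∈ X', Inq (stb K x') (κ q) q') {w w' : List α}
    (h : Piece K A x X w) (h' : Piece K A x' X' w') : ¬ Eqv K w w' := by
  rw [piece_iff hp hx] at h
  rw [piece_iff hp hx'A] at h'
  obtain ⟨-, q, hq, k, hk, w0, rfl⟩ := h
  obtain ⟨-, q', hq', k', hk', w0', rfl⟩ := h'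
  rintro ⟨m, hm, e⟩
  simp only [List.map_append, List.map_cons, List.map_nil] at e
  have e2 := (List.append_inj' e rfl).2
  simp only [List.cons.injEq, and_true] at e2
  refine hX q hq q' hq' (k'⁻¹ * m * k * κ⁻¹) (mem_stb.2 ⟨?_, ?_⟩) ?_
  · exact K.mul_mem (K.mul_mem (K.mul_mem (K.inv_mem hk') hm) hk) (K.inv_mem hκ)
  · have : (κ⁻¹ : Equiv.Perm α) x' = x := by rw [← hx']; simp
    simp only [Equiv.Perm.coe_mul, Function.comp_apply, this, ← e2.2]
    simp
  · have h3 : (κ⁻¹ : Equiv.Perm α) (κ q) = q := by simp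
    simp only [Equiv.Perm.coe_mul, Function.comp_apply, h3, ← e2.1]
    simp

/-- the pieces of `x` with `X` and of `κ x` with `X'` cover all words with last letter in `K x` -/
lemma piece_cover {K : Subgroup (Equiv.Perm α)} {A : Finset α} (hp : ∀ k ∈ K, ∀ a ∈ A, k a ∈ A)
    {x x' : α} (hx : x ∈ A) (hx'A : x' ∈ A) {κ : Equiv.Perm α} (hκ : κ ∈ K) (hx' : κ x = x')
    (h2 : 2 ≤ A.card)
    {X X' : List α} (hX : ∀ r ∈ A.erase x', (∃ q ∈ X, ∃ l ∈ stb K x', l (κ q) = r) ∨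
      (∃ q ∈ X', ∃ l ∈ stb K x', l q = r)) {w : List α} (hw : LastIn K A [x'] w) :
    Piece K A x X w ∨ Piece K A x' X' w := by
  rw [piece_iff hp hx, piece_iff hp hx'A]
  obtain ⟨hw, x'', hx'', k, hk, hlast⟩ := hw
  obtain rfl : x'' = x' := by simpa using hx''
  rw [List.getLast?_eq_some_iff] at hlast
  obtain ⟨w1, rfl⟩ := hlast
  have hlen := hw.length
  simp only [List.length_append, List.length_cons, List.length_nil] at hlen
  have hne : w1 ≠ [] := by
    rintro rfl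
    simp at hlen
    omega
  obtain ⟨w0, a, rfl⟩ : ∃ w0 a, w1 = w0 ++ [a] := ⟨w1.dropLast, w1.getLast hne,
    (List.dropLast_append_getLast hne).symm⟩
  have ha : (k⁻¹ : Equiv.Perm α) a ∈ A.erase x'' := by
    rw [Finset.mem_erase]
    constructor
    · intro e
      have : a = k x'' := by rw [← e]; simp
      have hnd := hw.1
      rw [this] at hnd
      simp [List.nodup_append] at hnd
    · exact hp _ (K.inv_mem hk) _ (hw.mem.1 (by simp))
  rcases hX _ ha with ⟨q, hq, l, hl, e⟩ | ⟨q, hq, l, hl, e⟩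
  · left
    refine ⟨hw, q, hq, k * l * κ, K.mul_mem (K.mul_mem hk (stb_le K _ hl)) hκ, w0, ?_⟩
    have h3 : l x'' = x'' := (mem_stb.1 hl).2
    simp [e, hx', h3]
  · right
    refine ⟨hw, q, hq, k * l, K.mul_mem hk (stb_le K _ hl), w0, ?_⟩
    have h3 : l x'' = x'' := (mem_stb.1 hl).2
    simp [e, h3]

lemma Piece.lastIn {K : Subgroup (Equiv.Perm α)} {A : Finset α} (hp : ∀ k ∈ K, ∀ a ∈ A, k a ∈ A)
    {x : α} (hx : x ∈ A) {X : List α} {w : List α} (h : Piece K A x X w) : LastIn K A [x] w := by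
  rw [piece_iff hp hx] at h
  obtain ⟨hw, q, hq, k, hk, w0, rfl⟩ := h
  exact ⟨hw, x, by simp, k, hk, by simp [List.getLast?_append]⟩

/-- words whose last letters are in different orbits are not equivalent -/
lemma lastIn_disj {K : Subgroup (Equiv.Perm α)} {A : Finset α} {x z : α} (hi : Inq K x z)
    {w w' : List α} (h : LastIn K A [x] w) (h' : LastIn K A [z] w') : ¬ Eqv K w w' := by
  obtain ⟨-, x1, hx1, k, hk, e⟩ := h
  obtain ⟨-, z1, hz1, k', hk', e'⟩ := h'
  obtain rfl : x1 = x := by simpa using hx1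
  obtain rfl : z1 = z := by simpa using hz1
  rintro ⟨m, hm, rfl⟩
  rw [List.getLast?_map, e] at e'
  simp only [Option.map_some, Option.some.injEq] at e'
  refine hi (k'⁻¹ * m * k) (K.mul_mem (K.mul_mem (K.inv_mem hk') hm) hk) ?_
  simp only [Equiv.Perm.coe_mul, Function.comp_apply, e']
  simp

/-- path in a piece from a block chain -/
lemma BC.piece {K : Subgroup (Equiv.Perm α)} {A : Finset α} {x : α} {bs : List (α × List (List α))}
    (h : BC (stb K x) (A.erase x) bs) (h2 : 2 ≤ (A.erase x).card)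
    (hp : ∀ k ∈ stb K x, ∀ a ∈ A.erase x, k a ∈ A.erase x)
    (hpw : (bs.map Prod.fst).Pairwise (Inq (stb K x))) :
    TPon K (Piece K A x (bs.map Prod.fst)) ((flat bs).map (· ++ [x])) :=
  (h.tpon h2 hp hpw).lift

end Pan
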