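import Pool.Agent.Hhelper18.Pan.Basic

/-! # Block chains, the class of groups, cyclic sequences of words -/

set_option linter.unusedSectionVars false

namespace Pan

variable {α : Type*} [DecidableEq α]

/-- One can choose a word `x' … x` on `A` whose pair of last letters (inside the block of `x`) is
admissible with respect to `b`, and whose reversal is admissible (inside the block of `x'`) with
respect to `c`. -/
def Pick (K : Subgroup (Equiv.Perm α)) (A : Finset α) : Prop :=
  ∀ x ∈ A, ∀ x' ∈ A, x ≠ x' → ∀ b c, Wd (A.erase x) b → Wd (A.erase x') c →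
    ∃ mid, Wd A (x' :: (mid ++ [x])) ∧ Adm (stb K x) b (x' :: mid) ∧
      Adm (stb K x') (x :: mid.reverse) c

/-- hypotheses of the chain construction -/
structure ChainHyp (K : Subgroup (Equiv.Perm α)) (A : Finset α) : Prop where
  pres : ∀ k ∈ K, ∀ a ∈ A, k a ∈ A
  good : ∀ x ∈ A, Good (stb K x) (A.erase x)
  pick : Pick K A

/-- A chain of blocks: a list of pairs `(x, S)`, where `S` is a transversal path for the stabiliser
of `x` on the words on `A \ {x}`; the first word of a block is the full reversal of the last word of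
the previous block (with the block letters appended). -/
structure BC (K : Subgroup (Equiv.Perm α)) (A : Finset α) (bs : List (α × List (List α))) :
    Prop where
  mem : ∀ b ∈ bs, b.1 ∈ A
  tp : ∀ b ∈ bs, TPon (stb K b.1) (Wd (A.erase b.1)) b.2
  junc : bs.IsChain fun b c => ∀ p ∈ b.2.getLast?, ∀ q ∈ c.2.head?,
    q ++ [c.1] = (p ++ [b.1]).reverse

/-- the path of a block chain -/
def flat (bs : List (α × List (List α))) : List (List α) :=
  (bs.map fun b => b.2.map (· ++ [b.1])).flatten

/-- words on `A` whose last letter is equivalent to one of the letters `xs` -/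
def LastIn (K : Subgroup (Equiv.Perm α)) (A : Finset α) (xs : List α) (w : List α) : Prop :=
  Wd A w ∧ ∃ x ∈ xs, ∃ k ∈ K, w.getLast? = some (k x)

/-- The class of groups used in the induction: `R` is the group of rotations, elements of `K`
outside `R` are reflections. -/
structure Cls (R K : Subgroup (Equiv.Perm α)) (A : Finset α) : Prop where
  le : R ≤ K
  cyc : ∃ g, R = Subgroup.zpowers g
  inv : ∀ k ∈ K, k ∉ R → ∀ r ∈ R, k * r * k⁻¹ = r⁻¹
  idx : ∀ k ∈ K, ∀ l ∈ K, k ∉ R → l ∉ R → k * l ∈ R
  out : ∀ k ∈ K, ∀ a, a ∉ A → k a = a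
  refl : ∀ k ∈ K, k ∉ R → 6 ≤ (A.filter fun a => k a ≠ a).card
  prod : ∀ r ∈ R, ∀ b ∈ A, ∃ r' ∈ R, ∀ a,
    ((∃ s ∈ R, s b = a) → r' a = r a) ∧ ((¬ ∃ s ∈ R, s b = a) → r' a = a)
  same : ∀ k ∈ K, ∀ a ∈ A, (∃ r ∈ R, r a ≠ a) → ∃ r ∈ R, r a = k a

/-- the size of the orbit of a letter -/
noncomputable def orb (K : Subgroup (Equiv.Perm α)) (x : α) : ℕ :=
  Nat.card {y : α // ∃ k ∈ K, k x = y}

/-- two words are neighbours on the cyclic sequence `L` -/
def CycAdj (L : List (List α)) (w w' : List α) : Prop :=
  [w, w'] <:+: L ∨ [w', w] <:+: L ∨ (L.head? = some w ∧ L.getLast? = some w') ∨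
    (L.head? = some w' ∧ L.getLast? = some w)

/-- a Hamiltonian cycle of the pancake graph on words on all letters, as a cyclic sequence -/
structure HamL [Fintype α] (L : List (List α)) : Prop where
  chain : L.IsChain Adj
  close : ∀ p ∈ L.getLast?, ∀ q ∈ L.head?, Adj p q
  nodup : L.Nodup
  mem : ∀ w, w ∈ L ↔ Wd Finset.univ w
  len : 3 ≤ L.length

/-- `s` is the number of relabelings of the letters which preserve some Hamiltonian cycle -/
def SizeAt (α : Type*) [DecidableEq α] [Fintype α] (s : ℕ) : Prop :=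
  ∃ L : List (List α), HamL L ∧
    Nat.card {g : Equiv.Perm α // ∀ w w', CycAdj L w w' → CycAdj L (w.map g) (w'.map g)} = s

/-- the edges of a path `P`, and extra edges `cl`, with all their `K`-translates -/
def EK (K : Subgroup (Equiv.Perm α)) (P : List (List α)) (cl : List (List α × List α))
    (w w' : List α) : Prop :=
  ∃ k ∈ K, ∃ p q, ([p, q] <:+: P ∨ (p, q) ∈ cl) ∧
    ((w = p.map k ∧ w' = q.map k) ∨ (w = q.map k ∧ w' = p.map k))

end Pan
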