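import Pool.Agent.Hhelper18.Pan.Chain

/-! # Common part of the modules EC and ED : components of a symmetric relation that are paths -/

set_option linter.unusedSectionVars false

namespace Pan

section lists

variable {W : Type*}

lemma infix2 {L : List W} {a b : W} : [a, b] <:+: L ↔ ∃ s t, L = s ++ a :: b :: t := by
  constructor
  · rintro ⟨s, t, rfl⟩
    exact ⟨s, t, by simp⟩
  · rintro ⟨s, t, rfl⟩
    exact ⟨s, t, by simp⟩

/-- `w` and `w'` are consecutive terms of the list `L`, in one of the two orders -/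
def Nb (L : List W) (w w' : W) : Prop := [w, w'] <:+: L ∨ [w', w] <:+: L

lemma Nb.symm {L : List W} {w w' : W} (h : Nb L w w') : Nb L w' w := Or.symm h

lemma infix2_reverse {L : List W} {a b : W} : [a, b] <:+: L.reverse ↔ [b, a] <:+: L := by
  rw [← List.reverse_infix, List.reverse_reverse]
  simp

lemma nb_reverse {L : List W} {w w' : W} : Nb L.reverse w w' ↔ Nb L w w' := by
  unfold Nb
  rw [infix2_reverse, infix2_reverse]
  exact or_comm

lemma Nb.mem_left {L : List W} {w w' : W} (h : Nb L w w') : w ∈ L := by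
  rcases h with h | h
  · exact h.subset (by simp)
  · exact h.subset (by simp)

lemma Nb.mem_right {L : List W} {w w' : W} (h : Nb L w w') : w' ∈ L := h.symm.mem_left

lemma infix2_map {V : Type*} {f : W → V} {L : List W} {a b : V} :
    [a, b] <:+: L.map f ↔ ∃ p q, [p, q] <:+: L ∧ f p = a ∧ f q = b := by
  constructor
  · rw [infix2]
    rintro ⟨s, t, h⟩
    obtain ⟨l1, l2, rfl, h1, h2⟩ := List.map_eq_append_iff.1 h
    obtain ⟨p, l3, rfl, hp, h3⟩ := List.map_eq_cons_iff.1 h2
    obtain ⟨q, l4, rfl, hq, h4⟩ := List.map_eq_cons_iff.1 h3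
    exact ⟨p, q, infix2.2 ⟨l1, l4, rfl⟩, hp, hq⟩
  · rintro ⟨p, q, h, rfl, rfl⟩
    have := h.map f
    simpa using this

lemma nb_map {V : Type*} {f : W → V} {L : List W} {a b : V} :
    Nb (L.map f) a b ↔ ∃ p q, Nb L p q ∧ f p = a ∧ f q = b := by
  unfold Nb
  rw [infix2_map, infix2_map]
  constructor
  · rintro (⟨p, q, h, rfl, rfl⟩ | ⟨p, q, h, rfl, rfl⟩)
    · exact ⟨p, q, Or.inl h, rfl, rfl⟩
    · exact ⟨q, p, Or.inr h, rfl, rfl⟩
  · rintro ⟨p, q, h | h, rfl, rfl⟩
    · exact Or.inl ⟨p, q, h, rfl, rfl⟩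
    · exact Or.inr ⟨q, p, h, rfl, rfl⟩

/-- consecutive terms of a concatenation -/
lemma infix2_append {L M : List W} {a b : W} :
    [a, b] <:+: L ++ M ↔ [a, b] <:+: L ∨ [a, b] <:+: M ∨
      (L.getLast? = some a ∧ M.head? = some b) := by
  constructor
  · rw [infix2]
    rintro ⟨s, t, h⟩
    rw [List.append_eq_append_iff] at h
    rcases h with ⟨l, h1, h2⟩ | ⟨l, h1, h2⟩
    · exact Or.inr (Or.inl (infix2.2 ⟨l, t, h2⟩))
    · rcases l with _ | ⟨c, l⟩
      · refine Or.inr (Or.inl (infix2.2 ⟨[], t, by simpa using h2.symm⟩))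
      · simp only [List.cons_append, List.cons.injEq] at h2
        obtain ⟨rfl, h2⟩ := h2
        rcases l with _ | ⟨d, l⟩
        · refine Or.inr (Or.inr ⟨by simp [h1], ?_⟩)
          simp only [List.nil_append] at h2
          rw [← h2]; rfl
        · simp only [List.cons_append, List.cons.injEq] at h2
          obtain ⟨rfl, h2⟩ := h2
          exact Or.inl (infix2.2 ⟨s, l, h1⟩)
  · rintro (h | h | ⟨h1, h2⟩)
    · exact h.trans (List.prefix_append _ _).isInfix
    · exact h.trans (List.suffix_append _ _).isInfix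
    · obtain ⟨s, rfl⟩ := List.getLast?_eq_some_iff.1 h1
      obtain ⟨t, rfl⟩ := List.head?_eq_some_iff.1 h2
      exact infix2.2 ⟨s, t, by simp⟩

/-- a property invariant under the neighbour relation of a list is constant on the list -/
lemma nb_induct {L : List W} {Q : W → Prop} (hQ : ∀ w w', Nb L w w' → Q w → Q w') {w : W}
    (hw : w ∈ L) (h : Q w) : ∀ w' ∈ L, Q w' := by
  induction L generalizing w with
  | nil => simp at hw
  | cons a L ih =>
    have hQ' : ∀ w w', Nb L w w' → Q w → Q w' := by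
      intro w w' h' hq
      refine hQ w w' ?_ hq
      rcases h' with h' | h'
      · exact Or.inl (h'.trans (List.suffix_cons a L).isInfix)
      · exact Or.inr (h'.trans (List.suffix_cons a L).isInfix)
    rcases L with _ | ⟨b, L⟩
    · simp only [List.mem_singleton] at hw
      subst hw
      intro w' hw'
      simp only [List.mem_singleton] at hw'
      exact hw' ▸ h
    · have hab : Nb (a :: b :: L) a b := Or.inl (infix2.2 ⟨[], L, rfl⟩)
      have hb : Q b := by
        rcases List.mem_cons.1 hw with rfl | hw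
        · exact hQ _ _ hab h
        · exact ih hQ' hw h b (by simp)
      have hall := ih hQ' (by simp) hb
      intro w' hw'
      rcases List.mem_cons.1 hw' with rfl | hw'
      · exact hQ _ _ hab.symm hb
      · exact hall w' hw'

/-- `L` is a connected component of the relation `E`, and this component is a path -/
structure CPath (E : W → W → Prop) (L : List W) : Prop where
  nodup : L.Nodup
  nb : ∀ w ∈ L, ∀ w', E w w' ↔ Nb L w w'

lemma CPath.reverse {E : W → W → Prop} {L : List W} (h : CPath E L) : CPath E L.reverse :=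
  ⟨List.nodup_reverse.2 h.nodup, fun w hw w' => by
    rw [nb_reverse]; exact h.nb w (List.mem_reverse.1 hw) w'⟩

lemma not_nodup_two {s r t : List W} {c : W} (h : (s ++ c :: (r ++ c :: t)).Nodup) : False := by
  have h1 := (List.nodup_append.1 h).2.1
  rw [List.nodup_cons] at h1
  exact h1.1 (by simp)

/-- in a list without repetitions, the successor is unique -/
lemma succ_unique {s t : List W} {c l : W} (h : (s ++ c :: t).Nodup)
    (hi : [c, l] <:+: s ++ c :: t) : t.head? = some l := by
  obtain ⟨s', t', e⟩ := infix2.1 hi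
  have hs : s = s' := by
    rw [List.append_eq_append_iff] at e
    rcases e with ⟨r, h1, h2⟩ | ⟨r, h1, h2⟩
    · rcases r with _ | ⟨d, r⟩
      · simpa using h1.symm
      · exfalso
        simp only [List.cons_append, List.cons.injEq] at h2
        obtain ⟨rfl, h2⟩ := h2
        rw [h2] at h
        exact not_nodup_two h
    · rcases r with _ | ⟨d, r⟩
      · simpa using h1
      · exfalso
        simp only [List.cons_append, List.cons.injEq] at h2
        obtain ⟨rfl, h2⟩ := h2
        rw [h1] at h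
        refine not_nodup_two (s := s') (r := r) (c := c) (t := t) ?_
        simpa using h
  subst hs
  have := List.append_cancel_left e
  simp only [List.cons.injEq, true_and] at this
  rw [this]; rfl

lemma pred_unique {s t : List W} {c l : W} (h : (s ++ c :: t).Nodup)
    (hi : [l, c] <:+: s ++ c :: t) : s.getLast? = some l := by
  have h' : (t.reverse ++ c :: s.reverse).Nodup := by
    have := List.nodup_reverse.2 h
    simpa using this
  have hi' : [c, l] <:+: t.reverse ++ c :: s.reverse := by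
    have := infix2_reverse.2 hi
    simpa using this
  have := succ_unique h' hi'
  simpa using this

/-- two path components with a common initial segment agree -/
lemma CPath.eq_aux {E : W → W → Prop} : ∀ (L1 M1 pre : List W) (c : W),
    CPath E (pre ++ c :: L1) → CPath E (pre ++ c :: M1) → L1 = M1
  | [], [], _, _, _, _ => rfl
  | [], m :: M, pre, c, hL, hM => by
    exfalso
    have h1 : Nb (pre ++ c :: m :: M) c m := Or.inl (infix2.2 ⟨pre, M, rfl⟩)
    have h2 := (hL.nb c (by simp) m).1 ((hM.nb c (by simp) m).2 h1)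
    rcases h2 with h2 | h2
    · have := succ_unique hL.nodup h2
      simp at this
    · have := pred_unique hL.nodup h2
      have hm : m ∈ pre := List.mem_of_getLast? this
      have hnd := hM.nodup
      rw [List.nodup_append] at hnd
      exact hnd.2.2 m hm m (by simp) rfl
  | l :: L, M1, pre, c, hL, hM => by
    have h1 : Nb (pre ++ c :: l :: L) c l := Or.inl (infix2.2 ⟨pre, L, rfl⟩)
    have h2 := (hM.nb c (by simp) l).1 ((hL.nb c (by simp) l).2 h1)
    have h3 : M1.head? = some l := by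
      rcases h2 with h2 | h2
      · exact succ_unique hM.nodup h2
      · exfalso
        have := pred_unique hM.nodup h2
        have hm : l ∈ pre := List.mem_of_getLast? this
        have hnd := hL.nodup
        rw [List.nodup_append] at hnd
        exact hnd.2.2 l hm l (by simp) rfl
    obtain ⟨M, rfl⟩ := List.head?_eq_some_iff.1 h3
    have := CPath.eq_aux L M (pre ++ [c]) l (by simpa using hL) (by simpa using hM)
    rw [this]

lemma CPath.eq_of_head {E : W → W → Prop} {L M : List W} {c : W} (hL : CPath E L)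
    (hM : CPath E M) (h1 : L.head? = some c) (h2 : M.head? = some c) : L = M := by
  obtain ⟨L1, rfl⟩ := List.head?_eq_some_iff.1 h1
  obtain ⟨M1, rfl⟩ := List.head?_eq_some_iff.1 h2
  rw [CPath.eq_aux L1 M1 [] c (by simpa using hL) (by simpa using hM)]

/-- two path components with a common element are equal up to reversal -/
theorem CPath.unique {E : W → W → Prop} {L M : List W} (hL : CPath E L) (hM : CPath E M) {w : W}
    (h1 : w ∈ L) (h2 : w ∈ M) : M = L ∨ M = L.reverse := by
  rcases L with _ | ⟨c, L⟩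
  · simp at h1
  have hsub : ∀ w' ∈ c :: L, w' ∈ M := by
    refine nb_induct (Q := fun w' => w' ∈ M) ?_ h1 h2
    intro p q hpq hp
    have : E p q := (hL.nb p hpq.mem_left q).2 hpq
    exact ((hM.nb p hp q).1 this).mem_right
  have hc : c ∈ M := hsub c (by simp)
  obtain ⟨M1, M2, rfl⟩ := List.append_of_mem hc
  rcases List.eq_nil_or_concat' M1 with rfl | ⟨M1', m, rfl⟩
  · left
    exact (CPath.eq_of_head hL hM (c := c) rfl rfl).symm
  rcases M2 with _ | ⟨m', M2⟩
  · right
    have := CPath.eq_of_head hL hM.reverse (c := c) rfl (by simp)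
    rw [this, List.reverse_reverse]
  exfalso
  have e1 : Nb ((M1' ++ [m]) ++ c :: m' :: M2) c m := Or.inr (infix2.2 ⟨M1', m' :: M2, by simp⟩)
  have e2 : Nb ((M1' ++ [m]) ++ c :: m' :: M2) c m' := Or.inl (infix2.2 ⟨M1' ++ [m], M2, by simp⟩)
  have key : ∀ d, Nb ((M1' ++ [m]) ++ c :: m' :: M2) c d → L.head? = some d := by
    intro d hd
    have := (hL.nb c (by simp) d).1 ((hM.nb c (by simp) d).2 hd)
    rcases this with h | h
    · exact succ_unique (s := []) hL.nodup h
    · have := pred_unique (s := []) hL.nodup h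
      simp at this
  have e3 := key m e1
  have e4 := key m' e2
  have e5 : m = m' := by
    rw [e3] at e4
    exact Option.some.inj e4
  have hnd := hM.nodup
  subst e5
  refine not_nodup_two (s := M1') (r := [c]) (c := m) (t := M2) ?_
  simpa using hnd

/-- the image of a path component under a symmetry -/
lemma CPath.map {E : W → W → Prop} {L : List W} (hL : CPath E L) {g g' : W → W}
    (h1 : ∀ w, g' (g w) = w) (h2 : ∀ w, g (g' w) = w)
    (hg : ∀ w w', E w w' ↔ E (g w) (g w')) : CPath E (L.map g) := by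
  have hinj : Function.Injective g := fun a b hab => by rw [← h1 a, hab, h1]
  refine ⟨hL.nodup.map hinj, ?_⟩
  intro w hw w'
  obtain ⟨p, hp, rfl⟩ := List.mem_map.1 hw
  obtain ⟨q, rfl⟩ : ∃ q, g q = w' := ⟨g' w', h2 w'⟩
  rw [← hg, hL.nb p hp q, nb_map]
  constructor
  · intro h
    exact ⟨p, q, h, rfl, rfl⟩
  · rintro ⟨p', q', h, e1, e2⟩
    rw [hinj e1, hinj e2] at h
    exact h

end lists

section words

variable {α : Type*} [DecidableEq α] [Fintype α]

lemma map_inj_of_wd {p : List α} (hp : Wd Finset.univ p) {a b : Equiv.Perm α}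
    (h : p.map a = p.map b) : a = b := by
  ext x
  have := List.map_inj_left.1 h x (hp.mem.2 (Finset.mem_univ x))
  exact this

lemma wd_univ_map {p : List α} (hp : Wd Finset.univ p) (a : Equiv.Perm α) :
    Wd Finset.univ (p.map a) := hp.map fun _ _ => Finset.mem_univ _

lemma exists_perm_of_wd {p q : List α} (hp : Wd Finset.univ p) (hq : Wd Finset.univ q) :
    ∃ g : Equiv.Perm α, p.map g = q := by
  have hlen : p.length = q.length := by rw [hp.length, hq.length]
  let ep : Fin p.length ≃ α := List.Nodup.getEquivOfForallMemList p hp.1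
    fun x => hp.mem.2 (Finset.mem_univ x)
  let eq : Fin q.length ≃ α := List.Nodup.getEquivOfForallMemList q hq.1
    fun x => hq.mem.2 (Finset.mem_univ x)
  refine ⟨ep.symm.trans ((finCongr hlen).trans eq), ?_⟩
  apply List.ext_getElem
  · simp [hlen]
  · intro i h1 h2
    have h3 : i < p.length := by simpa using h1
    have e1 : p[i] = ep ⟨i, h3⟩ := rfl
    have e2 : q[i] = eq ⟨i, h2⟩ := rfl
    rw [List.getElem_map, e1, e2]
    simp [finCongr]

lemma card_stb (K : Subgroup (Equiv.Perm α)) (x : α) :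
    orb K x * Nat.card (stb K x) = Nat.card K := by
  have h := Nat.card_congr (MulAction.orbitProdStabilizerEquivGroup K x)
  rw [Nat.card_prod] at h
  rw [← h]
  congr 1
  · unfold orb
    apply Nat.card_congr
    refine Equiv.subtypeEquivRight fun y => ?_
    constructor
    · rintro ⟨k, hk, rfl⟩
      exact ⟨⟨k, hk⟩, rfl⟩
    · rintro ⟨⟨k, hk⟩, rfl⟩
      exact ⟨k, hk, rfl⟩
  · apply Nat.card_congr
    refine ⟨fun k => ⟨⟨k.1, (mem_stb.1 k.2).1⟩, (mem_stb.1 k.2).2⟩,
      fun k => ⟨k.1.1, mem_stb.2 ⟨k.1.2, k.2⟩⟩, fun k => rfl, fun k => rfl⟩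

lemma card_stab_univ (x : α) :
    Fintype.card α * Nat.card (MulAction.stabilizer (Equiv.Perm α) x) =
      (Fintype.card α).factorial := by
  have h := Nat.card_congr (MulAction.orbitProdStabilizerEquivGroup (Equiv.Perm α) x)
  rw [Nat.card_prod, Nat.card_perm, Nat.card_eq_fintype_card (α := α)] at h
  rw [← h]
  congr 1
  have h2 : MulAction.orbit (Equiv.Perm α) x = Set.univ := MulAction.orbit_eq_univ _ _
  rw [h2]
  simp [Nat.card_eq_fintype_card]

lemma card_tpon {K : Subgroup (Equiv.Perm α)} {x : α} {S : List (List α)}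
    (h : TPon (stb K x) (Wd (Finset.univ.erase x)) S) :
    S.length * Nat.card (stb K x) = Nat.card (MulAction.stabilizer (Equiv.Perm α) x) := by
  obtain ⟨w0, hw0⟩ := exists_wd (Finset.univ.erase x)
  have hw0' : Wd Finset.univ (w0 ++ [x]) := (wd_append (Finset.mem_univ x)).2 hw0
  have hS : ∀ i : Fin S.length, Wd Finset.univ (S[i] ++ [x]) := fun i =>
    (wd_append (Finset.mem_univ x)).2 (h.mem _ (List.getElem_mem _))
  have hex : ∀ ki : stb K x × Fin S.length, ∃ g : Equiv.Perm α,
      (w0 ++ [x]).map g = (S[ki.2] ++ [x]).map ki.1.1 := fun ki =>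
    exists_perm_of_wd hw0' (wd_univ_map (hS ki.2) _)
  choose f hf using hex
  have hfx : ∀ ki, f ki x = x := by
    intro ki
    have h1 := hf ki
    rw [List.map_append, List.map_append] at h1
    have h2 := (List.append_inj' h1 rfl).2
    simp only [List.map_cons, List.map_nil, List.cons.injEq, and_true] at h2
    rw [h2]
    exact (mem_stb.1 ki.1.2).2
  have hbij : Function.Bijective (fun ki : Fin S.length × stb K x =>
      (⟨f (ki.2, ki.1), hfx _⟩ : MulAction.stabilizer (Equiv.Perm α) x)) := by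
    constructor
    · rintro ⟨i, k⟩ ⟨i', k'⟩ e
      have e1 : f (k, i) = f (k', i') := congrArg Subtype.val e
      have e2 : (S[i] ++ [x]).map k.1 = (S[i'] ++ [x]).map k'.1 := by
        rw [← hf (k, i), ← hf (k', i'), e1]
      have e3 : S[i].map k.1 = S[i'].map k'.1 := by
        rw [List.map_append, List.map_append] at e2
        exact (List.append_inj' e2 rfl).1
      have e4 : Eqv (stb K x) (S[i]) (S[i']) :=
        (Eqv.map k.2 k'.2).1 (by rw [e3]; exact Eqv.refl _ _)
      have e5 : S[i] = S[i'] := h.inj_iff (List.getElem_mem _) (List.getElem_mem _) e4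
      have e6 : i = i' := by
        have := (h.nodup.getElem_inj_iff).1 e5
        exact Fin.ext this
      subst e6
      have e7 : k = k' := Subtype.ext (map_inj_of_wd (hS i) e2)
      rw [e7]
    · rintro ⟨g, hg⟩
      have hg' : g x = x := hg
      have h1 : Wd (Finset.univ.erase x) (w0.map g) := by
        apply hw0.map
        intro a ha
        simp only [Finset.mem_erase, Finset.mem_univ, and_true] at ha ⊢
        intro e
        apply ha
        rw [← hg'] at e
        exact g.injective e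
      obtain ⟨p, hp, k, hk, e⟩ := h.cover _ h1
      obtain ⟨i, hi, rfl⟩ := List.mem_iff_getElem.1 hp
      refine ⟨(⟨i, hi⟩, ⟨k, hk⟩), ?_⟩
      apply Subtype.ext
      apply map_inj_of_wd hw0'
      rw [hf]
      simp only [List.map_append, List.map_cons, List.map_nil, hg']
      rw [e, (mem_stb.1 hk).2]
      rfl
  have := Nat.card_congr (Equiv.ofBijective _ hbij)
  rw [Nat.card_prod, Nat.card_fin] at this
  exact this

/-- the length of a block -/
lemma card_block {K : Subgroup (Equiv.Perm α)} {x : α} {S : List (List α)}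
    (h : TPon (stb K x) (Wd (Finset.univ.erase x)) S) :
    Fintype.card α * Nat.card K * S.length = (Fintype.card α).factorial * orb K x := by
  rw [← card_stab_univ x, ← card_tpon h, ← card_stb K x]
  ring

end words

section core

variable {α : Type*} [DecidableEq α] [Fintype α]

/-- a path, possibly prolonged by the translate of its reverse by an involution `τ` -/
def pl (F : List (List α) × Option (Equiv.Perm α)) : List (List α) :=
  match F.2 with
  | none => F.1
  | some τ => (F.1.map (List.map τ)).reverse ++ F.1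

/-- A family of paths which together form a transversal for `K`, where some paths are prolonged. -/
structure Fam (K : Subgroup (Equiv.Perm α))
    (fs : Set (List (List α) × Option (Equiv.Perm α))) : Prop where
  full : ∀ F ∈ fs, ∀ p ∈ F.1, Wd Finset.univ p
  nd : ∀ F ∈ fs, F.1.Nodup
  free : ∀ F ∈ fs, ∀ F' ∈ fs, ∀ p ∈ F.1, ∀ p' ∈ F'.1, Eqv K p p' → F = F' ∧ p = p'
  tau : ∀ F ∈ fs, ∀ τ, F.2 = some τ → τ ∈ K ∧ τ * τ = 1 ∧ τ ≠ 1
  cover : ∀ w, Wd Finset.univ w → ∃ F ∈ fs, ∃ p ∈ F.1, Eqv K p w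

variable {K : Subgroup (Equiv.Perm α)} {fs : Set (List (List α) × Option (Equiv.Perm α))}

lemma map_map_mul (p : List α) (a b : Equiv.Perm α) : (p.map b).map a = p.map (a * b) := by
  simp [List.map_map]

lemma listmap_mul (a b : Equiv.Perm α) :
    (List.map (α := α) a) ∘ (List.map (α := α) b) = List.map (a * b : Equiv.Perm α) := by
  funext p
  exact map_map_mul p a b

lemma Fam.mem_pl (h : Fam K fs) {F : List (List α) × Option (Equiv.Perm α)} (hF : F ∈ fs)
    {w : List α} (hw : w ∈ pl F) :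
    ∃ p ∈ F.1, ∃ σ ∈ K, w = p.map σ ∧ (σ = 1 ∨ F.2 = some σ) := by
  rcases F with ⟨B, _ | τ⟩
  · exact ⟨w, hw, 1, K.one_mem, by simp, Or.inl rfl⟩
  · rcases List.mem_append.1 hw with hw | hw
    · rw [List.mem_reverse] at hw
      obtain ⟨p, hp, rfl⟩ := List.mem_map.1 hw
      exact ⟨p, hp, τ, (h.tau _ hF τ rfl).1, rfl, Or.inr rfl⟩
    · exact ⟨w, hw, 1, K.one_mem, by simp, Or.inl rfl⟩

lemma mem_pl_of_mem {F : List (List α) × Option (Equiv.Perm α)} {p : List α} (hp : p ∈ F.1) :
    p ∈ pl F := by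
  rcases F with ⟨B, _ | τ⟩
  · exact hp
  · exact List.mem_append_right _ hp

lemma pl_map_tau {B : List (List α)} {τ : Equiv.Perm α} (hτ : τ * τ = 1) :
    (pl (B, some τ)).map (List.map τ) = (pl (B, some τ)).reverse := by
  simp only [pl, List.map_append, List.map_reverse, List.map_map, listmap_mul, hτ,
    List.reverse_append, List.reverse_reverse]
  congr 1
  simp

lemma Fam.nodup_pl (h : Fam K fs) {F : List (List α) × Option (Equiv.Perm α)} (hF : F ∈ fs) :
    (pl F).Nodup := by
  rcases F with ⟨B, _ | τ⟩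
  · exact h.nd _ hF
  · have ht := h.tau _ hF τ rfl
    simp only [pl]
    rw [List.nodup_append]
    refine ⟨?_, h.nd _ hF, ?_⟩
    · rw [List.nodup_reverse]
      exact (h.nd _ hF).map (List.map_injective_iff.2 τ.injective)
    · intro a ha b hb e
      rw [List.mem_reverse] at ha
      obtain ⟨p, hp, rfl⟩ := List.mem_map.1 ha
      have h1 : Eqv K p b := ⟨τ, ht.1, e.symm⟩
      have h2 := (h.free _ hF _ hF p hp b hb h1).2
      subst h2
      apply ht.2.2
      apply map_inj_of_wd (h.full _ hF p hp)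
      rw [e]; simp

lemma Fam.share (h : Fam K fs) {F F' : List (List α) × Option (Equiv.Perm α)} (hF : F ∈ fs)
    (hF' : F' ∈ fs) {k k' : Equiv.Perm α} (hk : k ∈ K) (hk' : k' ∈ K) {w : List α}
    (hw : w ∈ (pl F).map (List.map k)) (hw' : w ∈ (pl F').map (List.map k')) :
    F = F' ∧ ((pl F').map (List.map k') = (pl F).map (List.map k) ∨
      (pl F').map (List.map k') = ((pl F).map (List.map k)).reverse) := by
  obtain ⟨w1, hw1, rfl⟩ := List.mem_map.1 hw
  obtain ⟨w2, hw2, e⟩ := List.mem_map.1 hw'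
  obtain ⟨p, hp, σ, hσ, rfl, hs⟩ := h.mem_pl hF hw1
  obtain ⟨p', hp', σ', hσ', rfl, hs'⟩ := h.mem_pl hF' hw2
  rw [map_map_mul, map_map_mul] at e
  have e1 : Eqv K p p' := by
    refine (Eqv.map (K := K) (K.mul_mem hk hσ) (K.mul_mem hk' hσ')).1 ?_
    rw [e]; exact Eqv.refl _ _
  obtain ⟨rfl, rfl⟩ := h.free _ hF _ hF' p hp p' hp' e1
  refine ⟨rfl, ?_⟩
  have e2 : k' * σ' = k * σ := map_inj_of_wd (h.full _ hF p hp) e
  rcases F with ⟨B, o⟩
  have key : ∀ τ : Equiv.Perm α, o = some τ →
      ((pl (B, o)).map (List.map τ)) = (pl (B, o)).reverse := by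
    intro τ ho
    subst ho
    exact pl_map_tau (h.tau _ hF τ rfl).2.1
  rcases hs with rfl | hs
  · rcases hs' with rfl | hs'
    · left
      have : k' = k := by simpa using e2
      rw [this]
    · right
      have h3 : k = k' * σ' := by simpa using e2.symm
      have h4 := (h.tau _ hF σ' hs').2.1
      have h5 : k' = k * σ' := by rw [h3, mul_assoc, h4, mul_one]
      rw [h5, ← listmap_mul, ← List.map_map, key σ' hs', List.map_reverse]
  · rcases hs' with rfl | hs'
    · right
      have h3 : k' = k * σ := by simpa using e2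
      rw [h3, ← listmap_mul, ← List.map_map, key σ hs, List.map_reverse]
    · left
      have h3 : σ = σ' := by
        have : (some σ : Option (Equiv.Perm α)) = some σ' := hs.symm.trans hs'
        exact Option.some.inj this
      subst h3
      have : k' = k := mul_right_cancel e2
      rw [this]

lemma Fam.cpath (h : Fam K fs) {E : List α → List α → Prop}
    (hE : ∀ w w', E w w' ↔ ∃ F ∈ fs, ∃ k ∈ K, Nb ((pl F).map (List.map k)) w w')
    {F : List (List α) × Option (Equiv.Perm α)} (hF : F ∈ fs) {k : Equiv.Perm α} (hk : k ∈ K) :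
    CPath E ((pl F).map (List.map k)) := by
  refine ⟨(h.nodup_pl hF).map (List.map_injective_iff.2 k.injective), ?_⟩
  intro w hw w'
  rw [hE]
  constructor
  · rintro ⟨F', hF', k', hk', hn⟩
    rcases (h.share hF hF' hk hk' hw hn.mem_left).2 with e | e
    · rwa [e] at hn
    · rw [e, nb_reverse] at hn
      exact hn
  · intro hn
    exact ⟨F, hF, k, hk, hn⟩

/-- a relabeling preserving a relation is an automorphism of this relation -/
lemma pres_iff {E : List α → List α → Prop} {g : Equiv.Perm α}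
    (hg : ∀ w w', E w w' → E (w.map g) (w'.map g)) (w w' : List α) :
    E w w' ↔ E (w.map g) (w'.map g) := by
  refine ⟨hg w w', fun h => ?_⟩
  have key : ∀ n : ℕ, ∀ w w', E w w' → E (w.map (g ^ n : Equiv.Perm α)) (w'.map (g ^ n : Equiv.Perm α)) := by
    intro n
    induction n with
    | zero => intro w w' h; simpa using h
    | succ n ih =>
      intro w w' h
      have := hg _ _ (ih w w' h)
      rwa [map_map_mul, map_map_mul, ← pow_succ'] at this
  have hpos : 0 < orderOf g := orderOf_pos g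
  have h1 := key (orderOf g - 1) _ _ h
  rw [map_map_mul, map_map_mul, ← pow_succ, Nat.sub_add_cancel hpos, pow_orderOf_eq_one] at h1
  simpa using h1

/-- a symmetry maps a path component to a path component -/
theorem Fam.image (h : Fam K fs) {E : List α → List α → Prop}
    (hE : ∀ w w', E w w' ↔ ∃ F ∈ fs, ∃ k ∈ K, Nb ((pl F).map (List.map k)) w w')
    {g : Equiv.Perm α} (hg : ∀ w w', E w w' → E (w.map g) (w'.map g))
    {F : List (List α) × Option (Equiv.Perm α)} (hF : F ∈ fs) (hne : F.1 ≠ []) :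
    ∃ F' ∈ fs, ∃ k ∈ K, (pl F).map (List.map g) = (pl F').map (List.map k) ∨
      (pl F).map (List.map g) = ((pl F').map (List.map k)).reverse := by
  obtain ⟨p, hp⟩ := List.exists_mem_of_ne_nil _ hne
  have hfull := wd_univ_map (h.full _ hF p hp) g
  obtain ⟨F', hF', p', hp', k, hk, e⟩ := h.cover _ hfull
  have h1 : CPath E ((pl F).map (List.map g)) := by
    have h0 := h.cpath hE hF K.one_mem
    have h0' : CPath E (pl F) := by
      have : (pl F).map (List.map ((1 : Equiv.Perm α) : α → α)) = pl F := by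
        simp
      rwa [this] at h0
    refine h0'.map (g' := List.map (g⁻¹ : Equiv.Perm α)) ?_ ?_ (pres_iff hg)
    · intro w
      rw [map_map_mul]
      simp
    · intro w
      rw [map_map_mul]
      simp
  have h2 := h.cpath hE hF' hk
  have hw1 : p.map g ∈ (pl F).map (List.map g) := List.mem_map_of_mem (mem_pl_of_mem hp)
  have hw2 : p.map g ∈ (pl F').map (List.map k) := by
    rw [e]
    exact List.mem_map_of_mem (mem_pl_of_mem hp')
  exact ⟨F', hF', k, hk, h2.unique h1 hw2 hw1⟩

/-! ### blocks -/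

/-- the words of a block -/
def blk (b : α × List (List α)) : List (List α) := b.2.map (· ++ [b.1])

lemma infix2_flatten {W : Type*} {Ls : List (List W)} (hne : ∀ L ∈ Ls, L ≠ []) {p q : W}
    (h : [p, q] <:+: Ls.flatten) :
    (∃ L ∈ Ls, [p, q] <:+: L) ∨
      ∃ L L', [L, L'] <:+: Ls ∧ L.getLast? = some p ∧ L'.head? = some q := by
  induction Ls with
  | nil => simp at h
  | cons L Ls ih =>
    rw [List.flatten_cons, infix2_append] at h
    rcases h with h | h | ⟨h1, h2⟩
    · exact Or.inl ⟨L, by simp, h⟩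
    · rcases ih (fun L hL => hne L (by simp [hL])) h with ⟨M, hM, h⟩ | ⟨M, M', hM, h⟩
      · exact Or.inl ⟨M, by simp [hM], h⟩
      · exact Or.inr ⟨M, M', hM.trans (List.suffix_cons L Ls).isInfix, h⟩
    · right
      rcases Ls with _ | ⟨M, Ls⟩
      · simp at h2
      · refine ⟨L, M, infix2.2 ⟨[], Ls, rfl⟩, h1, ?_⟩
        have hM : M ≠ [] := hne M (by simp)
        obtain ⟨c, M', rfl⟩ := List.exists_cons_of_ne_nil hM
        simpa using h2

lemma infix_flatten {W : Type*} {Ls : List (List W)} {L : List W} (h : L ∈ Ls) :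
    L <:+: Ls.flatten := by
  obtain ⟨s, t, rfl⟩ := List.append_of_mem h
  exact ⟨s.flatten, t.flatten, by simp⟩

variable {bs : List (α × List (List α))} {cl : List (List α × List α)}

lemma flat_eq : flat bs = (bs.map blk).flatten := rfl

lemma BC.wd_blk (hbc : BC K Finset.univ bs) {b : α × List (List α)} (hb : b ∈ bs) {w : List α}
    (hw : w ∈ blk b) : ∃ p ∈ b.2, w = p ++ [b.1] ∧ Wd (Finset.univ.erase b.1) p ∧
      Wd Finset.univ w := by
  obtain ⟨p, hp, rfl⟩ := List.mem_map.1 hw
  have h1 := (hbc.tp b hb).mem p hp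
  exact ⟨p, hp, rfl, h1, (wd_append (Finset.mem_univ _)).2 h1⟩

lemma BC.blk_ne (hbc : BC K Finset.univ bs) {b : α × List (List α)} (hb : b ∈ bs) :
    blk b ≠ [] := by
  obtain ⟨w, hw⟩ := exists_wd (Finset.univ.erase b.1)
  obtain ⟨p, hp, -⟩ := (hbc.tp b hb).cover w hw
  intro h
  have : p ++ [b.1] ∈ blk b := List.mem_map_of_mem hp
  rw [h] at this
  simp at this

lemma BC.free_blk (hbc : BC K Finset.univ bs) (hpw : (bs.map Prod.fst).Pairwise (Inq K))
    {b b' : α × List (List α)} (hb : b ∈ bs) (hb' : b' ∈ bs) {w w' : List α} (hw : w ∈ blk b)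
    (hw' : w' ∈ blk b') (e : Eqv K w w') : b = b' ∧ w = w' := by
  obtain ⟨p, hp, rfl, hp1, hp2⟩ := hbc.wd_blk hb hw
  obtain ⟨p', hp', rfl, hp1', hp2'⟩ := hbc.wd_blk hb' hw'
  obtain ⟨k, hk, ek⟩ := e
  rw [List.map_append] at ek
  have e1 := List.append_inj' ek rfl
  have e2 : b'.1 = k b.1 := by simpa using e1.2
  have hbb : b = b' := by
    by_contra hne
    rw [List.pairwise_map] at hpw
    have hsym : Std.Symm (fun a b : α × List (List α) => Inq K a.1 b.1) :=
      ⟨fun a b hab => hab.symm⟩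
    exact hpw.forall hb hb' hne k hk e2.symm
  subst hbb
  refine ⟨rfl, ?_⟩
  have : p = p' := (hbc.tp b hb).inj_iff hp hp' ⟨k, mem_stb.2 ⟨hk, e2.symm⟩, e1.1⟩
  rw [this]

lemma BC.cover_blk (hcard : 3 ≤ Fintype.card α) (hbc : BC K Finset.univ bs)
    (hall : ∀ y, ∃ x ∈ bs.map Prod.fst, ∃ k ∈ K, k x = y) {w : List α}
    (hw : Wd Finset.univ w) : ∃ b ∈ bs, ∃ p ∈ blk b, Eqv K p w := by
  have hne : (Finset.univ : Finset α).Nonempty := by
    rw [← Finset.card_pos, Finset.card_univ]; omega
  obtain ⟨w', y, -, rfl, hw'⟩ := hw.exists_last hne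
  obtain ⟨x, hx, k, hk, rfl⟩ := hall y
  obtain ⟨b, hb, rfl⟩ := List.mem_map.1 hx
  have h1 : lift K b.1 (Wd (Finset.univ.erase b.1)) (w' ++ [k b.1]) := by
    refine ⟨k, hk, w'.map (k⁻¹ : Equiv.Perm α), ?_, ?_⟩
    · have h2 : Wd Finset.univ ((w' ++ [k b.1]).map (k⁻¹ : Equiv.Perm α)) := wd_univ_map hw _
      have h3 : (w' ++ [k b.1]).map (k⁻¹ : Equiv.Perm α) = w'.map (k⁻¹ : Equiv.Perm α) ++ [b.1] := by
        simp
      rw [h3, wd_append (Finset.mem_univ _)] at h2
      exact h2
    · rw [List.map_append, map_map_mul]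
      simp
  obtain ⟨p, hp, e⟩ := ((hbc.tp b hb).lift).cover _ h1
  exact ⟨b, hb, p, hp, e⟩

lemma BC.nodup_blk (hbc : BC K Finset.univ bs) {b : α × List (List α)} (hb : b ∈ bs) :
    (blk b).Nodup := ((hbc.tp b hb).lift).nodup

/-- an edge inside a block is not a full reversal -/
lemma BC.not_full (hcard : 3 ≤ Fintype.card α) (hbc : BC K Finset.univ bs)
    {b : α × List (List α)} (hb : b ∈ bs) {p q : List α} (hp : p ∈ blk b) (hq : q ∈ blk b) :
    q ≠ p.reverse := by
  obtain ⟨p', -, rfl, hp1, hp2⟩ := hbc.wd_blk hb hp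
  obtain ⟨q', -, rfl, hq1, hq2⟩ := hbc.wd_blk hb hq
  intro e
  have hlen := hp2.length
  rw [Finset.card_univ] at hlen
  rcases p' with _ | ⟨c, p'⟩
  · simp at hlen; omega
  · have h1 : (q' ++ [b.1]).getLast? = some c := by
      rw [e, List.getLast?_reverse]; rfl
    have h2 : b.1 = c := by simpa using h1
    have h3 := hp1.mem.1 (List.mem_cons_self (a := c) (l := p'))
    rw [h2] at h3
    simp at h3

/-- the junctions are full reversals -/
lemma BC.full_junction (hbc : BC K Finset.univ bs) {b c : α × List (List α)}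
    (h : [b, c] <:+: bs) {p q : List α} (hp : (blk b).getLast? = some p)
    (hq : (blk c).head? = some q) : q = p.reverse := by
  have h1 : ∀ p ∈ b.2.getLast?, ∀ q ∈ c.2.head?, q ++ [c.1] = (p ++ [b.1]).reverse := by
    obtain ⟨s, t, e⟩ := h
    have hj := hbc.junc
    rw [List.isChain_iff_forall_rel_of_append_cons_cons] at hj
    exact hj (a := b) (b := c) (l₁ := s) (l₂ := t) (by rw [← e]; simp)
  unfold blk at hp hq
  rw [List.getLast?_map, Option.map_eq_some_iff] at hp
  rw [List.head?_map, Option.map_eq_some_iff] at hq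
  obtain ⟨p', hp', rfl⟩ := hp
  obtain ⟨q', hq', rfl⟩ := hq
  exact h1 p' hp' q' hq'

/-- the edges which are not full reversals -/
def E1 (K : Subgroup (Equiv.Perm α)) (bs : List (α × List (List α)))
    (cl : List (List α × List α)) (w w' : List α) : Prop :=
  ∃ k ∈ K, ∃ p q, ((∃ b ∈ bs, [p, q] <:+: blk b) ∨ ((p, q) ∈ cl ∧ q ≠ p.reverse)) ∧
    ((w = p.map k ∧ w' = q.map k) ∨ (w = q.map k ∧ w' = p.map k))

lemma E1.symm {w w' : List α} (h : E1 K bs cl w w') : E1 K bs cl w' w := by
  obtain ⟨k, hk, p, q, h1, h2⟩ := h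
  exact ⟨k, hk, p, q, h1, h2.symm.imp And.symm And.symm⟩

lemma E1.map {w w' : List α} (h : E1 K bs cl w w') {k : Equiv.Perm α} (hk : k ∈ K) :
    E1 K bs cl (w.map k) (w'.map k) := by
  obtain ⟨l, hl, p, q, h1, h2⟩ := h
  refine ⟨k * l, K.mul_mem hk hl, p, q, h1, ?_⟩
  rcases h2 with ⟨rfl, rfl⟩ | ⟨rfl, rfl⟩
  · exact Or.inl ⟨map_map_mul _ _ _, map_map_mul _ _ _⟩
  · exact Or.inr ⟨map_map_mul _ _ _, map_map_mul _ _ _⟩

lemma BC.e1_iff (hcard : 3 ≤ Fintype.card α) (hbc : BC K Finset.univ bs) (w w' : List α) :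
    E1 K bs cl w w' ↔ EK K (flat bs) cl w w' ∧ w' ≠ w.reverse := by
  have hrev : ∀ (k : Equiv.Perm α) (p q : List α), q.map k = (p.map k).reverse → q = p.reverse := by
    intro k p q h
    rw [← List.map_reverse] at h
    exact List.map_injective_iff.2 k.injective h
  constructor
  · rintro ⟨k, hk, p, q, h1, h2⟩
    have hne : q ≠ p.reverse := by
      rcases h1 with ⟨b, hb, h1⟩ | ⟨-, h1⟩
      · exact hbc.not_full hcard hb (h1.subset (by simp)) (h1.subset (by simp))
      · exact h1
    refine ⟨⟨k, hk, p, q, ?_, h2⟩, ?_⟩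
    · rcases h1 with ⟨b, hb, h1⟩ | ⟨h1, -⟩
      · left
        rw [flat_eq]
        exact h1.trans (infix_flatten (List.mem_map_of_mem hb))
      · exact Or.inr h1
    · intro e
      rcases h2 with ⟨rfl, rfl⟩ | ⟨rfl, rfl⟩
      · exact hne (hrev k _ _ e)
      · apply hne
        have := hrev k _ _ e
        rw [this, List.reverse_reverse]
  · rintro ⟨⟨k, hk, p, q, h1, h2⟩, hne⟩
    have hne' : q ≠ p.reverse := by
      rintro rfl
      apply hne
      rcases h2 with ⟨rfl, rfl⟩ | ⟨rfl, rfl⟩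
      · rw [List.map_reverse]
      · rw [List.map_reverse, List.reverse_reverse]
    refine ⟨k, hk, p, q, ?_, h2⟩
    rcases h1 with h1 | h1
    · left
      rw [flat_eq] at h1
      have hnb : ∀ L ∈ bs.map blk, L ≠ [] := by
        intro L hL
        obtain ⟨b, hb, rfl⟩ := List.mem_map.1 hL
        exact hbc.blk_ne hb
      rcases infix2_flatten hnb h1 with ⟨L, hL, h⟩ | ⟨L, L', hL, h3, h4⟩
      · obtain ⟨b, hb, rfl⟩ := List.mem_map.1 hL
        exact ⟨b, hb, h⟩
      · exfalso
        obtain ⟨b, c, hbc', rfl, rfl⟩ := infix2_map.1 hL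
        exact hne' (hbc.full_junction hbc' h3 h4)
    · exact Or.inr ⟨h1, hne'⟩

/-- which blocks are prolonged -/
structure Fm (K : Subgroup (Equiv.Perm α)) (bs : List (α × List (List α)))
    (cl : List (List α × List α))
    (fam : α × List (List α) → List (List α) × Option (Equiv.Perm α)) : Prop where
  base : ∀ b ∈ bs, (fam b).1 = blk b ∨ (fam b).1 = (blk b).reverse
  tau : ∀ b ∈ bs, ∀ τ, (fam b).2 = some τ → τ ∈ K ∧ τ * τ = 1 ∧ τ ≠ 1 ∧
    ∃ u, (fam b).1.head? = some u ∧ (u, u.map τ) ∈ cl ∧ u.map τ ≠ u.reverse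
  cls : ∀ p q, (p, q) ∈ cl → q ≠ p.reverse →
    ∃ b ∈ bs, ∃ τ, (fam b).2 = some τ ∧ (fam b).1.head? = some p ∧ q = p.map τ

variable {fam : α × List (List α) → List (List α) × Option (Equiv.Perm α)}

lemma Fm.mem_iff (hf : Fm K bs cl fam) {b : α × List (List α)} (hb : b ∈ bs) {w : List α} :
    w ∈ (fam b).1 ↔ w ∈ blk b := by
  rcases hf.base b hb with h | h
  · rw [h]
  · rw [h, List.mem_reverse]

lemma Fm.nb_iff (hf : Fm K bs cl fam) {b : α × List (List α)} (hb : b ∈ bs) {w w' : List α} :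
    Nb (fam b).1 w w' ↔ Nb (blk b) w w' := by
  rcases hf.base b hb with h | h
  · rw [h]
  · rw [h, nb_reverse]

lemma Fm.isFam (hcard : 3 ≤ Fintype.card α) (hbc : BC K Finset.univ bs)
    (hpw : (bs.map Prod.fst).Pairwise (Inq K))
    (hall : ∀ y, ∃ x ∈ bs.map Prod.fst, ∃ k ∈ K, k x = y) (hf : Fm K bs cl fam) :
    Fam K {F | ∃ b ∈ bs, F = fam b} := by
  refine ⟨?_, ?_, ?_, ?_, ?_⟩
  · rintro F ⟨b, hb, rfl⟩ p hp
    rw [hf.mem_iff hb] at hp
    obtain ⟨-, -, -, -, h⟩ := hbc.wd_blk hb hp
    exact h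
  · rintro F ⟨b, hb, rfl⟩
    rcases hf.base b hb with h | h
    · rw [h]; exact hbc.nodup_blk hb
    · rw [h, List.nodup_reverse]; exact hbc.nodup_blk hb
  · rintro F ⟨b, hb, rfl⟩ F' ⟨b', hb', rfl⟩ p hp p' hp' e
    rw [hf.mem_iff hb] at hp
    rw [hf.mem_iff hb'] at hp'
    obtain ⟨rfl, h⟩ := hbc.free_blk hpw hb hb' hp hp' e
    exact ⟨rfl, h⟩
  · rintro F ⟨b, hb, rfl⟩ τ hτ
    obtain ⟨h1, h2, h3, -⟩ := hf.tau b hb τ hτ
    exact ⟨h1, h2, h3⟩
  · intro w hw
    obtain ⟨b, hb, p, hp, e⟩ := hbc.cover_blk hcard hall hw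
    exact ⟨fam b, ⟨b, hb, rfl⟩, p, (hf.mem_iff hb).2 hp, e⟩

/-- neighbours in a prolonged path -/
lemma nb_pl {F : List (List α) × Option (Equiv.Perm α)} {p q : List α} :
    Nb (pl F) p q ↔ Nb F.1 p q ∨ ∃ τ, F.2 = some τ ∧
      ((∃ p' q', Nb F.1 p' q' ∧ p = p'.map τ ∧ q = q'.map τ) ∨
        (∃ u, F.1.head? = some u ∧ ((p = u ∧ q = u.map τ) ∨ (q = u ∧ p = u.map τ)))) := by
  rcases F with ⟨B, _ | τ⟩
  · simp [pl]
  · have h1 : ∀ p q : List α, [p, q] <:+: pl (B, some τ) ↔ [p, q] <:+: (B.map (List.map τ)).reverse ∨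
        [p, q] <:+: B ∨ ((B.map (List.map τ)).reverse.getLast? = some p ∧ B.head? = some q) :=
      fun p q => infix2_append
    have h2 : ∀ p q : List α, ((B.map (List.map τ)).reverse.getLast? = some p ∧ B.head? = some q) ↔
        ∃ u, B.head? = some u ∧ q = u ∧ p = u.map τ := by
      intro p q
      rw [List.getLast?_reverse, List.head?_map, Option.map_eq_some_iff]
      constructor
      · rintro ⟨⟨u, hu, rfl⟩, h⟩
        rw [hu] at h
        exact ⟨u, hu, (Option.some.inj h).symm, rfl⟩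
      · rintro ⟨u, hu, rfl, rfl⟩
        exact ⟨⟨q, hu, rfl⟩, hu⟩
    have h3 : ∀ p q : List α, [p, q] <:+: (B.map (List.map τ)).reverse ↔
        ∃ p' q', [q', p'] <:+: B ∧ p = p'.map τ ∧ q = q'.map τ := by
      intro p q
      rw [infix2_reverse, infix2_map]
      constructor
      · rintro ⟨q', p', h, rfl, rfl⟩
        exact ⟨p', q', h, rfl, rfl⟩
      · rintro ⟨p', q', h, rfl, rfl⟩
        exact ⟨q', p', h, rfl, rfl⟩
    unfold Nb
    rw [h1, h1, h2, h2, h3, h3]
    constructor
    · rintro ((⟨p', q', h, rfl, rfl⟩ | h | ⟨u, hu, rfl, rfl⟩) | (⟨p', q', h, rfl, rfl⟩ | h | ⟨u, hu, rfl, rfl⟩))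
      · exact Or.inr ⟨τ, rfl, Or.inl ⟨p', q', Or.inr h, rfl, rfl⟩⟩
      · exact Or.inl (Or.inl h)
      · exact Or.inr ⟨τ, rfl, Or.inr ⟨q, hu, Or.inr ⟨rfl, rfl⟩⟩⟩
      · exact Or.inr ⟨τ, rfl, Or.inl ⟨q', p', Or.inl h, rfl, rfl⟩⟩
      · exact Or.inl (Or.inr h)
      · exact Or.inr ⟨τ, rfl, Or.inr ⟨p, hu, Or.inl ⟨rfl, rfl⟩⟩⟩
    · rintro ((h | h) | ⟨σ, hσ, ⟨p', q', h | h, rfl, rfl⟩ | ⟨u, hu, ⟨rfl, rfl⟩ | ⟨rfl, rfl⟩⟩⟩)
      · exact Or.inl (Or.inr (Or.inl h))
      · exact Or.inr (Or.inr (Or.inl h))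
      · obtain rfl : τ = σ := Option.some.inj hσ
        exact Or.inr (Or.inl ⟨q', p', h, rfl, rfl⟩)
      · obtain rfl : τ = σ := Option.some.inj hσ
        exact Or.inl (Or.inl ⟨p', q', h, rfl, rfl⟩)
      · obtain rfl : τ = σ := Option.some.inj hσ
        exact Or.inr (Or.inr (Or.inr ⟨p, hu, rfl, rfl⟩))
      · obtain rfl : τ = σ := Option.some.inj hσ
        exact Or.inl (Or.inr (Or.inr ⟨q, hu, rfl, rfl⟩))

lemma Fm.e1_iff (hf : Fm K bs cl fam) (w w' : List α) :
    E1 K bs cl w w' ↔ ∃ F ∈ {F | ∃ b ∈ bs, F = fam b}, ∃ k ∈ K,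
      Nb ((pl F).map (List.map k)) w w' := by
  constructor
  · rintro ⟨k, hk, p, q, h1, h2⟩
    have key : ∃ b ∈ bs, Nb (pl (fam b)) p q := by
      rcases h1 with ⟨b, hb, h1⟩ | ⟨h1, h1'⟩
      · exact ⟨b, hb, nb_pl.2 (Or.inl ((hf.nb_iff hb).2 (Or.inl h1)))⟩
      · obtain ⟨b, hb, τ, hτ, hp, rfl⟩ := hf.cls p q h1 h1'
        exact ⟨b, hb, nb_pl.2 (Or.inr ⟨τ, hτ, Or.inr ⟨p, hp, Or.inl ⟨rfl, rfl⟩⟩⟩)⟩
    obtain ⟨b, hb, hn⟩ := key
    refine ⟨fam b, ⟨b, hb, rfl⟩, k, hk, ?_⟩
    rw [nb_map]
    rcases h2 with ⟨rfl, rfl⟩ | ⟨rfl, rfl⟩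
    · exact ⟨p, q, hn, rfl, rfl⟩
    · exact ⟨q, p, hn.symm, rfl, rfl⟩
  · rintro ⟨F, ⟨b, hb, rfl⟩, k, hk, hn⟩
    rw [nb_map] at hn
    obtain ⟨p, q, hn, rfl, rfl⟩ := hn
    apply E1.map _ hk
    have hbase : ∀ p q, Nb (fam b).1 p q → E1 K bs cl p q := by
      intro p q h
      rcases (hf.nb_iff hb).1 h with h | h
      · exact ⟨1, K.one_mem, p, q, Or.inl ⟨b, hb, h⟩, Or.inl (by simp)⟩
      · exact ⟨1, K.one_mem, q, p, Or.inl ⟨b, hb, h⟩, Or.inr (by simp)⟩
    rcases nb_pl.1 hn with h | ⟨τ, hτ, ⟨p', q', h, rfl, rfl⟩ | ⟨u, hu, h⟩⟩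
    · exact hbase p q h
    · exact (hbase p' q' h).map (hf.tau b hb τ hτ).1
    · obtain ⟨h1, h2, h3, u', hu', h4, h5⟩ := hf.tau b hb τ hτ
      rw [hu] at hu'
      obtain rfl : u = u' := Option.some.inj hu'
      have h6 : E1 K bs cl u (u.map τ) :=
        ⟨1, K.one_mem, u, u.map τ, Or.inr ⟨h4, h5⟩, Or.inl (by simp)⟩
      rcases h with ⟨rfl, rfl⟩ | ⟨rfl, rfl⟩
      · exact h6
      · exact h6.symm

/-- a symmetry maps a component to a component -/
theorem BC.image (hcard : 3 ≤ Fintype.card α) (hbc : BC K Finset.univ bs)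
    (hpw : (bs.map Prod.fst).Pairwise (Inq K))
    (hall : ∀ y, ∃ x ∈ bs.map Prod.fst, ∃ k ∈ K, k x = y) (hf : Fm K bs cl fam)
    {g : Equiv.Perm α}
    (hg : ∀ w w', EK K (flat bs) cl w w' → EK K (flat bs) cl (w.map g) (w'.map g))
    {b : α × List (List α)} (hb : b ∈ bs) :
    ∃ b' ∈ bs, ∃ k ∈ K, (pl (fam b)).map (List.map g) = (pl (fam b')).map (List.map k) ∨
      (pl (fam b)).map (List.map g) = ((pl (fam b')).map (List.map k)).reverse := by
  have hg1 : ∀ w w', E1 K bs cl w w' → E1 K bs cl (w.map g) (w'.map g) := by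
    intro w w' h
    rw [hbc.e1_iff hcard] at h ⊢
    refine ⟨hg _ _ h.1, ?_⟩
    intro e
    apply h.2
    rw [← List.map_reverse] at e
    exact List.map_injective_iff.2 g.injective e
  have hne : (fam b).1 ≠ [] := by
    intro h
    have := hbc.blk_ne hb
    rcases hf.base b hb with h' | h'
    · rw [h] at h'; exact this h'.symm
    · rw [h] at h'
      apply this
      simpa using h'.symm
  obtain ⟨F', ⟨b', hb', rfl⟩, k, hk, h⟩ :=
    (hf.isFam hcard hbc hpw hall).image hf.e1_iff hg1 (F := fam b) ⟨b, hb, rfl⟩ hne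
  exact ⟨b', hb', k, hk, h⟩

lemma BC.card_blk (hbc : BC K Finset.univ bs) {b : α × List (List α)} (hb : b ∈ bs) :
    Fintype.card α * Nat.card K * (blk b).length = (Fintype.card α).factorial * orb K b.1 := by
  rw [blk, List.length_map]
  exact card_block (hbc.tp b hb)

lemma BC.orb_of_length (hbc : BC K Finset.univ bs)
    {b b' : α × List (List α)} (hb : b ∈ bs) (hb' : b' ∈ bs) {m : ℕ}
    (h : (blk b).length = m * (blk b').length) : orb K b.1 = m * orb K b'.1 := by
  have h1 := hbc.card_blk hb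
  have h2 := hbc.card_blk hb'
  have hpos : 0 < (Fintype.card α).factorial := Nat.factorial_pos _
  apply Nat.eq_of_mul_eq_mul_left hpos
  rw [← h1, h]
  calc Fintype.card α * Nat.card K * (m * (blk b').length)
      = m * (Fintype.card α * Nat.card K * (blk b').length) := by ring
    _ = m * ((Fintype.card α).factorial * orb K b'.1) := by rw [h2]
    _ = _ := by ring

/-- the full words are determined by their images: a relabeling which agrees with an element of
`K` on one full word is in `K` -/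
lemma mem_of_map_eq {p : List α} (hp : Wd Finset.univ p) {g k : Equiv.Perm α} (hk : k ∈ K)
    (h : p.map g = p.map k) : g ∈ K := by
  rw [map_inj_of_wd hp h]
  exact hk

lemma length_pl_none {B : List (List α)} : (pl (B, none)).length = B.length := rfl

lemma length_pl_some {B : List (List α)} {τ : Equiv.Perm α} :
    (pl (B, some τ)).length = 2 * B.length := by
  simp [pl]; ring

/-- if the last letters of the reversal of an initial part agree... -/
lemma rv_not_full {a : ℕ} {u : List α} (hu : u.Nodup) (ha : a < u.length) (h2 : 2 ≤ u.length) :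
    rv a u ≠ u.reverse := by
  intro e
  have h1 : (rv a u).getLast? = u.getLast? := by
    unfold rv
    rw [List.getLast?_append]
    have : (u.drop a).getLast? = u.getLast? := by
      rw [List.getLast?_drop]
      simp; omega
    rw [this]
    have hne : u ≠ [] := by rintro rfl; simp at ha
    rw [List.getLast?_eq_some_getLast hne]
    rfl
  rw [e, List.getLast?_reverse] at h1
  have hne : u ≠ [] := by rintro rfl; simp at ha
  rw [List.head?_eq_getElem?, List.getLast?_eq_getElem?, List.getElem?_eq_getElem (by omega),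
    List.getElem?_eq_getElem (by omega)] at h1
  have h3 := (hu.getElem_inj_iff).1 (Option.some.inj h1)
  omega

/-- the involution belonging to a reversal -/
lemma rv_tau {a : ℕ} {u : List α} (hu : Wd Finset.univ u) (ha2 : 2 ≤ a) (ha : a ≤ u.length)
    {τ : Equiv.Perm α} (h : rv a u = u.map τ) : τ * τ = 1 ∧ τ ≠ 1 := by
  constructor
  · apply map_inj_of_wd hu
    rw [← map_map_mul, ← h, ← rv_map, ← h, rv_rv ha]
    simp
  · rintro rfl
    have h1 : rv a u = u := by rw [h]; simp
    have h2 : (rv a u)[0]? = u[a - 1]? := by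
      unfold rv
      rw [List.getElem?_append_left (by simp; omega), List.getElem?_reverse (by simp; omega)]
      simp
      have : min a u.length = a := by omega
      rw [this]
      rw [List.getElem?_take_of_lt (by omega)]
    rw [h1, List.getElem?_eq_getElem (by omega), List.getElem?_eq_getElem (by omega)] at h2
    have h3 := (hu.1.getElem_inj_iff).1 (Option.some.inj h2)
    omega

end core

end Pan
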