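import Pool.Agent.Hhelper18.Pan.ExactCore

/-! # MODULE EC : no further symmetries, cyclic case -/

set_option linter.unusedSectionVars false

namespace Pan

variable {α : Type*} [DecidableEq α] [Fintype α]

theorem exact_cyc {K : Subgroup (Equiv.Perm α)} {bs : List (α × List (List α))}
    (hcard : 3 ≤ Fintype.card α) (hbc : BC K Finset.univ bs)
    (hpw : (bs.map Prod.fst).Pairwise (Inq K))
    (hall : ∀ y, ∃ x ∈ bs.map Prod.fst, ∃ k ∈ K, k x = y)
    {u v a : List α} {κ : Equiv.Perm α} (hκ : κ ∈ K)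
    (hu : (flat bs).head? = some u) (hv : (flat bs).getLast? = some v)
    (hclose : v.reverse = u.map κ)
    {b₁ : α × List (List α)} (hb₁ : bs.head? = some b₁)
    (ha : (b₁.2.map (· ++ [b₁.1])).getLast? = some a)
    (h₁ : ¬ ∃ g : Equiv.Perm α, u.map g = a ∧ a.map g = u)
    (h₂ : ∀ b ∈ bs.tail, ∀ p ∈ (b.2.map (· ++ [b.1])).head?, ∀ q ∈ (b.2.map (· ++ [b.1])).getLast?,
      orb K b.1 = orb K b₁.1 →
        ¬ (∃ g : Equiv.Perm α, u.map g = p ∧ a.map g = q) ∧
        ¬ (∃ g : Equiv.Perm α, u.map g = q ∧ a.map g = p)) :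
    ∀ g : Equiv.Perm α,
      (∀ w w', EK K (flat bs) [(v, v.reverse)] w w' →
        EK K (flat bs) [(v, v.reverse)] (w.map g) (w'.map g)) → g ∈ K := by
  intro g hg
  have hfm : Fm K bs [(v, v.reverse)] (fun b => (blk b, none)) := by
    refine ⟨fun b _ => Or.inl rfl, fun b _ τ hτ => by simp at hτ, ?_⟩
    intro p q hpq hne
    simp only [List.mem_singleton, Prod.mk.injEq] at hpq
    exact absurd (by rw [hpq.1, hpq.2]) hne
  obtain ⟨bs', rfl⟩ := List.head?_eq_some_iff.1 hb₁
  have hb1 : b₁ ∈ b₁ :: bs' := by simp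
  obtain ⟨b, hb, k, hk, h⟩ := hbc.image hcard hpw hall hfm hg hb1
  simp only [pl] at h
  have hlen : (blk b).length = (blk b₁).length := by
    rcases h with h | h
    · have := congrArg List.length h
      simpa using this.symm
    · have := congrArg List.length h
      simpa using this.symm
  have horb : orb K b.1 = orb K b₁.1 := by
    have := hbc.orb_of_length hb hb1 (m := 1) (by rw [hlen, one_mul])
    rw [this, one_mul]
  have hne1 := hbc.blk_ne hb1
  have hne := hbc.blk_ne hb
  -- the first and last words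
  have hu1 : (blk b₁).head? = some u := by
    rw [flat_eq] at hu
    obtain ⟨c, l, hc⟩ := List.exists_cons_of_ne_nil hne1
    rw [List.map_cons, List.flatten_cons, hc] at hu
    rw [hc]
    simpa using hu
  have ha1 : (blk b₁).getLast? = some a := ha
  obtain ⟨p, hp⟩ : ∃ p, (blk b).head? = some p := by
    obtain ⟨c, l, hc⟩ := List.exists_cons_of_ne_nil hne
    exact ⟨c, by rw [hc]; rfl⟩
  obtain ⟨q, hq⟩ : ∃ q, (blk b).getLast? = some q :=
    ⟨_, List.getLast?_eq_some_getLast hne⟩
  have hfu : Wd Finset.univ u := by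
    obtain ⟨-, -, -, -, h⟩ := hbc.wd_blk hb1 (List.mem_of_mem_head? hu1)
    exact h
  have hcases : (u.map g = p.map k ∧ a.map g = q.map k) ∨
      (u.map g = q.map k ∧ a.map g = p.map k) := by
    rcases h with h | h
    · left
      have e1 := congrArg List.head? h
      have e2 := congrArg List.getLast? h
      rw [List.head?_map, List.head?_map, hu1, hp] at e1
      rw [List.getLast?_map, List.getLast?_map, ha1, hq] at e2
      exact ⟨Option.some.inj e1, Option.some.inj e2⟩
    · right
      have e1 := congrArg List.head? h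
      have e2 := congrArg List.getLast? h
      rw [List.head?_reverse, List.head?_map, List.getLast?_map, hu1, hq] at e1
      rw [List.getLast?_reverse, List.head?_map, List.getLast?_map, ha1, hp] at e2
      exact ⟨Option.some.inj e1, Option.some.inj e2⟩
  have hinv : ∀ p' q' : List α, p'.map g = q'.map k → p'.map (k⁻¹ * g : Equiv.Perm α) = q' := by
    intro p' q' e
    rw [← map_map_mul, e, map_map_mul]
    simp
  rcases List.mem_cons.1 hb with rfl | hb'
  · rw [hu1] at hp
    rw [ha1] at hq
    obtain rfl : u = p := Option.some.inj hp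
    obtain rfl : a = q := Option.some.inj hq
    rcases hcases with ⟨e1, -⟩ | ⟨e1, e2⟩
    · exact mem_of_map_eq hfu hk e1
    · exact absurd ⟨_, hinv _ _ e1, hinv _ _ e2⟩ h₁
  · have h3 := h₂ b hb' p hp q hq horb
    rcases hcases with ⟨e1, e2⟩ | ⟨e1, e2⟩
    · exact absurd ⟨_, hinv _ _ e1, hinv _ _ e2⟩ h3.1
    · exact absurd ⟨_, hinv _ _ e1, hinv _ _ e2⟩ h3.2

end Pan
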