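import Pool.Agent.Hhelper18.Pan.ExactCore

/-! # MODULE ED : no further symmetries, dihedral case -/

set_option linter.unusedSectionVars false

namespace Pan

variable {α : Type*} [DecidableEq α] [Fintype α]

/-- a symmetry which maps a prolonged path to a translate of itself is in `K` -/
lemma mem_of_pl_map {K : Subgroup (Equiv.Perm α)} {B : List (List α)} {τ g k : Equiv.Perm α}
    {p : List α} (hp : p ∈ B) (hfull : Wd Finset.univ p) (hτK : τ ∈ K) (hτ : τ * τ = 1)
    (hk : k ∈ K)
    (h : (pl (B, some τ)).map (List.map g) = (pl (B, some τ)).map (List.map k) ∨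
      (pl (B, some τ)).map (List.map g) = ((pl (B, some τ)).map (List.map k)).reverse) : g ∈ K := by
  have hp' : p ∈ pl (B, some τ) := mem_pl_of_mem hp
  rcases h with h | h
  · exact mem_of_map_eq hfull hk (List.map_inj_left.1 h p hp')
  · rw [← List.map_reverse, ← pl_map_tau hτ, List.map_map, listmap_mul] at h
    exact mem_of_map_eq hfull (K.mul_mem hk hτK) (List.map_inj_left.1 h p hp')

lemma head_flat {K : Subgroup (Equiv.Perm α)} {b : α × List (List α)}
    {bs : List (α × List (List α))} (hbc : BC K Finset.univ (b :: bs)) {u : List α}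
    (hu : (flat (b :: bs)).head? = some u) : (blk b).head? = some u := by
  have hne := hbc.blk_ne (b := b) (by simp)
  rw [flat_eq] at hu
  obtain ⟨c, l, hc⟩ := List.exists_cons_of_ne_nil hne
  rw [List.map_cons, List.flatten_cons, hc] at hu
  rw [hc]
  simpa using hu

lemma last_flat {K : Subgroup (Equiv.Perm α)} {c : α × List (List α)}
    {bs : List (α × List (List α))} (hbc : BC K Finset.univ (bs ++ [c])) {v : List α}
    (hv : (flat (bs ++ [c])).getLast? = some v) : (blk c).getLast? = some v := by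
  have hne := hbc.blk_ne (b := c) (by simp)
  rw [flat_eq] at hv
  rw [List.map_append, List.flatten_append, List.map_cons, List.map_nil, List.flatten_cons,
    List.flatten_nil, List.append_nil, List.getLast?_append] at hv
  rw [List.getLast?_eq_some_getLast hne] at hv ⊢
  simpa using hv

theorem exact_dih {K : Subgroup (Equiv.Perm α)} {bs : List (α × List (List α))}
    (hcard : 3 ≤ Fintype.card α) (hbc : BC K Finset.univ bs) (hlen : 2 ≤ bs.length)
    (hpw : (bs.map Prod.fst).Pairwise (Inq K))
    (hall : ∀ y, ∃ x ∈ bs.map Prod.fst, ∃ k ∈ K, k x = y)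
    {u v : List α} {τ₁ τ₂ : Equiv.Perm α} (h₁ : τ₁ ∈ K) (h₂ : τ₂ ∈ K)
    (hu : (flat bs).head? = some u) (hv : (flat bs).getLast? = some v)
    {a b : ℕ} (ha2 : 2 ≤ a) (ha : a < Fintype.card α) (hb2 : 2 ≤ b) (hb : b ≤ Fintype.card α)
    (hua : rv a u = u.map τ₁) (hvb : rv b v = v.map τ₂)
    {b₁ : α × List (List α)} (hb₁ : bs.head? = some b₁)
    (hmid : ∀ c ∈ bs.tail, (bs.getLast? = some c → b = Fintype.card α) →
      orb K c.1 ≠ 2 * orb K b₁.1)
    (hlast : ∀ c, bs.getLast? = some c → b < Fintype.card α → orb K c.1 ≠ orb K b₁.1) :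
    ∀ g : Equiv.Perm α,
      (∀ w w', EK K (flat bs) [(u, u.map τ₁), (v, v.map τ₂)] w w' →
        EK K (flat bs) [(u, u.map τ₁), (v, v.map τ₂)] (w.map g) (w'.map g)) → g ∈ K := by
  intro g hg
  classical
  obtain ⟨bs', rfl⟩ := List.head?_eq_some_iff.1 hb₁
  have hb1 : b₁ ∈ b₁ :: bs' := by simp
  have hbs' : bs' ≠ [] := by rintro rfl; simp at hlen
  have hu1 : (blk b₁).head? = some u := head_flat hbc hu
  obtain ⟨bs'', c, hc⟩ : ∃ l c, b₁ :: bs' = l ++ [c] := by
    rcases List.eq_nil_or_concat' (b₁ :: bs') with h | ⟨l, c, h⟩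
    · simp at h
    · exact ⟨l, c, h⟩
  have hcl : (b₁ :: bs').getLast? = some c := by rw [hc]; simp
  have hcm : c ∈ b₁ :: bs' := List.mem_of_getLast? hcl
  have hcm' : c ∈ bs' := by
    obtain ⟨d, l, rfl⟩ := List.exists_cons_of_ne_nil hbs'
    rw [List.getLast?_cons_cons] at hcl
    exact List.mem_of_getLast? hcl
  have hv1 : (blk c).getLast? = some v := by
    rw [hc] at hbc hv
    exact last_flat hbc hv
  have hcb : c ≠ b₁ := by
    rintro rfl
    rw [List.map_cons, List.pairwise_cons] at hpw
    exact hpw.1 c.1 (List.mem_map_of_mem hcm') 1 K.one_mem rfl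
  have hfu : Wd Finset.univ u := by
    obtain ⟨-, -, -, -, h⟩ := hbc.wd_blk hb1 (List.mem_of_mem_head? hu1)
    exact h
  have hfv : Wd Finset.univ v := by
    obtain ⟨-, -, -, -, h⟩ := hbc.wd_blk hcm (List.mem_of_getLast? hv1)
    exact h
  have hlu : u.length = Fintype.card α := by rw [hfu.length, Finset.card_univ]
  have hlv : v.length = Fintype.card α := by rw [hfv.length, Finset.card_univ]
  have ht1 := rv_tau hfu ha2 (by omega) hua
  have ht2 := rv_tau hfv hb2 (by omega) hvb
  have hn1 : u.map τ₁ ≠ u.reverse := by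
    rw [← hua]
    exact rv_not_full hfu.1 (by omega) (by omega)
  let fam : α × List (List α) → List (List α) × Option (Equiv.Perm α) := fun d =>
    if d = b₁ then (blk d, some τ₁) else
      if d = c ∧ b < Fintype.card α then ((blk d).reverse, some τ₂) else (blk d, none)
  have hf1 : fam b₁ = (blk b₁, some τ₁) := by simp [fam]
  have hf2 : b < Fintype.card α → fam c = ((blk c).reverse, some τ₂) := by
    intro h
    simp [fam, hcb, h]
  have hf3 : ∀ d, d ≠ b₁ → ¬ (d = c ∧ b < Fintype.card α) → fam d = (blk d, none) := by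
    intro d hd1 hd2
    simp only [fam, if_neg hd1, if_neg hd2]
  have hfm : Fm K (b₁ :: bs') [(u, u.map τ₁), (v, v.map τ₂)] fam := by
    refine ⟨?_, ?_, ?_⟩
    · intro d _
      by_cases hd1 : d = b₁
      · subst hd1; rw [hf1]; exact Or.inl rfl
      by_cases hd2 : d = c ∧ b < Fintype.card α
      · obtain ⟨rfl, h⟩ := hd2
        rw [hf2 h]; exact Or.inr rfl
      · rw [hf3 d hd1 hd2]; exact Or.inl rfl
    · intro d _ τ hτ
      by_cases hd1 : d = b₁
      · subst hd1
        rw [hf1] at hτ ⊢
        obtain rfl : τ₁ = τ := Option.some.inj hτ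
        exact ⟨h₁, ht1.1, ht1.2, u, hu1, by simp, hn1⟩
      by_cases hd2 : d = c ∧ b < Fintype.card α
      · obtain ⟨rfl, h⟩ := hd2
        rw [hf2 h] at hτ ⊢
        obtain rfl : τ₂ = τ := Option.some.inj hτ
        refine ⟨h₂, ht2.1, ht2.2, v, ?_, by simp, ?_⟩
        · rw [List.head?_reverse]; exact hv1
        · rw [← hvb]
          exact rv_not_full hfv.1 (by omega) (by omega)
      · rw [hf3 d hd1 hd2] at hτ
        simp at hτ
    · intro p q hpq hne
      simp only [List.mem_cons, Prod.mk.injEq, List.not_mem_nil, or_false] at hpq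
      rcases hpq with ⟨rfl, rfl⟩ | ⟨rfl, rfl⟩
      · exact ⟨b₁, hb1, τ₁, by rw [hf1], by rw [hf1]; exact hu1, rfl⟩
      · have hbn : b < Fintype.card α := by
          by_contra hge
          apply hne
          have : b = p.length := by omega
          rw [← hvb, this, rv_full]
        refine ⟨c, hcm, τ₂, by rw [hf2 hbn], ?_, rfl⟩
        rw [hf2 hbn, List.head?_reverse]
        exact hv1
  obtain ⟨d, hd, k, hk, h⟩ := hbc.image hcard hpw hall hfm hg hb1
  rw [hf1] at h
  have hlen' : 2 * (blk b₁).length = (pl (fam d)).length := by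
    rcases h with h | h
    · have := congrArg List.length h
      rw [List.length_map, List.length_map, length_pl_some] at this
      exact this
    · have := congrArg List.length h
      rw [List.length_reverse, List.length_map, List.length_map, length_pl_some] at this
      exact this
  by_cases hd1 : d = b₁
  · subst hd1
    rw [hf1] at h
    exact mem_of_pl_map (List.mem_of_mem_head? hu1) hfu h₁ ht1.1 hk h
  exfalso
  by_cases hd2 : d = c ∧ b < Fintype.card α
  · obtain ⟨rfl, hbn⟩ := hd2
    rw [hf2 hbn, length_pl_some, List.length_reverse] at hlen'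
    apply hlast d hcl hbn
    have := hbc.orb_of_length hd hb1 (m := 1) (by omega)
    rw [this, one_mul]
  · rw [hf3 d hd1 hd2, length_pl_none] at hlen'
    have hd' : d ∈ bs' := by
      rcases List.mem_cons.1 hd with h | h
      · exact absurd h hd1
      · exact h
    refine hmid d hd' ?_ (hbc.orb_of_length hd hb1 (m := 2) hlen'.symm)
    intro hdl
    rw [hcl] at hdl
    have hdc : d = c := (Option.some.inj hdl).symm
    by_contra hbn
    exact hd2 ⟨hdc, by omega⟩

/-- the case of one block -/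
theorem exact_dih_one {K : Subgroup (Equiv.Perm α)} {x : α} {S : List (List α)}
    (hcard : 3 ≤ Fintype.card α) (hbc : BC K Finset.univ [(x, S)])
    (hall : ∀ y, ∃ k ∈ K, k x = y)
    {u v : List α} {τ₁ τ₂ : Equiv.Perm α} (h₁ : τ₁ ∈ K) (h₂ : τ₂ ∈ K)
    (hu : (flat [(x, S)]).head? = some u) (hv : (flat [(x, S)]).getLast? = some v)
    {a : ℕ} (ha2 : 2 ≤ a) (ha : a < Fintype.card α)
    (hua : rv a u = u.map τ₁) (hvb : v.reverse = v.map τ₂) :
    ∀ g : Equiv.Perm α,
      (∀ w w', EK K (flat [(x, S)]) [(u, u.map τ₁), (v, v.map τ₂)] w w' →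
        EK K (flat [(x, S)]) [(u, u.map τ₁), (v, v.map τ₂)] (w.map g) (w'.map g)) → g ∈ K := by
  intro g hg
  have hb1 : (x, S) ∈ [(x, S)] := by simp
  have hu1 : (blk (x, S)).head? = some u := head_flat hbc hu
  have hfu : Wd Finset.univ u := by
    obtain ⟨-, -, -, -, h⟩ := hbc.wd_blk hb1 (List.mem_of_mem_head? hu1)
    exact h
  have hlu : u.length = Fintype.card α := by rw [hfu.length, Finset.card_univ]
  have ht1 := rv_tau hfu ha2 (by omega) hua
  have hn1 : u.map τ₁ ≠ u.reverse := by
    rw [← hua]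
    exact rv_not_full hfu.1 (by omega) (by omega)
  have hfm : Fm K [(x, S)] [(u, u.map τ₁), (v, v.map τ₂)] (fun d => (blk d, some τ₁)) := by
    refine ⟨fun d _ => Or.inl rfl, ?_, ?_⟩
    · intro d hd τ hτ
      obtain rfl : d = (x, S) := by simpa using hd
      obtain rfl : τ₁ = τ := Option.some.inj hτ
      exact ⟨h₁, ht1.1, ht1.2, u, hu1, by simp, hn1⟩
    · intro p q hpq hne
      simp only [List.mem_cons, Prod.mk.injEq, List.not_mem_nil, or_false] at hpq
      rcases hpq with ⟨rfl, rfl⟩ | ⟨rfl, rfl⟩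
      · exact ⟨(x, S), hb1, τ₁, rfl, hu1, rfl⟩
      · exact absurd hvb.symm hne
  have hall' : ∀ y, ∃ z ∈ [(x, S)].map Prod.fst, ∃ k ∈ K, k z = y := by
    intro y
    obtain ⟨k, hk, e⟩ := hall y
    exact ⟨x, by simp, k, hk, e⟩
  obtain ⟨d, hd, k, hk, h⟩ := hbc.image hcard (by simp) hall' hfm hg hb1
  obtain rfl : d = (x, S) := by simpa using hd
  exact mem_of_pl_map (List.mem_of_mem_head? hu1) hfu h₁ ht1.1 hk h

end Pan
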