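import Pool.Agent.Hhelper18.Pan.Defs

/-! # MODULE GR : the pancake graph and its Hamiltonian cycles -/

namespace Pan

/-- the prefix reversal `r_k` of the first `k` positions (positions are `0, …, n-1`) -/
def prefixRev (n k : ℕ) : Equiv.Perm (Fin n) where
  toFun i := if h : (i : ℕ) < k then
      if h' : k ≤ n then ⟨k - 1 - i, by omega⟩ else i
    else i
  invFun i := if h : (i : ℕ) < k then
      if h' : k ≤ n then ⟨k - 1 - i, by omega⟩ else i
    else i
  left_inv i := by
    by_cases h : (i : ℕ) < k
    · by_cases h' : k ≤ n
      · have h'' : k - 1 - (i : ℕ) < k := by omega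
        simp only [h, h', dite_true, h'']
        ext; simp; omega
      · simp [h, h']
    · simp [h]
  right_inv i := by
    by_cases h : (i : ℕ) < k
    · by_cases h' : k ≤ n
      · have h'' : k - 1 - (i : ℕ) < k := by omega
        simp only [h, h', dite_true, h'']
        ext; simp; omega
      · simp [h, h']
    · simp [h]

/-- the pancake graph: the Cayley graph of `S_n` with respect to `r_2, …, r_n` -/
def pancake (n : ℕ) : SimpleGraph (Equiv.Perm (Fin n)) :=
  SimpleGraph.fromRel fun g h => ∃ k, 2 ≤ k ∧ k ≤ n ∧ h = g * prefixRev n k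

/-- the edge sets of Hamiltonian cycles of the pancake graph -/
def IsHamCycle (n : ℕ) (C : Set (Sym2 (Equiv.Perm (Fin n)))) : Prop :=
  ∃ (g : Equiv.Perm (Fin n)) (p : (pancake n).Walk g g), p.IsHamiltonianCycle ∧
    C = {e | e ∈ p.edges}

/-- the stabiliser of an edge set in the automorphism group of the pancake graph -/
def autStab (n : ℕ) (C : Set (Sym2 (Equiv.Perm (Fin n)))) : Type :=
  {φ : pancake n ≃g pancake n // Sym2.map φ '' C = C}

/-- the stabiliser of an edge set in the group of left translations -/
def leftStab (n : ℕ) (C : Set (Sym2 (Equiv.Perm (Fin n)))) : Type :=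
  {σ : Equiv.Perm (Fin n) // Sym2.map (σ * ·) '' C = C}

/-- the set of stabiliser sizes, with the stabiliser taken in the automorphism group -/
def Sigma (n : ℕ) : Set ℕ := {s | ∃ C, IsHamCycle n C ∧ s = Nat.card (autStab n C)}

/-- the same with left translations -/
def SigmaL (n : ℕ) : Set ℕ := {s | ∃ C, IsHamCycle n C ∧ s = Nat.card (leftStab n C)}

/-- the word of a permutation -/
def word {n : ℕ} (g : Equiv.Perm (Fin n)) : List (Fin n) := List.ofFn g

lemma word_injective {n : ℕ} : Function.Injective (word (n := n)) := by
  intro g h e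
  have := List.ofFn_injective e
  exact DFunLike.coe_injective this

@[simp] lemma word_length {n : ℕ} (g : Equiv.Perm (Fin n)) : (word g).length = n := by
  simp [word]

lemma wd_word {n : ℕ} (g : Equiv.Perm (Fin n)) : Wd Finset.univ (word g) := by
  refine ⟨List.nodup_ofFn.2 g.injective, ?_⟩
  ext a
  simp only [List.mem_toFinset, Finset.mem_univ, iff_true, word, List.mem_ofFn]
  exact ⟨g.symm a, by simp⟩

lemma exists_perm_word {n : ℕ} {w : List (Fin n)} (h : Wd Finset.univ w) : ∃ g, word g = w := by
  have hl : w.length = n := by rw [h.length]; simp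
  have hinj : Function.Injective (fun i : Fin n => w[(i : ℕ)]'(by rw [hl]; exact i.2)) := by
    intro i j e
    exact Fin.ext ((List.Nodup.getElem_inj_iff h.1).1 e)
  refine ⟨Equiv.ofBijective _ (Finite.injective_iff_bijective.1 hinj), ?_⟩
  apply List.ext_getElem
  · simp [hl]
  · intro i h1 h2
    simp [word]

lemma word_map {n : ℕ} (s g : Equiv.Perm (Fin n)) : (word g).map s = word (s * g) := by
  simp [word, List.map_ofFn]

lemma prefixRev_apply {n k : ℕ} (hk : k ≤ n) (i : Fin n) :
    ((prefixRev n k i : Fin n) : ℕ) = if (i : ℕ) < k then k - 1 - i else i := by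
  show (((if h : (i : ℕ) < k then
      if h' : k ≤ n then (⟨k - 1 - i, by omega⟩ : Fin n) else i
    else i) : Fin n) : ℕ) = _
  split_ifs <;> rfl

lemma word_rv {n k : ℕ} (hk : k ≤ n) (g : Equiv.Perm (Fin n)) :
    word (g * prefixRev n k) = rv k (word g) := by
  apply List.ext_getElem
  · simp
  · intro i h1 h2
    have hi : i < n := by simpa using h1
    have e1 : (word (g * prefixRev n k))[i] = g (prefixRev n k ⟨i, hi⟩) := by
      simp [word]
    rw [e1]
    have e2 : ∀ (j : ℕ) (hj : j < n), (word g)[j]'(by simpa using hj) = g ⟨j, hj⟩ := by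
      intro j hj; simp [word]
    have hp := prefixRev_apply hk ⟨i, hi⟩
    by_cases hik : i < k
    · have e3 : (rv k (word g))[i] = (word g)[k - 1 - i]'(by simp; omega) := by
        simp only [rv]
        rw [List.getElem_append_left (by simp; omega), List.getElem_reverse, List.getElem_take]
        congr 1
        simp
        omega
      rw [e3, e2 _ (by omega)]
      congr 1
      apply Fin.ext
      rw [hp]
      simp [hik]
    · have e3 : (rv k (word g))[i] = (word g)[i]'(by simpa using hi) := by
        simp only [rv]
        rw [List.getElem_append_right (by simp; omega), List.getElem_drop]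
        congr 1
        simp
        omega
      rw [e3, e2 _ hi]
      congr 1
      apply Fin.ext
      rw [hp]
      simp [hik]

lemma prefixRev_ne {n k : ℕ} (h2 : 2 ≤ k) (hk : k ≤ n) (g : Equiv.Perm (Fin n)) :
    g ≠ g * prefixRev n k := by
  intro e
  have h1 : prefixRev n k = 1 := by
    have : g * 1 = g * prefixRev n k := by rw [mul_one]; exact e
    exact (mul_left_cancel this).symm
  have h3 := prefixRev_apply hk ⟨0, by omega⟩
  rw [h1] at h3
  simp at h3
  omega

lemma pancake_adj {n : ℕ} (g h : Equiv.Perm (Fin n)) :
    (pancake n).Adj g h ↔ Adj (word g) (word h) := by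
  unfold pancake
  rw [SimpleGraph.fromRel_adj]
  constructor
  · rintro ⟨-, ⟨k, h2, hk, rfl⟩ | ⟨k, h2, hk, rfl⟩⟩
    · exact ⟨k, h2, by simpa using hk, word_rv hk g⟩
    · apply Adj.symm
      exact ⟨k, h2, by simpa using hk, word_rv hk h⟩
  · rintro ⟨k, h2, hk, e⟩
    rw [word_length] at hk
    rw [← word_rv hk] at e
    have := word_injective e
    subst this
    exact ⟨prefixRev_ne h2 hk g, Or.inl ⟨k, h2, hk, rfl⟩⟩

/-- neighbours on the cyclic sequence of words and edges of the walk -/
lemma cycAdj_edges {n : ℕ} {g : Equiv.Perm (Fin n)} (p : (pancake n).Walk g g)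
    {T : List (Equiv.Perm (Fin n))} (hT : p.support = g :: T) (hg : T.getLast? = some g)
    (a b : Equiv.Perm (Fin n)) :
    CycAdj (T.map word) (word a) (word b) ↔ s(a, b) ∈ p.edges := by
  rw [← SimpleGraph.Walk.infix_support_iff_mem_edges, hT]
  have hinf : ∀ c d, [word c, word d] <:+: T.map word ↔ [c, d] <:+: T := by
    intro c d
    constructor
    · rintro ⟨s, t, e⟩
      rw [List.append_assoc] at e
      obtain ⟨s', T', rfl, rfl, e2⟩ := List.append_eq_map_iff.1 e
      obtain ⟨cd, t', rfl, e3, rfl⟩ := List.append_eq_map_iff.1 e2.symm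
      have : cd = [c, d] := by
        apply List.map_injective_iff.2 word_injective
        simpa using e3
      subst this
      exact ⟨s', t', by simp⟩
    · intro h
      have := h.map word
      simpa using this
  have hhead : (T.map word).head? = T.head?.map word := by simp
  have hlast : (T.map word).getLast? = T.getLast?.map word := by simp
  have hcons : ∀ c d, [c, d] <:+: g :: T ↔ [c, d] <:+: T ∨ (c = g ∧ T.head? = some d) := by
    intro c d
    rw [List.infix_cons_iff, or_comm]
    apply or_congr_right
    rw [List.cons_prefix_cons]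
    apply and_congr_right
    intro _
    cases T with
    | nil => simp
    | cons x T' => simp [List.cons_prefix_cons, eq_comm]
  unfold CycAdj
  rw [hinf, hinf, hhead, hlast, hg, hcons, hcons]
  have hh : ∀ c, T.head?.map word = some (word c) ↔ T.head? = some c := by
    intro c
    rw [Option.map_eq_some_iff]
    constructor
    · rintro ⟨x, h1, h2⟩
      rw [h1, word_injective h2]
    · intro h
      exact ⟨c, h, rfl⟩
  have hl : ∀ c, (some g).map word = some (word c) ↔ c = g := by
    intro c
    simp only [Option.map_some, Option.some.injEq]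
    exact ⟨fun h => (word_injective h).symm, fun h => by rw [h]⟩
  rw [hh, hh, hl, hl]
  tauto

lemma cycAdj_mem {α : Type*} {L : List (List α)} {w w' : List α} (h : CycAdj L w w') :
    w ∈ L ∧ w' ∈ L := by
  rcases h with h | h | ⟨h1, h2⟩ | ⟨h1, h2⟩
  · exact ⟨h.subset (by simp), h.subset (by simp)⟩
  · exact ⟨h.subset (by simp), h.subset (by simp)⟩
  · exact ⟨List.mem_of_mem_head? h1, List.mem_of_getLast? h2⟩
  · exact ⟨List.mem_of_getLast? h2, List.mem_of_mem_head? h1⟩

lemma card_leftStab {n : ℕ} {g : Equiv.Perm (Fin n)} (p : (pancake n).Walk g g)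
    {T : List (Equiv.Perm (Fin n))} (hT : p.support = g :: T) (hg : T.getLast? = some g) :
    Nat.card (leftStab n {e | e ∈ p.edges}) =
      Nat.card {σ : Equiv.Perm (Fin n) // ∀ w w', CycAdj (T.map word) w w' →
        CycAdj (T.map word) (w.map σ) (w'.map σ)} := by
  unfold leftStab
  apply Nat.card_congr
  apply Equiv.subtypeEquivRight
  intro σ
  set C : Set (Sym2 (Equiv.Perm (Fin n))) := {e | e ∈ p.edges} with hC
  have hinj : Function.Injective (Sym2.map (fun x : Equiv.Perm (Fin n) => σ * x)) :=
    Sym2.map.injective (mul_right_injective σ)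
  constructor
  · intro h w w' hw
    have hm := cycAdj_mem hw
    obtain ⟨a, -, rfl⟩ := List.mem_map.1 hm.1
    obtain ⟨b, -, rfl⟩ := List.mem_map.1 hm.2
    rw [cycAdj_edges p hT hg] at hw
    rw [word_map, word_map, cycAdj_edges p hT hg]
    have h1 : Sym2.map (fun x : Equiv.Perm (Fin n) => σ * x) s(a, b) ∈ C := by
      rw [← h]
      exact ⟨_, hw, rfl⟩
    exact h1
  · intro h
    have hsub : Sym2.map (fun x : Equiv.Perm (Fin n) => σ * x) '' C ⊆ C := by
      rintro _ ⟨e, he, rfl⟩
      induction e with
      | _ a b =>
        have h1 : CycAdj (T.map word) (word a) (word b) := (cycAdj_edges p hT hg a b).2 he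
        have h2 := h _ _ h1
        rw [word_map, word_map, cycAdj_edges p hT hg] at h2
        exact h2
    have hfin : C.Finite := List.finite_toSet p.edges
    exact Set.eq_of_subset_of_ncard_le hsub (by rw [Set.ncard_image_of_injective _ hinj]) hfin

lemma exists_walk {V : Type*} {G : SimpleGraph V} {l : List V} {u v : V} (hc : l.IsChain G.Adj)
    (hu : l.head? = some u) (hv : l.getLast? = some v) : ∃ p : G.Walk u v, p.support = l := by
  have hne : l ≠ [] := by rintro rfl; simp at hu
  have e1 : l.head hne = u := by
    rw [List.head?_eq_some_head hne] at hu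
    exact Option.some.inj hu
  have e2 : l.getLast hne = v := by
    rw [List.getLast?_eq_some_getLast hne] at hv
    exact Option.some.inj hv
  subst e1 e2
  exact ⟨SimpleGraph.Walk.ofSupport l hne hc, SimpleGraph.Walk.support_ofSupport hne hc⟩

theorem mem_sigmaL_iff (n s : ℕ) (hn : 3 ≤ n) : s ∈ SigmaL n ↔ SizeAt (Fin n) s := by
  constructor
  · rintro ⟨C, ⟨g, p, hp, rfl⟩, rfl⟩
    obtain ⟨hcyc, hcount⟩ :=
      SimpleGraph.Walk.isHamiltonianCycle_iff_isCycle_and_support_count_tail_eq_one.1 hp
    obtain ⟨T, hT⟩ : ∃ T, p.support = g :: T := by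
      refine ⟨p.support.tail, ?_⟩
      have := p.head_support
      conv_lhs => rw [← List.cons_head_tail p.support_ne_nil]
      rw [this]
    have hlen : T.length = p.length := by
      have := p.length_support
      rw [hT] at this
      simpa using this
    have h3 : 3 ≤ T.length := by rw [hlen]; exact hcyc.three_le_length
    have hTne : T ≠ [] := by rintro rfl; simp at h3
    rw [hT, List.tail_cons] at hcount
    have hTg : T.getLast? = some g := by
      have h1 := p.getLast_support
      have h2 : p.support.getLast? = some g := by
        rw [List.getLast?_eq_some_getLast p.support_ne_nil, h1]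
      rw [hT, List.getLast?_cons] at h2
      rw [List.getLast?_eq_some_getLast hTne] at h2 ⊢
      simpa using h2
    refine ⟨T.map word, ?_, (card_leftStab p hT hTg).symm⟩
    have hchain := p.isChain_adj_support
    rw [hT] at hchain
    refine ⟨?_, ?_, ?_, ?_, ?_⟩
    · rw [List.isChain_map]
      exact hchain.of_cons.imp (fun a b hab => (pancake_adj a b).1 hab)
    · intro a ha b hb
      rw [List.getLast?_map, hTg] at ha
      simp only [Option.map_some, Option.mem_def, Option.some.injEq] at ha
      subst ha
      cases T with
      | nil => simp at hTne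
      | cons x T' =>
        simp only [List.map_cons, List.head?_cons, Option.mem_def, Option.some.injEq] at hb
        subst hb
        rw [← pancake_adj]
        exact hchain.rel
    · apply List.Nodup.map word_injective
      rw [List.nodup_iff_count_le_one]
      exact fun a => (hcount a).le
    · intro w
      constructor
      · intro hw
        obtain ⟨a, -, rfl⟩ := List.mem_map.1 hw
        exact wd_word a
      · intro hw
        obtain ⟨a, rfl⟩ := exists_perm_word hw
        apply List.mem_map_of_mem
        rw [← List.one_le_count_iff, hcount a]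
    · simpa using h3
  · rintro ⟨L, hL, rfl⟩
    have hne : L ≠ [] := by
      have := hL.len
      rintro rfl; simp at this
    obtain ⟨T, rfl⟩ : ∃ T : List (Equiv.Perm (Fin n)), L = T.map word := by
      have : ∀ w ∈ L, ∃ a : Equiv.Perm (Fin n), word a = w := fun w hw =>
        exists_perm_word ((hL.mem w).1 hw)
      have h2 : ∀ M : List (List (Fin n)), (∀ w ∈ M, ∃ a : Equiv.Perm (Fin n), word a = w) →
          ∃ T : List (Equiv.Perm (Fin n)), M = T.map word := by
        intro M
        induction M with
        | nil => exact fun _ => ⟨[], rfl⟩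
        | cons w M ih =>
          intro h
          obtain ⟨a, ha⟩ := h w (by simp)
          obtain ⟨T, hT⟩ := ih (fun w' hw' => h w' (by simp [hw']))
          exact ⟨a :: T, by rw [List.map_cons, ha, hT]⟩
      exact h2 L this
    have hTne : T ≠ [] := by rintro rfl; simp at hne
    have hlen : 3 ≤ T.length := by simpa using hL.len
    set g := T.getLast hTne with hg
    have hTg : T.getLast? = some g := List.getLast?_eq_some_getLast hTne
    have hchainT : T.IsChain (pancake n).Adj := by
      have := hL.chain
      rw [List.isChain_map] at this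
      exact this.imp (fun a b hab => (pancake_adj a b).2 hab)
    have hchain : (g :: T).IsChain (pancake n).Adj := by
      rw [List.isChain_cons]
      refine ⟨fun y hy => ?_, hchainT⟩
      rw [pancake_adj]
      apply hL.close
      · rw [List.getLast?_map, hTg]; rfl
      · rw [List.head?_map]
        rw [Option.mem_def] at hy
        rw [hy]; rfl
    obtain ⟨p, hp⟩ := exists_walk hchain (u := g) (v := g) (by simp)
      (by rw [List.getLast?_cons, hTg]; rfl)
    have hplen : p.length = T.length := by
      have := p.length_support
      rw [hp] at this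
      simpa using this.symm
    have hnodup : T.Nodup := by
      have := hL.nodup
      exact List.Nodup.of_map _ this
    refine ⟨{e | e ∈ p.edges}, ⟨g, p, ?_, rfl⟩, (card_leftStab p hp hTg).symm⟩
    rw [SimpleGraph.Walk.isHamiltonianCycle_iff_isCycle_and_support_count_tail_eq_one]
    have hnil : ¬ p.Nil := by
      intro h
      have := SimpleGraph.Walk.length_eq_zero_iff.2 h
      omega
    constructor
    · rw [SimpleGraph.Walk.isCycle_iff_isPath_tail_and_le_length]
      refine ⟨?_, by omega⟩
      rw [SimpleGraph.Walk.isPath_def, SimpleGraph.Walk.support_tail_of_not_nil p hnil, hp,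
        List.tail_cons]
      exact hnodup
    · intro a
      rw [hp, List.tail_cons]
      apply List.count_eq_one_of_mem hnodup
      have : word a ∈ T.map word := (hL.mem _).2 (wd_word a)
      obtain ⟨b, hb, e⟩ := List.mem_map.1 this
      rwa [word_injective e] at hb

end Pan
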