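import Pool.Agent.Hhelper18.Pan.ClsFacts

/-! # MODULE PM : permutations with pairwise coprime cycle lengths -/

set_option linter.unusedSectionVars false

namespace Pan

namespace PM

/-- the sum of the prime power parts of `c` -/
def S (c : ℕ) : ℕ := ∑ p ∈ c.primeFactors, p ^ c.factorization p

lemma S_mul {a b : ℕ} (h : a.Coprime b) : S (a * b) = S a + S b := by
  unfold S
  rw [h.primeFactors_mul, Finset.sum_union h.disjoint_primeFactors]
  congr 1
  · refine Finset.sum_congr rfl fun p hp => ?_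
    rw [Nat.factorization_eq_of_coprime_left h (by rwa [Nat.mem_primeFactors_iff_mem_primeFactorsList] at hp)]
  · refine Finset.sum_congr rfl fun p hp => ?_
    rw [mul_comm, Nat.factorization_eq_of_coprime_left h.symm
      (by rwa [Nat.mem_primeFactors_iff_mem_primeFactorsList] at hp)]

lemma S_le (a : ℕ) : a ≠ 0 → S a ≤ a := by
  induction a using Nat.recOnPosPrimePosCoprime with
  | zero => intro h; exact absurd rfl h
  | one => intro _; simp [S]
  | prime_pow p n hp hn =>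
    intro _
    unfold S
    rw [Nat.primeFactors_prime_pow hn.ne' hp, Finset.sum_singleton, hp.factorization_pow]
    simp
  | coprime a b ha hb hab iha ihb =>
    intro _
    rw [S_mul hab]
    have h1 := iha (by omega)
    have h2 := ihb (by omega)
    nlinarith

lemma S_lcm {a b : ℕ} (ha : a ≠ 0) (hb : b ≠ 0) : S (a.lcm b) ≤ S a + S b := by
  classical
  have hab : a.lcm b ≠ 0 := Nat.lcm_ne_zero ha hb
  have key : ∀ c : ℕ, c ≠ 0 → c ∣ a.lcm b → S c =
      ∑ p ∈ (a.lcm b).primeFactors, if p ∣ c then p ^ c.factorization p else 0 := by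
    intro c hc hcd
    unfold S
    rw [← Finset.sum_filter]
    refine Finset.sum_congr ?_ fun _ _ => rfl
    ext p
    rw [Finset.mem_filter, Nat.mem_primeFactors, Nat.mem_primeFactors]
    constructor
    · rintro ⟨h1, h2, h3⟩
      exact ⟨⟨h1, h2.trans hcd, hab⟩, h2⟩
    · rintro ⟨⟨h1, _, _⟩, h4⟩
      exact ⟨h1, h4, hc⟩
  rw [key a ha (Nat.dvd_lcm_left a b), key b hb (Nat.dvd_lcm_right a b), ← Finset.sum_add_distrib]
  unfold S
  refine Finset.sum_le_sum fun p hp => ?_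
  rw [Nat.mem_primeFactors] at hp
  obtain ⟨hp1, hp2, _⟩ := hp
  have hpos : 0 < (a.lcm b).factorization p := hp1.factorization_pos_of_dvd hab hp2
  rw [Nat.factorization_lcm ha hb] at hpos ⊢
  rw [Finsupp.sup_apply] at hpos ⊢
  rcases le_total (a.factorization p) (b.factorization p) with h | h
  · rw [sup_eq_right.mpr h] at hpos ⊢
    have : p ∣ b := by
      by_contra hnd
      rw [Nat.factorization_eq_zero_of_not_dvd hnd] at hpos
      omega
    rw [if_pos this]
    omega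
  · rw [sup_eq_left.mpr h] at hpos ⊢
    have : p ∣ a := by
      by_contra hnd
      rw [Nat.factorization_eq_zero_of_not_dvd hnd] at hpos
      omega
    rw [if_pos this]
    omega

lemma S_multiset (T : Multiset ℕ) : (∀ a ∈ T, a ≠ 0) → T.lcm ≠ 0 ∧ S T.lcm ≤ T.sum := by
  induction T using Multiset.induction_on with
  | empty => intro _; simp [S]
  | cons a T ih =>
    intro h
    have h1 := ih fun b hb => h b (Multiset.mem_cons_of_mem hb)
    have ha := h a (Multiset.mem_cons_self a T)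
    rw [Multiset.lcm_cons, Multiset.sum_cons]
    refine ⟨Nat.lcm_ne_zero ha h1.1, ?_⟩
    have h2 := S_lcm ha h1.1
    have h3 := S_le a ha
    have h4 : lcm a T.lcm = Nat.lcm a T.lcm := rfl
    rw [h4]
    omega

lemma S_order {n : ℕ} (g : Equiv.Perm (Fin n)) : S (orderOf g) ≤ n := by
  have h := (S_multiset g.cycleType (fun a ha => by
    have := Equiv.Perm.two_le_of_mem_cycleType ha
    omega)).2
  rw [Equiv.Perm.lcm_cycleType, Equiv.Perm.sum_cycleType] at h
  refine h.trans ?_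
  calc g.support.card ≤ (Finset.univ : Finset (Fin n)).card := Finset.card_le_univ _
    _ = n := by simp

/-! ### translations -/

section
variable {I : Type} (ℓ : I → ℕ) (f : ℕ)

/-- the letters: cycles of length `ℓ i`, and `f` fixed letters -/
abbrev X := (Σ i, ZMod (ℓ i)) ⊕ Fin f

/-- translation -/
def tr (a : ∀ i, ZMod (ℓ i)) : Equiv.Perm (X ℓ f) :=
  Equiv.sumCongr (Equiv.sigmaCongrRight fun i => Equiv.addRight (a i)) (Equiv.refl _)

/-- negation and reversal -/
def ng : Equiv.Perm (X ℓ f) :=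
  Equiv.sumCongr (Equiv.sigmaCongrRight fun i => Equiv.neg (ZMod (ℓ i))) Fin.revPerm

@[simp] lemma tr_inl (a : ∀ i, ZMod (ℓ i)) (i : I) (x : ZMod (ℓ i)) :
    tr ℓ f a (Sum.inl ⟨i, x⟩) = Sum.inl ⟨i, x + a i⟩ := rfl

@[simp] lemma tr_inr (a : ∀ i, ZMod (ℓ i)) (y : Fin f) :
    tr ℓ f a (Sum.inr y) = Sum.inr y := rfl

@[simp] lemma ng_inl (i : I) (x : ZMod (ℓ i)) :
    ng ℓ f (Sum.inl ⟨i, x⟩) = Sum.inl ⟨i, -x⟩ := rfl

@[simp] lemma ng_inr (y : Fin f) :
    ng ℓ f (Sum.inr y) = Sum.inr y.rev := rfl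

lemma tr_mul (a b : ∀ i, ZMod (ℓ i)) : tr ℓ f a * tr ℓ f b = tr ℓ f (a + b) := by
  ext z
  rcases z with ⟨i, x⟩ | y
  · simp only [Equiv.Perm.mul_apply, tr_inl, Pi.add_apply]
    rw [add_assoc, add_comm (b i)]
  · simp only [Equiv.Perm.mul_apply, tr_inr]

lemma tr_zero : tr ℓ f 0 = 1 := by
  ext z
  rcases z with ⟨i, x⟩ | y
  · simp only [tr_inl, Pi.zero_apply, add_zero, Equiv.Perm.one_apply]
  · simp only [tr_inr, Equiv.Perm.one_apply]

lemma tr_inv (a : ∀ i, ZMod (ℓ i)) : (tr ℓ f a)⁻¹ = tr ℓ f (-a) := by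
  rw [inv_eq_iff_mul_eq_one, tr_mul, add_neg_cancel, tr_zero]

lemma tr_inj {a b : ∀ i, ZMod (ℓ i)} : tr ℓ f a = tr ℓ f b ↔ a = b := by
  constructor
  · intro h
    funext i
    have h1 := congrArg (fun e : Equiv.Perm (X ℓ f) => e (Sum.inl ⟨i, 0⟩)) h
    simp only [tr_inl, zero_add] at h1
    have h2 := Sum.inl_injective h1
    simpa using h2
  · rintro rfl; rfl

lemma tr_pow (k : ℕ) : (tr ℓ f 1) ^ k = tr ℓ f (fun i => (k : ZMod (ℓ i))) := by
  induction k with
  | zero => rw [pow_zero, ← tr_zero]; congr 1; funext i; simp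
  | succ k ih => rw [pow_succ, ih, tr_mul]; congr 1; funext i; simp

lemma ng_mul_tr (a : ∀ i, ZMod (ℓ i)) : ng ℓ f * tr ℓ f a = tr ℓ f (-a) * ng ℓ f := by
  ext z
  rcases z with ⟨i, x⟩ | y
  · simp only [Equiv.Perm.mul_apply, tr_inl, ng_inl, Pi.neg_apply, neg_add]
  · simp only [Equiv.Perm.mul_apply, tr_inr, ng_inr]

lemma ng_mul_ng : ng ℓ f * ng ℓ f = 1 := by
  ext z
  rcases z with ⟨i, x⟩ | y
  · simp only [Equiv.Perm.mul_apply, ng_inl, neg_neg, Equiv.Perm.one_apply]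
  · simp only [Equiv.Perm.mul_apply, ng_inr, Fin.rev_rev, Equiv.Perm.one_apply]

end

section
variable {I : Type} [Fintype I] [DecidableEq I] (ℓ : I → ℕ) [∀ i, NeZero (ℓ i)] (f : ℕ)
  (hcop : Pairwise (Function.onFun Nat.Coprime ℓ))

include hcop in
lemma mem_zp {g : Equiv.Perm (X ℓ f)} :
    g ∈ Subgroup.zpowers (tr ℓ f 1) ↔ ∃ a, g = tr ℓ f a := by
  constructor
  · intro h
    rw [← mem_powers_iff_mem_zpowers, Submonoid.mem_powers_iff] at h
    obtain ⟨k, rfl⟩ := h
    exact ⟨_, tr_pow ℓ f k⟩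
  · rintro ⟨a, rfl⟩
    set k : ZMod (∏ i, ℓ i) := (ZMod.prodEquivPi ℓ hcop).symm a with hk
    have : NeZero (∏ i, ℓ i) := ⟨Finset.prod_ne_zero_iff.mpr fun i _ => NeZero.ne _⟩
    rw [← mem_powers_iff_mem_zpowers, Submonoid.mem_powers_iff]
    refine ⟨k.val, ?_⟩
    rw [tr_pow]
    congr 1
    have h1 : ZMod.prodEquivPi ℓ hcop ((k.val : ℕ) : ZMod (∏ i, ℓ i)) = a := by
      rw [ZMod.natCast_zmod_val, hk, RingEquiv.apply_symm_apply]
    rw [← h1, map_natCast]
    rfl

include hcop in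
lemma order_tr : orderOf (tr ℓ f 1) = ∏ i, ℓ i := by
  apply Nat.dvd_antisymm
  · rw [orderOf_dvd_iff_pow_eq_one, tr_pow, ← tr_zero, tr_inj]
    funext i
    rw [Pi.zero_apply, ZMod.natCast_eq_zero_iff]
    exact Finset.dvd_prod_of_mem _ (Finset.mem_univ i)
  · have h1 := pow_orderOf_eq_one (tr ℓ f 1)
    rw [tr_pow, ← tr_zero, tr_inj] at h1
    rw [← ZMod.natCast_eq_zero_iff]
    apply (ZMod.prodEquivPi ℓ hcop).injective
    rw [map_zero, map_natCast, ← h1]
    rfl

lemma card_X : Fintype.card (X ℓ f) = ∑ i, ℓ i + f := by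
  rw [Fintype.card_sum, Fintype.card_sigma, Fintype.card_fin]
  simp [ZMod.card]

lemma tr_trans (i : I) (x w : ZMod (ℓ i)) :
    ∃ s, tr ℓ f s (Sum.inl ⟨i, x⟩) = Sum.inl ⟨i, w⟩ := by
  refine ⟨Function.update (0 : ∀ i, ZMod (ℓ i)) i (w - x), ?_⟩
  rw [tr_inl, Function.update_self, add_sub_cancel]

lemma prod_ax (a : ∀ i, ZMod (ℓ i)) (b : X ℓ f) :
    ∃ r' : ∀ i, ZMod (ℓ i), ∀ z : X ℓ f,
      ((∃ s, tr ℓ f s b = z) → tr ℓ f r' z = tr ℓ f a z) ∧
        ((¬ ∃ s, tr ℓ f s b = z) → tr ℓ f r' z = z) := by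
  rcases b with ⟨i, x⟩ | y
  · refine ⟨fun j => if j = i then a j else 0, fun z => ⟨?_, ?_⟩⟩
    · rintro ⟨s, rfl⟩
      simp
    · intro h
      rcases z with ⟨j, w⟩ | y'
      · have hj : j ≠ i := by
          rintro rfl
          exact h (tr_trans ℓ f j x w)
        simp [hj]
      · simp
  · refine ⟨0, fun z => ⟨?_, ?_⟩⟩
    · rintro ⟨s, rfl⟩
      simp
    · intro _
      rw [tr_zero]; rfl

include hcop in
/-- the class axioms for a group of translations and, possibly, reflections -/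
lemma cls_of (K : Subgroup (Equiv.Perm (X ℓ f)))
    (hK1 : ∀ a, tr ℓ f a ∈ K)
    (hK2 : ∀ k ∈ K, (∃ a, k = tr ℓ f a) ∨ ∃ a, k = tr ℓ f a * ng ℓ f)
    (hrefl : ∀ a, tr ℓ f a * ng ℓ f ∈ K → tr ℓ f a * ng ℓ f ∉ Subgroup.zpowers (tr ℓ f 1) →
      6 ≤ (Finset.univ.filter fun z => (tr ℓ f a * ng ℓ f) z ≠ z).card) :
    Cls (Subgroup.zpowers (tr ℓ f 1)) K Finset.univ where
  le := by
    intro g hg
    obtain ⟨a, rfl⟩ := (mem_zp ℓ f hcop).mp hg
    exact hK1 a
  cyc := ⟨_, rfl⟩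
  inv := by
    intro k hk hkR r hr
    obtain ⟨b, rfl⟩ := (mem_zp ℓ f hcop).mp hr
    rcases hK2 k hk with ⟨a, rfl⟩ | ⟨a, rfl⟩
    · exact absurd ((mem_zp ℓ f hcop).mpr ⟨a, rfl⟩) hkR
    · rw [mul_inv_eq_iff_eq_mul, mul_assoc, ng_mul_tr, ← mul_assoc, tr_mul, tr_inv, ← mul_assoc,
        tr_mul, add_comm]
  idx := by
    intro k hk l hl hkR hlR
    rcases hK2 k hk with ⟨a, rfl⟩ | ⟨a, rfl⟩
    · exact absurd ((mem_zp ℓ f hcop).mpr ⟨a, rfl⟩) hkR
    rcases hK2 l hl with ⟨b, rfl⟩ | ⟨b, rfl⟩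
    · exact absurd ((mem_zp ℓ f hcop).mpr ⟨b, rfl⟩) hlR
    · rw [mem_zp ℓ f hcop]
      refine ⟨a + -b, ?_⟩
      rw [mul_assoc, ← mul_assoc (ng ℓ f), ng_mul_tr, mul_assoc, ng_mul_ng, mul_one, tr_mul]
  out := fun _ _ a ha => absurd (Finset.mem_univ a) ha
  refl := by
    intro k hk hkR
    rcases hK2 k hk with ⟨a, rfl⟩ | ⟨a, rfl⟩
    · exact absurd ((mem_zp ℓ f hcop).mpr ⟨a, rfl⟩) hkR
    · exact hrefl a hk hkR
  prod := by
    intro r hr b _
    obtain ⟨a, rfl⟩ := (mem_zp ℓ f hcop).mp hr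
    obtain ⟨r', hr'⟩ := prod_ax ℓ f a b
    refine ⟨tr ℓ f r', (mem_zp ℓ f hcop).mpr ⟨r', rfl⟩, fun z => ⟨?_, ?_⟩⟩
    · rintro ⟨s, hs, hz⟩
      obtain ⟨s', rfl⟩ := (mem_zp ℓ f hcop).mp hs
      exact (hr' z).1 ⟨s', hz⟩
    · intro h
      apply (hr' z).2
      rintro ⟨s, hs⟩
      exact h ⟨_, (mem_zp ℓ f hcop).mpr ⟨s, rfl⟩, hs⟩
  same := by
    intro k hk z _ hz
    obtain ⟨r, hr, hrz⟩ := hz
    obtain ⟨a, rfl⟩ := (mem_zp ℓ f hcop).mp hr
    rcases z with ⟨i, x⟩ | y
    · rcases hK2 k hk with ⟨b, rfl⟩ | ⟨b, rfl⟩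
      · exact ⟨_, (mem_zp ℓ f hcop).mpr ⟨b, rfl⟩, rfl⟩
      · obtain ⟨s, hs⟩ := tr_trans ℓ f i x (-x + b i)
        refine ⟨_, (mem_zp ℓ f hcop).mpr ⟨s, rfl⟩, ?_⟩
        rw [hs]
        rfl
    · exact absurd (tr_inr ℓ f a y) hrz

/-- number of solutions of `-x + a = x` -/
lemma card_fix {m : ℕ} [NeZero m] (a : ZMod m) :
    (Finset.univ.filter fun x : ZMod m => -x + a = x).card ≤ 2 ∧
      (Odd m → (Finset.univ.filter fun x : ZMod m => -x + a = x).card ≤ 1) := by
  have key : ∀ x y : ZMod m, -x + a = x → -y + a = y → x = y ∨ (2 * (x - y).val = m) := by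
    intro x y hx hy
    have h1 : -(x - y) = x - y := by
      have h2 : a = x + x := by linear_combination hx
      have h3 : a = y + y := by linear_combination hy
      have h4 : x + x = y + y := by rw [← h2, ← h3]
      linear_combination -h4
    rcases (ZMod.neg_eq_self_iff _).mp h1 with h | h
    · left; exact sub_eq_zero.mp h
    · right; exact h
  constructor
  · by_cases hne : (Finset.univ.filter fun x : ZMod m => -x + a = x).Nonempty
    · obtain ⟨y, hy⟩ := hne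
      rw [Finset.mem_filter] at hy
      have hsub : (Finset.univ.filter fun x : ZMod m => -x + a = x) ⊆
          {y, y + ((m / 2 : ℕ) : ZMod m)} := by
        intro x hx
        rw [Finset.mem_filter] at hx
        rw [Finset.mem_insert, Finset.mem_singleton]
        rcases key x y hx.2 hy.2 with h | h
        · left; exact h
        · right
          have h5 : (x - y).val = m / 2 := by omega
          have h6 : ((x - y).val : ZMod m) = x - y := ZMod.natCast_zmod_val _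
          rw [← h5, h6]; ring
      exact (Finset.card_le_card hsub).trans Finset.card_le_two
    · rw [Finset.not_nonempty_iff_eq_empty] at hne
      rw [hne]; simp
  · intro hodd
    rw [Finset.card_le_one]
    intro x hx y hy
    rw [Finset.mem_filter] at hx hy
    rcases key x y hx.2 hy.2 with h | h
    · exact h
    · obtain ⟨t, ht⟩ := hodd
      omega

lemma card_rev (f : ℕ) : (Finset.univ.filter fun y : Fin f => y.rev = y).card ≤ 1 := by
  rw [Finset.card_le_one]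
  intro x hx y hy
  rw [Finset.mem_filter] at hx hy
  have h1 := congrArg Fin.val hx.2
  have h2 := congrArg Fin.val hy.2
  rw [Fin.val_rev] at h1 h2
  ext
  omega

/-- lower bound for the number of letters moved by a reflection -/
lemma card_moved (a : ∀ i, ZMod (ℓ i)) :
    (Finset.univ.filter fun z => (tr ℓ f a * ng ℓ f) z ≠ z).card =
      ∑ i, (Finset.univ.filter fun x : ZMod (ℓ i) => ¬ (-x + a i = x)).card +
        (Finset.univ.filter fun y : Fin f => ¬ (y.rev = y)).card := by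
  rw [← Finset.card_sigma, ← Finset.card_disjSum]
  congr 1
  ext z
  rw [Finset.mem_filter, Finset.mem_disjSum]
  rcases z with ⟨i, x⟩ | y
  · simp
  · simp

end

/-! ### the dihedral group -/

section
variable {I : Type} [Fintype I] [DecidableEq I] (ℓ : I → ℕ) [∀ i, NeZero (ℓ i)] (f : ℕ)
  (hcop : Pairwise (Function.onFun Nat.Coprime ℓ))

lemma refl_mul (a b : ∀ i, ZMod (ℓ i)) :
    tr ℓ f a * ng ℓ f * (tr ℓ f b * ng ℓ f) = tr ℓ f (a + -b) := by
  rw [mul_assoc, ← mul_assoc (ng ℓ f), ng_mul_tr, mul_assoc, ng_mul_ng, mul_one, tr_mul]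

/-- the dihedral group generated by translations and the negation -/
def DD : Subgroup (Equiv.Perm (X ℓ f)) where
  carrier := {k | (∃ a, k = tr ℓ f a) ∨ ∃ a, k = tr ℓ f a * ng ℓ f}
  one_mem' := Or.inl ⟨0, (tr_zero ℓ f).symm⟩
  mul_mem' := by
    rintro k l (⟨a, rfl⟩ | ⟨a, rfl⟩) (⟨b, rfl⟩ | ⟨b, rfl⟩)
    · exact Or.inl ⟨_, tr_mul ℓ f a b⟩
    · exact Or.inr ⟨a + b, by rw [← mul_assoc, tr_mul]⟩
    · exact Or.inr ⟨a + -b, by rw [mul_assoc, ng_mul_tr, ← mul_assoc, tr_mul]⟩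
    · exact Or.inl ⟨a + -b, refl_mul ℓ f a b⟩
  inv_mem' := by
    rintro k (⟨a, rfl⟩ | ⟨a, rfl⟩)
    · exact Or.inl ⟨-a, tr_inv ℓ f a⟩
    · exact Or.inr ⟨a, by rw [inv_eq_iff_mul_eq_one, refl_mul, add_neg_cancel, tr_zero]⟩

lemma mem_DD {k : Equiv.Perm (X ℓ f)} :
    k ∈ DD ℓ f ↔ (∃ a, k = tr ℓ f a) ∨ ∃ a, k = tr ℓ f a * ng ℓ f := Iff.rfl

include hcop in
lemma DD_eq : DD ℓ f = Subgroup.closure {ng ℓ f, ng ℓ f * tr ℓ f 1} := by
  apply le_antisymm
  · have h1 : ng ℓ f ∈ Subgroup.closure {ng ℓ f, ng ℓ f * tr ℓ f 1} :=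
      Subgroup.subset_closure (by simp)
    have h2 : ng ℓ f * tr ℓ f 1 ∈ Subgroup.closure {ng ℓ f, ng ℓ f * tr ℓ f 1} :=
      Subgroup.subset_closure (by simp)
    have h3 : tr ℓ f 1 ∈ Subgroup.closure {ng ℓ f, ng ℓ f * tr ℓ f 1} := by
      have := Subgroup.mul_mem _ h1 h2
      rwa [← mul_assoc, ng_mul_ng, one_mul] at this
    have h4 : ∀ a, tr ℓ f a ∈ Subgroup.closure {ng ℓ f, ng ℓ f * tr ℓ f 1} := by
      intro a
      have h5 : tr ℓ f a ∈ Subgroup.zpowers (tr ℓ f 1) := (mem_zp ℓ f hcop).mpr ⟨a, rfl⟩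
      exact (Subgroup.zpowers_le.mpr h3) h5
    rintro k (⟨a, rfl⟩ | ⟨a, rfl⟩)
    · exact h4 a
    · exact Subgroup.mul_mem _ (h4 a) h1
  · rw [Subgroup.closure_le]
    rintro k hk
    simp only [Set.mem_insert_iff, Set.mem_singleton_iff] at hk
    rcases hk with rfl | rfl
    · exact Or.inr ⟨0, by rw [tr_zero, one_mul]⟩
    · exact Or.inr ⟨-1, ng_mul_tr ℓ f 1⟩

lemma card_DD (hng : ∀ a, ng ℓ f ≠ tr ℓ f a) : Nat.card (DD ℓ f) = 2 * ∏ i, ℓ i := by
  have h1 : Nat.card (DD ℓ f) = Nat.card ((∀ i, ZMod (ℓ i)) × Bool) := by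
    symm
    refine Nat.card_congr (Equiv.ofBijective
      (fun q => ⟨if q.2 then tr ℓ f q.1 * ng ℓ f else tr ℓ f q.1, ?_⟩) ⟨?_, ?_⟩)
    · rcases q with ⟨a, _ | _⟩
      · exact Or.inl ⟨a, by simp⟩
      · exact Or.inr ⟨a, by simp⟩
    · rintro ⟨a, _ | _⟩ ⟨b, _ | _⟩ h
      all_goals simp only [Subtype.mk.injEq, Bool.false_eq_true, if_false, if_true] at h
      · rw [(tr_inj ℓ f).mp h]
      · exfalso
        apply hng (-b + a)
        rw [← tr_mul, ← tr_inv, h, inv_mul_cancel_left]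
      · exfalso
        apply hng (-a + b)
        rw [← tr_mul, ← tr_inv, ← h, inv_mul_cancel_left]
      · rw [(tr_inj ℓ f).mp (mul_right_cancel h)]
    · rintro ⟨k, (⟨a, rfl⟩ | ⟨a, rfl⟩)⟩
      · exact ⟨(a, false), by simp⟩
      · exact ⟨(a, true), by simp⟩
  rw [h1, Nat.card_prod, Nat.card_pi]
  simp only [Nat.card_zmod]
  rw [Nat.card_eq_fintype_card (α := Bool), Fintype.card_bool, mul_comm]

end

/-! ### the prime power parts -/

/-- the prime power parts of `c` -/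
def fl (c : ℕ) (p : c.primeFactors) : ℕ := (p : ℕ) ^ c.factorization p

lemma fl_pos (c : ℕ) (p : c.primeFactors) : fl c p ≠ 0 := by
  have := (Nat.prime_of_mem_primeFactors p.2).pos
  unfold fl
  positivity

instance (c : ℕ) (p : c.primeFactors) : NeZero (fl c p) := ⟨fl_pos c p⟩

lemma fl_ge (c : ℕ) (p : c.primeFactors) : (p : ℕ) ≤ fl c p := by
  have hp := Nat.mem_primeFactors.mp p.2
  have h1 : 0 < c.factorization p := hp.1.factorization_pos_of_dvd hp.2.2 hp.2.1
  unfold fl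
  exact Nat.le_self_pow h1.ne' _

lemma fl_cop (c : ℕ) : Pairwise (Function.onFun Nat.Coprime (fl c)) := by
  intro p q hpq
  unfold Function.onFun fl
  refine Nat.Coprime.pow _ _ ?_
  refine (Nat.coprime_primes (Nat.prime_of_mem_primeFactors p.2)
    (Nat.prime_of_mem_primeFactors q.2)).mpr ?_
  exact fun h => hpq (Subtype.ext h)

lemma fl_sum (c : ℕ) : ∑ p, fl c p = S c := by
  unfold fl S
  exact Finset.sum_coe_sort c.primeFactors (fun p => p ^ c.factorization p)

lemma fl_prod {c : ℕ} (hc : c ≠ 0) : ∏ p, fl c p = c := by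
  unfold fl
  rw [Finset.prod_coe_sort c.primeFactors (fun p => p ^ c.factorization p)]
  exact Nat.prod_factorization_pow_eq_self hc

lemma fl_odd (c : ℕ) (p : c.primeFactors) (hp : (p : ℕ) ≠ 2) : Odd (fl c p) := by
  have h := (Nat.prime_of_mem_primeFactors p.2).odd_of_ne_two hp
  exact h.pow

/-- upper bound for the number of fixed letters in the cycles -/
def D (c : ℕ) : ℕ := ∑ p ∈ c.primeFactors, if p = 2 then 2 else 1

lemma count (c f : ℕ) (a : ∀ p, ZMod (fl c p))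
    (hyp : 9 ≤ S c + f ∨ D c + min f 1 + 6 ≤ S c + f) :
    6 ≤ (Finset.univ.filter fun z => (tr (fl c) f a * ng (fl c) f) z ≠ z).card := by
  set N := (Finset.univ.filter fun z => (tr (fl c) f a * ng (fl c) f) z ≠ z).card with hN
  have heven : 2 ∣ N := by
    have h1 := Equiv.Perm.two_dvd_card_support (σ := tr (fl c) f a * ng (fl c) f) (by
      rw [sq, refl_mul, add_neg_cancel, tr_zero])
    exact h1
  have hNeq : N = _ := card_moved (fl c) f a
  -- complementary counts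
  have hm : ∀ p, (Finset.univ.filter fun x : ZMod (fl c p) => ¬ (-x + a p = x)).card +
      (Finset.univ.filter fun x : ZMod (fl c p) => -x + a p = x).card = fl c p := by
    intro p
    rw [add_comm, Finset.card_filter_add_card_filter_not]
    simp [ZMod.card]
  have hf : (Finset.univ.filter fun y : Fin f => ¬ (y.rev = y)).card +
      (Finset.univ.filter fun y : Fin f => y.rev = y).card = f := by
    rw [add_comm, Finset.card_filter_add_card_filter_not]
    simp
  have hs : ∀ p : c.primeFactors, (Finset.univ.filter fun x : ZMod (fl c p) => -x + a p = x).card ≤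
      if (p : ℕ) = 2 then 2 else 1 := by
    intro p
    split_ifs with h
    · exact (card_fix (a p)).1
    · exact (card_fix (a p)).2 (fl_odd c p h)
  have hrev := card_rev f
  set m : c.primeFactors → ℕ := fun p =>
    (Finset.univ.filter fun x : ZMod (fl c p) => ¬ (-x + a p = x)).card with hmdef
  set s : c.primeFactors → ℕ := fun p =>
    (Finset.univ.filter fun x : ZMod (fl c p) => -x + a p = x).card with hsdef
  have hsum : ∑ p, m p + ∑ p, s p = S c := by
    rw [← Finset.sum_add_distrib, ← fl_sum]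
    exact Finset.sum_congr rfl fun p _ => hm p
  have hNeq' : N = ∑ p, m p + _ := hNeq
  have hsD : ∑ p, s p ≤ D c := by
    unfold D
    rw [← Finset.sum_coe_sort c.primeFactors (fun p => if p = 2 then 2 else 1)]
    exact Finset.sum_le_sum fun p _ => hs p
  rcases hyp with h9 | h6
  · by_cases hA : ∃ p q : c.primeFactors, p ≠ q ∧ (p : ℕ) ≠ 2 ∧ (q : ℕ) ≠ 2
    · obtain ⟨p, q, hpq, hp2, hq2⟩ := hA
      have h1 : m p + m q ≤ ∑ p, m p := by
        rw [← Finset.sum_pair hpq]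
        exact Finset.sum_le_sum_of_subset (Finset.subset_univ _)
      have h2 : m p + s p = fl c p := hm p
      have h3 : m q + s q = fl c q := hm q
      have h4 : s p ≤ _ := hs p
      have h5 : s q ≤ _ := hs q
      rw [if_neg hp2] at h4
      rw [if_neg hq2] at h5
      have h6 := fl_ge c p
      have h7 := fl_ge c q
      have h8 := (Nat.prime_of_mem_primeFactors p.2).odd_of_ne_two hp2
      have h9 := (Nat.prime_of_mem_primeFactors q.2).odd_of_ne_two hq2
      have h10 := (Nat.prime_of_mem_primeFactors p.2).two_le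
      have h11 := (Nat.prime_of_mem_primeFactors q.2).two_le
      have h12 : (p : ℕ) ≠ q := fun h => hpq (Subtype.ext h)
      obtain ⟨u, hu⟩ := h8
      obtain ⟨v, hv⟩ := h9
      omega
    · have hD3 : D c ≤ 3 := by
        unfold D
        push Not at hA
        have hsplit : ∑ p ∈ c.primeFactors, (if p = 2 then 2 else 1) ≤
            ∑ p ∈ insert 2 (c.primeFactors.erase 2), (if p = 2 then 2 else 1) := by
          refine Finset.sum_le_sum_of_subset ?_
          intro p hp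
          by_cases h : p = 2
          · rw [h]; exact Finset.mem_insert_self _ _
          · exact Finset.mem_insert_of_mem (Finset.mem_erase.mpr ⟨h, hp⟩)
        refine hsplit.trans ?_
        rw [Finset.sum_insert (Finset.notMem_erase 2 _)]
        have hcard : (c.primeFactors.erase 2).card ≤ 1 := by
          rw [Finset.card_le_one]
          intro p hp q hq
          rw [Finset.mem_erase] at hp hq
          by_contra hne
          exact hq.1 (hA ⟨p, hp.2⟩ ⟨q, hq.2⟩ (fun h => hne (congrArg Subtype.val h)) hp.1)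
        have h1 : ∑ p ∈ c.primeFactors.erase 2, (if p = 2 then 2 else 1) =
            (c.primeFactors.erase 2).card := by
          rw [Finset.card_eq_sum_ones]
          refine Finset.sum_congr rfl fun p hp => ?_
          rw [if_neg (Finset.ne_of_mem_erase hp)]
        rw [h1]
        simp only [if_true]
        omega
      omega
  · omega

end PM

/-- every order of an element of `S_n` is the order of a permutation in the class -/
theorem exists_cyc_perm (n c : ℕ) (hc : ∃ g : Equiv.Perm (Fin n), orderOf g = c) :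
    ∃ (ι : Type) (_ : DecidableEq ι) (_ : Fintype ι) (σ : Equiv.Perm ι),
      Fintype.card ι = n ∧ orderOf σ = c ∧
        Cls (Subgroup.zpowers σ) (Subgroup.zpowers σ) Finset.univ := by
  obtain ⟨g, rfl⟩ := hc
  have hc0 : orderOf g ≠ 0 := (orderOf_pos g).ne'
  have hS : PM.S (orderOf g) ≤ n := PM.S_order g
  refine ⟨PM.X (PM.fl (orderOf g)) (n - PM.S (orderOf g)), inferInstance, inferInstance,
    PM.tr _ _ 1, ?_, ?_, ?_⟩
  · rw [PM.card_X, PM.fl_sum]; omega
  · rw [PM.order_tr _ _ (PM.fl_cop _), PM.fl_prod hc0]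
  · exact PM.cls_of _ _ (PM.fl_cop _) _ (fun a => (PM.mem_zp _ _ (PM.fl_cop _)).mpr ⟨a, rfl⟩)
      (fun k hk => Or.inl ((PM.mem_zp _ _ (PM.fl_cop _)).mp hk)) fun a ha ha' => absurd ha ha'

/-- the same with reflections -/
theorem exists_dih_perm (n c : ℕ) (hc : ∃ g : Equiv.Perm (Fin n), orderOf g = c) (h2 : 2 ≤ c)
    (hn : 9 ≤ n ∨ (n = 8 ∧ (c = 7 ∨ c = 8 ∨ c = 15)) ∨ (n = 7 ∧ c = 7)) :
    ∃ (ι : Type) (_ : DecidableEq ι) (_ : Fintype ι) (σ τ₁ τ₂ : Equiv.Perm ι)
      (K : Subgroup (Equiv.Perm ι)) (x : ι),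
      Fintype.card ι = n ∧ orderOf σ = c ∧ Cls (Subgroup.zpowers σ) K Finset.univ ∧
        K = Subgroup.closure {τ₁, τ₂} ∧ τ₁ * τ₁ = 1 ∧ τ₂ * τ₂ = 1 ∧ τ₁ * τ₂ = σ ∧
        τ₁ ∉ Subgroup.zpowers σ ∧ τ₂ ∉ Subgroup.zpowers σ ∧ Nat.card K = 2 * orderOf σ ∧
        τ₁ x = x ∧ σ x ≠ x := by
  have hS : PM.S c ≤ n := by
    obtain ⟨g, rfl⟩ := hc
    exact PM.S_order g
  have hcop := PM.fl_cop c
  set f := n - PM.S c with hf
  have hcount : ∀ a, 6 ≤ (Finset.univ.filter fun z =>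
      (PM.tr (PM.fl c) f a * PM.ng (PM.fl c) f) z ≠ z).card := by
    intro a
    apply PM.count
    rcases hn with h | ⟨h, h' | h' | h'⟩ | ⟨h, h'⟩
    · left; omega
    · right
      have e1 : PM.S 7 = 7 := by decide +kernel
      have e2 : PM.D 7 = 1 := by decide +kernel
      rw [hf, h', h, e1, e2]
      norm_num
    · right
      have e1 : PM.S 8 = 8 := by decide +kernel
      have e2 : PM.D 8 = 2 := by decide +kernel
      rw [hf, h', h, e1, e2]
      norm_num
    · right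
      have e1 : PM.S 15 = 8 := by decide +kernel
      have e2 : PM.D 15 = 2 := by decide +kernel
      rw [hf, h', h, e1, e2]
      norm_num
    · right
      have e1 : PM.S 7 = 7 := by decide +kernel
      have e2 : PM.D 7 = 1 := by decide +kernel
      rw [hf, h', h, e1, e2]
      norm_num
  have hng : ∀ a, PM.ng (PM.fl c) f ≠ PM.tr (PM.fl c) f a := by
    intro a ha
    have h1 := hcount (-a)
    have h2 : PM.tr (PM.fl c) f (-a) * PM.ng (PM.fl c) f = 1 := by
      rw [ha, PM.tr_mul, neg_add_cancel, PM.tr_zero]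
    rw [h2] at h1
    simp at h1
  obtain ⟨p, hp⟩ : c.primeFactors.Nonempty := Nat.nonempty_primeFactors.mpr h2
  refine ⟨PM.X (PM.fl c) f, inferInstance, inferInstance, PM.tr _ _ 1, PM.ng _ _,
    PM.ng _ _ * PM.tr _ _ 1, PM.DD _ _, Sum.inl ⟨⟨p, hp⟩, 0⟩, ?_, ?_, ?_, PM.DD_eq _ _ hcop,
    PM.ng_mul_ng _ _, ?_, ?_, ?_, ?_, ?_, ?_, ?_⟩
  · rw [PM.card_X, PM.fl_sum]; omega
  · rw [PM.order_tr _ _ hcop, PM.fl_prod (by omega)]
  · exact PM.cls_of _ _ hcop _ (fun a => Or.inl ⟨a, rfl⟩) (fun k hk => hk)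
      fun a _ _ => hcount a
  · rw [PM.ng_mul_tr, PM.refl_mul, add_neg_cancel, PM.tr_zero]
  · rw [← mul_assoc, PM.ng_mul_ng, one_mul]
  · intro h
    obtain ⟨a, ha⟩ := (PM.mem_zp _ _ hcop).mp h
    exact hng a ha
  · intro h
    obtain ⟨a, ha⟩ := (PM.mem_zp _ _ hcop).mp h
    apply hng (a + -1)
    rw [← PM.tr_mul, ← PM.tr_inv, ← ha, mul_inv_cancel_right]
  · rw [PM.card_DD _ _ hng, PM.order_tr _ _ hcop]
  · simp
  · intro h
    rw [PM.tr_inl] at h
    have h3 := Sum.inl_injective h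
    have h4 : (1 : ZMod (PM.fl c ⟨p, hp⟩)) = 0 := by simpa using h3
    have h5 : 2 ≤ PM.fl c ⟨p, hp⟩ :=
      (Nat.prime_of_mem_primeFactors hp).two_le.trans (PM.fl_ge c ⟨p, hp⟩)
    have : Fact (1 < PM.fl c ⟨p, hp⟩) := ⟨h5⟩
    exact one_ne_zero h4

end Pan
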