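import Pool.Agent.Hhelper18.Pan.SmallCerts
import Pool.Agent.Hhelper18.Pan.SmallCerts8

/-! # MODULES SM5, SM7, SM8 : small cases by certificates -/

namespace Pan

theorem small_five (s : ℕ) (hs : s ∈ [2, 3, 4, 5, 6, 8, 10, 12]) : SizeAt (Fin 5) s := by
  simp only [List.mem_cons, List.not_mem_nil, or_false] at hs
  rcases hs with rfl | rfl | rfl | rfl | rfl | rfl | rfl | rfl
  · exact SM.five2
  · exact SM.five3
  · exact SM.five4
  · exact SM.five5
  · exact SM.five6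
  · exact SM.five8
  · exact SM.five10
  · exact SM.five12

theorem small_six (s : ℕ) (hs : s ∈ [8, 10, 12]) : SizeAt (Fin 6) s := by
  simp only [List.mem_cons, List.not_mem_nil, or_false] at hs
  rcases hs with rfl | rfl | rfl
  · exact SM.six8
  · exact SM.six10
  · exact SM.six12b

theorem small_seven (s : ℕ) (hs : s ∈ [8, 20, 24]) : SizeAt (Fin 7) s := by
  simp only [List.mem_cons, List.not_mem_nil, or_false] at hs
  rcases hs with rfl | rfl | rfl
  · exact SM.seven8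
  · exact SM.seven20
  · exact SM.seven24

theorem small_eight (s : ℕ) (hs : s ∈ [20, 24]) : SizeAt (Fin 8) s := by
  simp only [List.mem_cons, List.not_mem_nil, or_false] at hs
  rcases hs with rfl | rfl
  · exact SM.eight20
  · exact SM.eight24

/-- least common multiples of numbers `≥ 2` with sum `≤ N` -/
def lcmL : ℕ → List ℕ
  | 0 => [1]
  | 1 => [1]
  | 2 => [1, 2]
  | 3 => [1, 2, 3]
  | 4 => [1, 2, 3, 4]
  | 5 => [1, 2, 3, 4, 5, 6]
  | 6 => [1, 2, 3, 4, 5, 6]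
  | 7 => [1, 2, 3, 4, 5, 6, 7, 10, 12]
  | 8 => [1, 2, 3, 4, 5, 6, 7, 8, 10, 12, 15]
  | _ => []

lemma lcmL_one : ∀ N ≤ 8, 1 ∈ lcmL N := by decide

lemma lcmL_step : ∀ N ≤ 8, ∀ a ≤ N, 2 ≤ a → ∀ x ∈ lcmL (N - a), Nat.lcm a x ∈ lcmL N := by
  decide +kernel

lemma lcm_mem_lcmL (s : Multiset ℕ) :
    (∀ a ∈ s, 2 ≤ a) → ∀ N ≤ 8, s.sum ≤ N → s.lcm ∈ lcmL N := by
  induction s using Multiset.induction with
  | empty =>
    intro _ N hN _
    rw [Multiset.lcm_zero]
    exact lcmL_one N hN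
  | cons a s ih =>
    intro h N hN hs
    rw [Multiset.sum_cons] at hs
    rw [Multiset.lcm_cons]
    have h1 := ih (fun b hb => h b (Multiset.mem_cons_of_mem hb)) (N - a) (by omega) (by omega)
    exact lcmL_step N hN a (by omega) (h a (Multiset.mem_cons_self a s)) _ h1

lemma orderOf_mem_lcmL {n : ℕ} (hn : n ≤ 8) (g : Equiv.Perm (Fin n)) : orderOf g ∈ lcmL n := by
  rw [← Equiv.Perm.lcm_cycleType]
  apply lcm_mem_lcmL _ _ n hn
  · rw [Equiv.Perm.sum_cycleType]
    exact (Finset.card_le_univ _).trans (by simp)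
  · intro a ha
    exact Equiv.Perm.two_le_of_mem_cycleType ha

/-- orders of elements of `S_5`, ..., `S_8` -/
theorem orders_five (c : ℕ) (hc : ∃ g : Equiv.Perm (Fin 5), orderOf g = c) :
    c ∈ [1, 2, 3, 4, 5, 6] := by
  obtain ⟨g, rfl⟩ := hc
  exact orderOf_mem_lcmL (by norm_num) g

theorem orders_six (c : ℕ) (hc : ∃ g : Equiv.Perm (Fin 6), orderOf g = c) :
    c ∈ [1, 2, 3, 4, 5, 6] := by
  obtain ⟨g, rfl⟩ := hc
  exact orderOf_mem_lcmL (by norm_num) g

theorem orders_seven (c : ℕ) (hc : ∃ g : Equiv.Perm (Fin 7), orderOf g = c) :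
    c ∈ [1, 2, 3, 4, 5, 6, 7, 10, 12] := by
  obtain ⟨g, rfl⟩ := hc
  exact orderOf_mem_lcmL (by norm_num) g

theorem orders_eight (c : ℕ) (hc : ∃ g : Equiv.Perm (Fin 8), orderOf g = c) :
    c ∈ [1, 2, 3, 4, 5, 6, 7, 8, 10, 12, 15] := by
  obtain ⟨g, rfl⟩ := hc
  exact orderOf_mem_lcmL (by norm_num) g

lemma exists_order {n : ℕ} (m : Multiset ℕ) (h1 : m.sum ≤ n) (h2 : ∀ a ∈ m, 2 ≤ a) :
    ∃ g : Equiv.Perm (Fin n), orderOf g = m.lcm := by
  obtain ⟨g, hg⟩ := (Equiv.Perm.exists_with_cycleType_iff (α := Fin n)).2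
    ⟨by rwa [Fintype.card_fin], h2⟩
  exact ⟨g, by rw [← Equiv.Perm.lcm_cycleType, hg]⟩

/-- the orders in these lists occur -/
theorem orders_mem (n c : ℕ) (h : (n ∈ [5, 6, 7, 8] ∧ c ∈ [1, 2, 3, 4, 5, 6]) ∨
    (n ∈ [7, 8] ∧ c ∈ [7, 10, 12]) ∨ (n = 8 ∧ c ∈ [8, 15])) :
    ∃ g : Equiv.Perm (Fin n), orderOf g = c := by
  have key : ∀ (m : Multiset ℕ), m.sum ≤ n → (∀ a ∈ m, 2 ≤ a) → m.lcm = c →
      ∃ g : Equiv.Perm (Fin n), orderOf g = c := by
    intro m h1 h2 h3
    rw [← h3]; exact exists_order m h1 h2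
  simp only [List.mem_cons, List.not_mem_nil, or_false] at h
  rcases h with ⟨hn, rfl | rfl | rfl | rfl | rfl | rfl⟩ | ⟨hn, rfl | rfl | rfl⟩ | ⟨hn, rfl | rfl⟩
  · exact key 0 (by simp) (by simp) (by simp)
  · exact key {2} (by simp; omega) (by simp) (by simp)
  · exact key {3} (by simp; omega) (by simp) (by simp)
  · exact key {4} (by simp; omega) (by simp) (by simp)
  · exact key {5} (by simp; omega) (by simp) (by simp)
  · exact key {2, 3} (by simp; omega) (by simp) (by decide)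
  · exact key {7} (by simp; omega) (by simp) (by simp)
  · exact key {2, 5} (by simp; omega) (by simp) (by decide)
  · exact key {3, 4} (by simp; omega) (by simp) (by decide)
  · exact key {8} (by simp; omega) (by simp) (by simp)
  · exact key {3, 5} (by simp; omega) (by simp) (by decide)

end Pan
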