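import Pool.Agent.Hhelper18.Pan.Main
import Pool.Agent.Hhelper18.Pan.ExactDih
import Pool.Agent.Hhelper18.Pan.Asm

/-! # MODULE TD : Hamiltonian cycles with dihedral symmetry group -/

set_option linter.unusedSectionVars false

namespace Pan

variable {α : Type*} [DecidableEq α] [Fintype α]

namespace TD

lemma inv_app {τ : Equiv.Perm α} (hτ : τ * τ = 1) (a : α) : τ (τ a) = a := by
  have := congrArg (fun f : Equiv.Perm α => f a) hτ
  simpa using this

/-- extending a list of representatives of two-cycles of an involution -/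
lemma inv_ext {τ : Equiv.Perm α} (hτ : τ * τ = 1) (k : ℕ) : ∀ m₀ : List α,
    (m₀ ++ m₀.map τ).Nodup →
    (Finset.univ.filter fun a => τ a ≠ a ∧ a ∉ m₀ ++ m₀.map τ).card ≤ k →
    ∃ m', ((m₀ ++ m') ++ (m₀ ++ m').map τ).Nodup ∧
      ∀ a, τ a ≠ a → a ∈ (m₀ ++ m') ++ (m₀ ++ m').map τ := by
  induction k with
  | zero =>
    intro m₀ h0 hk
    refine ⟨[], by simpa using h0, ?_⟩
    intro a ha
    by_contra hcon
    have : a ∈ (Finset.univ.filter fun a => τ a ≠ a ∧ a ∉ m₀ ++ m₀.map τ) := by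
      simp only [Finset.mem_filter, Finset.mem_univ, true_and]
      exact ⟨ha, by simpa using hcon⟩
    have h2 := Finset.card_pos.2 ⟨a, this⟩
    omega
  | succ k ih =>
    intro m₀ h0 hk
    by_cases hex : ∃ a, τ a ≠ a ∧ a ∉ m₀ ++ m₀.map τ
    · obtain ⟨a, ha, ha'⟩ := hex
      have hτa : τ a ∉ m₀ ++ m₀.map τ := by
        intro h
        apply ha'
        rcases List.mem_append.1 h with h | h
        · exact List.mem_append_right _ (List.mem_map.2 ⟨τ a, h, inv_app hτ a⟩)
        · obtain ⟨b, hb, hb'⟩ := List.mem_map.1 h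
          have : b = a := τ.injective hb'
          exact List.mem_append_left _ (this ▸ hb)
      have hnd : ((m₀ ++ [a]) ++ (m₀ ++ [a]).map τ).Nodup := by
        have hp : ((m₀ ++ [a]) ++ (m₀ ++ [a]).map τ).Perm (a :: τ a :: (m₀ ++ m₀.map τ)) := by
          rw [List.perm_iff_count]
          intro c
          simp only [List.map_append, List.map_cons, List.map_nil, List.count_append,
            List.count_cons, List.count_nil]
          omega
        rw [hp.nodup_iff, List.nodup_cons, List.nodup_cons]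
        refine ⟨?_, hτa, h0⟩
        intro h
        rcases List.mem_cons.1 h with h | h
        · exact ha h.symm
        · exact ha' h
      have hlt : (Finset.univ.filter fun b => τ b ≠ b ∧ b ∉ (m₀ ++ [a]) ++ (m₀ ++ [a]).map τ).card
          < (Finset.univ.filter fun b => τ b ≠ b ∧ b ∉ m₀ ++ m₀.map τ).card := by
        apply Finset.card_lt_card
        rw [Finset.ssubset_iff_of_subset]
        · refine ⟨a, by simpa using ⟨ha, by simpa using ha'⟩, by simp⟩
        · intro b hb
          simp only [Finset.mem_filter, Finset.mem_univ, true_and] at hb ⊢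
          refine ⟨hb.1, fun h => hb.2 ?_⟩
          rcases List.mem_append.1 h with h | h
          · exact List.mem_append_left _ (List.mem_append_left _ h)
          · refine List.mem_append_right _ ?_
            rw [List.map_append]
            exact List.mem_append_left _ h
      obtain ⟨m', h1, h2⟩ := ih (m₀ ++ [a]) hnd (by omega)
      refine ⟨a :: m', ?_, ?_⟩
      · simpa using h1
      · intro b hb
        have := h2 b hb
        simpa using this
    · push Not at hex
      refine ⟨[], by simpa using h0, ?_⟩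
      intro a ha
      simpa using hex a ha

lemma moved_of_nodup {τ : Equiv.Perm α} {m : List α}
    (h : (m ++ m.map τ).Nodup) {a : α} (ha : a ∈ m ++ m.map τ) : τ a ≠ a := by
  have key : ∀ b ∈ m, τ b ≠ b := by
    intro b hb e
    have := (List.nodup_append.1 h).2.2 b hb (τ b) (List.mem_map_of_mem hb)
    exact this e.symm
  rcases List.mem_append.1 ha with ha | ha
  · exact key a ha
  · obtain ⟨b, hb, rfl⟩ := List.mem_map.1 ha
    intro e
    exact key b hb (τ.injective e)

lemma map_map_inv {τ : Equiv.Perm α} (hτ : τ * τ = 1) (m : List α) : (m.map τ).map τ = m := by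
  rw [List.map_map]
  conv_rhs => rw [← List.map_id m]
  apply List.map_congr_left
  intro a _
  exact inv_app hτ a

lemma map_fix {τ : Equiv.Perm α} {F : List α} (hF : ∀ a ∈ F, τ a = a) : F.map τ = F := by
  conv_rhs => rw [← List.map_id F]
  apply List.map_congr_left
  intro a ha
  exact hF a ha

lemma rv_inv {τ : Equiv.Perm α} (hτ : τ * τ = 1) (m F : List α) (hF : ∀ a ∈ F, τ a = a) :
    rv (2 * m.length) (m ++ (m.map τ).reverse ++ F) = (m ++ (m.map τ).reverse ++ F).map τ := by
  have hl : (m ++ (m.map τ).reverse).length = 2 * m.length := by simp; omega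
  unfold rv
  rw [← hl, List.take_left, List.drop_left, List.map_append, map_fix hF]
  congr 1
  rw [List.reverse_append, List.reverse_reverse, List.map_append, List.map_reverse,
    map_map_inv hτ]

lemma rev_inv {τ : Equiv.Perm α} (hτ : τ * τ = 1) (m F : List α) (hF : ∀ a ∈ F, τ a = a)
    (hF1 : F.reverse = F) :
    (m ++ F ++ (m.map τ).reverse).reverse = (m ++ F ++ (m.map τ).reverse).map τ := by
  rw [List.reverse_append, List.reverse_append, List.reverse_reverse, hF1, List.map_append,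
    List.map_append, map_fix hF, List.map_reverse, map_map_inv hτ]
  simp

/-- the words built from an involution -/
lemma wd_inv {τ : Equiv.Perm α} {m F : List α}
    (h1 : (m ++ m.map τ).Nodup) (h2 : ∀ a, τ a ≠ a → a ∈ m ++ m.map τ)
    (hF : ∀ a, a ∈ F ↔ τ a = a) (hFn : F.Nodup) {w : List α}
    (hw : w.Perm (m ++ m.map τ ++ F)) : Wd Finset.univ w := by
  refine ⟨?_, ?_⟩
  · rw [hw.nodup_iff, List.nodup_append]
    refine ⟨h1, hFn, ?_⟩
    intro a ha b hb hab
    subst hab
    exact moved_of_nodup h1 ha ((hF a).1 hb)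
  · ext a
    simp only [List.mem_toFinset, Finset.mem_univ, iff_true]
    rw [hw.mem_iff]
    by_cases ha : τ a = a
    · exact List.mem_append_right _ ((hF a).2 ha)
    · exact List.mem_append_left _ (h2 a ha)

lemma orb_ge_two {K : Subgroup (Equiv.Perm α)} {x : α} (h : ∃ k ∈ K, k x ≠ x) : 2 ≤ orb K x := by
  obtain ⟨k, hk, hkx⟩ := h
  unfold orb
  have : Nontrivial {y : α // ∃ k ∈ K, k x = y} :=
    ⟨⟨⟨x, 1, K.one_mem, rfl⟩, ⟨k x, k, hk, rfl⟩, fun e => hkx (congrArg Subtype.val e).symm⟩⟩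
  exact Finite.one_lt_card

lemma orb_le_two {K : Subgroup (Equiv.Perm α)} {x a b : α} (h : ∀ k ∈ K, k x = a ∨ k x = b) :
    orb K x ≤ 2 := by
  unfold orb
  have hinj : Function.Injective (fun y : {y : α // ∃ k ∈ K, k x = y} =>
      (⟨y.1, by
        obtain ⟨k, hk, e⟩ := y.2
        rw [← e]
        rcases h k hk with h | h <;> simp [h]⟩ : ({a, b} : Finset α))) := by
    intro y z e
    exact Subtype.ext (Subtype.mk.inj e)
  have := Nat.card_le_card_of_injective _ hinj
  refine this.trans ?_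
  rw [Nat.card_eq_fintype_card, Fintype.card_coe]
  exact Finset.card_le_two

lemma orb_one {K : Subgroup (Equiv.Perm α)} {x : α} (h : ∀ k ∈ K, k x = x) :
    orb K x = 1 := by
  unfold orb
  rw [Nat.card_eq_one_iff_unique]
  refine ⟨⟨?_⟩, ⟨⟨x, 1, K.one_mem, rfl⟩⟩⟩
  rintro ⟨y, k, hk, rfl⟩ ⟨z, l, hl, rfl⟩
  apply Subtype.ext
  show k x = l x
  rw [h k hk, h l hl]

variable {R K : Subgroup (Equiv.Perm α)}

lemma orb_eq (hc : Cls R K Finset.univ) {x : α} (hx : ∃ r ∈ R, r x ≠ x) :
    orb K x = orb R x := by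
  unfold orb
  have : ∀ y, (∃ k ∈ K, k x = y) ↔ (∃ k ∈ R, k x = y) := by
    intro y
    constructor
    · rintro ⟨k, hk, rfl⟩
      exact hc.same k hk x (Finset.mem_univ _) hx
    · rintro ⟨r, hr, rfl⟩
      exact ⟨r, hc.le hr, rfl⟩
  simp only [this]

/-- orbit sizes of inequivalent letters -/
lemma orb_ne {τ : Equiv.Perm α} (hc : Cls R K Finset.univ) (hτK : τ ∈ K) (hτR : τ ∉ R)
    {x y : α} (hx : ∃ r ∈ R, r x ≠ x) (hxy : Inq K x y) :
    orb K y ≠ 2 * orb K x := by
  have h2 : 2 ≤ orb R x := orb_ge_two hx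
  rw [orb_eq hc hx]
  by_cases hy : ∃ r ∈ R, r y ≠ y
  · rw [orb_eq hc hy]
    intro e
    have hco := hc.coprime (Finset.mem_univ x) (Finset.mem_univ y) (hxy.mono hc.le)
    rw [e] at hco
    have : orb R x ∣ 1 := by
      have h := Nat.dvd_gcd (dvd_refl (orb R x)) (Dvd.intro_left 2 rfl : orb R x ∣ 2 * orb R x)
      rwa [hco] at h
    have := Nat.le_of_dvd one_pos this
    omega
  · push Not at hy
    have : orb K y ≤ 2 := by
      apply orb_le_two (a := y) (b := τ⁻¹ y)
      intro k hk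
      by_cases hkR : k ∈ R
      · exact Or.inl (hy k hkR)
      · right
        have h := hy _ (hc.idx τ hτK k hk hτR hkR)
        rw [Equiv.Perm.mul_apply] at h
        rw [Equiv.Perm.eq_inv_iff_eq]
        exact h
    omega

lemma orb_ne' {τ : Equiv.Perm α} (hc : Cls R K Finset.univ) (hτK : τ ∈ K) (hτR : τ ∉ R)
    {x y : α} (hx : ∃ r ∈ R, r x ≠ x) (hxy : Inq K x y) (hτ : τ y = y) :
    orb K y ≠ orb K x := by
  have h2 : 2 ≤ orb R x := orb_ge_two hx
  rw [orb_eq hc hx]
  by_cases hy : ∃ r ∈ R, r y ≠ y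
  · rw [orb_eq hc hy]
    intro e
    have hco := hc.coprime (Finset.mem_univ x) (Finset.mem_univ y) (hxy.mono hc.le)
    rw [e] at hco
    have : orb R x ∣ 1 := by
      have h := Nat.dvd_gcd (dvd_refl (orb R x)) (dvd_refl (orb R x))
      rwa [hco] at h
    have := Nat.le_of_dvd one_pos this
    omega
  · push Not at hy
    have : orb K y = 1 := by
      apply orb_one
      intro k hk
      by_cases hkR : k ∈ R
      · exact hy k hkR
      · have h := hy _ (hc.idx τ hτK k hk hτR hkR)
        rw [Equiv.Perm.mul_apply] at h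
        have h' : τ (k y) = τ y := by rw [h, hτ]
        exact τ.injective h'
    omega

/-- a reflection fixing a letter of the orbit of `x` fixes only one -/
lemma fix_unique {σ τ₁ τ₂ : Equiv.Perm α} (hR : R = Subgroup.zpowers σ)
    (hc : Cls R K Finset.univ) (hτ₁K : τ₁ ∈ K) (n₁ : τ₁ ∉ R) (h₁ : τ₁ * τ₁ = 1)
    (h₁₂ : τ₁ * τ₂ = σ) {x : α} (hx : τ₁ x = x) (hσx : ∃ r ∈ R, r x ≠ x)
    {y z : α} (hy : τ₂ y = y) (hz : τ₂ z = z) (hyx : ∃ k ∈ K, k x = y) (hzx : ∃ k ∈ K, k x = z) :
    y = z := by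
  have hrep : ∀ y, (∃ k ∈ K, k x = y) → ∃ i : ℤ, (σ ^ i) x = y := by
    rintro y ⟨k, hk, rfl⟩
    obtain ⟨r, hr, e⟩ := hc.same k hk x (Finset.mem_univ _) hσx
    rw [hR] at hr
    obtain ⟨i, rfl⟩ := Subgroup.mem_zpowers_iff.1 hr
    exact ⟨i, e⟩
  have hτ₂ : τ₂ = τ₁ * σ := by rw [← h₁₂, ← mul_assoc, h₁, one_mul]
  have hconj : ∀ i : ℤ, τ₁ * σ ^ i = (σ ^ i)⁻¹ * τ₁ := by
    intro i
    have := hc.inv τ₁ hτ₁K n₁ (σ ^ i) (by rw [hR]; exact Subgroup.mem_zpowers_iff.2 ⟨i, rfl⟩)
    rw [← this]; group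
  have hfix : ∀ i : ℤ, τ₂ ((σ ^ i) x) = (σ ^ i) x → (σ ^ (2 * i + 1)) x = x := by
    intro i hi
    have e1 : τ₂ ((σ ^ i) x) = (τ₁ * σ ^ (i + 1)) x := by
      rw [hτ₂, ← Equiv.Perm.mul_apply, mul_assoc, ← zpow_one_add, add_comm]
    rw [e1, hconj, Equiv.Perm.mul_apply, hx] at hi
    have e2 : (σ ^ (2 * i + 1)) = σ ^ (i + 1) * σ ^ i := by
      rw [← zpow_add]; congr 1; ring
    rw [e2, Equiv.Perm.mul_apply, ← hi, ← Equiv.Perm.mul_apply]
    simp
  obtain ⟨i, rfl⟩ := hrep y hyx
  obtain ⟨j, rfl⟩ := hrep z hzx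
  have hi := hfix i hy
  have hj := hfix j hz
  set S := MulAction.stabilizer (Equiv.Perm α) x with hS
  have hi' : σ ^ (2 * i + 1) ∈ S := by rw [hS, MulAction.mem_stabilizer_iff]; exact hi
  have hj' : σ ^ (2 * j + 1) ∈ S := by rw [hS, MulAction.mem_stabilizer_iff]; exact hj
  have hd : σ ^ (i - j) ∈ S := by
    have h1 : σ ^ (2 * (i - j)) ∈ S := by
      have := S.mul_mem hi' (S.inv_mem hj')
      rw [← zpow_neg, ← zpow_add] at this
      convert this using 2
      ring
    have h2 := S.zpow_mem hi' (i - j)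
    have h3 := S.zpow_mem h1 (-i)
    have h4 := S.mul_mem h2 h3
    rw [← zpow_mul, ← zpow_mul, ← zpow_add] at h4
    convert h4 using 2
    ring
  rw [hS, MulAction.mem_stabilizer_iff] at hd
  have e3 : σ ^ i = σ ^ j * σ ^ (i - j) := by rw [← zpow_add]; congr 1; ring
  rw [e3, Equiv.Perm.mul_apply]
  congr 1

/-- list of fixed letters ending in a prescribed one -/
lemma fixed_list {τ : Equiv.Perm α} {z : α} (hz : τ z = z) :
    ∃ F : List α, (∀ a, a ∈ F ++ [z] ↔ τ a = a) ∧ (F ++ [z]).Nodup := by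
  refine ⟨((Finset.univ.filter fun a => τ a = a).erase z).toList, ?_, ?_⟩
  · intro a
    simp only [List.mem_append, Finset.mem_toList, Finset.mem_erase, Finset.mem_filter,
      Finset.mem_univ, true_and, List.mem_singleton]
    constructor
    · rintro (h | rfl)
      · exact h.2
      · exact hz
    · intro h
      by_cases haz : a = z
      · exact Or.inr haz
      · exact Or.inl ⟨haz, h⟩
  · rw [List.nodup_append]
    refine ⟨Finset.nodup_toList _, by simp, ?_⟩
    intro a ha b hb hab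
    simp only [List.mem_singleton] at hb
    simp [hab, hb] at ha

/-- list of fixed letters when there is at most one -/
lemma fixed_list' {τ : Equiv.Perm α} (h : ∀ a b, τ a = a → τ b = b → a = b) :
    ∃ F : List α, (∀ a, a ∈ F ↔ τ a = a) ∧ F.Nodup ∧ F.reverse = F := by
  by_cases hex : ∃ a, τ a = a
  · obtain ⟨a, ha⟩ := hex
    refine ⟨[a], ?_, by simp, by simp⟩
    intro b
    simp only [List.mem_singleton]
    exact ⟨fun e => by rw [e, ha], fun e => h b a e ha⟩
  · push Not at hex
    exact ⟨[], fun a => by simp [hex a], by simp, by simp⟩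

/-- a word whose reversal of an initial part is its image under the involution `τ`, with
prescribed last letter (fixed by `τ`) -/
lemma word_fix {τ : Equiv.Perm α} (hτ : τ * τ = 1) (hmv : ∃ a, τ a ≠ a) {z : α} (hz : τ z = z) :
    ∃ (w : List α) (a : ℕ), Wd Finset.univ (w ++ [z]) ∧ 2 ≤ a ∧ a < Fintype.card α ∧
      rv a (w ++ [z]) = (w ++ [z]).map τ := by
  obtain ⟨F, hF, hFn⟩ := fixed_list hz
  obtain ⟨m, hm1, hm2⟩ := inv_ext hτ _ [] (by simp) le_rfl
  simp only [List.nil_append] at hm1 hm2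
  have hW : Wd Finset.univ (m ++ (m.map τ).reverse ++ (F ++ [z])) := by
    apply wd_inv hm1 hm2 hF hFn
    exact List.Perm.append_right _ (List.Perm.append_left _ (List.reverse_perm _))
  refine ⟨m ++ (m.map τ).reverse ++ F, 2 * m.length, ?_, ?_, ?_, ?_⟩
  · rw [List.append_assoc]; exact hW
  · obtain ⟨a, ha⟩ := hmv
    have : a ∈ m ++ m.map τ := hm2 a ha
    have : m ≠ [] := by rintro rfl; simp at this
    have := List.length_pos_iff.2 this
    omega
  · have := hW.length
    rw [Finset.card_univ] at this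
    rw [← this]
    simp
    omega
  · rw [List.append_assoc]
    exact rv_inv hτ m (F ++ [z]) (fun a ha => (hF a).1 ha)

/-- a word whose reversal is its image under the involution `τ`, starting with prescribed letters -/
lemma word_rev {τ : Equiv.Perm α} (hτ : τ * τ = 1) (h1 : ∀ a b, τ a = a → τ b = b → a = b)
    (m₀ : List α) (hm₀ : (m₀ ++ m₀.map τ).Nodup) :
    ∃ w, Wd Finset.univ (m₀ ++ w ++ (m₀.map τ).reverse) ∧
      (m₀ ++ w ++ (m₀.map τ).reverse).reverse = (m₀ ++ w ++ (m₀.map τ).reverse).map τ := by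
  obtain ⟨F, hF, hFn, hFr⟩ := fixed_list' h1
  obtain ⟨m, hm1, hm2⟩ := inv_ext hτ _ m₀ hm₀ le_rfl
  have e : (m₀ ++ m) ++ F ++ ((m₀ ++ m).map τ).reverse
      = m₀ ++ (m ++ F ++ (m.map τ).reverse) ++ (m₀.map τ).reverse := by
    simp
  refine ⟨m ++ F ++ (m.map τ).reverse, ?_, ?_⟩
  · rw [← e]
    apply wd_inv hm1 hm2 hF hFn
    rw [List.append_assoc (m₀ ++ m), List.append_assoc (m₀ ++ m)]
    apply List.Perm.append_left
    refine List.perm_append_comm.trans ?_
    exact List.Perm.append_right _ (List.reverse_perm _)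
  · rw [← e]
    exact rev_inv hτ (m₀ ++ m) F (fun a ha => (hF a).1 ha) hFr

end TD

open TD in
theorem size_dih {σ τ₁ τ₂ : Equiv.Perm α} {K : Subgroup (Equiv.Perm α)}
    (hc : Cls (Subgroup.zpowers σ) K Finset.univ) (hK : K = Subgroup.closure {τ₁, τ₂})
    (h₁ : τ₁ * τ₁ = 1) (h₂ : τ₂ * τ₂ = 1) (h₁₂ : τ₁ * τ₂ = σ)
    (n₁ : τ₁ ∉ Subgroup.zpowers σ) (n₂ : τ₂ ∉ Subgroup.zpowers σ)
    (hKc : Nat.card K = 2 * orderOf σ) {x : α} (hx : τ₁ x = x) (hσx : σ x ≠ x) :
    SizeAt α (2 * orderOf σ) := by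
  have hτ₁ : τ₁ ∈ K := by rw [hK]; exact Subgroup.subset_closure (by simp)
  have hτ₂ : τ₂ ∈ K := by rw [hK]; exact Subgroup.subset_closure (by simp)
  have hxm : ∃ r ∈ Subgroup.zpowers σ, r x ≠ x := ⟨σ, Subgroup.mem_zpowers σ, hσx⟩
  have hn7 : 7 ≤ Fintype.card α := by
    have h6 := hc.refl τ₁ hτ₁ n₁
    have hlt : (Finset.univ.filter fun a => τ₁ a ≠ a).card < Fintype.card α := by
      rw [← Finset.card_univ]
      apply Finset.card_lt_card
      rw [Finset.ssubset_iff_of_subset (Finset.subset_univ _)]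
      exact ⟨x, Finset.mem_univ _, by simp [hx]⟩
    omega
  have hmv : ∀ τ ∈ K, τ ∉ Subgroup.zpowers σ → ∃ a, τ a ≠ a := by
    intro τ hτ hτn
    have h6 := hc.refl τ hτ hτn
    obtain ⟨a, ha⟩ := Finset.card_pos.1 (lt_of_lt_of_le (by norm_num) h6)
    exact ⟨a, (Finset.mem_filter.1 ha).2⟩
  have hcard1 : ∀ y : α, (Finset.univ.erase y).card = Fintype.card α - 1 := by
    intro y
    rw [Finset.card_erase_of_mem (Finset.mem_univ _), Finset.card_univ]
  have hgood : ∀ y ∈ (Finset.univ : Finset α), Good (stb K y) (Finset.univ.erase y) := by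
    intro y hy
    exact good_cls _ (hc.stb hy) (hcard1 y) (by omega)
  have hch : ChainHyp K Finset.univ :=
    ⟨hc.pres, hgood, hc.pick (by rw [Finset.card_univ]; omega)⟩
  have huniv2 : 2 ≤ (Finset.univ : Finset α).card := by rw [Finset.card_univ]; omega
  obtain ⟨u0, a, hu0, ha2, ha, hua⟩ := word_fix h₁ (hmv τ₁ hτ₁ n₁) hx
  -- transversal path on all words
  have htp : ∀ bs : List (α × List (List α)), BC K Finset.univ bs →
      (bs.map Prod.fst).Pairwise (Inq K) →
      (∀ y, ∃ z ∈ bs.map Prod.fst, ∃ k ∈ K, k z = y) → TPon K (Wd Finset.univ) (flat bs) := by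
    intro bs hbc hpw hall
    refine (hbc.tpon huniv2 hc.pres hpw).congr ?_
    intro w
    unfold LastIn
    constructor
    · exact fun h => h.1
    · intro h
      refine ⟨h, ?_⟩
      obtain ⟨w', y, _, rfl, _⟩ := h.exists_last ⟨x, Finset.mem_univ _⟩
      obtain ⟨z, hz, k, hk, e⟩ := hall y
      exact ⟨z, hz, k, hk, by simp [e]⟩
  have hadj₁ : Adj (u0 ++ [x]) ((u0 ++ [x]).map τ₁) :=
    ⟨a, ha2, by rw [hu0.length, Finset.card_univ]; omega, hua.symm⟩
  have hKc' : Nat.card K = 2 * orderOf (τ₁ * τ₂) := by rw [h₁₂]; exact hKc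
  by_cases hone : ∃ z, Inq K x z
  · -- at least two orbits
    obtain ⟨z₀, hz₀⟩ := hone
    have main : ∀ z, Inq K x z → ∀ (v : List α) (b : ℕ), Wd Finset.univ (v ++ [z]) → 2 ≤ b →
        b ≤ Fintype.card α → rv b (v ++ [z]) = (v ++ [z]).map τ₂ →
        (b < Fintype.card α → τ₂ z = z) → SizeAt α (2 * orderOf σ) := by
      intro z hxz v b hv hb2 hb hvb hzf
      obtain ⟨xs, hx1, hx2, hx3, hx4, hx5, hx6⟩ := exists_reps K Finset.univ hc.pres
        (Finset.mem_univ x) (Finset.mem_univ z) hxz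
      obtain ⟨bs, hbc, hbs, hfu, hfv, -, -⟩ := chainSome hch xs hx5 hx4 hx3 (u0 ++ [x]) (v ++ [z])
        hu0 hv (by simp [hx1]) (by simp [hx2])
      have hall : ∀ y, ∃ z ∈ bs.map Prod.fst, ∃ k ∈ K, k z = y := by
        intro y
        rw [hbs]
        exact hx6 y (Finset.mem_univ _)
      have hpw : (bs.map Prod.fst).Pairwise (Inq K) := by rw [hbs]; exact hx4
      have hP := htp bs hbc hpw hall
      have hlen : 2 ≤ bs.length := by
        rw [← List.length_map (f := Prod.fst), hbs]; exact hx3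
      obtain ⟨b₁, bs', rfl⟩ : ∃ b₁ bs', bs = b₁ :: bs' := by
        cases bs with
        | nil => simp at hlen
        | cons b₁ bs' => exact ⟨b₁, bs', rfl⟩
      have hb₁x : b₁.1 = x := by
        rw [← hbs] at hx1
        simpa using hx1
      have htail : ∀ c ∈ bs', Inq K x c.1 := by
        intro c hcm
        rw [List.map_cons, List.pairwise_cons] at hpw
        rw [← hb₁x]
        exact hpw.1 c.1 (List.mem_map_of_mem hcm)
      have hadj₂ : Adj (v ++ [z]) ((v ++ [z]).map τ₂) :=
        ⟨b, hb2, by rw [hv.length, Finset.card_univ]; omega, hvb.symm⟩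
      have hex := exact_dih (by omega) hbc hlen hpw hall hτ₁ hτ₂ hfu hfv ha2 ha hb2 hb hua hvb
        (b₁ := b₁) (by simp)
        (by
          intro c hcm _
          rw [hb₁x]
          exact orb_ne hc hτ₁ n₁ hxm (htail c (by simpa using hcm)))
        (by
          intro c hcl hbl
          rw [hb₁x]
          have hcz : c.1 = z := by
            have : ((b₁ :: bs').map Prod.fst).getLast? = some c.1 := by
              rw [List.getLast?_map, hcl]; rfl
            rw [hbs, hx2] at this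
            exact (Option.some.inj this).symm
          rw [hcz]
          exact orb_ne' hc hτ₂ n₂ hxm hxz (hzf hbl))
      obtain ⟨L, hL, hE⟩ := asm_dih hK h₁ h₂ hKc' (by omega) hP hfu hfv hadj₁ hadj₂
      have := size_of_exact hL hE hex
      rwa [hKc] at this
    by_cases hA : ∃ z, Inq K x z ∧ τ₂ z = z
    · obtain ⟨z, hz, hz2⟩ := hA
      obtain ⟨v, b, hv, hb2, hb, hvb⟩ := word_fix h₂ (hmv τ₂ hτ₂ n₂) hz2
      exact main z hz v b hv hb2 hb.le hvb (fun _ => hz2)
    · push Not at hA
      have hfix : ∀ y, τ₂ y = y → ∃ k ∈ K, k x = y := by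
        intro y hy
        by_contra hcon
        push Not at hcon
        exact hA y hcon hy
      have huniq : ∀ y z, τ₂ y = y → τ₂ z = z → y = z := fun y z hy hz =>
        fix_unique rfl hc hτ₁ n₁ h₁ h₁₂ hx hxm hy hz (hfix y hy) (hfix z hz)
      have hz₀m : τ₂ z₀ ≠ z₀ := hA z₀ hz₀
      obtain ⟨w, hw1, hw2⟩ := word_rev h₂ huniq [τ₂ z₀] (by
        simp only [List.map_cons, List.map_nil, inv_app h₂, List.singleton_append,
          List.nodup_cons, List.mem_singleton]
        exact ⟨hz₀m, by simp⟩)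
      simp only [List.map_cons, List.map_nil, inv_app h₂, List.reverse_cons, List.reverse_nil,
        List.nil_append] at hw1 hw2
      refine main z₀ hz₀ ([τ₂ z₀] ++ w) (Fintype.card α) hw1 (by omega) le_rfl ?_ (by simp)
      have hl := hw1.length
      rw [Finset.card_univ] at hl
      rw [← hl, rv_full]
      exact hw2
  · -- one orbit
    have hone' : ∀ y, ∃ k ∈ K, k x = y := by
      intro y
      by_contra hcon
      push Not at hcon
      exact hone ⟨y, hcon⟩
    have huniq : ∀ y z, τ₂ y = y → τ₂ z = z → y = z := fun y z hy hz =>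
      fix_unique rfl hc hτ₁ n₁ h₁ h₁₂ hx hxm hy hz (hone' y) (hone' z)
    have htr := hc.transitive (by rw [Finset.card_univ]; omega) (by
      intro y _ z _ hyz
      obtain ⟨k, hk, rfl⟩ := hone' y
      obtain ⟨l, hl, rfl⟩ := hone' z
      exact hyz (l * k⁻¹) (K.mul_mem hl (K.inv_mem hk)) (by simp))
    have hstb : ∀ k ∈ stb K x, ∀ y, k y = y ∨ k y = τ₁ y := by
      intro k hk y
      obtain ⟨hkK, hkx⟩ := mem_stb.1 hk
      by_cases hkR : k ∈ Subgroup.zpowers σ
      · left
        rw [htr.2 k hkR x (Finset.mem_univ _) hkx]; rfl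
      · right
        have h3 := hc.idx τ₁ hτ₁ k hkK n₁ hkR
        have h4 := htr.2 _ h3 x (Finset.mem_univ _) (by rw [Equiv.Perm.mul_apply, hkx, hx])
        have h5 : k = τ₁ := by
          have : τ₁ * (τ₁ * k) = τ₁ * 1 := by rw [h4]
          rwa [← mul_assoc, h₁, one_mul, mul_one] at this
        rw [h5]
    -- the letter before the last one in `u`
    obtain ⟨u00, p, rfl⟩ : ∃ u00 p, u0 = u00 ++ [p] := by
      have hl := hu0.length
      rw [Finset.card_univ] at hl
      have hne : u0 ≠ [] := by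
        rintro rfl
        simp at hl
        omega
      exact ⟨u0.dropLast, u0.getLast hne, (List.dropLast_append_getLast hne).symm⟩
    -- choose d
    have hτ₂x : τ₂ x ≠ x := by
      intro e
      apply hσx
      rw [← h₁₂, Equiv.Perm.mul_apply, e, hx]
    obtain ⟨d, hd⟩ : ∃ d, d ∉ ({x, τ₂ x, p, τ₁ p} : Finset α) ∧ τ₂ d ≠ d := by
      by_contra hcon
      push Not at hcon
      have hsub : (Finset.univ : Finset α) ⊆
          ({x, τ₂ x, p, τ₁ p} : Finset α) ∪ (Finset.univ.filter fun d => τ₂ d = d) := by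
        intro d _
        by_cases h : d ∈ ({x, τ₂ x, p, τ₁ p} : Finset α)
        · exact Finset.mem_union_left _ h
        · exact Finset.mem_union_right _ (by simpa using hcon d h)
      have h5 := Finset.card_le_card hsub
      have h6 : (Finset.univ.filter fun d => τ₂ d = d).card ≤ 1 := by
        rw [Finset.card_le_one]
        intro y hy z hz
        exact huniq y z (Finset.mem_filter.1 hy).2 (Finset.mem_filter.1 hz).2
      have h7 := Finset.card_union_le ({x, τ₂ x, p, τ₁ p} : Finset α)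
        (Finset.univ.filter fun d => τ₂ d = d)
      have h8 : ({x, τ₂ x, p, τ₁ p} : Finset α).card ≤ 4 := Finset.card_le_four
      rw [Finset.card_univ] at h5
      omega
    simp only [Finset.mem_insert, Finset.mem_singleton, not_or] at hd
    obtain ⟨⟨hdx, hdx', hdp, hdp'⟩, hdm⟩ := hd
    have hd2x : τ₂ d ≠ x := by
      intro e
      apply hdx'
      rw [← e, inv_app h₂]
    have hnd : ([τ₂ x, τ₂ d] ++ [τ₂ x, τ₂ d].map τ₂).Nodup := by
      simp only [List.map_cons, List.map_nil, inv_app h₂, List.cons_append, List.nil_append,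
        List.nodup_cons, List.mem_cons, List.not_mem_nil, or_false, not_or]
      refine ⟨⟨?_, hτ₂x, ?_⟩, ⟨hd2x, hdm⟩, ?_, not_false, List.nodup_nil⟩
      · intro e; exact hdx (τ₂.injective e).symm
      · intro e; exact hdx' e.symm
      · intro e; exact hdx e.symm
    obtain ⟨w, hw1, hw2⟩ := word_rev h₂ huniq [τ₂ x, τ₂ d] hnd
    have e1 : [τ₂ x, τ₂ d] ++ w ++ ([τ₂ x, τ₂ d].map τ₂).reverse
        = ((τ₂ x :: τ₂ d :: w) ++ [d]) ++ [x] := by
      simp [inv_app h₂]
    rw [e1] at hw1 hw2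
    obtain ⟨bs, hbc, hbs, hfu, hfv, -⟩ := blockOne (K := K) (Finset.mem_univ x) hc.pres
      (hgood x (Finset.mem_univ _)) hu0 hw1 (adm_of_inq (by
        intro k hk e
        rcases hstb k hk p with h | h
        · exact hdp (by rw [← e, h])
        · exact hdp' (by rw [← e, h])))
    obtain ⟨⟨x', S⟩, rfl⟩ : ∃ b, bs = [b] := by
      have : (bs.map Prod.fst).length = 1 := by rw [hbs]; rfl
      rw [List.length_map] at this
      exact List.length_eq_one_iff.1 this
    have hx' : x' = x := by simpa using hbs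
    subst hx'
    have hP := htp [(x', S)] hbc (by simp) (by
      intro y
      obtain ⟨k, hk, e⟩ := hone' y
      exact ⟨x', by simp, k, hk, e⟩)
    have hadj₂ : Adj (((τ₂ x' :: τ₂ d :: w) ++ [d]) ++ [x'])
        ((((τ₂ x' :: τ₂ d :: w) ++ [d]) ++ [x']).map τ₂) := by
      rw [← hw2]
      apply adj_reverse
      simp
    have hex := exact_dih_one (by omega) hbc hone' hτ₁ hτ₂ hfu hfv ha2 ha hua hw2
    obtain ⟨L, hL, hE⟩ := asm_dih hK h₁ h₂ hKc' (by omega) hP hfu hfv hadj₁ hadj₂
    have := size_of_exact hL hE hex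
    rwa [hKc] at this

end Pan
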