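import Pool.Agent.Hhelper18.Pan.Five
import Pool.Agent.Hhelper18.Pan.ExactCyc
import Pool.Agent.Hhelper18.Pan.Asm

/-! # MODULE T1 : a Hamiltonian cycle without symmetry -/

set_option linter.all false
set_option linter.unusedSectionVars false

namespace Pan

variable {α : Type*} [DecidableEq α]

/-- the invariant of a pair of words which excludes symmetries -/
lemma topOne_inv {m : ℕ} (hm : 4 ≤ m) {u a p q : List α} (g : Equiv.Perm α)
    (hq : q.Nodup) (hl : q.length = m + 1) (hua : u[2]? = a[0]?) (h1 : u.map g = q)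
    (h2 : a.map g = p) (hqp : q[m - 1]? = p[0]?) : False := by
  have e1 : q[2]? = q[m - 1]? := by
    rw [hqp, ← h1, ← h2, List.getElem?_map, List.getElem?_map, hua]
  have hlt : 2 < q.length := by omega
  have := (List.getElem?_inj hlt hq).1 e1
  omega

/-- one block for the trivial group -/
lemma topOne_block {m : ℕ} (hm : 4 ≤ m) [Fintype α] (hc : Fintype.card α = m + 1) {x : α}
    {p q : List α} (hp : Wd Finset.univ p) (hq : Wd Finset.univ q) (hpx : p[m]? = some x)
    (hqx : q[m]? = some x) (hne : p[m - 1]? ≠ q[m - 1]?) :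
    ∃ P : List (List α), TPon (stb (⊥ : Subgroup (Equiv.Perm α)) x) (Wd (Finset.univ.erase x)) P ∧
      (P.map (· ++ [x])).head? = some p ∧ (P.map (· ++ [x])).getLast? = some q := by
  have hA : (Finset.univ : Finset α).Nonempty := ⟨x, Finset.mem_univ x⟩
  obtain ⟨p', x1, -, hp1, hp'⟩ := hp.exists_last hA
  obtain ⟨q', x2, -, hq1, hq'⟩ := hq.exists_last hA
  have lp : p'.length = m := by
    have := hp'.length
    rw [Finset.card_erase_of_mem (Finset.mem_univ _), Finset.card_univ, hc] at this
    omega
  have lq : q'.length = m := by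
    have := hq'.length
    rw [Finset.card_erase_of_mem (Finset.mem_univ _), Finset.card_univ, hc] at this
    omega
  have ex1 : x1 = x := by
    rw [hp1, List.getElem?_append_right (by omega)] at hpx
    simpa [lp] using hpx
  have ex2 : x2 = x := by
    rw [hq1, List.getElem?_append_right (by omega)] at hqx
    simpa [lq] using hqx
  subst ex1
  subst ex2
  have hK : stb (⊥ : Subgroup (Equiv.Perm α)) x2 = ⊥ := le_bot_iff.1 (stb_le _ _)
  rw [hK]
  have hgood : Good (⊥ : Subgroup (Equiv.Perm α)) (Finset.univ.erase x2) := by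
    apply good_bot
    rw [Finset.card_erase_of_mem (Finset.mem_univ _), Finset.card_univ, hc]
    omega
  have hadm : Adm (⊥ : Subgroup (Equiv.Perm α)) p' q' := by
    intro k hk e
    rw [Subgroup.mem_bot] at hk
    subst hk
    apply hne
    rw [hp1, hq1, List.getElem?_append_left (by omega), List.getElem?_append_left (by omega)]
    have e' := congrArg List.head? e
    have f1 : ∀ s : List α, (s.reverse.take 2).head? = s.getLast? := by
      intro s
      rw [List.head?_take]
      simp
    simp only [Equiv.Perm.coe_one, List.map_id] at e'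
    rw [f1, f1, List.getLast?_eq_getElem?, List.getLast?_eq_getElem?, lp, lq] at e'
    exact e'
  obtain ⟨P, hP, h1, h2, -⟩ := hgood p' q' hp' hq' hadm
  exact ⟨P, hP, by rw [List.head?_map, h1]; simp [hp1], by rw [List.getLast?_map, h2]; simp [hq1]⟩


lemma topOne_last {m : ℕ} (hm : 4 ≤ m) {l : List α} (hl : l.length = m + 1) :
    ∃ v : List α, v.Perm l ∧ v[0]? = l[0]? ∧ v[1]? = l[2]? ∧ v[m - 2]? = l[1]? ∧
      v[m - 1]? = l[m - 1]? ∧ v[m]? = l[m]? := by
  match l, hl with
  | [], hl => simp at hl
  | [_], hl => simp at hl; omega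
  | [_, _], hl => simp at hl; omega
  | x0 :: x1 :: x2 :: t, hl =>
    simp only [List.length_cons] at hl
    have ht : t ≠ [] := by rintro rfl; simp at hl; omega
    obtain ⟨t', y0, rfl⟩ : ∃ t' y0, t = t' ++ [y0] :=
      ⟨_, _, (List.dropLast_append_getLast ht).symm⟩
    simp only [List.length_append, List.length_singleton] at hl
    have ht' : t' ≠ [] := by rintro rfl; simp at hl; omega
    obtain ⟨r, y1, rfl⟩ : ∃ r y1, t' = r ++ [y1] :=
      ⟨_, _, (List.dropLast_append_getLast ht').symm⟩
    simp only [List.length_append, List.length_singleton] at hl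
    have hr : r.length = m - 4 := by omega
    obtain ⟨d, rfl⟩ : ∃ d, m = d + 4 := ⟨m - 4, by omega⟩
    have hr' : r.length = d := by omega
    refine ⟨x0 :: x2 :: (r ++ [x1, y1, y0]), ?_, rfl, rfl, ?_, ?_, ?_⟩
    · refine List.Perm.cons _ ?_
      have h1 : (x2 :: (r ++ [x1, y1, y0])).Perm (x2 :: x1 :: (r ++ [y1, y0])) := by
        refine List.Perm.cons _ ?_
        have : r ++ [x1, y1, y0] = r ++ x1 :: [y1, y0] := rfl
        rw [this]
        exact List.perm_middle
      refine h1.trans ((List.Perm.swap _ _ _).trans ?_)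
      simp
    · have : d + 4 - 2 = d + 2 := by omega
      rw [this]
      simp [List.getElem?_append_right, hr']
    · have : d + 4 - 1 = (d + 1) + 2 := by omega
      rw [this]
      have e1 : (d + 1 + 2) = (d + 2) + 1 := by omega
      simp [List.getElem?_append_right, hr']
    · simp [List.getElem?_append_right, hr']


lemma topOne_words {m : ℕ} (hm : 4 ≤ m) {l : List α} (hl : l.length = m + 1) (hn : l.Nodup) :
    ∃ W U : ℕ → List α, (∀ i ≤ m, (W i).Perm l) ∧ (∀ i ≤ m, (U i).Perm l) ∧
      (∀ i < m, U (i + 1) = (W i).reverse) ∧ U 0 = (W m).reverse ∧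
      (∀ i ≤ m, (W i)[m]? = l[i]?) ∧ (∀ i ≤ m, (U i)[m]? = l[i]?) ∧
      (∀ i ≤ m, (U i)[m - 1]? ≠ (W i)[m - 1]?) ∧ (∀ i ≤ m, (W i)[m - 1]? = (U i)[0]?) ∧
      (U 0)[2]? = (W 0)[0]? ∧ (∀ i, i ≠ 0 → i ≤ m → (U i)[m - 1]? = (W i)[0]?) := by
  obtain ⟨v, hvl, v0, v1, v2, v3, v4⟩ := topOne_last hm hl
  have hvlen : v.length = m + 1 := by rw [hvl.length_eq, hl]
  let W : ℕ → List α := fun i => if i < m then l.rotate (i + 1) else v
  let U : ℕ → List α := fun i => if i = 0 then v.reverse else (l.rotate i).reverse
  have hW : ∀ i, i < m → W i = l.rotate (i + 1) := fun i hi => if_pos hi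
  have hWm : W m = v := if_neg (lt_irrefl m)
  have hU : ∀ i, i ≠ 0 → U i = (l.rotate i).reverse := fun i hi => if_neg hi
  have hU0 : U 0 = v.reverse := if_pos rfl
  have hrot : ∀ j k, k ≤ m → (l.rotate j)[k]? = l[(k + j) % (m + 1)]? := by
    intro j k hk
    rw [List.getElem?_rotate (by omega), hl]
  have hrrot : ∀ j k, k ≤ m → (l.rotate j).reverse[k]? = l[(m - k + j) % (m + 1)]? := by
    intro j k hk
    rw [List.getElem?_reverse (by rw [List.length_rotate, hl]; omega), List.length_rotate, hl,
      hrot _ _ (by omega)]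
    congr 2
  have hvr : ∀ k, k ≤ m → v.reverse[k]? = v[m - k]? := by
    intro k hk
    rw [List.getElem?_reverse (by omega), hvlen]
    congr 1
  have hinj : ∀ i j, i ≤ m → j ≤ m → l[i]? = l[j]? → i = j := by
    intro i j hi hj h
    exact (List.getElem?_inj (by omega) hn).1 h
  refine ⟨W, U, ?_, ?_, ?_, ?_, ?_, ?_, ?_, ?_, ?_, ?_⟩
  · intro i hi
    rcases hi.lt_or_eq with h | h
    · rw [hW i h]; exact List.rotate_perm _ _
    · rw [h, hWm]; exact hvl
  · intro i hi
    by_cases h : i = 0
    · rw [h, hU0]; exact (List.reverse_perm _).trans hvl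
    · rw [hU i h]; exact (List.reverse_perm _).trans (List.rotate_perm _ _)
  · intro i hi
    rw [hW i hi, hU (i + 1) (by omega)]
  · rw [hU0, hWm]
  · intro i hi
    rcases hi.lt_or_eq with h | h
    · rw [hW i h, hrot _ _ le_rfl]
      congr 1
      rw [show m + (i + 1) = i + (m + 1) by omega, Nat.add_mod_right]
      exact Nat.mod_eq_of_lt (by omega)
    · rw [h, hWm, v4]
  · intro i hi
    by_cases h : i = 0
    · rw [h, hU0, hvr _ le_rfl, Nat.sub_self, v0]
    · rw [hU i h, hrrot _ _ le_rfl, Nat.sub_self, Nat.zero_add]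
      congr 1
      exact Nat.mod_eq_of_lt (by omega)
  · intro i hi h
    by_cases h0 : i = 0
    · subst h0
      rw [hU0, hvr _ (by omega), hW 0 (by omega), hrot _ _ (by omega),
        show m - (m - 1) = 1 by omega, v1] at h
      have := hinj _ _ (by omega) (Nat.le_of_lt_succ (Nat.mod_lt _ (by omega))) h
      rw [show m - 1 + (0 + 1) = m by omega, Nat.mod_eq_of_lt (by omega)] at this
      omega
    · rw [hU i h0, hrrot _ _ (by omega), show m - (m - 1) + i = i + 1 by omega] at h
      rcases hi.lt_or_eq with h1 | h1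
      · rw [hW i h1, hrot _ _ (by omega), show m - 1 + (i + 1) = (i - 1) + (m + 1) by omega,
          Nat.add_mod_right] at h
        have := hinj _ _ (Nat.le_of_lt_succ (Nat.mod_lt _ (by omega)))
          (Nat.le_of_lt_succ (Nat.mod_lt _ (by omega))) h
        rw [Nat.mod_eq_of_lt (by omega : i - 1 < m + 1),
          Nat.mod_eq_of_lt (by omega : i + 1 < m + 1)] at this
        omega
      · subst h1
        rw [hWm, v3, Nat.mod_self] at h
        have := hinj _ _ (by omega) (by omega) h
        omega
  · intro i hi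
    by_cases h0 : i = 0
    · subst h0
      rw [hU0, hvr _ (by omega), hW 0 (by omega), hrot _ _ (by omega),
        show m - 1 + (0 + 1) = m by omega, Nat.mod_eq_of_lt (by omega : m < m + 1), Nat.sub_zero,
        v4]
    · rw [hU i h0, hrrot _ _ (by omega), show m - 0 + i = (i - 1) + (m + 1) by omega,
        Nat.add_mod_right]
      rcases hi.lt_or_eq with h1 | h1
      · rw [hW i h1, hrot _ _ (by omega), show m - 1 + (i + 1) = (i - 1) + (m + 1) by omega,
          Nat.add_mod_right]
      · subst h1
        rw [hWm, v3, Nat.mod_eq_of_lt (by omega : i - 1 < i + 1)]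
  · rw [hU0, hvr _ (by omega), v2, hW 0 (by omega), hrot _ _ (by omega)]
    congr 1
    rw [Nat.mod_eq_of_lt (by omega)]
  · intro i h0 hi
    rw [hU i h0, hrrot _ _ (by omega), show m - (m - 1) + i = i + 1 by omega]
    rcases hi.lt_or_eq with h1 | h1
    · rw [hW i h1, hrot _ _ (by omega), Nat.zero_add]
    · subst h1
      rw [hWm, v0, Nat.mod_self]

section main

variable [Fintype α]

theorem size_one (h5 : 5 ≤ Fintype.card α) : SizeAt α 1 := by
  obtain ⟨m, hm⟩ : ∃ m, Fintype.card α = m + 1 := ⟨Fintype.card α - 1, by omega⟩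
  have h4 : 4 ≤ m := by omega
  obtain ⟨l, hl⟩ := exists_wd (Finset.univ : Finset α)
  have hlen : l.length = m + 1 := by rw [hl.length, Finset.card_univ, hm]
  obtain ⟨W, U, hW, hU, hUW, hU0, hWl, hUl, hne, hWU, hinv, hUW0⟩ := topOne_words h4 hlen hl.1
  have hwd : ∀ w : List α, w.Perm l → Wd Finset.univ w := fun w hw =>
    ⟨hw.nodup_iff.2 hl.1, by rw [List.toFinset_eq_of_perm _ _ hw]; exact hl.2⟩
  -- the letters of the blocks
  have hlne : 0 < l.length := by omega
  let X : ℕ → α := fun i => l.getD i (l[0])
  have hX : ∀ i ≤ m, l[i]? = some (X i) := by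
    intro i hi
    have : i < l.length := by omega
    simp [X, List.getD_eq_getElem?_getD, this]
  -- the blocks
  have hblock : ∀ i, ∃ P : List (List α), i ≤ m →
      TPon (stb (⊥ : Subgroup (Equiv.Perm α)) (X i)) (Wd (Finset.univ.erase (X i))) P ∧
      (P.map (· ++ [X i])).head? = some (U i) ∧ (P.map (· ++ [X i])).getLast? = some (W i) := by
    intro i
    by_cases hi : i ≤ m
    · obtain ⟨P, hP⟩ := topOne_block h4 hm (hwd _ (hU i hi)) (hwd _ (hW i hi))
        ((hUl i hi).trans (hX i hi)) ((hWl i hi).trans (hX i hi)) (hne i hi)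
      exact ⟨P, fun _ => hP⟩
    · exact ⟨[], fun h => absurd h hi⟩
  choose P hP using hblock
  let bs : List (α × List (List α)) := (List.range (m + 1)).map fun i => (X i, P i)
  have hfst : bs.map Prod.fst = l := by
    apply List.ext_getElem?
    intro i
    simp only [bs, List.map_map, List.getElem?_map]
    by_cases hi : i ≤ m
    · rw [List.getElem?_range (by omega), hX i hi]
      rfl
    · rw [List.getElem?_eq_none (by simp; omega), List.getElem?_eq_none (by omega)]
      rfl
  have hmem : ∀ b ∈ bs, ∃ i ≤ m, b = (X i, P i) := by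
    intro b hb
    obtain ⟨i, hi, rfl⟩ := List.mem_map.1 hb
    rw [List.mem_range] at hi
    exact ⟨i, by omega, rfl⟩
  have hPne : ∀ i ≤ m, P i ≠ [] := by
    intro i hi e
    have := (hP i hi).2.1
    rw [e] at this
    simp at this
  have hbc : BC (⊥ : Subgroup (Equiv.Perm α)) Finset.univ bs := by
    refine ⟨fun b _ => Finset.mem_univ _, ?_, ?_⟩
    · intro b hb
      obtain ⟨i, hi, rfl⟩ := hmem b hb
      exact (hP i hi).1
    · simp only [bs]
      rw [List.isChain_map]
      rw [List.isChain_range_succ]
      intro i hi p hp q hq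
      have h1 := (hP i (by omega)).2.2
      have h2 := (hP (i + 1) (by omega)).2.1
      rw [List.getLast?_map] at h1
      rw [List.head?_map] at h2
      simp only [Option.mem_def] at hp hq
      rw [hp] at h1
      rw [hq] at h2
      simp only [Option.map_some, Option.some.injEq] at h1 h2
      show q ++ [X (i + 1)] = (p ++ [X i]).reverse
      rw [h1, h2, hUW i hi]
  have hpw : (bs.map Prod.fst).Pairwise (Inq (⊥ : Subgroup (Equiv.Perm α))) := by
    rw [hfst]
    refine List.Pairwise.imp (R := fun a b => a ≠ b) ?_ hl.1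
    intro a b hab k hk e
    rw [Subgroup.mem_bot] at hk
    subst hk
    exact hab e
  have hall : ∀ y : α, ∃ x ∈ bs.map Prod.fst, ∃ k ∈ (⊥ : Subgroup (Equiv.Perm α)), k x = y := by
    intro y
    refine ⟨y, ?_, 1, Subgroup.one_mem _, rfl⟩
    rw [hfst]
    exact hl.mem.2 (Finset.mem_univ y)
  -- ends
  have hbs0 : bs = (X 0, P 0) :: (List.range m).map (fun i => (X (i + 1), P (i + 1))) := by
    simp only [bs]
    rw [List.range_succ_eq_map, List.map_cons, List.map_map]
    rfl
  have hbsm : bs = (List.range m).map (fun i => (X i, P i)) ++ [(X m, P m)] := by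
    simp only [bs]
    rw [List.range_succ, List.map_append, List.map_singleton]
  have hflat0 : (flat bs).head? = some (U 0) := by
    rw [flat, hbs0, List.map_cons, List.flatten_cons, List.head?_append, (hP 0 (by omega)).2.1]
    rfl
  have hflatm : (flat bs).getLast? = some (W m) := by
    rw [flat, hbsm, List.map_append, List.flatten_append, List.getLast?_append]
    simp only [List.map_cons, List.map_nil, List.flatten_cons, List.flatten_nil, List.append_nil]
    rw [(hP m le_rfl).2.2]
    rfl
  have htp : TPon (⊥ : Subgroup (Equiv.Perm α)) (Wd Finset.univ) (flat bs) := by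
    refine (BC.tpon hbc (by rw [Finset.card_univ]; omega) (fun _ _ _ _ => Finset.mem_univ _)
      hpw).congr ?_
    intro w
    rw [hfst]
    constructor
    · exact fun h => h.1
    · intro h
      refine ⟨h, ?_⟩
      obtain ⟨w', x, -, hw, -⟩ := h.exists_last ⟨X 0, Finset.mem_univ _⟩
      exact ⟨x, hl.mem.2 (Finset.mem_univ x), 1, Subgroup.one_mem _, by simp [hw]⟩
  have hrev : (W m).reverse = (U 0).map (1 : Equiv.Perm α) := by
    rw [← hU0]; simp
  have hWmlen : (W m).length = m + 1 := by rw [(hW m le_rfl).length_eq, hlen]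
  have hadj : Adj (W m) ((U 0).map (1 : Equiv.Perm α)) := by
    rw [← hrev]
    exact adj_reverse (by omega)
  obtain ⟨L, hL, hE⟩ := asm_cyc (K := (⊥ : Subgroup (Equiv.Perm α))) (σ := 1)
    (Subgroup.zpowers_one_eq_bot).symm (by omega) htp hflat0 hflatm hadj
  rw [← hrev] at hE
  have hex := exact_cyc (by omega) hbc hpw hall (Subgroup.one_mem _) hflat0 hflatm hrev
    (b₁ := (X 0, P 0)) (by rw [hbs0]; rfl) (hP 0 (by omega)).2.2
    (by
      rintro ⟨g, h1, h2⟩
      exact topOne_inv h4 g (hwd _ (hW 0 (by omega))).1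
        (by rw [(hW 0 (by omega)).length_eq, hlen]) hinv h1 h2 (hWU 0 (by omega)))
    (by
      intro b hb p hp q hq _
      rw [hbs0, List.tail_cons] at hb
      obtain ⟨i, hi, rfl⟩ := List.mem_map.1 hb
      rw [List.mem_range] at hi
      have hp' : p = U (i + 1) := by
        have := (hP (i + 1) (by omega)).2.1
        simp only [Option.mem_def] at hp
        rw [this] at hp
        exact (Option.some.inj hp).symm
      have hq' : q = W (i + 1) := by
        have := (hP (i + 1) (by omega)).2.2
        simp only [Option.mem_def] at hq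
        rw [this] at hq
        exact (Option.some.inj hq).symm
      subst hp'
      subst hq'
      constructor
      · rintro ⟨g, h1, h2⟩
        refine topOne_inv h4 g (hwd _ (hU (i + 1) (by omega))).1
          (by rw [(hU (i + 1) (by omega)).length_eq, hlen]) hinv h1 h2
          (hUW0 (i + 1) (by omega) (by omega))
      · rintro ⟨g, h1, h2⟩
        exact topOne_inv h4 g (hwd _ (hW (i + 1) (by omega))).1
          (by rw [(hW (i + 1) (by omega)).length_eq, hlen]) hinv h1 h2 (hWU (i + 1) (by omega)))
  have := size_of_exact hL hE hex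
  simpa using this

end main

end Pan
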