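import Pool.Agent.Hhelper18.Pan.Defs

/-! # MODULE UP : the upper bound -/

set_option linter.unusedSectionVars false

namespace Pan

/-! ### cyclic indexing of a list -/

section cyc

variable {β : Type*}

lemma pair_infix_iff {L : List β} {a b : β} :
    [a, b] <:+: L ↔ ∃ (k : ℕ) (h : k + 1 < L.length), L[k] = a ∧ L[k + 1] = b := by
  constructor
  · rintro ⟨s, t, rfl⟩
    refine ⟨s.length, by simp, ?_, ?_⟩
    · simp
    · simp
  · rintro ⟨k, h, rfl, rfl⟩
    refine ⟨L.take k, L.drop (k + 2), ?_⟩
    have h1 : L.drop k = L[k] :: L[k + 1] :: L.drop (k + 2) := by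
      rw [List.drop_eq_getElem_cons (by omega), List.drop_eq_getElem_cons (by omega)]
    calc L.take k ++ [L[k], L[k + 1]] ++ L.drop (k + 2)
        = L.take k ++ (L[k] :: L[k + 1] :: L.drop (k + 2)) := by simp
      _ = L.take k ++ L.drop k := by rw [h1]
      _ = L := List.take_append_drop k L

variable (L : List β) [NeZero L.length]

/-- the term of the list with a cyclic index -/
def W (i : ZMod L.length) : β := L[i.val]'(ZMod.val_lt i)

lemma W_natCast {k : ℕ} (h : k < L.length) : W L (k : ZMod L.length) = L[k] := by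
  have : ((k : ZMod L.length)).val = k := ZMod.val_cast_of_lt h
  unfold W
  congr 1

lemma W_injective (hL : L.Nodup) : Function.Injective (W L) := by
  intro i j h
  unfold W at h
  exact ZMod.val_injective _ ((List.Nodup.getElem_inj_iff hL).1 h)

lemma exists_W {a : β} (h : a ∈ L) : ∃ i, W L i = a := by
  obtain ⟨k, hk, e⟩ := List.getElem_of_mem h
  exact ⟨k, by rw [W_natCast L hk, e]⟩

lemma W_mem (i : ZMod L.length) : W L i ∈ L := List.getElem_mem _

lemma length_pos' : 0 < L.length := Nat.pos_of_ne_zero (NeZero.ne _)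

lemma head?_eq_W : L.head? = some (W L 0) := by
  have h := length_pos' L
  have := W_natCast L h
  rw [Nat.cast_zero] at this
  rw [this, List.head?_eq_getElem?, List.getElem?_eq_getElem h]

lemma getLast?_eq_W : L.getLast? = some (W L (-1)) := by
  have h := length_pos' L
  have h' : L.length - 1 < L.length := by omega
  have := W_natCast L h'
  have e : ((L.length - 1 : ℕ) : ZMod L.length) = -1 := by
    rw [Nat.cast_sub (by omega)]
    simp
  rw [e] at this
  rw [this, List.getLast?_eq_getElem?, List.getElem?_eq_getElem h']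

lemma infix_W {a b : β} (h : [a, b] <:+: L) : ∃ i, a = W L i ∧ b = W L (i + 1) := by
  obtain ⟨k, hk, rfl, rfl⟩ := pair_infix_iff.1 h
  refine ⟨(k : ZMod L.length), (W_natCast L (by omega)).symm, ?_⟩
  have := W_natCast L hk
  rw [← this]
  push_cast
  rfl

lemma W_pair (i : ZMod L.length) : [W L i, W L (i + 1)] <:+: L ∨
    (L.head? = some (W L (i + 1)) ∧ L.getLast? = some (W L i)) := by
  have hi : ((i.val : ℕ) : ZMod L.length) = i := ZMod.natCast_zmod_val i
  have hlt := ZMod.val_lt i
  by_cases h : i.val + 1 < L.length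
  · left
    rw [pair_infix_iff]
    refine ⟨i.val, h, rfl, ?_⟩
    have := W_natCast L h
    rw [← this]
    push_cast
    rw [hi]
  · right
    have e : i.val + 1 = L.length := by omega
    have e2 : i + 1 = 0 := by
      rw [← hi]
      have : ((i.val + 1 : ℕ) : ZMod L.length) = 0 := by rw [e]; simp
      push_cast at this
      exact this
    have e3 : i = -1 := eq_neg_of_add_eq_zero_left e2
    constructor
    · rw [e2]; exact head?_eq_W L
    · rw [e3]; exact getLast?_eq_W L

/-- a sequence of cyclic indices with steps `±1` and without repetitions -/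
lemma zmod_steps {N : ℕ} [NeZero N] (hN : 3 ≤ N) (φ : ZMod N → ZMod N)
    (hinj : Function.Injective φ) (h : ∀ i, φ (i + 1) = φ i + 1 ∨ φ i = φ (i + 1) + 1) :
    (∀ i, φ i = φ 0 + i) ∨ (∀ i, φ i = φ 0 - i) := by
  have h2 : (2 : ZMod N) ≠ 0 := by
    intro e
    have : ((2 : ℕ) : ZMod N) = 0 := by exact_mod_cast e
    rw [ZMod.natCast_eq_zero_iff] at this
    exact absurd (Nat.le_of_dvd (by norm_num) this) (by omega)
  have hne : ∀ i, φ (i + 1 + 1) ≠ φ i := by
    intro i e
    have := hinj e
    apply h2
    have h3 : i + (1 + 1) = i + 0 := by rw [← add_assoc, this, add_zero]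
    have := add_left_cancel h3
    rw [← this]; norm_num
  rcases h 0 with h0 | h0
  · left
    have key : ∀ k : ℕ, φ ((k : ZMod N) + 1) = φ (k : ZMod N) + 1 := by
      intro k
      induction k with
      | zero => simpa using h0
      | succ k ih =>
        push_cast
        rcases h ((k : ZMod N) + 1) with h1 | h1
        · exact h1
        · exfalso
          rw [ih] at h1
          exact hne k (add_right_cancel h1).symm
    have key2 : ∀ k : ℕ, φ (k : ZMod N) = φ 0 + k := by
      intro k
      induction k with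
      | zero => simp
      | succ k ih =>
        push_cast
        rw [key k, ih]; ring
    intro i
    have := key2 i.val
    rwa [ZMod.natCast_zmod_val] at this
  · right
    have key : ∀ k : ℕ, φ (k : ZMod N) = φ ((k : ZMod N) + 1) + 1 := by
      intro k
      induction k with
      | zero => simpa using h0
      | succ k ih =>
        push_cast
        rcases h ((k : ZMod N) + 1) with h1 | h1
        · exfalso
          rw [← ih] at h1
          exact hne k h1
        · exact h1
    have key2 : ∀ k : ℕ, φ (k : ZMod N) = φ 0 - k := by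
      intro k
      induction k with
      | zero => simp
      | succ k ih =>
        push_cast
        have := key k
        rw [ih] at this
        rw [sub_add_eq_sub_sub, this]; ring
    intro i
    have := key2 i.val
    rwa [ZMod.natCast_zmod_val] at this

end cyc

variable {α : Type*} [DecidableEq α]

lemma cycAdj_iff (L : List (List α)) [NeZero L.length] (w w' : List α) :
    CycAdj L w w' ↔ ∃ i, (w = W L i ∧ w' = W L (i + 1)) ∨ (w' = W L i ∧ w = W L (i + 1)) := by
  unfold CycAdj
  constructor
  · rintro (h | h | ⟨h1, h2⟩ | ⟨h1, h2⟩)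
    · obtain ⟨i, h1, h2⟩ := infix_W L h
      exact ⟨i, Or.inl ⟨h1, h2⟩⟩
    · obtain ⟨i, h1, h2⟩ := infix_W L h
      exact ⟨i, Or.inr ⟨h1, h2⟩⟩
    · rw [head?_eq_W] at h1
      rw [getLast?_eq_W] at h2
      refine ⟨-1, Or.inr ⟨(Option.some.inj h2).symm, ?_⟩⟩
      rw [neg_add_cancel]
      exact (Option.some.inj h1).symm
    · rw [head?_eq_W] at h1
      rw [getLast?_eq_W] at h2
      refine ⟨-1, Or.inl ⟨(Option.some.inj h2).symm, ?_⟩⟩
      rw [neg_add_cancel]
      exact (Option.some.inj h1).symm
  · rintro ⟨i, ⟨rfl, rfl⟩ | ⟨rfl, rfl⟩⟩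
    · rcases W_pair L i with h | ⟨h1, h2⟩
      · exact Or.inl h
      · exact Or.inr (Or.inr (Or.inr ⟨h1, h2⟩))
    · rcases W_pair L i with h | ⟨h1, h2⟩
      · exact Or.inr (Or.inl h)
      · exact Or.inr (Or.inr (Or.inl ⟨h1, h2⟩))

variable [Fintype α]

/-- the relabelings which rotate the cyclic sequence -/
def rotG (L : List (List α)) [NeZero L.length] : Subgroup (Equiv.Perm α) where
  carrier := {g | ∃ s, ∀ i, (W L i).map g = W L (s + i)}
  mul_mem' := by
    rintro g h ⟨s, hs⟩ ⟨t, ht⟩
    refine ⟨s + t, fun i => ?_⟩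
    have e : (W L i).map (g * h : Equiv.Perm α) = ((W L i).map h).map g := by
      rw [List.map_map]; rfl
    rw [e, ht, hs, add_assoc]
  one_mem' := ⟨0, fun i => by simp⟩
  inv_mem' := by
    rintro g ⟨s, hs⟩
    refine ⟨-s, fun i => ?_⟩
    have h1 := hs (-s + i)
    rw [← add_assoc, add_neg_cancel, zero_add] at h1
    rw [← h1, List.map_map]
    have : (⇑(g⁻¹) ∘ ⇑g : α → α) = id := by
      funext a; simp
    rw [this, List.map_id]

/-- the symmetries of a Hamiltonian cycle form a cyclic or dihedral group -/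
theorem upper {s : ℕ} (h : SizeAt α s) :
    ∃ g : Equiv.Perm α, s = orderOf g ∨ s = 2 * orderOf g := by
  obtain ⟨L, hL, hs⟩ := h
  have hlen := hL.len
  have : NeZero L.length := ⟨by omega⟩
  have hinj := W_injective L hL.nodup
  have hfull : ∀ i, ∀ a, a ∈ W L i := by
    intro i a
    have := (hL.mem _).1 (W_mem L i)
    exact this.mem.2 (Finset.mem_univ a)
  have hWmap : ∀ (g : Equiv.Perm α) i, ∃ j, W L j = (W L i).map g := by
    intro g i
    apply exists_W
    rw [hL.mem]
    exact ((hL.mem _).1 (W_mem L i)).map (fun a _ => Finset.mem_univ _)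
  -- uniqueness of a relabeling
  have huniq : ∀ (g h : Equiv.Perm α) i, (W L i).map g = (W L i).map h → g = h := by
    intro g h i e
    ext a
    exact List.map_inj_left.1 e a (hfull i a)
  -- the hom to `ZMod`
  let f : rotG L →* Multiplicative (ZMod L.length) :=
    { toFun := fun g => Multiplicative.ofAdd (Classical.choose g.2)
      map_one' := by
        have h1 := Classical.choose_spec (1 : rotG L).2 0
        have h2 : (W L 0).map ((1 : rotG L) : Equiv.Perm α) = W L 0 := by simp
        rw [h2, add_zero] at h1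
        have := hinj h1
        rw [← this]; rfl
      map_mul' := by
        intro g h
        have h1 := Classical.choose_spec (g * h).2 0
        have h2 := Classical.choose_spec g.2
        have h3 := Classical.choose_spec h.2 0
        have e : (W L 0).map ((g * h : rotG L) : Equiv.Perm α) =
            ((W L 0).map (h : Equiv.Perm α)).map (g : Equiv.Perm α) := by
          rw [List.map_map]; rfl
        rw [e, h3, h2, add_zero, add_zero] at h1
        have := hinj h1
        rw [← this]; rfl }
  have finj : Function.Injective f := by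
    intro g h e
    have e' : Classical.choose g.2 = Classical.choose h.2 := Multiplicative.ofAdd.injective e
    have h1 := Classical.choose_spec g.2 0
    have h2 := Classical.choose_spec h.2 0
    rw [e', ← h2] at h1
    exact Subtype.ext (huniq _ _ 0 h1)
  have : IsCyclic (rotG L) := isCyclic_of_injective f finj
  obtain ⟨g0, hg0⟩ := IsCyclic.exists_generator (α := rotG L)
  have hcard : Nat.card (rotG L) = orderOf (g0 : Equiv.Perm α) := by
    rw [Subgroup.orderOf_coe, orderOf_eq_card_of_forall_mem_zpowers hg0]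
  refine ⟨(g0 : Equiv.Perm α), ?_⟩
  -- the set of symmetries
  set S : Set (Equiv.Perm α) :=
    {g | ∀ w w', CycAdj L w w' → CycAdj L (w.map g) (w'.map g)} with hS
  set R : Set (Equiv.Perm α) := {g | ∃ s, ∀ i, (W L i).map g = W L (s - i)} with hR
  have hsub1 : (rotG L : Set (Equiv.Perm α)) ⊆ S := by
    rintro g ⟨t, ht⟩ w w' hw
    rw [cycAdj_iff] at hw ⊢
    obtain ⟨i, ⟨rfl, rfl⟩ | ⟨rfl, rfl⟩⟩ := hw
    · refine ⟨t + i, Or.inl ⟨ht i, ?_⟩⟩
      rw [ht, add_assoc]
    · refine ⟨t + i, Or.inr ⟨ht i, ?_⟩⟩
      rw [ht, add_assoc]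
  have hsub2 : R ⊆ S := by
    rintro g ⟨t, ht⟩ w w' hw
    rw [cycAdj_iff] at hw ⊢
    obtain ⟨i, ⟨rfl, rfl⟩ | ⟨rfl, rfl⟩⟩ := hw
    · refine ⟨t - (i + 1), Or.inr ⟨ht _, ?_⟩⟩
      rw [ht]; congr 1; ring
    · refine ⟨t - (i + 1), Or.inl ⟨ht _, ?_⟩⟩
      rw [ht]; congr 1; ring
  have hsub3 : S ⊆ (rotG L : Set (Equiv.Perm α)) ∪ R := by
    intro g hg
    choose φ hφ using hWmap g
    have hφinj : Function.Injective φ := by
      intro i j e
      have h1 : (W L i).map g = (W L j).map g := by rw [← hφ, ← hφ, e]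
      exact hinj ((List.map_injective_iff.2 g.injective) h1)
    have hstep : ∀ i, φ (i + 1) = φ i + 1 ∨ φ i = φ (i + 1) + 1 := by
      intro i
      have h1 : CycAdj L (W L i) (W L (i + 1)) := (cycAdj_iff L _ _).2 ⟨i, Or.inl ⟨rfl, rfl⟩⟩
      have h2 := hg _ _ h1
      rw [← hφ, ← hφ, cycAdj_iff] at h2
      obtain ⟨j, ⟨h3, h4⟩ | ⟨h3, h4⟩⟩ := h2
      · left
        rw [hinj h3, hinj h4]
      · right
        rw [hinj h3, hinj h4]
    rcases zmod_steps hlen φ hφinj hstep with h1 | h1
    · left
      exact ⟨φ 0, fun i => by rw [← hφ, h1]⟩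
    · right
      exact ⟨φ 0, fun i => by rw [← hφ, h1]⟩
  have hSeq : S = (rotG L : Set (Equiv.Perm α)) ∪ R :=
    Set.Subset.antisymm hsub3 (Set.union_subset hsub1 hsub2)
  have hdisj : Disjoint (rotG L : Set (Equiv.Perm α)) R := by
    rw [Set.disjoint_left]
    rintro g ⟨t, ht⟩ ⟨t', ht'⟩
    have e0 : t + 0 = t' - 0 := hinj (by rw [← ht, ← ht'])
    have e1 : t + 1 = t' - 1 := hinj (by rw [← ht, ← ht'])
    rw [add_zero, sub_zero] at e0
    rw [e0, sub_eq_add_neg] at e1
    have e2 := add_left_cancel e1
    have h2 : ((2 : ℕ) : ZMod L.length) = 0 := by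
      push_cast
      calc (2 : ZMod L.length) = 1 + 1 := by norm_num
        _ = -1 + 1 := by rw [← e2]
        _ = 0 := by ring
    rw [ZMod.natCast_eq_zero_iff] at h2
    exact absurd (Nat.le_of_dvd (by norm_num) h2) (by omega)
  have hsc : s = S.ncard := by
    rw [← hs, ← Nat.card_coe_set_eq]
    rfl
  have hGc : (rotG L : Set (Equiv.Perm α)).ncard = orderOf (g0 : Equiv.Perm α) := by
    rw [← hcard, ← Nat.card_coe_set_eq]; rfl
  rcases Set.eq_empty_or_nonempty R with hRe | ⟨r, hr⟩
  · left
    rw [hsc, hSeq, hRe, Set.union_empty, hGc]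
  · right
    have hRc : R = (fun g => r * g) '' (rotG L : Set (Equiv.Perm α)) := by
      obtain ⟨t, ht⟩ := hr
      ext g
      constructor
      · rintro ⟨t', ht'⟩
        refine ⟨r⁻¹ * g, ⟨t - t', fun i => ?_⟩, by simp⟩
        have e : (W L i).map (r⁻¹ * g : Equiv.Perm α) = ((W L i).map g).map (r⁻¹ : Equiv.Perm α) := by
          rw [List.map_map]; rfl
        rw [e, ht']
        have h1 := ht (t - t' + i)
        have h2 : t - (t - t' + i) = t' - i := by ring
        rw [h2] at h1
        rw [← h1, List.map_map]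
        have : (⇑(r⁻¹) ∘ ⇑r : α → α) = id := by
          funext a; simp
        rw [this, List.map_id]
      · rintro ⟨g', ⟨t', ht'⟩, rfl⟩
        refine ⟨t - t', fun i => ?_⟩
        have e : (W L i).map (r * g' : Equiv.Perm α) = ((W L i).map g').map r := by
          rw [List.map_map]; rfl
        show (W L i).map (r * g' : Equiv.Perm α) = _
        rw [e, ht', ht]
        congr 1; ring
    rw [hsc, hSeq, Set.ncard_union_eq hdisj (Set.toFinite _) (Set.toFinite _), hGc, hRc,
      Set.ncard_image_of_injective _ (mul_right_injective r), hGc]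
    ring

end Pan
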