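import Pool.Agent.Hhelper18.Pan.TopCyc
import Pool.Agent.Hhelper18.Pan.TopOne
import Pool.Agent.Hhelper18.Pan.TopDih
import Pool.Agent.Hhelper18.Pan.Perms
import Pool.Agent.Hhelper18.Pan.Small
import Pool.Agent.Hhelper18.Pan.Upper
import Pool.Agent.Hhelper18.Pan.Graph

namespace Pan

/-- cyclic sizes -/
theorem sizeAt_order (n : ℕ) (hn : 5 ≤ n) (g : Equiv.Perm (Fin n)) :
    SizeAt (Fin n) (orderOf g) := by
  by_cases h1 : orderOf g = 1
  · rw [h1]; exact size_one (by simpa using hn)
  rcases Nat.lt_or_ge n 6 with h6 | h6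
  · obtain rfl : n = 5 := by omega
    have := orders_five _ ⟨g, rfl⟩
    simp only [List.mem_cons, List.not_mem_nil, or_false] at this
    apply small_five
    rcases this with h | h | h | h | h | h <;> simp [h] at h1 ⊢
  obtain ⟨ι, hd, hf, σ, hcard, hord, hcls⟩ := exists_cyc_perm n _ ⟨g, rfl⟩
  rw [← hord]
  have e : ι ≃ Fin n := Fintype.equivFinOfCardEq hcard
  refine SizeAt.congr e (size_cyc hcls (by omega) ?_)
  rintro rfl
  rw [orderOf_one] at hord
  exact h1 hord.symm

theorem sizeAt_dih (n c : ℕ) (h2 : 2 ≤ c) (g : Equiv.Perm (Fin n)) (hg : orderOf g = c)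
    (hn : 9 ≤ n ∨ (n = 8 ∧ (c = 7 ∨ c = 8 ∨ c = 15)) ∨ (n = 7 ∧ c = 7)) :
    SizeAt (Fin n) (2 * c) := by
  obtain ⟨ι, hd, hf, σ, τ₁, τ₂, K, x, hcard, hord, hcls, hK, h₁, h₂, h₁₂, n₁, n₂, hKc, hx, hσx⟩ :=
    exists_dih_perm n c ⟨g, hg⟩ h2 hn
  rw [← hord]
  have e : ι ≃ Fin n := Fintype.equivFinOfCardEq hcard
  exact SizeAt.congr e (size_dih hcls hK h₁ h₂ h₁₂ n₁ n₂ hKc hx hσx)

/-- dihedral sizes -/
theorem sizeAt_two_mul_order (n : ℕ) (hn : 5 ≤ n) (g : Equiv.Perm (Fin n)) :
    SizeAt (Fin n) (2 * orderOf g) := by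
  have key : ∀ c, ((n ∈ [5, 6, 7, 8] ∧ c ∈ [1, 2, 3, 4, 5, 6]) ∨
      (n ∈ [7, 8] ∧ c ∈ [7, 10, 12]) ∨ (n = 8 ∧ c ∈ [8, 15])) → SizeAt (Fin n) c := by
    intro c hc
    obtain ⟨g', rfl⟩ := orders_mem n c hc
    exact sizeAt_order n hn g'
  by_cases h1 : orderOf g = 1
  · rw [h1]
    have : ∃ g' : Equiv.Perm (Fin n), orderOf g' = 2 := by
      refine ⟨Equiv.swap ⟨0, by omega⟩ ⟨1, by omega⟩, ?_⟩
      refine orderOf_eq_prime ?_ ?_
      · rw [pow_two, Equiv.swap_mul_self]
      · intro h
        have := congrArg (fun f => f ⟨0, by omega⟩) h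
        simp at this
    obtain ⟨g', hg'⟩ := this
    have := sizeAt_order n hn g'
    rwa [hg'] at this
  have h0 : 0 < orderOf g := orderOf_pos g
  rcases Nat.lt_or_ge n 9 with h9 | h9
  · have h5678 : n = 5 ∨ n = 6 ∨ n = 7 ∨ n = 8 := by omega
    rcases h5678 with rfl | rfl | rfl | rfl
    · have := orders_five _ ⟨g, rfl⟩
      simp only [List.mem_cons, List.not_mem_nil, or_false] at this
      rcases this with h | h | h | h | h | h
      · exact absurd h h1
      all_goals (rw [h]; exact small_five _ (by decide))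
    · have := orders_six _ ⟨g, rfl⟩
      simp only [List.mem_cons, List.not_mem_nil, or_false] at this
      rcases this with h | h | h | h | h | h
      · exact absurd h h1
      · rw [h]; exact key _ (by decide)
      · rw [h]; exact key _ (by decide)
      all_goals (rw [h]; exact small_six _ (by decide))
    · have := orders_seven _ ⟨g, rfl⟩
      simp only [List.mem_cons, List.not_mem_nil, or_false] at this
      rcases this with h | h | h | h | h | h | h | h | h
      · exact absurd h h1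
      · rw [h]; exact key _ (by decide)
      · rw [h]; exact key _ (by decide)
      · rw [h]; exact small_seven _ (by decide)
      · rw [h]; exact key _ (by decide)
      · rw [h]; exact key _ (by decide)
      · exact sizeAt_dih 7 _ (by omega) g rfl (Or.inr (Or.inr ⟨rfl, h⟩))
      · rw [h]; exact small_seven _ (by decide)
      · rw [h]; exact small_seven _ (by decide)
    · have := orders_eight _ ⟨g, rfl⟩
      simp only [List.mem_cons, List.not_mem_nil, or_false] at this
      rcases this with h | h | h | h | h | h | h | h | h | h | h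
      · exact absurd h h1
      · rw [h]; exact key _ (by decide)
      · rw [h]; exact key _ (by decide)
      · rw [h]; exact key _ (by decide)
      · rw [h]; exact key _ (by decide)
      · rw [h]; exact key _ (by decide)
      · exact sizeAt_dih 8 _ (by omega) g rfl (Or.inr (Or.inl ⟨rfl, Or.inl h⟩))
      · exact sizeAt_dih 8 _ (by omega) g rfl (Or.inr (Or.inl ⟨rfl, Or.inr (Or.inl h)⟩))
      · rw [h]; exact small_eight _ (by decide)
      · rw [h]; exact small_eight _ (by decide)
      · exact sizeAt_dih 8 _ (by omega) g rfl (Or.inr (Or.inl ⟨rfl, Or.inr (Or.inr h)⟩))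
  · exact sizeAt_dih n _ (by omega) g rfl (Or.inl h9)

/-- the answer -/
theorem sigmaL_eq (n : ℕ) (hn : 5 ≤ n) :
    SigmaL n = {s | ∃ g : Equiv.Perm (Fin n), s = orderOf g ∨ s = 2 * orderOf g} := by
  ext s
  rw [mem_sigmaL_iff n s (by omega)]
  constructor
  · exact upper
  · rintro ⟨g, rfl | rfl⟩
    · exact sizeAt_order n hn g
    · exact sizeAt_two_mul_order n hn g

end Pan
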