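import Pool.Agent.Hhelper18.Pan.ClsFacts

/-! # MODULE PK : choosing letters -/

set_option linter.unusedSectionVars false

namespace Pan

variable {α : Type*} [DecidableEq α]

/-- the pair `(p, q)` is in the orbit of the pair `(β, β')` -/
def PO (K : Subgroup (Equiv.Perm α)) (β β' p q : α) : Prop := ∃ k ∈ K, k β = p ∧ k β' = q

lemma PO.comm_eq {K : Subgroup (Equiv.Perm α)} (hK : ∀ k ∈ K, ∀ l ∈ K, k * l = l * k)
    {β β' a b c : α} (h1 : PO K β β' a b) (h2 : PO K β β' a c) (h3 : PO K β β' b a) : b = c := by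
  obtain ⟨k1, hk1, e1, e1'⟩ := h1
  obtain ⟨k2, hk2, e2, e2'⟩ := h2
  obtain ⟨k3, hk3, e3, e3'⟩ := h3
  have hc := hK (k2 * k1⁻¹) (K.mul_mem hk2 (K.inv_mem hk1)) (k3 * k1⁻¹)
    (K.mul_mem hk3 (K.inv_mem hk1))
  have f1 : k1⁻¹ a = β := by rw [← e1]; simp
  have f1' : k1⁻¹ b = β' := by rw [← e1']; simp
  have := congrArg (fun f : Equiv.Perm α => f a) hc
  simp only [Equiv.Perm.coe_mul, Function.comp_apply, f1, e3, f1', e2', e2] at this
  exact this.symm

/-- a pair of letters of `L` outside the orbit of a given pair -/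
theorem Cls.pair {R K : Subgroup (Equiv.Perm α)} {A : Finset α} (h : Cls R K A) (L : Finset α)
    (hL : L ⊆ A) (hc : (A.card ≤ 6 ∧ 3 ≤ L.card) ∨ 4 ≤ L.card) (β β' : α) :
    ∃ p ∈ L, ∃ q ∈ L, p ≠ q ∧ ∀ k ∈ K, ¬ (k β = p ∧ k β' = q) := by
  classical
  by_contra hcon
  have hall : ∀ p ∈ L, ∀ q ∈ L, p ≠ q → PO K β β' p q := by
    intro p hp q hq hpq
    by_contra hno
    exact hcon ⟨p, hp, q, hq, hpq, fun k hk e => hno ⟨k, hk, e⟩⟩
  rcases hc with ⟨hA, hc⟩ | hc
  · obtain ⟨a, ha, b, hb, c, hc', hab, hac, hbc⟩ := Finset.two_lt_card.1 (show 2 < L.card by omega)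
    exact hbc (PO.comm_eq (h.comm_of_card hA) (hall a ha b hb hab) (hall a ha c hc' hac)
      (hall b hb a ha (Ne.symm hab)))
  · obtain ⟨a, b, c, d, ha, hb, hc', hd, hab, hac, had, hbc, hbd, hcd⟩ :
        ∃ a b c d, a ∈ L ∧ b ∈ L ∧ c ∈ L ∧ d ∈ L ∧ a ≠ b ∧ a ≠ c ∧ a ≠ d ∧ b ≠ c ∧ b ≠ d ∧ c ≠ d := by
      obtain ⟨a, ha⟩ := Finset.card_pos.1 (show 0 < L.card by omega)
      have h3 : 2 < (L.erase a).card := by rw [Finset.card_erase_of_mem ha]; omega
      obtain ⟨b, hb, c, hc', d, hd, hbc, hbd, hcd⟩ := Finset.two_lt_card.1 h3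
      rw [Finset.mem_erase] at hb hc' hd
      exact ⟨a, b, c, d, ha, hb.2, hc'.2, hd.2, Ne.symm hb.1, Ne.symm hc'.1, Ne.symm hd.1,
        hbc, hbd, hcd⟩
    obtain ⟨k1, hk1, e1, e1'⟩ := hall a ha b hb hab
    obtain ⟨k2, hk2, e2, e2'⟩ := hall a ha c hc' hac
    obtain ⟨k3, hk3, e3, e3'⟩ := hall a ha d hd had
    obtain ⟨k4, hk4, e4, e4'⟩ := hall b hb a ha (Ne.symm hab)
    have f1 : k1⁻¹ a = β := by rw [← e1]; simp
    have f1' : k1⁻¹ b = β' := by rw [← e1']; simp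
    have hz : ∃ k ∈ K, k a = b :=
      ⟨k4 * k1⁻¹, K.mul_mem hk4 (K.inv_mem hk1), by rw [Equiv.Perm.mul_apply, f1, e4]⟩
    have := h.orb2 (hL ha) hz (k2 * k1⁻¹)
      (mem_stb.2 ⟨K.mul_mem hk2 (K.inv_mem hk1), by rw [Equiv.Perm.mul_apply, f1, e2]⟩) (k3 * k1⁻¹)
      (mem_stb.2 ⟨K.mul_mem hk3 (K.inv_mem hk1), by rw [Equiv.Perm.mul_apply, f1, e3]⟩)
      (by simp only [Equiv.Perm.coe_mul, Function.comp_apply, f1', e2']; exact Ne.symm hbc)
      (by simp only [Equiv.Perm.coe_mul, Function.comp_apply, f1', e3']; exact Ne.symm hbd)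
    simp only [Equiv.Perm.coe_mul, Function.comp_apply, f1', e2', e3'] at this
    exact hcd this

/-- two disjoint pairs of letters of `L` outside two given orbits of pairs -/
theorem Cls.pair2 {R₁ K₁ R₂ K₂ : Subgroup (Equiv.Perm α)} {A₁ A₂ : Finset α}
    (h₁ : Cls R₁ K₁ A₁) (h₂ : Cls R₂ K₂ A₂) (L : Finset α) (hL₁ : L ⊆ A₁) (hL₂ : L ⊆ A₂)
    (hc : (A₁.card ≤ 6 ∧ A₂.card ≤ 6 ∧ 4 ≤ L.card) ∨ (A₂.card ≤ 6 ∧ 5 ≤ L.card) ∨ 6 ≤ L.card)
    (β β' δ δ' : α) :
    ∃ p ∈ L, ∃ q ∈ L, ∃ r ∈ L, ∃ s ∈ L, [p, q, r, s].Nodup ∧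
      (∀ k ∈ K₁, ¬ (k β = p ∧ k β' = q)) ∧ (∀ k ∈ K₂, ¬ (k δ = r ∧ k δ' = s)) := by
  classical
  by_cases hc2 : (A₂.card ≤ 6 ∧ 5 ≤ L.card) ∨ 6 ≤ L.card
  · have h4 : 4 ≤ L.card := by rcases hc2 with h | h <;> omega
    obtain ⟨p, hp, q, hq, hpq, h1⟩ := h₁.pair L hL₁ (Or.inr h4) β β'
    have hqe : q ∈ L.erase p := Finset.mem_erase.2 ⟨Ne.symm hpq, hq⟩
    have hcard : ((L.erase p).erase q).card = L.card - 2 := by
      rw [Finset.card_erase_of_mem hqe, Finset.card_erase_of_mem hp]; omega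
    obtain ⟨r, hr, s, hs, hrs, h2⟩ := h₂.pair ((L.erase p).erase q)
      (((Finset.erase_subset _ _).trans (Finset.erase_subset _ _)).trans hL₂)
      (by rcases hc2 with ⟨h, h'⟩ | h
          · exact Or.inl ⟨h, by omega⟩
          · exact Or.inr (by omega)) δ δ'
    simp only [Finset.mem_erase] at hr hs
    refine ⟨p, hp, q, hq, r, hr.2.2, s, hs.2.2, ?_, h1, h2⟩
    simp only [List.nodup_cons, List.mem_cons, List.not_mem_nil, or_false, not_or,
      not_false_eq_true, List.nodup_nil, and_true]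
    exact ⟨⟨hpq, Ne.symm hr.2.1, Ne.symm hs.2.1⟩, ⟨Ne.symm hr.1, Ne.symm hs.1⟩, hrs⟩
  · have hc3 : A₁.card ≤ 6 ∧ A₂.card ≤ 6 ∧ 4 ≤ L.card := by
      rcases hc with h | h
      · exact h
      · exact absurd h hc2
    obtain ⟨hA₁, hA₂, h4⟩ := hc3
    obtain ⟨a, b, c, d, ha, hb, hc', hd, hab, hac, had, hbc, hbd, hcd⟩ :
        ∃ a b c d, a ∈ L ∧ b ∈ L ∧ c ∈ L ∧ d ∈ L ∧ a ≠ b ∧ a ≠ c ∧ a ≠ d ∧ b ≠ c ∧ b ≠ d ∧ c ≠ d := by
      obtain ⟨a, ha⟩ := Finset.card_pos.1 (show 0 < L.card by omega)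
      have h3 : 2 < (L.erase a).card := by rw [Finset.card_erase_of_mem ha]; omega
      obtain ⟨b, hb, c, hc', d, hd, hbc, hbd, hcd⟩ := Finset.two_lt_card.1 h3
      rw [Finset.mem_erase] at hb hc' hd
      exact ⟨a, b, c, d, ha, hb.2, hc'.2, hd.2, Ne.symm hb.1, Ne.symm hc'.1, Ne.symm hd.1,
        hbc, hbd, hcd⟩
    by_contra hcon
    have key : ∀ p ∈ L, ∀ q ∈ L, ∀ r ∈ L, ∀ s ∈ L, p ≠ q → p ≠ r → p ≠ s → q ≠ r → q ≠ s → r ≠ s →
        PO K₁ β β' p q ∨ PO K₂ δ δ' r s := by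
      intro p hp q hq r hr s hs hpq hpr hps hqr hqs hrs
      by_contra hno
      rw [not_or] at hno
      refine hcon ⟨p, hp, q, hq, r, hr, s, hs, ?_, fun k hk e => hno.1 ⟨k, hk, e⟩,
        fun k hk e => hno.2 ⟨k, hk, e⟩⟩
      simp only [List.nodup_cons, List.mem_cons, List.not_mem_nil, or_false, not_or,
        not_false_eq_true, List.nodup_nil, and_true]
      exact ⟨⟨hpq, hpr, hps⟩, ⟨hqr, hqs⟩, hrs⟩
    -- both orientations
    have key2 : ∀ p ∈ L, ∀ q ∈ L, ∀ r ∈ L, ∀ s ∈ L, p ≠ q → p ≠ r → p ≠ s → q ≠ r → q ≠ s → r ≠ s →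
        (PO K₁ β β' p q ∧ PO K₁ β β' q p) ∨ (PO K₂ δ δ' r s ∧ PO K₂ δ δ' s r) := by
      intro p hp q hq r hr s hs hpq hpr hps hqr hqs hrs
      have k1 := key p hp q hq r hr s hs hpq hpr hps hqr hqs hrs
      have k2 := key q hq p hp r hr s hs (Ne.symm hpq) hqr hqs hpr hps hrs
      have k3 := key p hp q hq s hs r hr hpq hps hpr hqs hqr (Ne.symm hrs)
      have k4 := key q hq p hp s hs r hr (Ne.symm hpq) hqs hqr hps hpr (Ne.symm hrs)
      tauto
    have c1 := h₁.comm_of_card hA₁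
    have c2 := h₂.comm_of_card hA₂
    have f1 := key2 a ha b hb c hc' d hd hab hac had hbc hbd hcd
    have f2 := key2 a ha c hc' b hb d hd hac hab had (Ne.symm hbc) hcd hbd
    have f3 := key2 a ha d hd b hb c hc' had hab hac (Ne.symm hbd) (Ne.symm hcd) hbc
    rcases f1 with f1 | f1 <;> rcases f2 with f2 | f2 <;> rcases f3 with f3 | f3
    · exact hbc (PO.comm_eq c1 f1.1 f2.1 f1.2)
    · exact hbc (PO.comm_eq c1 f1.1 f2.1 f1.2)
    · exact hbd (PO.comm_eq c1 f1.1 f3.1 f1.2)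
    · exact hcd (PO.comm_eq c2 f2.1 f3.1 f2.2).symm
    · exact hcd (PO.comm_eq c1 f2.1 f3.1 f2.2)
    · exact hbd (PO.comm_eq c2 f1.1 f3.2 f1.2).symm
    · exact hbc (PO.comm_eq c2 f1.2 f2.2 f1.1).symm
    · exact hbc (PO.comm_eq c2 f1.2 f2.2 f1.1).symm

/-- a word with prescribed first and last letters -/
theorem exists_word (A : Finset α) (p s : List α) (hps : (p ++ s).Nodup) (hA : ∀ a ∈ p ++ s, a ∈ A) :
    ∃ m, Wd A (p ++ m ++ s) := by
  classical
  refine ⟨(A \ (p ++ s).toFinset).toList, ?_⟩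
  have hp : ((p ++ (A \ (p ++ s).toFinset).toList) ++ s).Perm
      ((p ++ s) ++ (A \ (p ++ s).toFinset).toList) := by
    rw [List.append_assoc, List.append_assoc]
    exact List.Perm.append_left p List.perm_append_comm
  constructor
  · rw [hp.nodup_iff, List.nodup_append]
    refine ⟨hps, Finset.nodup_toList _, ?_⟩
    intro a ha b hb hab
    subst hab
    rw [Finset.mem_toList, Finset.mem_sdiff] at hb
    exact hb.2 (List.mem_toFinset.2 ha)
  · rw [List.toFinset_eq_of_perm _ _ hp, List.toFinset_append, Finset.toList_toFinset]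
    apply Finset.union_sdiff_of_subset
    intro a ha
    exact hA a (List.mem_toFinset.1 ha)

/-- the last two letters of a word of length at least two -/
lemma exists_last_two {w : List α} (h : 2 ≤ w.length) : ∃ w' a b, w = w' ++ [a, b] := by
  rcases List.eq_nil_or_concat w with rfl | ⟨w1, b, rfl⟩
  · simp at h
  · rcases List.eq_nil_or_concat w1 with rfl | ⟨w2, a, rfl⟩
    · simp at h
    · exact ⟨w2, a, b, by simp⟩

theorem Cls.pick {R K : Subgroup (Equiv.Perm α)} {A : Finset α} (h : Cls R K A)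
    (h6 : 6 ≤ A.card) : Pick K A := by
  classical
  intro x hx x' hx' hxx b c hb hc
  have hcb : (A.erase x).card = A.card - 1 := Finset.card_erase_of_mem hx
  have hcc : (A.erase x').card = A.card - 1 := Finset.card_erase_of_mem hx'
  have hxe : x' ∈ A.erase x := Finset.mem_erase.2 ⟨Ne.symm hxx, hx'⟩
  have hcL : ((A.erase x).erase x').card = A.card - 2 := by
    rw [Finset.card_erase_of_mem hxe, hcb]; omega
  obtain ⟨b0, β, β', rfl⟩ := exists_last_two (w := b) (by rw [hb.length]; omega)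
  obtain ⟨c0, δ, δ', rfl⟩ := exists_last_two (w := c) (by rw [hc.length]; omega)
  obtain ⟨p, hp, q, hq, r, hr, s, hs, hnd, h1, h2⟩ := (h.stb hx).pair2 (h.stb hx')
    ((A.erase x).erase x') (Finset.erase_subset _ _)
    (by rw [Finset.erase_right_comm]; exact Finset.erase_subset _ _)
    (by rw [hcb, hcc, hcL]; omega) β β' δ δ'
  simp only [Finset.mem_erase] at hp hq hr hs
  obtain ⟨m, hm⟩ := exists_word A [x', s, r] [p, q, x]
    (by
      simp only [List.nodup_cons, List.mem_cons, List.not_mem_nil, or_false, not_or,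
        not_false_eq_true, List.nodup_nil, and_true, List.cons_append, List.nil_append] at hnd ⊢
      obtain ⟨⟨n1, n2, n3⟩, ⟨n4, n5⟩, n6⟩ := hnd
      exact ⟨⟨Ne.symm hs.1, Ne.symm hr.1, Ne.symm hp.1, Ne.symm hq.1, Ne.symm hxx⟩,
        ⟨Ne.symm n6, Ne.symm n3, Ne.symm n5, hs.2.1⟩, ⟨Ne.symm n2, Ne.symm n4, hr.2.1⟩,
        ⟨n1, hp.2.1⟩, hq.2.1⟩)
    (by
      intro a ha
      simp only [List.cons_append, List.nil_append, List.mem_cons, List.not_mem_nil,
        or_false] at ha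
      rcases ha with rfl | rfl | rfl | rfl | rfl | rfl
      · exact hx'
      · exact hs.2.2
      · exact hr.2.2
      · exact hp.2.2
      · exact hq.2.2
      · exact hx)
  refine ⟨s :: r :: (m ++ [p, q]), ?_, ?_, ?_⟩
  · convert hm using 1
    simp
  · have := (adm_iff (K := Pan.stb K x) (u := b0) (v := x' :: s :: r :: m) (q := β) (x := β')
      (w := p) (z := q)).2 h1
    simpa using this
  · have := (adm_iff (K := Pan.stb K x') (u := c0) (v := x :: q :: p :: m.reverse) (q := δ)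
      (x := δ') (w := r) (z := s)).2 h2
    have h3 := this.symm
    simpa using h3

theorem pick_bot (A : Finset α) (h5 : 5 ≤ A.card) :
    Pick (⊥ : Subgroup (Equiv.Perm α)) A := by
  classical
  by_cases h6 : 6 ≤ A.card
  · exact (Cls.bot A).pick h6
  have hA : A.card = 5 := by omega
  intro x hx x' hx' hxx b c hb hc
  have hcb : (A.erase x).card = 4 := by rw [Finset.card_erase_of_mem hx, hA]
  have hcc : (A.erase x').card = 4 := by rw [Finset.card_erase_of_mem hx', hA]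
  have hxe : x' ∈ A.erase x := Finset.mem_erase.2 ⟨Ne.symm hxx, hx'⟩
  have hcL : ((A.erase x).erase x').card = 3 := by
    rw [Finset.card_erase_of_mem hxe, hcb]
  obtain ⟨b0, β, β', rfl⟩ := exists_last_two (w := b) (by rw [hb.length]; omega)
  obtain ⟨c0, δ, δ', rfl⟩ := exists_last_two (w := c) (by rw [hc.length]; omega)
  -- the middle letter
  obtain ⟨m2, hm2⟩ : ((((A.erase x).erase x').erase β).erase δ).Nonempty := by
    rw [← Finset.card_pos]
    have e1 := Finset.pred_card_le_card_erase (s := (A.erase x).erase x') (a := β)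
    have e2 := Finset.pred_card_le_card_erase (s := ((A.erase x).erase x').erase β) (a := δ)
    omega
  simp only [Finset.mem_erase] at hm2
  obtain ⟨hmδ, hmβ, hmx', hmx, hmA⟩ := hm2
  have hm2L : m2 ∈ (A.erase x).erase x' := by simp [hmx', hmx, hmA]
  have h2 : (((A.erase x).erase x').erase m2).card = 2 := by
    rw [Finset.card_erase_of_mem hm2L, hcL]
  obtain ⟨m1, m3, hne, hE⟩ := Finset.card_eq_two.1 h2
  have hm1 : m1 ∈ ((A.erase x).erase x').erase m2 := by rw [hE]; simp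
  have hm3 : m3 ∈ ((A.erase x).erase x').erase m2 := by rw [hE]; simp
  have hAE : A = {x', m1, m2, m3, x} := by
    rw [← Finset.insert_erase hx, ← Finset.insert_erase hxe, ← Finset.insert_erase hm2L, hE]
    ext a
    simp only [Finset.mem_insert, Finset.mem_singleton]
    tauto
  simp only [Finset.mem_erase] at hm1 hm3
  refine ⟨[m1, m2, m3], ⟨?_, ?_⟩, ?_, ?_⟩
  · simp only [List.nodup_cons, List.mem_cons, List.not_mem_nil, or_false, not_or,
      not_false_eq_true, List.nodup_nil, and_true, List.cons_append, List.nil_append]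
    exact ⟨⟨Ne.symm hm1.2.1, Ne.symm hmx', Ne.symm hm3.2.1, Ne.symm hxx⟩,
      ⟨hm1.1, hne, hm1.2.2.1⟩, ⟨Ne.symm hm3.1, hmx⟩, hm3.2.2.1⟩
  · conv_rhs => rw [hAE]
    simp
  · have := (adm_iff (K := Pan.stb (⊥ : Subgroup (Equiv.Perm α)) x) (u := b0) (v := [x', m1])
      (q := β) (x := β') (w := m2) (z := m3)).2 (by
        intro k hk e
        have hk1 : k = 1 := by simpa using (mem_stb.1 hk).1
        subst hk1
        exact hmβ (by simpa using e.1.symm))
    simpa using this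
  · have := (adm_iff (K := Pan.stb (⊥ : Subgroup (Equiv.Perm α)) x') (u := [x, m3]) (v := c0)
      (q := m2) (x := m1) (w := δ) (z := δ')).2 (by
        intro k hk e
        have hk1 : k = 1 := by simpa using (mem_stb.1 hk).1
        subst hk1
        exact hmδ (by simpa using e.1))
    simpa using this

end Pan
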