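import Pool.Agent.Hhelper18.Pan.Defs

/-! # MODULE RL : relabeling -/

set_option linter.unusedSectionVars false

namespace Pan

variable {α : Type*} [DecidableEq α] {β : Type*} [DecidableEq β]

lemma wd_map_iff [Fintype β] {f : β → α} (hf : Function.Injective f) {w : List β} :
    Wd (Finset.univ.image f) (w.map f) ↔ Wd Finset.univ w := by
  unfold Wd
  rw [List.nodup_map_iff hf]
  constructor
  · rintro ⟨h1, h2⟩
    refine ⟨h1, ?_⟩
    ext b
    have : f b ∈ (w.map f).toFinset := by rw [h2]; simp
    simp only [List.mem_toFinset, List.mem_map] at this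
    obtain ⟨c, hc, e⟩ := this
    have := hf e
    subst this
    simpa using hc
  · rintro ⟨h1, h2⟩
    refine ⟨h1, ?_⟩
    ext a
    simp only [List.mem_toFinset, List.mem_map, Finset.mem_image, Finset.mem_univ, true_and]
    constructor
    · rintro ⟨b, _, rfl⟩; exact ⟨b, rfl⟩
    · rintro ⟨b, rfl⟩
      refine ⟨b, ?_, rfl⟩
      have : b ∈ w.toFinset := by rw [h2]; simp
      simpa using this

lemma exists_of_wd_image [Fintype β] {f : β → α} (hf : Function.Injective f) {w : List α}
    (h : Wd (Finset.univ.image f) w) : ∃ w' : List β, w = w'.map f ∧ Wd Finset.univ w' := by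
  have : w ∈ Set.range (List.map f) := by
    rw [Set.range_list_map]
    intro a ha
    have := h.mem.1 ha
    simp only [Finset.mem_image, Finset.mem_univ, true_and] at this
    exact this
  obtain ⟨w', rfl⟩ := this
  exact ⟨w', rfl, (wd_map_iff hf).1 h⟩

theorem Good.relabel [Fintype β] (f : β → α) (hf : Function.Injective f)
    {K' : Subgroup (Equiv.Perm β)} {K : Subgroup (Equiv.Perm α)}
    (h₁ : ∀ k ∈ K, ∃ k' ∈ K', ∀ b, k (f b) = f (k' b))
    (h₂ : ∀ k' ∈ K', ∃ k ∈ K, ∀ b, k (f b) = f (k' b))
    (h : Good K' Finset.univ) : Good K (Finset.univ.image f) := by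
  have hmapk : ∀ {k : Equiv.Perm α} {k' : Equiv.Perm β}, (∀ b, k (f b) = f (k' b)) →
      ∀ w : List β, (w.map f).map k = (w.map k').map f := by
    intro k k' hk w
    rw [List.map_map, List.map_map]
    exact List.map_congr_left (fun b _ => hk b)
  have heqv : ∀ p q : List β, Eqv K (p.map f) (q.map f) ↔ Eqv K' p q := by
    intro p q
    constructor
    · rintro ⟨k, hk, e⟩
      obtain ⟨k', hk', hkk⟩ := h₁ k hk
      rw [hmapk hkk] at e
      exact ⟨k', hk', List.map_injective_iff.2 hf e⟩
    · rintro ⟨k', hk', rfl⟩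
      obtain ⟨k, hk, hkk⟩ := h₂ k' hk'
      exact ⟨k, hk, (hmapk hkk p).symm⟩
  intro u v hu hv hadm
  obtain ⟨u', rfl, hu'⟩ := exists_of_wd_image hf hu
  obtain ⟨v', rfl, hv'⟩ := exists_of_wd_image hf hv
  have hadm' : Adm K' u' v' := by
    intro k' hk' e
    obtain ⟨k, hk, hkk⟩ := h₂ k' hk'
    apply hadm k hk
    rw [hmapk hkk]
    rw [← List.map_reverse (f := f), ← List.map_take (f := f), e, List.map_take, List.map_reverse]
  obtain ⟨P, hP, hPu, hPv, hPe⟩ := h u' v' hu' hv' hadm'
  refine ⟨P.map (List.map f), ⟨?_, ?_, ?_, ?_⟩, by simp [hPu], by simp [hPv], ?_⟩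
  · rw [List.isChain_map]
    exact hP.chain.imp (fun a b hab => hab.map f)
  · intro w hw
    obtain ⟨p, hp, rfl⟩ := List.mem_map.1 hw
    exact (wd_map_iff hf).2 (hP.mem p hp)
  · intro w hw
    obtain ⟨w', rfl, hw'⟩ := exists_of_wd_image hf hw
    obtain ⟨p, hp, e⟩ := hP.cover w' hw'
    exact ⟨p.map f, List.mem_map_of_mem hp, (heqv _ _).2 e⟩
  · rw [List.pairwise_map]
    refine hP.inj.imp (fun {a b} hab e => hab ((heqv _ _).1 e))
  · intro y hy y' hy' hi
    simp only [Finset.mem_image, Finset.mem_univ, true_and] at hy hy'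
    obtain ⟨b, rfl⟩ := hy
    obtain ⟨b', rfl⟩ := hy'
    have hi' : Inq K' b b' := by
      intro k' hk' e
      obtain ⟨k, hk, hkk⟩ := h₂ k' hk'
      exact hi k hk (by rw [hkk, e])
    obtain ⟨p, q, h1, h2⟩ := hPe b (Finset.mem_univ _) b' (Finset.mem_univ _) hi'
    refine ⟨p.map f, q.map f, by simpa using h1.map (List.map f), ?_⟩
    rcases h2 with ⟨k', hk', l', hl', e1, e2⟩ | ⟨k', hk', l', hl', e1, e2⟩
    · obtain ⟨k, hk, hkk⟩ := h₂ k' hk'
      obtain ⟨l, hl, hll⟩ := h₂ l' hl'
      exact Or.inl ⟨k, hk, l, hl, by simp [e1, hkk], by simp [e2, hll]⟩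
    · obtain ⟨k, hk, hkk⟩ := h₂ k' hk'
      obtain ⟨l, hl, hll⟩ := h₂ l' hl'
      exact Or.inr ⟨k, hk, l, hl, by simp [e1, hkk], by simp [e2, hll]⟩

lemma wd_univ_map_equiv [Fintype α] [Fintype β] (e : α ≃ β) {w : List α} :
    Wd Finset.univ (w.map e) ↔ Wd Finset.univ w := by
  have := wd_map_iff (β := α) (f := e) e.injective (w := w)
  rw [Finset.image_univ_of_surjective e.surjective] at this
  exact this

lemma map_map_symm (e : α ≃ β) (w : List β) : (w.map e.symm).map e = w := by
  simp [List.map_map]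

lemma map_symm_map (e : α ≃ β) (w : List α) : (w.map e).map e.symm = w := by
  simp [List.map_map]

lemma map_equiv_injective (e : α ≃ β) : Function.Injective (List.map e : List α → List β) :=
  List.map_injective_iff.2 e.injective

lemma HamL.mapEquiv [Fintype α] [Fintype β] (e : α ≃ β) {L : List (List α)} (h : HamL L) :
    HamL (L.map (List.map e)) := by
  refine ⟨?_, ?_, ?_, ?_, by simpa using h.len⟩
  · rw [List.isChain_map]
    exact h.chain.imp (fun a b hab => hab.map e)
  · intro p hp q hq
    rw [List.getLast?_map] at hp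
    rw [List.head?_map] at hq
    simp only [Option.mem_def, Option.map_eq_some_iff] at hp hq
    obtain ⟨a, ha, rfl⟩ := hp
    obtain ⟨b, hb, rfl⟩ := hq
    exact (h.close a ha b hb).map e
  · exact h.nodup.map (map_equiv_injective e)
  · intro w
    rw [List.mem_map]
    constructor
    · rintro ⟨a, ha, rfl⟩
      exact (wd_univ_map_equiv e).2 ((h.mem a).1 ha)
    · intro hw
      refine ⟨w.map e.symm, ?_, map_map_symm e w⟩
      rw [h.mem, ← wd_univ_map_equiv e, map_map_symm]
      exact hw

lemma cycAdj_map_iff (e : α ≃ β) (L : List (List α)) (w w' : List α) :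
    CycAdj (L.map (List.map e)) (w.map e) (w'.map e) ↔ CycAdj L w w' := by
  have hinf : ∀ a b : List α, [a.map e, b.map e] <:+: L.map (List.map e) ↔ [a, b] <:+: L := by
    intro a b
    constructor
    · intro h
      have := h.map (List.map e.symm)
      have h2 : (List.map e.symm ∘ List.map e : List α → List α) = id := by
        funext w; simp
      rw [List.map_map, h2, List.map_id, List.map_cons, List.map_cons, List.map_nil,
        map_symm_map, map_symm_map] at this
      exact this
    · intro h
      simpa using h.map (List.map e)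
  have hopt : ∀ (o : Option (List α)) (a : List α),
      o.map (List.map e) = some (a.map e) ↔ o = some a := by
    intro o a
    cases o with
    | none => simp
    | some b =>
      simp only [Option.map_some, Option.some.injEq]
      exact (map_equiv_injective e).eq_iff
  unfold CycAdj
  rw [hinf, hinf, List.head?_map, List.getLast?_map, hopt, hopt, hopt, hopt]

theorem SizeAt.congr [Fintype α] [Fintype β] (e : α ≃ β) {s : ℕ} (h : SizeAt α s) :
    SizeAt β s := by
  obtain ⟨L, hL, hs⟩ := h
  refine ⟨L.map (List.map e), hL.mapEquiv e, ?_⟩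
  rw [← hs]
  symm
  refine Nat.card_congr (Equiv.subtypeEquiv e.permCongr ?_)
  intro g
  have hg : ∀ w : List α, (w.map e).map (e.permCongr g) = (w.map g).map e := by
    intro w
    simp [List.map_map, Function.comp_def, Equiv.permCongr_apply]
  constructor
  · intro hg' w w' hww
    obtain ⟨a, rfl⟩ : ∃ a : List α, w = a.map e := ⟨w.map e.symm, (map_map_symm e w).symm⟩
    obtain ⟨b, rfl⟩ : ∃ a : List α, w' = a.map e := ⟨w'.map e.symm, (map_map_symm e w').symm⟩
    rw [cycAdj_map_iff] at hww
    rw [hg, hg, cycAdj_map_iff]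
    exact hg' a b hww
  · intro hg' w w' hww
    have := hg' (w.map e) (w'.map e) ((cycAdj_map_iff e L w w').2 hww)
    rw [hg, hg, cycAdj_map_iff] at this
    exact this

end Pan
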