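import Pool.Agent.Hhelper18.Pan.Chain

/-! # MODULE SP : equivalent last letters, at least three orbits -/

set_option linter.unusedSectionVars false

namespace Pan

variable {α : Type*} [DecidableEq α]

namespace Split

/-- inserting a transversal path inside a transversal path, translating the second part -/
lemma splice {K : Subgroup (Equiv.Perm α)} {S T : List α → Prop} {L₁ L₂ M : List (List α)}
    (h : TPon K S (L₁ ++ L₂)) (h' : TPon K T M) (hST : ∀ w w', S w → T w' → ¬ Eqv K w w')
    {κ : Equiv.Perm α} (hκ : κ ∈ K) (hS : ∀ w, S w → S (w.map κ)) (hM : M ≠ [])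
    (h1 : ∀ p ∈ L₁.getLast?, ∀ q ∈ M.head?, Adj p q)
    (h2 : ∀ p ∈ M.getLast?, ∀ q ∈ L₂.head?, Adj p (q.map κ)) :
    TPon K (fun w => S w ∨ T w) (L₁ ++ (M ++ L₂.map (List.map κ))) := by
  have hch := List.isChain_append.1 h.chain
  have hin := List.pairwise_append.1 h.inj
  refine ⟨?_, ?_, ?_, ?_⟩
  · rw [List.isChain_append, List.isChain_append]
    refine ⟨hch.1, ⟨h'.chain, ?_, ?_⟩, ?_⟩
    · rw [List.isChain_map]
      exact hch.2.1.imp (fun a b hab => hab.map κ)
    · intro p hp q hq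
      rw [List.head?_map] at hq
      obtain ⟨q', hq', rfl⟩ := Option.mem_map.1 hq
      exact h2 p hp q' hq'
    · intro p hp q hq
      refine h1 p hp q ?_
      cases M with
      | nil => exact absurd rfl hM
      | cons a M => simpa using hq
  · intro w hw
    rcases List.mem_append.1 hw with hw | hw
    · exact Or.inl (h.mem w (List.mem_append_left _ hw))
    · rcases List.mem_append.1 hw with hw | hw
      · exact Or.inr (h'.mem w hw)
      · obtain ⟨p, hp, rfl⟩ := List.mem_map.1 hw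
        exact Or.inl (hS p (h.mem p (List.mem_append_right _ hp)))
  · rintro w (hw | hw)
    · obtain ⟨p, hp, e⟩ := h.cover w hw
      rcases List.mem_append.1 hp with hp | hp
      · exact ⟨p, List.mem_append_left _ hp, e⟩
      · refine ⟨p.map κ, List.mem_append_right _ (List.mem_append_right _
          (List.mem_map_of_mem hp)), ?_⟩
        have := (Eqv.map (K := K) (w := p) (w' := w) hκ K.one_mem).2 e
        simpa using this
    · obtain ⟨p, hp, e⟩ := h'.cover w hw
      exact ⟨p, List.mem_append_right _ (List.mem_append_left _ hp), e⟩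
  · rw [List.pairwise_append, List.pairwise_append]
    refine ⟨hin.1, ⟨h'.inj, ?_, ?_⟩, ?_⟩
    · rw [List.pairwise_map]
      exact hin.2.1.imp (fun {a b} hab e => hab ((Eqv.map hκ hκ).1 e))
    · intro a ha b hb e
      obtain ⟨b', hb', rfl⟩ := List.mem_map.1 hb
      exact hST _ _ (hS b' (h.mem b' (List.mem_append_right _ hb'))) (h'.mem a ha) e.symm
    · intro a ha b hb e
      rcases List.mem_append.1 hb with hb | hb
      · exact hST _ _ (h.mem a (List.mem_append_left _ ha)) (h'.mem b hb) e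
      · obtain ⟨b', hb', rfl⟩ := List.mem_map.1 hb
        refine hin.2.2 a ha b' hb' ?_
        refine (Eqv.map (K := K) (w := a) (w' := b') K.one_mem hκ).1 ?_
        simpa using e

/-- words in the lifted set -/
lemma split_lift_iff {K : Subgroup (Equiv.Perm α)} {A : Finset α} (hp : ∀ k ∈ K, ∀ a ∈ A, k a ∈ A)
    {x : α} (hx : x ∈ A) (w : List α) :
    lift K x (Wd (A.erase x)) w ↔ Wd A w ∧ ∃ k ∈ K, w.getLast? = some (k x) := by
  constructor
  · rintro ⟨k, hk, w', hw', rfl⟩
    refine ⟨Wd.map ((wd_append hx).2 hw') (hp k hk), k, hk, ?_⟩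
    simp
  · rintro ⟨hw, k, hk, he⟩
    obtain ⟨w0, c, hc, rfl, hw0⟩ := hw.exists_last ⟨x, hx⟩
    have hcx : c = k x := by simpa using he
    subst hcx
    refine ⟨k, hk, w0.map (k⁻¹ : Equiv.Perm α), ?_, ?_⟩
    · have h1 := Wd.map hw (k := k⁻¹) (hp k⁻¹ (K.inv_mem hk))
      have h2 : (w0 ++ [k x]).map (k⁻¹ : Equiv.Perm α) = w0.map (k⁻¹ : Equiv.Perm α) ++ [x] := by
        simp
      rw [h2, wd_append hx] at h1
      exact h1
    · simp [List.map_map, Function.comp_def]

/-- pairwise inequivalent representatives, all equivalent to one of two letters -/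
lemma two_reps {K : Subgroup (Equiv.Perm α)} {y₁ y₂ : α} :
    ∀ xs : List α, 2 ≤ xs.length → xs.Pairwise (Inq K) →
    (∀ r ∈ xs, (∃ k ∈ K, k r = y₁) ∨ ∃ k ∈ K, k r = y₂) →
    ∃ r s, xs = [r, s] ∧ (((∃ k ∈ K, k r = y₁) ∧ ∃ k ∈ K, k s = y₂) ∨
      ((∃ k ∈ K, k r = y₂) ∧ ∃ k ∈ K, k s = y₁)) := by
  have key : ∀ {r s y : α}, Inq K r s → (∃ k ∈ K, k r = y) → (∃ k ∈ K, k s = y) → False := by
    rintro r s y hi ⟨k, hk, e⟩ ⟨l, hl, e'⟩
    refine hi (l⁻¹ * k) (K.mul_mem (K.inv_mem hl) hk) ?_
    rw [Equiv.Perm.mul_apply, e, ← e']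
    simp
  intro xs hlen hpw hall
  match xs, hlen, hpw, hall with
  | [r, s], _, hpw, hall =>
    refine ⟨r, s, rfl, ?_⟩
    have hrs : Inq K r s := by
      have := List.pairwise_cons.1 hpw
      exact this.1 s (by simp)
    rcases hall r (by simp) with h1 | h1 <;> rcases hall s (by simp) with h2 | h2
    · exact (key hrs h1 h2).elim
    · exact Or.inl ⟨h1, h2⟩
    · exact Or.inr ⟨h1, h2⟩
    · exact (key hrs h1 h2).elim
  | r :: s :: t :: l, _, hpw, hall =>
    exfalso
    have p1 := List.pairwise_cons.1 hpw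
    have p2 := List.pairwise_cons.1 p1.2
    have hrs : Inq K r s := p1.1 s (by simp)
    have hrt : Inq K r t := p1.1 t (by simp)
    have hst : Inq K s t := p2.1 t (by simp)
    rcases hall r (by simp) with h1 | h1 <;> rcases hall s (by simp) with h2 | h2 <;>
      rcases hall t (by simp) with h3 | h3
    · exact key hrs h1 h2
    · exact key hrs h1 h2
    · exact key hrt h1 h3
    · exact key hst h2 h3
    · exact key hst h2 h3
    · exact key hrt h1 h3
    · exact key hrs h1 h2
    · exact key hrs h1 h2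

end Split

open Split

theorem conn_split {K : Subgroup (Equiv.Perm α)} {A : Finset α} (h : ChainHyp K A)
    {u v : List α} {x x' : α} {κ : Equiv.Perm α} (hκ : κ ∈ K) (hx' : κ x = x')
    (hu : Wd A (u ++ [x])) (hv : Wd A (v ++ [x'])) (hadm : Adm K (u ++ [x]) (v ++ [x']))
    {y z : α} (hy : y ∈ A) (hz : z ∈ A) (hxy : Inq K x y) (hxz : Inq K x z) (hyz : Inq K y z) :
    Conn K A (u ++ [x]) (v ++ [x']) := by
  classical
  have hxA : x ∈ A := hu.mem.1 (by simp)
  have hne : ∀ {a b : α}, Inq K a b → a ≠ b := fun hi e => hi 1 K.one_mem (by simpa using e)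
  have hu' : Wd (A.erase x) u := (wd_append hxA).1 hu
  -- the translated second word
  set v' : List α := v.map (κ⁻¹ : Equiv.Perm α) with hv'def
  have hvv' : (v' ++ [x]).map κ = v ++ [x'] := by
    simp [hv'def, List.map_map, Function.comp_def, hx']
  have hvmap : (v ++ [x']).map (κ⁻¹ : Equiv.Perm α) = v' ++ [x] := by
    simp [hv'def, ← hx']
  have hv' : Wd (A.erase x) v' := by
    have h1 := Wd.map hv (k := κ⁻¹) (h.pres κ⁻¹ (K.inv_mem hκ))
    rw [hvmap] at h1
    exact (wd_append hxA).1 h1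
  have hyE : y ∈ A.erase x := Finset.mem_erase.2 ⟨(hne hxy).symm, hy⟩
  have hzE : z ∈ A.erase x := Finset.mem_erase.2 ⟨(hne hxz).symm, hz⟩
  -- admissibility
  have hadm' : Adm (stb K x) u v' := by
    obtain ⟨u0, q, -, rfl, -⟩ := hu'.exists_last ⟨y, hyE⟩
    obtain ⟨v0, w, -, hv0, -⟩ := hv'.exists_last ⟨y, hyE⟩
    have hv1 : v = v0.map κ ++ [κ w] := by
      have : v'.map κ = v := by simp [hv'def, List.map_map, Function.comp_def]
      rw [← this, hv0]; simp
    rw [hv0]
    refine adm_of_inq ?_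
    intro k hk e
    rw [hv1] at hadm
    simp only [List.append_assoc, List.cons_append, List.nil_append] at hadm
    refine (adm_iff.1 hadm) (κ * k) (K.mul_mem hκ (mem_stb.1 hk).1) ⟨?_, ?_⟩
    · rw [Equiv.Perm.mul_apply, e]
    · rw [Equiv.Perm.mul_apply, (mem_stb.1 hk).2, hx']
  obtain ⟨Q, hQ, hQh, hQl, hQe⟩ := h.good x hxA u v' hu' hv' hadm'
  -- the edge to be opened
  obtain ⟨p, q, ⟨Q₁, Q₂, hQeq⟩, hfirst⟩ := hQe y hyE z hzE (hyz.mono (stb_le K x))
  obtain ⟨a, b, hpa, hqb, hab, hxa, hxb⟩ : ∃ a b, p.head? = some a ∧ q.head? = some b ∧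
      Inq K a b ∧ Inq K x a ∧ Inq K x b := by
    rcases hfirst with ⟨k, hk, l, hl, e1, e2⟩ | ⟨k, hk, l, hl, e1, e2⟩
    · have hk' := stb_le K x hk
      have hl' := stb_le K x hl
      refine ⟨k y, l z, e1, e2, hyz.map hk' hl', ?_, ?_⟩
      · simpa using hxy.map K.one_mem hk'
      · simpa using hxz.map K.one_mem hl'
    · have hk' := stb_le K x hk
      have hl' := stb_le K x hl
      refine ⟨k z, l y, e1, e2, hyz.symm.map hk' hl', ?_, ?_⟩
      · simpa using hxz.map K.one_mem hk'
      · simpa using hxy.map K.one_mem hl'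
  have hpQ : p ∈ Q := by rw [← hQeq]; simp
  have hqQ : q ∈ Q := by rw [← hQeq]; simp
  have hpW : Wd A (p ++ [x]) := (wd_append hxA).2 (hQ.mem p hpQ)
  have hqW : Wd A (q ++ [x]) := (wd_append hxA).2 (hQ.mem q hqQ)
  have haA : a ∈ A := by
    refine hpW.mem.1 (List.mem_append_left _ ?_)
    exact List.mem_of_mem_head? hpa
  have hbA : b ∈ A := by
    refine hqW.mem.1 (List.mem_append_left _ ?_)
    exact List.mem_of_mem_head? hqb
  -- representatives of the other orbits
  set B : Finset α := A.filter (fun c => Inq K x c) with hBdef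
  have hB : ∀ k ∈ K, ∀ b ∈ B, k b ∈ B := by
    intro k hk c hc
    rw [hBdef, Finset.mem_filter] at hc ⊢
    refine ⟨h.pres k hk c hc.1, ?_⟩
    simpa using hc.2.map K.one_mem hk
  have haB : a ∈ B := by rw [hBdef, Finset.mem_filter]; exact ⟨haA, hxa⟩
  have hbB : κ b ∈ B := hB κ hκ b (by rw [hBdef, Finset.mem_filter]; exact ⟨hbA, hxb⟩)
  have hab' : Inq K a (κ b) := by simpa using hab.map K.one_mem hκ
  obtain ⟨xs, hxs1, hxs2, hxs3, hxs4, hxs5, hxs6⟩ := exists_reps K B hB haB hbB hab'
  have hU : Wd A (p ++ [x]).reverse := hpW.reverse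
  have hqκ : Wd A ((q ++ [x]).map κ) := Wd.map hqW (h.pres κ hκ)
  have hV : Wd A ((q ++ [x]).map κ).reverse := hqκ.reverse
  have hU' : (p ++ [x]).reverse.getLast? = xs.head? := by
    rw [List.getLast?_reverse, hxs1, List.head?_append, hpa]; rfl
  have hV' : ((q ++ [x]).map κ).reverse.getLast? = xs.getLast? := by
    rw [List.getLast?_reverse, hxs2, List.head?_map, List.head?_append, hqb]; rfl
  obtain ⟨bs, hbs, hfst, hbh, hbl, hE1, hE2⟩ := chainSome h xs
    (fun c hc => (Finset.mem_filter.1 (hxs5 c hc)).1) hxs4 hxs3 _ _ hU hV hU' hV'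
  have hcard : 2 ≤ A.card := by
    have := Finset.one_lt_card.2 ⟨y, hy, z, hz, hne hyz⟩
    omega
  have hM : TPon K (LastIn K A xs) (flat bs) := by
    have := BC.tpon hbs hcard h.pres (by rw [hfst]; exact hxs4)
    rwa [hfst] at this
  -- the pieces
  set L₁ : List (List α) := (Q₁ ++ [p]).map (· ++ [x]) with hL₁
  set L₂ : List (List α) := (q :: Q₂).map (· ++ [x]) with hL₂
  have hLQ : L₁ ++ L₂ = Q.map (· ++ [x]) := by
    rw [hL₁, hL₂, ← List.map_append, ← hQeq]; simp
  have hTL : TPon K (lift K x (Wd (A.erase x))) (L₁ ++ L₂) := by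
    rw [hLQ]; exact hQ.lift
  have hMne : flat bs ≠ [] := by
    intro e; rw [e] at hbh; simp at hbh
  have hlenp : 2 ≤ (p ++ [x]).length := by rw [hpW.length]; exact hcard
  have hlenq : 2 ≤ ((q ++ [x]).map κ).reverse.length := by rw [hV.length]; exact hcard
  have hP := splice hTL hM
    (by
      intro w w' hw hw' e
      obtain ⟨-, k, hk, hwl⟩ := (split_lift_iff h.pres hxA w).1 hw
      obtain ⟨-, c, hc, l, hl, hwl'⟩ := hw'
      obtain ⟨m, hm, rfl⟩ := e
      rw [List.getLast?_map, hwl] at hwl'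
      have he : m (k x) = l c := by simpa using hwl'
      have hxc : Inq K x c := (Finset.mem_filter.1 (hxs5 c hc)).2
      refine hxc (l⁻¹ * m * k) (K.mul_mem (K.mul_mem (K.inv_mem hl) hm) hk) ?_
      simp only [Equiv.Perm.coe_mul, Function.comp_apply, he]
      simp)
    hκ
    (by
      rintro w ⟨k, hk, w', hw', rfl⟩
      exact ⟨κ * k, K.mul_mem hκ hk, w', hw', by simp [List.map_map]⟩)
    hMne
    (by
      intro s hs t ht
      rw [hbh] at ht
      have h1 : s = p ++ [x] := by
        have : L₁.getLast? = some (p ++ [x]) := by rw [hL₁]; simp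
        rw [this] at hs; simpa using hs.symm
      have h2 : t = (p ++ [x]).reverse := by simpa using ht.symm
      rw [h1, h2]
      exact adj_reverse hlenp)
    (by
      intro s hs t ht
      rw [hbl] at hs
      have h1 : s = ((q ++ [x]).map κ).reverse := by simpa using hs.symm
      have h2 : t = q ++ [x] := by
        have : L₂.head? = some (q ++ [x]) := by rw [hL₂]; simp
        rw [this] at ht; simpa using ht.symm
      rw [h1, h2]
      have := adj_reverse hlenq
      rwa [List.reverse_reverse] at this)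
  refine ⟨_, hP.congr ?_, ?_, ?_, ?_⟩
  · intro w
    constructor
    · rintro (hw | hw)
      · exact ((split_lift_iff h.pres hxA w).1 hw).1
      · exact hw.1
    · intro hw
      obtain ⟨w0, c, hc, hw0, -⟩ := hw.exists_last ⟨x, hxA⟩
      have hlast : w.getLast? = some c := by rw [hw0]; simp
      by_cases hxc : Inq K x c
      · right
        obtain ⟨r, hr, k, hk, e⟩ := hxs6 c (Finset.mem_filter.2 ⟨hc, hxc⟩)
        exact ⟨hw, r, hr, k, hk, by rw [hlast, e]⟩
      · left
        unfold Inq at hxc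
        push Not at hxc
        obtain ⟨k, hk, e⟩ := hxc
        exact (split_lift_iff h.pres hxA w).2 ⟨hw, k, hk, by rw [hlast, e]⟩
  · -- first word
    have hh : (Q₁ ++ [p]).head? = some u := by
      rw [← hQh, ← hQeq]
      cases Q₁ <;> simp
    rw [List.head?_append, hL₁, List.head?_map, hh]
    rfl
  · -- last word
    have hl : (q :: Q₂).getLast? = some v' := by
      rw [← hQl, ← hQeq]
      simp [List.getLast?_append, List.getLast?_cons]
    rw [List.getLast?_append, List.getLast?_append, hL₂, List.getLast?_map, List.getLast?_map, hl]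
    simp only [Option.map_some, hvv']
    rfl
  · intro y₁ hy₁ y₂ hy₂ hi
    have hinf : flat bs <:+: (L₁ ++ (flat bs ++ L₂.map (List.map κ))) :=
      ⟨L₁, L₂.map (List.map κ), by simp⟩
    by_cases hr : ∃ r ∈ xs, Inq K r y₁ ∧ Inq K r y₂
    · obtain ⟨r, hr, h1, h2⟩ := hr
      exact (hE1 r hr y₁ hy₁ y₂ hy₂ (hne h1).symm (hne h2).symm hi).mono hinf
    · have hall : ∀ r ∈ xs, (∃ k ∈ K, k r = y₁) ∨ ∃ k ∈ K, k r = y₂ := by
        intro r hrx
        by_contra hcon
        rw [not_or] at hcon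
        refine hr ⟨r, hrx, ?_, ?_⟩
        · intro k hk e; exact hcon.1 ⟨k, hk, e⟩
        · intro k hk e; exact hcon.2 ⟨k, hk, e⟩
      obtain ⟨r, s, hrs, hcase⟩ := two_reps xs hxs3 hxs4 hall
      have hE := hE2 r s hrs
      rcases hcase with ⟨⟨k, hk, e1⟩, ⟨l, hl, e2⟩⟩ | ⟨⟨k, hk, e1⟩, ⟨l, hl, e2⟩⟩
      · have := (hE.letters hk hl).mono hinf
        rwa [e1, e2] at this
      · have := ((hE.letters hk hl).swap).mono hinf
        rwa [e1, e2] at this

end Pan
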