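import Pool.Agent.Hhelper18.Pan.Base
import Pool.Agent.Hhelper18.Pan.Relabel
import Pool.Agent.Hhelper18.Pan.Split
import Pool.Agent.Hhelper18.Pan.Pick

/-! # MODULE F5 : the trivial group, and the class on five letters -/

set_option linter.unusedSectionVars false

namespace Pan

variable {α : Type*} [DecidableEq α]

lemma stb_bot_eq (x : α) : stb (⊥ : Subgroup (Equiv.Perm α)) x = ⊥ :=
  le_bot_iff.1 (stb_le _ x)

/-- an injective numbering of a finite set of letters -/
lemma exists_numbering {A : Finset α} {m : ℕ} (hA : A.card = m) :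
    ∃ f : Fin m → α, Function.Injective f ∧ Finset.univ.image f = A := by
  have e : A ≃ Fin m := Finset.equivFinOfCardEq hA
  refine ⟨fun b => (e.symm b : α), fun a b h => e.symm.injective (Subtype.ext h), ?_⟩
  ext a
  simp only [Finset.mem_image, Finset.mem_univ, true_and]
  constructor
  · rintro ⟨b, rfl⟩; exact (e.symm b).2
  · intro ha; exact ⟨e ⟨a, ha⟩, by simp⟩

theorem good_bot_aux (m : ℕ) : ∀ A : Finset α, A.card = m → 4 ≤ m →
    Good (⊥ : Subgroup (Equiv.Perm α)) A := by
  induction m with
  | zero => intro A _ h; omega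
  | succ m ih =>
    intro A hA hm
    rcases Nat.lt_or_ge m 4 with h4 | h4
    · have hA4 : A.card = 4 := by omega
      obtain ⟨f, hf, himg⟩ := exists_numbering hA4
      rw [← himg]
      refine Good.relabel f hf (K' := ⊥) ?_ ?_ good_four
      · intro k hk
        rw [Subgroup.mem_bot] at hk
        exact ⟨1, Subgroup.one_mem _, fun b => by rw [hk]; rfl⟩
      · intro k hk
        rw [Subgroup.mem_bot] at hk
        exact ⟨1, Subgroup.one_mem _, fun b => by rw [hk]; rfl⟩
    · have hC : ChainHyp (⊥ : Subgroup (Equiv.Perm α)) A := by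
        refine ⟨?_, ?_, pick_bot A (by omega)⟩
        · intro k hk a ha
          rw [Subgroup.mem_bot] at hk
          rw [hk]; exact ha
        · intro x hx
          rw [stb_bot_eq]
          exact ih (A.erase x) (by rw [Finset.card_erase_of_mem hx]; omega) h4
      intro u v hu hv hadm
      have hne : A.Nonempty := Finset.card_pos.1 (by omega)
      obtain ⟨u', x, hx, rfl, hu'⟩ := hu.exists_last hne
      obtain ⟨v', z, hz, rfl, hv'⟩ := hv.exists_last hne
      have hinq : ∀ a b : α, a ≠ b → Inq (⊥ : Subgroup (Equiv.Perm α)) a b := by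
        intro a b hab k hk
        rw [Subgroup.mem_bot] at hk
        rw [hk]; exact hab
      by_cases hxz : x = z
      · subst hxz
        have hc : 1 < (A.erase x).card := by rw [Finset.card_erase_of_mem hx]; omega
        obtain ⟨y, hy, z, hz', hyz⟩ := Finset.one_lt_card.1 hc
        have hy' := Finset.mem_erase.1 hy
        have hz'' := Finset.mem_erase.1 hz'
        exact conn_split hC (κ := 1) (Subgroup.one_mem _) rfl hu hv hadm hy'.2 hz''.2
          (hinq _ _ (Ne.symm hy'.1)) (hinq _ _ (Ne.symm hz''.1)) (hinq _ _ hyz)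
      · exact conn_chain hC (by omega) hu hv (hinq _ _ hxz)

theorem good_bot (A : Finset α) (hA : 4 ≤ A.card) : Good (⊥ : Subgroup (Equiv.Perm α)) A :=
  good_bot_aux A.card A rfl hA

/-! ### cycle types on five letters -/

def g7 : Equiv.Perm (Fin 5) := Equiv.swap 0 1 * Equiv.swap 2 3

lemma ct_formPerm {l : List (Fin 5)} (hl : l.Nodup) (hn : 2 ≤ l.length) :
    l.formPerm.cycleType = {l.length} := by
  rw [(List.isCycle_formPerm hl hn).cycleType, List.support_formPerm_of_nodup l hl,
    List.toFinset_card_of_nodup hl]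
  rintro x rfl
  simp at hn

lemma ct_g2 : g2.cycleType = {2} := by
  have : g2 = List.formPerm [0, 1] := by decide
  rw [this, ct_formPerm (by decide) (by decide)]; rfl

lemma ct_g3 : g3.cycleType = {3} := by
  have : g3 = List.formPerm [0, 1, 2] := by decide
  rw [this, ct_formPerm (by decide) (by decide)]; rfl

lemma ct_g4 : g4.cycleType = {4} := by
  have : g4 = List.formPerm [0, 1, 2, 3] := by decide
  rw [this, ct_formPerm (by decide) (by decide)]; rfl

lemma ct_g5 : g5.cycleType = {5} := by
  have : g5 = List.formPerm [0, 1, 2, 3, 4] := by decide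
  rw [this, ct_formPerm (by decide) (by decide)]; rfl

lemma ct_g6 : g6.cycleType = {3} + {2} := by
  have : g6 = List.formPerm [0, 1, 2] * List.formPerm [3, 4] := by decide
  have hd : Equiv.Perm.Disjoint (List.formPerm [(0 : Fin 5), 1, 2]) (List.formPerm [3, 4]) := by
    intro x; revert x; decide
  rw [this, hd.cycleType_mul, ct_formPerm (by decide) (by decide),
    ct_formPerm (by decide) (by decide)]; rfl

lemma ct_g7 : g7.cycleType = {2} + {2} := by
  have : g7 = List.formPerm [0, 1] * List.formPerm [2, 3] := by decide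
  have hd : Equiv.Perm.Disjoint (List.formPerm [(0 : Fin 5), 1]) (List.formPerm [2, 3]) := by
    intro x; revert x; decide
  rw [this, hd.cycleType_mul, ct_formPerm (by decide) (by decide),
    ct_formPerm (by decide) (by decide)]; rfl

/-- every permutation of five letters is conjugate to one of seven -/
lemma conj_five (g : Equiv.Perm (Fin 5)) :
    g = 1 ∨ IsConj g2 g ∨ IsConj g3 g ∨ IsConj g4 g ∨ IsConj g5 g ∨ IsConj g6 g ∨ IsConj g7 g := by
  simp only [Equiv.Perm.isConj_iff_cycleType_eq, ct_g2, ct_g3, ct_g4, ct_g5, ct_g6, ct_g7]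
  rw [← Equiv.Perm.cycleType_eq_zero]
  have hs : g.cycleType.sum ≤ 5 := by
    simpa using Equiv.Perm.sum_cycleType_le g
  have h2 : ∀ n ∈ g.cycleType, 2 ≤ n := fun n hn => Equiv.Perm.two_le_of_mem_cycleType hn
  generalize g.cycleType = m at hs h2
  rcases Multiset.empty_or_exists_mem m with rfl | ⟨a, ha⟩
  · exact Or.inl rfl
  obtain ⟨m', rfl⟩ := Multiset.exists_cons_of_mem ha
  have ha2 := h2 a ha
  rw [Multiset.sum_cons] at hs
  rcases Multiset.empty_or_exists_mem m' with rfl | ⟨b, hb⟩
  · have : a ≤ 5 := by simpa using hs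
    interval_cases a
    · right; left; rfl
    · right; right; left; rfl
    · right; right; right; left; rfl
    · right; right; right; right; left; rfl
  obtain ⟨m'', rfl⟩ := Multiset.exists_cons_of_mem hb
  have hb2 := h2 b (Multiset.mem_cons_of_mem hb)
  rw [Multiset.sum_cons] at hs
  rcases Multiset.empty_or_exists_mem m'' with rfl | ⟨c, hc⟩
  · have hab : a + b ≤ 5 := by simpa using hs
    have ha3 : a ≤ 3 := by omega
    have hb3 : b ≤ 3 := by omega
    interval_cases a <;> interval_cases b
    · right; right; right; right; right; right; rfl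
    · right; right; right; right; right; left
      exact Multiset.cons_swap 3 2 0
    · right; right; right; right; right; left; rfl
    · omega
  · obtain ⟨m3, rfl⟩ := Multiset.exists_cons_of_mem hc
    have hc2 := h2 c (Multiset.mem_cons_of_mem (Multiset.mem_cons_of_mem hc))
    rw [Multiset.sum_cons] at hs
    omega

lemma semiconj_zpow {β : Type*} {f : β → α} {g : Equiv.Perm α} {g' : Equiv.Perm β}
    (h : ∀ b, g (f b) = f (g' b)) (n : ℤ) : ∀ b, (g ^ n) (f b) = f ((g' ^ n) b) := by
  have hinv : ∀ b, g⁻¹ (f b) = f (g'⁻¹ b) := by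
    intro b
    rw [Equiv.Perm.inv_eq_iff_eq, h]
    simp
  induction n using Int.induction_on with
  | zero => intro b; simp
  | succ n ih =>
    intro b
    rw [zpow_add_one, zpow_add_one, Equiv.Perm.mul_apply, Equiv.Perm.mul_apply, h, ih]
  | pred n ih =>
    intro b
    rw [zpow_sub_one, zpow_sub_one, Equiv.Perm.mul_apply, Equiv.Perm.mul_apply, hinv, ih]

lemma good_of_semiconj {A : Finset α} {f : Fin 5 → α} (hf : Function.Injective f)
    (himg : Finset.univ.image f = A) {g : Equiv.Perm α} {g' : Equiv.Perm (Fin 5)}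
    (h : ∀ b, g (f b) = f (g' b)) (hgood : Good (Subgroup.zpowers g') Finset.univ) :
    Good (Subgroup.zpowers g) A := by
  rw [← himg]
  refine Good.relabel f hf (K' := Subgroup.zpowers g') ?_ ?_ hgood
  · rintro _ ⟨n, rfl⟩
    exact ⟨g' ^ n, ⟨n, rfl⟩, semiconj_zpow h n⟩
  · rintro _ ⟨n, rfl⟩
    exact ⟨g ^ n, ⟨n, rfl⟩, semiconj_zpow h n⟩

/-- conjugation on five letters gives a better numbering -/
lemma renumber {A : Finset α} {f : Fin 5 → α} (hf : Function.Injective f)
    (himg : Finset.univ.image f = A) {g : Equiv.Perm α} {g' g₀ : Equiv.Perm (Fin 5)}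
    (h : ∀ b, g (f b) = f (g' b)) (hc : IsConj g₀ g') :
    ∃ f' : Fin 5 → α, Function.Injective f' ∧ Finset.univ.image f' = A ∧
      ∀ b, g (f' b) = f' (g₀ b) := by
  obtain ⟨c, hc⟩ := isConj_iff.1 hc
  refine ⟨fun b => f (c b), hf.comp c.injective, ?_, ?_⟩
  · rw [← himg]
    ext a
    simp only [Finset.mem_image, Finset.mem_univ, true_and]
    constructor
    · rintro ⟨b, rfl⟩; exact ⟨c b, rfl⟩
    · rintro ⟨b, rfl⟩; exact ⟨c⁻¹ b, by simp⟩
  · intro b
    rw [h, ← hc]
    simp

lemma orb_two {f : Fin 5 → α} (hf : Function.Injective f) {g : Equiv.Perm α}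
    (h : ∀ b, g (f b) = f (g7 b)) {i j : Fin 5} (hij : g7 i = j) (_hji : g7 j = i) (hne : i ≠ j) :
    orb (Subgroup.zpowers g) (f i) = 2 := by
  have hset : ∀ y : α, (∃ k ∈ Subgroup.zpowers g, k (f i) = y) ↔ y ∈ ({f i, f j} : Set α) := by
    intro y
    constructor
    · rintro ⟨_, ⟨n, rfl⟩, rfl⟩
      simp only
      rw [semiconj_zpow h n]
      have hn : (g7 ^ n) i = i ∨ (g7 ^ n) i = j := by
        have hsq : g7 ^ (2 : ℤ) = 1 := by
          have : g7 * g7 = 1 := by decide
          rw [zpow_two, this]
        rcases Int.even_or_odd' n with ⟨m, rfl | rfl⟩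
        · left; rw [zpow_mul, hsq]; simp
        · right; rw [zpow_add, zpow_mul, hsq]; simpa using hij
      rcases hn with hn | hn <;> simp [hn]
    · rintro (rfl | rfl)
      · exact ⟨1, Subgroup.one_mem _, rfl⟩
      · exact ⟨g, Subgroup.mem_zpowers g, by rw [h, hij]⟩
  unfold orb
  rw [Nat.card_congr (Equiv.subtypeEquivRight hset)]
  change Nat.card (({f i, f j} : Set α)) = 2
  rw [Nat.card_coe_set_eq, Set.ncard_pair (fun e => hne (hf e))]

theorem good_five {R K : Subgroup (Equiv.Perm α)} {A : Finset α} (h : Cls R K A)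
    (hA : A.card = 5) : Good K A := by
  have hKR := h.eq_of_card (by omega)
  obtain ⟨g, hg⟩ := h.cyc
  rw [hKR]
  obtain ⟨f, hf, himg⟩ := exists_numbering hA
  -- the permutation `g` in the numbering `f`
  have hgR : g ∈ R := by rw [hg]; exact Subgroup.mem_zpowers g
  have hgK : g ∈ K := h.le hgR
  have hfA : ∀ b, f b ∈ A := fun b => by rw [← himg]; exact Finset.mem_image_of_mem f (by simp)
  have hex : ∀ k ∈ K, ∀ b, ∃ c, f c = k (f b) := by
    intro k hk b
    have := h.pres k hk (f b) (hfA b)
    rw [← himg] at this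
    simpa using this
  choose p hp using hex g hgK
  have hpinj : Function.Injective p := by
    intro a b hab
    have : g (f a) = g (f b) := by rw [← hp, ← hp, hab]
    exact hf (g.injective this)
  let g' : Equiv.Perm (Fin 5) := Equiv.ofBijective p (Finite.injective_iff_bijective.1 hpinj)
  have hgg : ∀ b, g (f b) = f (g' b) := fun b => (hp b).symm
  rcases conj_five g' with h1 | h1 | h1 | h1 | h1 | h1 | h1
  · -- trivial
    have hg1 : g = 1 := by
      ext a
      by_cases ha : a ∈ A
      · rw [← himg] at ha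
        simp only [Finset.mem_image, Finset.mem_univ, true_and] at ha
        obtain ⟨b, rfl⟩ := ha
        rw [hgg, h1]; rfl
      · exact h.out g hgK a ha
    rw [hg, hg1, Subgroup.zpowers_one_eq_bot]
    exact good_bot A (by omega)
  · obtain ⟨f', hf', himg', h'⟩ := renumber hf himg hgg h1
    rw [hg]; exact good_of_semiconj hf' himg' h' good_g2
  · obtain ⟨f', hf', himg', h'⟩ := renumber hf himg hgg h1
    rw [hg]; exact good_of_semiconj hf' himg' h' good_g3
  · obtain ⟨f', hf', himg', h'⟩ := renumber hf himg hgg h1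
    rw [hg]; exact good_of_semiconj hf' himg' h' good_g4
  · obtain ⟨f', hf', himg', h'⟩ := renumber hf himg hgg h1
    rw [hg]; exact good_of_semiconj hf' himg' h' good_g5
  · obtain ⟨f', hf', himg', h'⟩ := renumber hf himg hgg h1
    rw [hg]; exact good_of_semiconj hf' himg' h' good_g6
  · exfalso
    obtain ⟨f', hf', himg', h'⟩ := renumber hf himg hgg h1
    have hfA' : ∀ b, f' b ∈ A := fun b => by
      rw [← himg']; exact Finset.mem_image_of_mem f' (by simp)
    have hinq : Inq R (f' 0) (f' 2) := by
      intro k hk e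
      rw [hg] at hk
      obtain ⟨n, rfl⟩ := hk
      simp only at e
      rw [semiconj_zpow h' n] at e
      have e' := hf' e
      have hn : (g7 ^ n) 0 = 0 ∨ (g7 ^ n) 0 = 1 := by
        have hsq : g7 ^ (2 : ℤ) = 1 := by
          have : g7 * g7 = 1 := by decide
          rw [zpow_two, this]
        rcases Int.even_or_odd' n with ⟨m, rfl | rfl⟩
        · left; rw [zpow_mul, hsq]; simp
        · right; rw [zpow_add, zpow_mul, hsq]
          simp only [one_zpow, zpow_one, one_mul]
          decide
      rcases hn with hn | hn <;> rw [hn] at e' <;> exact absurd e' (by decide)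
    have hco := h.coprime (hfA' 0) (hfA' 2) hinq
    rw [hg, orb_two hf' h' (i := 0) (j := 1) (by decide) (by decide) (by decide),
      orb_two hf' h' (i := 2) (j := 3) (by decide) (by decide) (by decide)] at hco
    exact absurd hco (by decide)

end Pan
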