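import Pool.Agent.Hhelper18.Pan.Split
import Pool.Agent.Hhelper18.Pan.Pick

/-! # MODULE ON : transitive groups -/

set_option linter.unusedSectionVars false

namespace Pan

variable {α : Type*} [DecidableEq α]

namespace One

variable {R K : Subgroup (Equiv.Perm α)} {A : Finset α}

theorem inv_app (k : Equiv.Perm α) (a : α) : k⁻¹ (k a) = a := by simp

theorem app_inv (k : Equiv.Perm α) (a : α) : k (k⁻¹ a) = a := by simp

theorem stb_pres (hp : ∀ k ∈ K, ∀ a ∈ A, k a ∈ A) (x : α) :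
    ∀ k ∈ stb K x, ∀ a ∈ A.erase x, k a ∈ A.erase x := by
  intro k hk a ha
  rw [mem_stb] at hk
  rw [Finset.mem_erase] at ha ⊢
  refine ⟨fun h => ha.1 ?_, hp k hk.1 a ha.2⟩
  apply k.injective
  rw [h, hk.2]

/-- gluing a chain in the copy `x` and a chain in the copy `x'` -/
theorem glue (hA : 3 ≤ A.card)
    (hp : ∀ k ∈ K, ∀ a ∈ A, k a ∈ A) (hone : ∀ x ∈ A, ∀ y ∈ A, ¬ Inq K x y)
    {x x' : α} (hx : x ∈ A) (hx' : x' ∈ A) {κ : Equiv.Perm α} (hκ : κ ∈ K) (hκx : κ x = x')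
    {bs₁ bs₂ : List (α × List (List α))}
    (h₁ : BC (stb K x) (A.erase x) bs₁) (h₂ : BC (stb K x') (A.erase x') bs₂)
    (hw₁ : (bs₁.map Prod.fst).Pairwise (Inq (stb K x)))
    (hw₂ : (bs₂.map Prod.fst).Pairwise (Inq (stb K x')))
    (hcov : ∀ b ∈ A.erase x', (∃ y ∈ bs₂.map Prod.fst, ∃ k ∈ stb K x', k y = b) ∨
      ∃ y ∈ bs₁.map Prod.fst, ∃ k ∈ stb K x, k y = κ⁻¹ b)
    (hdis : ∀ y ∈ bs₁.map Prod.fst, ∀ z ∈ bs₂.map Prod.fst, ∀ k ∈ stb K x', k (κ y) ≠ z)
    {u v a b : List α} (hu : (flat bs₁).head? = some u) (hv : (flat bs₂).getLast? = some v)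
    (ha : (flat bs₁).getLast? = some a) (hb : (flat bs₂).head? = some b)
    (hab : b ++ [x'] = (a ++ [x]).reverse) :
    Conn K A (u ++ [x]) (v ++ [x']) := by
  have hκ' : κ⁻¹ x' = x := by rw [← hκx]; simp
  have hc1 : 2 ≤ (A.erase x).card := by rw [Finset.card_erase_of_mem hx]; omega
  have hc2 : 2 ≤ (A.erase x').card := by rw [Finset.card_erase_of_mem hx']; omega
  have t1 := h₁.tpon hc1 (stb_pres hp x) hw₁
  have t2 := h₂.tpon hc2 (stb_pres hp x') hw₂
  have hamem : a ∈ flat bs₁ := List.mem_of_getLast? ha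
  have hawd : Wd (A.erase x) a := (t1.mem a hamem).1
  have halen : 2 ≤ (a ++ [x]).length := by
    rw [List.length_append, hawd.length]
    exact hc1.trans (Nat.le_add_right _ _)
  have hdisj : ∀ w w', lift K x (LastIn (stb K x) (A.erase x) (bs₁.map Prod.fst)) w →
      lift K x' (LastIn (stb K x') (A.erase x') (bs₂.map Prod.fst)) w' → ¬ Eqv K w w' := by
    intro w w' hw hw' he
    obtain ⟨k1, hk1, w1, ⟨hw1, y, hy, k, hk, hyk⟩, rfl⟩ := hw
    obtain ⟨k2, hk2, w2, ⟨hw2, z, hz, l, hl, hzl⟩, rfl⟩ := hw'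
    obtain ⟨k3, hk3, e⟩ := he
    rw [List.map_append, List.map_append, List.map_append, List.map_cons, List.map_cons,
      List.map_cons, List.map_nil, List.map_nil, List.map_nil] at e
    obtain ⟨e1, e2⟩ := List.append_inj' e rfl
    have e3 : k2 x' = k3 (k1 x) := by simpa using e2
    have e4 := congrArg List.getLast? e1
    rw [List.getLast?_map, List.getLast?_map, List.getLast?_map, hyk, hzl] at e4
    have e5 : k2 (l z) = k3 (k1 (k y)) := by simpa using e4
    rw [mem_stb] at hk hl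
    refine hdis y hy z hz (l⁻¹ * k2⁻¹ * k3 * k1 * k * κ⁻¹) ?_ ?_
    · rw [mem_stb]
      refine ⟨K.mul_mem (K.mul_mem (K.mul_mem (K.mul_mem (K.mul_mem (K.inv_mem hl.1)
        (K.inv_mem hk2)) hk3) hk1) hk.1) (K.inv_mem hκ), ?_⟩
      simp only [Equiv.Perm.coe_mul, Function.comp_apply]
      rw [hκ', hk.2, ← e3, inv_app]
      conv_lhs => rw [← hl.2]
      rw [inv_app]
    · simp only [Equiv.Perm.coe_mul, Function.comp_apply]
      rw [inv_app, ← e5, inv_app, inv_app]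
  have hadj : ∀ p ∈ ((flat bs₁).map (· ++ [x])).getLast?,
      ∀ q ∈ ((flat bs₂).map (· ++ [x'])).head?, Adj p q := by
    intro p hp' q hq'
    rw [List.getLast?_map, ha] at hp'
    rw [List.head?_map, hb] at hq'
    simp only [Option.map_some, Option.mem_def, Option.some.injEq] at hp' hq'
    rw [← hp', ← hq', hab]
    exact adj_reverse halen
  have t := t1.lift.append t2.lift hdisj hadj
  have hlift : ∀ (y : α) (xs : List α), y ∈ A → ∀ w,
      lift K y (LastIn (stb K y) (A.erase y) xs) w → Wd A w := by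
    rintro y xs hy w ⟨k, hk, w', ⟨hw', _⟩, rfl⟩
    exact ((wd_append hy).2 hw').map (hp k hk)
  refine ⟨_, t.congr ?_, ?_, ?_, ?_⟩
  · intro w
    constructor
    · rintro (h | h)
      · exact hlift x _ hx w h
      · exact hlift x' _ hx' w h
    · intro hw
      have hne : A.Nonempty := ⟨x, hx⟩
      obtain ⟨w', y, hy, rfl, hw'⟩ := hw.exists_last hne
      have h1 := hone x' hx' y hy
      unfold Inq at h1
      push Not at h1
      obtain ⟨k, hk, hky⟩ := h1
      have hky' : k⁻¹ y = x' := by rw [← hky]; simp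
      have hw2 : Wd (A.erase x') (w'.map (k⁻¹ : Equiv.Perm α)) := by
        have h2 := hw.map (hp k⁻¹ (K.inv_mem hk))
        rw [List.map_append, List.map_cons, List.map_nil, hky', wd_append hx'] at h2
        exact h2
      have hne2 : (A.erase x').Nonempty := Finset.card_pos.1 (by omega)
      obtain ⟨w3, b', hb', hw3, _⟩ := hw2.exists_last hne2
      have hwm : w' ++ [y] = (w'.map (k⁻¹ : Equiv.Perm α) ++ [x']).map k := by
        rw [List.map_append, List.map_map]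
        simp [hky]
      rcases hcov b' hb' with ⟨z, hz, l, hl, hlz⟩ | ⟨z, hz, l, hl, hlz⟩
      · right
        refine ⟨k, hk, w'.map (k⁻¹ : Equiv.Perm α), ⟨hw2, z, hz, l, hl, ?_⟩, hwm⟩
        rw [hw3, hlz]
        simp
      · left
        refine ⟨k * κ, K.mul_mem hk hκ, (w'.map (k⁻¹ : Equiv.Perm α)).map (κ⁻¹ : Equiv.Perm α),
          ⟨?_, z, hz, l, hl, ?_⟩, ?_⟩
        · have h2 := ((wd_append hx').2 hw2).map (hp κ⁻¹ (K.inv_mem hκ))
          rw [List.map_append, List.map_cons, List.map_nil, hκ', wd_append hx] at h2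
          exact h2
        · rw [hw3, hlz]
          simp
        · rw [hwm]
          simp [List.map_map, Function.comp_def, hκx]
  · rw [List.head?_append, List.head?_map, hu]
    rfl
  · rw [List.getLast?_append, List.getLast?_map, hv]
    rfl
  · intro y hy y' hy' hi
    exact absurd hi (hone y hy y' hy')

/-- the second half of the path -/
theorem second (hA : 3 ≤ A.card)
    (hp : ∀ k ∈ K, ∀ a ∈ A, k a ∈ A) (hone : ∀ x ∈ A, ∀ y ∈ A, ¬ Inq K x y)
    {x x' : α} (hx : x ∈ A) (hx' : x' ∈ A) (hC : ChainHyp (stb K x') (A.erase x'))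
    {κ : Equiv.Perm α} (hκ : κ ∈ K) (hκx : κ x = x')
    {bs₁ : List (α × List (List α))}
    (h₁ : BC (stb K x) (A.erase x) bs₁)
    (hw₁ : (bs₁.map Prod.fst).Pairwise (Inq (stb K x)))
    {u v₀ m : List α} {w q' r : α} (hu : (flat bs₁).head? = some u)
    (ha : (flat bs₁).getLast? = some (x' :: q' :: (m ++ [r])))
    (hv : Wd A (v₀ ++ [w, x']))
    (hwD : ∀ y ∈ bs₁.map Prod.fst, ∀ k ∈ stb K x', k (κ y) ≠ w)
    (hqD : ∀ y ∈ bs₁.map Prod.fst, ∀ k ∈ stb K x', k (κ y) ≠ q')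
    (hqw : ∀ k ∈ stb K x', k w ≠ q') :
    Conn K A (u ++ [x]) (v₀ ++ [w, x']) := by
  classical
  have hκ' : κ⁻¹ x' = x := by rw [← hκx]; simp
  have hc1 : 2 ≤ (A.erase x).card := by rw [Finset.card_erase_of_mem hx]; omega
  have t1 := h₁.tpon hc1 (stb_pres hp x) hw₁
  have hawd : Wd (A.erase x) (x' :: q' :: (m ++ [r])) := (t1.mem _ (List.mem_of_getLast? ha)).1
  have hawd' : Wd A ((x' :: q' :: (m ++ [r])) ++ [x]) := (wd_append hx).2 hawd
  have hbwd' : Wd A ((x :: r :: (m.reverse ++ [q'])) ++ [x']) := by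
    have := hawd'.reverse
    simpa using this
  have hbwd : Wd (A.erase x') (x :: r :: (m.reverse ++ [q'])) := (wd_append hx').1 hbwd'
  have hvwd : Wd (A.erase x') (v₀ ++ [w]) := by
    rw [← wd_append hx']
    simpa using hv
  have hwB : w ∈ A.erase x' := hvwd.mem.1 (by simp)
  have hqB : q' ∈ A.erase x' := hbwd.mem.1 (by simp)
  set D : Finset α := (A.erase x').filter
    (fun b => ∀ y ∈ bs₁.map Prod.fst, ∀ k ∈ stb K x', k (κ y) ≠ b) with hD
  have hDinv : ∀ k ∈ stb K x', ∀ b ∈ D, k b ∈ D := by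
    intro k hk b hb
    rw [hD, Finset.mem_filter] at hb ⊢
    refine ⟨stb_pres hp x' k hk b hb.1, ?_⟩
    intro y hy l hl e
    refine hb.2 y hy (k⁻¹ * l) ((stb K x').mul_mem ((stb K x').inv_mem hk) hl) ?_
    rw [Equiv.Perm.mul_apply, e]
    simp
  have hi : Inq (stb K x') q' w := Inq.symm hqw
  obtain ⟨xs, hxs1, hxs2, hxs3, hxs4, hxs5, hxs6⟩ := exists_reps (stb K x') D hDinv
    (x := q') (z := w) (by rw [hD, Finset.mem_filter]; exact ⟨hqB, hqD⟩)
    (by rw [hD, Finset.mem_filter]; exact ⟨hwB, hwD⟩) hi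
  obtain ⟨bs₂, h₂, hfst, hhead, hlast, _, _⟩ := chainSome hC xs
    (fun y hy => (Finset.mem_filter.1 (hxs5 y hy)).1) hxs4 hxs3
    (x :: r :: (m.reverse ++ [q'])) (v₀ ++ [w]) hbwd hvwd
    (by rw [hxs1]; simp [List.getLast?_cons]) (by rw [hxs2]; simp)
  have hfin := glue hA hp hone hx hx' hκ hκx h₁ h₂ hw₁ (by rw [hfst]; exact hxs4) ?_ ?_
    hu hlast ha hhead (by simp)
  · simpa using hfin
  · intro b hb
    by_cases hbD : b ∈ D
    · left
      rw [hfst]
      exact hxs6 b hbD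
    · right
      rw [hD, Finset.mem_filter] at hbD
      push Not at hbD
      obtain ⟨y, hy, k, hk, e⟩ := hbD hb
      refine ⟨y, hy, κ⁻¹ * k * κ, ?_, ?_⟩
      · rw [mem_stb] at hk ⊢
        refine ⟨K.mul_mem (K.mul_mem (K.inv_mem hκ) hk.1) hκ, ?_⟩
        simp only [Equiv.Perm.coe_mul, Function.comp_apply]
        rw [hκx, hk.2, hκ']
      · simp only [Equiv.Perm.coe_mul, Function.comp_apply]
        rw [e]
  · intro y hy z hz k hk
    rw [hfst] at hz
    exact (Finset.mem_filter.1 (hxs5 z hz)).2 y hy k hk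

theorem filler (hc : Cls R K A) (h6 : 6 ≤ A.card) {x q₁ x' q' : α}
    (h7 : 7 ≤ A.card ∨ stb K x = ⊥) (hx : x ∈ A) (hq₁ : q₁ ∈ A) (hx' : x' ∈ A) (hq' : q' ∈ A)
    (hnd : [x, q₁, x', q'].Nodup) {u₀ : List α} (hu₀ : Wd ((A.erase x).erase q₁) u₀) :
    ∃ m, Wd ((A.erase x).erase q₁) (x' :: q' :: m) ∧
      Adm (stb (stb K x) q₁) u₀ (x' :: q' :: m) := by
  classical
  simp only [List.nodup_cons, List.mem_cons, List.not_mem_nil, or_false, not_or,
    not_false_eq_true, List.nodup_nil, and_true] at hnd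
  obtain ⟨⟨n1, n2, n3⟩, ⟨n4, n5⟩, n6⟩ := hnd
  have hq₁B : q₁ ∈ A.erase x := Finset.mem_erase.2 ⟨fun h => n1 h.symm, hq₁⟩
  set B := (A.erase x).erase q₁ with hB
  have hBc : B.card = A.card - 2 := by
    rw [hB, Finset.card_erase_of_mem hq₁B, Finset.card_erase_of_mem hx]; omega
  have hx'B : x' ∈ B := by
    rw [hB, Finset.mem_erase, Finset.mem_erase]
    exact ⟨fun h => n4 h.symm, fun h => n2 h.symm, hx'⟩
  have hq'B : q' ∈ B := by
    rw [hB, Finset.mem_erase, Finset.mem_erase]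
    exact ⟨fun h => n5 h.symm, fun h => n3 h.symm, hq'⟩
  set L := (B.erase x').erase q' with hL
  have hLc : L.card = B.card - 2 := by
    rw [hL, Finset.card_erase_of_mem (Finset.mem_erase.2 ⟨fun h => n6 h.symm, hq'B⟩),
      Finset.card_erase_of_mem hx'B]; omega
  have hLB : L ⊆ B := (Finset.erase_subset _ _).trans (Finset.erase_subset _ _)
  have hLne : ∀ p ∈ L, p ≠ x' ∧ p ≠ q' := by
    intro p hp
    rw [hL, Finset.mem_erase, Finset.mem_erase] at hp
    exact ⟨hp.2.1, hp.1⟩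
  obtain ⟨u1, β', hβ', rfl, hu1⟩ := hu₀.exists_last (Finset.card_pos.1 (by omega))
  have hc1 : 0 < (B.erase β').card := by rw [Finset.card_erase_of_mem hβ']; omega
  obtain ⟨u2, β, hβ, rfl, hu2⟩ := hu1.exists_last (Finset.card_pos.1 hc1)
  have hpq : ∃ p ∈ L, ∃ q ∈ L, p ≠ q ∧ ∀ k ∈ stb (stb K x) q₁, ¬ (k β = p ∧ k β' = q) := by
    rcases h7 with h7 | h7
    · refine ((hc.stb hx).stb hq₁B).pair L hLB ?_ β β'
      rcases Nat.lt_or_ge A.card 8 with h8 | h8
      · left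
        constructor
        · rw [← hB]; omega
        · omega
      · right; omega
    · have hbot : stb (stb K x) q₁ = ⊥ := by
        rw [h7]; exact le_bot_iff.1 (stb_le _ q₁)
      rw [hbot]
      have h1 : 1 < L.card := by omega
      obtain ⟨a, ha, b, hb, hab⟩ := Finset.one_lt_card.1 h1
      by_cases he : β = a ∧ β' = b
      · refine ⟨b, hb, a, ha, hab.symm, ?_⟩
        intro k hk
        rw [Subgroup.mem_bot] at hk
        rw [hk]
        rintro ⟨e1, -⟩
        simp only [Equiv.Perm.coe_one, id_eq] at e1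
        exact hab (he.1.symm.trans e1)
      · refine ⟨a, ha, b, hb, hab, ?_⟩
        intro k hk
        rw [Subgroup.mem_bot] at hk
        rw [hk]
        simpa using he
  obtain ⟨p, hp, q, hq, hpq, hk⟩ := hpq
  obtain ⟨m, hm⟩ := exists_word B [x', q'] [p, q] (by
      have h1 := hLne p hp
      have h2 := hLne q hq
      simp only [List.cons_append, List.nil_append, List.nodup_cons, List.mem_cons,
        List.not_mem_nil, or_false, not_or, not_false_eq_true, List.nodup_nil, and_true]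
      exact ⟨⟨n6, fun h => h1.1 h.symm, fun h => h2.1 h.symm⟩,
        ⟨fun h => h1.2 h.symm, fun h => h2.2 h.symm⟩, hpq⟩) (by
      intro a ha
      simp only [List.cons_append, List.nil_append, List.mem_cons, List.not_mem_nil,
        or_false] at ha
      rcases ha with rfl | rfl | rfl | rfl
      · exact hx'B
      · exact hq'B
      · exact hLB hp
      · exact hLB hq)
  refine ⟨m ++ [p, q], by simpa using hm, ?_⟩
  have : x' :: q' :: (m ++ [p, q]) = (x' :: q' :: m) ++ [p, q] := by simp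
  rw [this, List.append_assoc, List.singleton_append, adm_iff]
  exact hk

/-- Option F -/
theorem optF (hc : Cls R K A) (h6 : 6 ≤ A.card)
    (hG2 : ∀ x ∈ A, (7 ≤ A.card ∨ stb K x = ⊥) → ∀ q ∈ A.erase x,
      Good (stb (stb K x) q) ((A.erase x).erase q))
    (hC : ∀ x ∈ A, (7 ≤ A.card ∨ stb K x = ⊥) → ChainHyp (stb K x) (A.erase x))
    (hone : ∀ x ∈ A, ∀ y ∈ A, ¬ Inq K x y)
    (h7 : ∀ x ∈ A, (7 ≤ A.card ∨ stb K x = ⊥))
    {u₀ v₀ : List α} {q₁ x w x' q' : α} (hu : Wd A (u₀ ++ [q₁, x])) (hv : Wd A (v₀ ++ [w, x']))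
    {κ : Equiv.Perm α} (hκ : κ ∈ K) (hκx : κ x = x') (hxx : x ≠ x') (hq₁ : q₁ ≠ x')
    (hw : ∀ k ∈ stb K x', k (κ q₁) ≠ w) (hq' : q' ∈ A) (hq'x : q' ≠ x) (hq'x' : q' ≠ x')
    (hq'q : q' ≠ q₁) (hq'0 : ∀ k ∈ stb K x', k (κ q₁) ≠ q') (hq'w : ∀ k ∈ stb K x', k w ≠ q') :
    Conn K A (u₀ ++ [q₁, x]) (v₀ ++ [w, x']) := by
  have hx : x ∈ A := hu.mem.1 (by simp)
  have hx' : x' ∈ A := hv.mem.1 (by simp)
  have hq₁A : q₁ ∈ A := hu.mem.1 (by simp)
  have hu' : Wd A ((u₀ ++ [q₁]) ++ [x]) := by simpa using hu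
  have hu1 : Wd (A.erase x) (u₀ ++ [q₁]) := (wd_append hx).1 hu'
  have hq₁B : q₁ ∈ A.erase x := hu1.mem.1 (by simp)
  have hu2 : Wd ((A.erase x).erase q₁) u₀ := (wd_append hq₁B).1 hu1
  have hq₁x : q₁ ≠ x := (Finset.mem_erase.1 hq₁B).1
  obtain ⟨m, hm, hadm⟩ := filler hc h6 (h7 x hx) hx hq₁A hx' hq' (by
    simp only [List.nodup_cons, List.mem_cons, List.not_mem_nil, or_false, not_or,
      not_false_eq_true, List.nodup_nil, and_true]
    exact ⟨⟨fun h => hq₁x h.symm, hxx, fun h => hq'x h.symm⟩, ⟨hq₁, fun h => hq'q h.symm⟩,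
      fun h => hq'x' h.symm⟩) hu2
  obtain ⟨bs₁, h₁, hf₁, hh₁, hl₁, _⟩ := blockOne (K := stb K x) (A := A.erase x) (x := q₁) hq₁B
    (stb_pres hc.pres x) (hG2 x hx (h7 x hx) q₁ hq₁B) hu1 ((wd_append hq₁B).2 hm) hadm
  have := second (by omega) hc.pres hone hx hx' (hC x' hx' (h7 x' hx')) hκ hκx h₁
    (by rw [hf₁]; simp) hh₁ (by rw [hl₁]; rfl) hv
    (by rw [hf₁]; intro y hy; rw [List.mem_singleton] at hy; rw [hy]; exact hw)
    (by rw [hf₁]; intro y hy; rw [List.mem_singleton] at hy; rw [hy]; exact hq'0) hq'w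
  simpa using this

/-- Option M -/
theorem optM (hc : Cls R K A) (h6 : 6 ≤ A.card)
    (hC : ∀ x ∈ A, (7 ≤ A.card ∨ stb K x = ⊥) → ChainHyp (stb K x) (A.erase x))
    (hone : ∀ x ∈ A, ∀ y ∈ A, ¬ Inq K x y)
    (hbot : ∀ x ∈ A, stb K x = ⊥)
    {u₀ v₀ : List α} {x x' : α} (hu : Wd A (u₀ ++ [x', x])) (hv : Wd A (v₀ ++ [x, x']))
    {κ : Equiv.Perm α} (hκ : κ ∈ K) (hκx : κ x = x') (hκx' : κ x' ≠ x) :
    Conn K A (u₀ ++ [x', x]) (v₀ ++ [x, x']) := by
  classical
  have hx : x ∈ A := hu.mem.1 (by simp)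
  have hx' : x' ∈ A := hv.mem.1 (by simp)
  have hu' : Wd A ((u₀ ++ [x']) ++ [x]) := by simpa using hu
  have hu1 : Wd (A.erase x) (u₀ ++ [x']) := (wd_append hx).1 hu'
  have hx'B : x' ∈ A.erase x := hu1.mem.1 (by simp)
  have hxx : x' ≠ x := (Finset.mem_erase.1 hx'B).1
  have h7 : ∀ x ∈ A, (7 ≤ A.card ∨ stb K x = ⊥) := fun x hx => Or.inr (hbot x hx)
  obtain ⟨r, hr, hr'⟩ := Finset.exists_mem_notMem_of_card_lt_card
    (s := ({x, x', κ⁻¹ x} : Finset α)) (t := A) (Finset.card_le_three.trans_lt (by omega))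
  simp only [Finset.mem_insert, Finset.mem_singleton, not_or] at hr'
  obtain ⟨q', hq', hq''⟩ := Finset.exists_mem_notMem_of_card_lt_card
    (s := ({x, x', r, κ x', κ r} : Finset α)) (t := A) (Finset.card_le_five.trans_lt (by omega))
  simp only [Finset.mem_insert, Finset.mem_singleton, not_or] at hq''
  obtain ⟨r1, r2, r3⟩ := hr'
  obtain ⟨q1, q2, q3, q4, q5⟩ := hq''
  have hrB : r ∈ A.erase x := Finset.mem_erase.2 ⟨r1, hr⟩
  obtain ⟨m, hm⟩ := exists_word (A.erase x) [x', q'] [r] (by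
      simp only [List.cons_append, List.nil_append, List.nodup_cons, List.mem_cons,
        List.not_mem_nil, or_false, not_or, not_false_eq_true, List.nodup_nil, and_true]
      exact ⟨⟨fun h => q2 h.symm, fun h => r2 h.symm⟩, q3⟩) (by
      intro a ha
      simp only [List.cons_append, List.nil_append, List.mem_cons, List.not_mem_nil,
        or_false] at ha
      rcases ha with rfl | rfl | rfl
      · exact hx'B
      · exact Finset.mem_erase.2 ⟨q1, hq'⟩
      · exact hrB)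
  have hm' : Wd (A.erase x) (x' :: q' :: (m ++ [r])) := by simpa using hm
  have hpw : [x', r].Pairwise (Inq (stb K x)) := by
    rw [hbot x hx, List.pairwise_pair]
    intro k hk
    rw [Subgroup.mem_bot] at hk
    rw [hk]
    exact fun h => r2 h.symm
  obtain ⟨bs₁, h₁, hf₁, hh₁, hl₁, _, _⟩ := chainSome (hC x hx (h7 x hx)) [x', r]
    (by
      intro y hy
      simp only [List.mem_cons, List.not_mem_nil, or_false] at hy
      rcases hy with rfl | rfl
      · exact hx'B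
      · exact hrB) hpw (by simp) (u₀ ++ [x']) (x' :: q' :: (m ++ [r])) hu1 hm'
    (by simp) (by simp [List.getLast?_cons])
  have hbot' := hbot x' hx'
  have hcase : ∀ t : α, t ≠ κ x' → t ≠ κ r → ∀ y ∈ bs₁.map Prod.fst, ∀ k ∈ stb K x', k (κ y) ≠ t := by
    intro t ht1 ht2 y hy k hk
    rw [hbot', Subgroup.mem_bot] at hk
    rw [hf₁] at hy
    simp only [List.mem_cons, List.not_mem_nil, or_false] at hy
    rw [hk]
    rcases hy with rfl | rfl
    · exact fun h => ht1 h.symm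
    · exact fun h => ht2 h.symm
  have := second (by omega) hc.pres hone hx hx' (hC x' hx' (h7 x' hx')) hκ hκx h₁
    (by rw [hf₁]; exact hpw) hh₁ hl₁ hv
    (hcase x (fun h => hκx' h.symm) (fun h => r3 (by rw [h]; simp)))
    (hcase q' q4 q5)
    (by
      intro k hk
      rw [hbot', Subgroup.mem_bot] at hk
      rw [hk]
      exact fun h => q1 h.symm)
  simpa using this

/-- a letter outside a set of at most seven letters -/
theorem exists_letter (h7 : 7 ≤ A.card) {x x' q₁ w : α} {κ τ : Equiv.Perm α}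
    (hp : ∀ a ∈ A, τ a ∈ A) (hx : x ∈ A) (hx' : x' ∈ A) (hxx : x ≠ x')
    (hτx' : τ x' = x') (hττ : ∀ a, τ (τ a) = a)
    (hmv : 6 ≤ (A.filter fun a => τ a ≠ a).card) (hcond : q₁ ≠ τ x ∨ w = x) :
    ∃ q' ∈ A, q' ≠ x ∧ q' ≠ x' ∧ q' ≠ q₁ ∧ q' ≠ κ q₁ ∧ q' ≠ τ (κ q₁) ∧ q' ≠ w ∧ q' ≠ τ w := by
  by_cases hq : q₁ = τ x
  · have hw : w = x := by
      rcases hcond with h | h
      · exact absurd hq h
      · exact h
    obtain ⟨q', hq', h⟩ := Finset.exists_mem_notMem_of_card_lt_card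
      (s := ({x, x', q₁, κ q₁, τ (κ q₁)} : Finset α)) (t := A)
      (Finset.card_le_five.trans_lt (by omega))
    simp only [Finset.mem_insert, Finset.mem_singleton, not_or] at h
    obtain ⟨n1, n2, n3, n4, n5⟩ := h
    refine ⟨q', hq', n1, n2, n3, n4, n5, ?_, ?_⟩
    · rw [hw]; exact n1
    · rw [hw, ← hq]; exact n3
  · by_cases hm : τ x = x ∨ τ x = κ q₁ ∨ τ x = τ (κ q₁) ∨ τ x = w ∨ τ x = τ w
    · by_cases hxf : τ x = x
      · have h8 : 8 ≤ A.card := by
          have hsub : (A.filter fun a => τ a ≠ a) ⊆ (A.erase x).erase x' := by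
            intro a ha
            rw [Finset.mem_filter] at ha
            rw [Finset.mem_erase, Finset.mem_erase]
            refine ⟨?_, ?_, ha.1⟩
            · rintro rfl; exact ha.2 hτx'
            · rintro rfl; exact ha.2 hxf
          have := Finset.card_le_card hsub
          rw [Finset.card_erase_of_mem (Finset.mem_erase.2 ⟨fun h => hxx h.symm, hx'⟩),
            Finset.card_erase_of_mem hx] at this
          omega
        obtain ⟨q', hq', h⟩ := Finset.exists_mem_notMem_of_card_lt_card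
          (s := insert x ({x', q₁, κ q₁, τ (κ q₁), w, τ w} : Finset α)) (t := A)
          (((Finset.card_insert_le _ _).trans
            (Nat.add_le_add_right Finset.card_le_six 1)).trans_lt (by omega))
        simp only [Finset.mem_insert, Finset.mem_singleton, not_or] at h
        obtain ⟨n1, n2, n3, n4, n5, n6, n7⟩ := h
        exact ⟨q', hq', n1, n2, n3, n4, n5, n6, n7⟩
      · obtain ⟨q', hq', h⟩ := Finset.exists_mem_notMem_of_card_lt_card
          (s := ({x', q₁, κ q₁, τ (κ q₁), w, τ w} : Finset α)) (t := A)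
          (Finset.card_le_six.trans_lt (by omega))
        simp only [Finset.mem_insert, Finset.mem_singleton, not_or] at h
        obtain ⟨n2, n3, n4, n5, n6, n7⟩ := h
        refine ⟨q', hq', ?_, n2, n3, n4, n5, n6, n7⟩
        rcases hm with e | e | e | e | e
        · exact absurd e hxf
        · have : x = τ (κ q₁) := by rw [← e, hττ]
          rw [this]; exact n5
        · rw [τ.injective e]; exact n4
        · have : x = τ w := by rw [← e, hττ]
          rw [this]; exact n7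
        · rw [τ.injective e]; exact n6
    · simp only [not_or] at hm
      obtain ⟨n1, n2, n3, n4, n5⟩ := hm
      refine ⟨τ x, hp x hx, n1, ?_, fun h => hq h.symm, n2, n3, n4, n5⟩
      intro h
      apply hxx
      apply τ.injective
      rw [h, hτx']

/-- Option F with at most one reflection fixing `x'` -/
theorem optF7 (hc : Cls R K A) (h7 : 7 ≤ A.card)
    (hG2 : ∀ x ∈ A, (7 ≤ A.card ∨ stb K x = ⊥) → ∀ q ∈ A.erase x,
      Good (stb (stb K x) q) ((A.erase x).erase q))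
    (hC : ∀ x ∈ A, (7 ≤ A.card ∨ stb K x = ⊥) → ChainHyp (stb K x) (A.erase x))
    (hone : ∀ x ∈ A, ∀ y ∈ A, ¬ Inq K x y)
    {u₀ v₀ : List α} {q₁ x w x' : α} (hu : Wd A (u₀ ++ [q₁, x])) (hv : Wd A (v₀ ++ [w, x']))
    (hadm : Adm K (u₀ ++ [q₁, x]) (v₀ ++ [w, x']))
    {κ τ : Equiv.Perm α} (hκ : κ ∈ K) (hκx : κ x = x') (hxx : x ≠ x') (hq₁ : q₁ ≠ x')
    (hτ : τ ∈ stb K x') (hτR : τ ∉ R) (hcl : ∀ k ∈ stb K x', k = 1 ∨ k = τ)
    (hcond : q₁ ≠ τ x ∨ w = x) :
    Conn K A (u₀ ++ [q₁, x]) (v₀ ++ [w, x']) := by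
  have hx : x ∈ A := hu.mem.1 (by simp)
  have hx' : x' ∈ A := hv.mem.1 (by simp)
  have hτ' := mem_stb.1 hτ
  have hττ : ∀ a, τ (τ a) = a := by
    intro a
    rcases hcl (τ * τ) ((stb K x').mul_mem hτ hτ) with h | h
    · rw [← Equiv.Perm.mul_apply, h]; rfl
    · exfalso
      apply hτR
      have : τ = 1 := by
        have := congrArg (fun t => t * τ⁻¹) h
        simpa using this
      rw [this]
      exact R.one_mem
  obtain ⟨q', hq', n1, n2, n3, n4, n5, n6, n7⟩ := exists_letter (κ := κ) h7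
    (hc.pres τ hτ'.1) hx hx' hxx hτ'.2 hττ (hc.refl τ hτ'.1 hτR) hcond
  rw [adm_iff] at hadm
  refine optF hc (by omega) hG2 hC hone (fun x hx => Or.inl h7) hu hv hκ hκx hxx hq₁ ?_ hq'
    n1 n2 n3 ?_ ?_
  · intro k hk h
    refine hadm (k * κ) (K.mul_mem (mem_stb.1 hk).1 hκ) ⟨h, ?_⟩
    rw [Equiv.Perm.mul_apply, hκx, (mem_stb.1 hk).2]
  · intro k hk
    rcases hcl k hk with rfl | rfl
    · exact fun h => n4 h.symm
    · exact fun h => n5 h.symm
  · intro k hk
    rcases hcl k hk with rfl | rfl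
    · exact fun h => n6 h.symm
    · exact fun h => n7 h.symm

/-- Option F for groups without reflections -/
theorem optF1 (hc : Cls R K A) (h6 : 6 ≤ A.card)
    (hG2 : ∀ x ∈ A, (7 ≤ A.card ∨ stb K x = ⊥) → ∀ q ∈ A.erase x,
      Good (stb (stb K x) q) ((A.erase x).erase q))
    (hC : ∀ x ∈ A, (7 ≤ A.card ∨ stb K x = ⊥) → ChainHyp (stb K x) (A.erase x))
    (hone : ∀ x ∈ A, ∀ y ∈ A, ¬ Inq K x y) (hbot : ∀ x ∈ A, stb K x = ⊥)
    {u₀ v₀ : List α} {q₁ x w x' : α} (hu : Wd A (u₀ ++ [q₁, x])) (hv : Wd A (v₀ ++ [w, x']))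
    (hadm : Adm K (u₀ ++ [q₁, x]) (v₀ ++ [w, x']))
    {κ : Equiv.Perm α} (hκ : κ ∈ K) (hκx : κ x = x') (hxx : x ≠ x') (hq₁ : q₁ ≠ x') :
    Conn K A (u₀ ++ [q₁, x]) (v₀ ++ [w, x']) := by
  have hx' : x' ∈ A := hv.mem.1 (by simp)
  obtain ⟨q', hq', h⟩ := Finset.exists_mem_notMem_of_card_lt_card
    (s := ({x, x', q₁, κ q₁, w} : Finset α)) (t := A) (Finset.card_le_five.trans_lt (by omega))
  simp only [Finset.mem_insert, Finset.mem_singleton, not_or] at h
  obtain ⟨n1, n2, n3, n4, n5⟩ := h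
  rw [adm_iff] at hadm
  have hb := hbot x' hx'
  refine optF hc h6 hG2 hC hone (fun x hx => Or.inr (hbot x hx)) hu hv hκ hκx hxx hq₁ ?_ hq'
    n1 n2 n3 ?_ ?_
  · intro k hk h
    refine hadm (k * κ) (K.mul_mem (mem_stb.1 hk).1 hκ) ⟨h, ?_⟩
    rw [Equiv.Perm.mul_apply, hκx, (mem_stb.1 hk).2]
  · intro k hk
    rw [hb, Subgroup.mem_bot] at hk
    rw [hk]
    exact fun h => n4 h.symm
  · intro k hk
    rw [hb, Subgroup.mem_bot] at hk
    rw [hk]
    exact fun h => n5 h.symm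

/-- the case of equal last letters -/
theorem same (hp : ∀ k ∈ K, ∀ a ∈ A, k a ∈ A)
    (hG : ∀ x ∈ A, Good (stb K x) (A.erase x))
    (hone : ∀ x ∈ A, ∀ y ∈ A, ¬ Inq K x y)
    {u₀ v₀ : List α} {q₁ x w : α} (hu : Wd A (u₀ ++ [q₁, x])) (hv : Wd A (v₀ ++ [w, x]))
    (hadm : Adm K (u₀ ++ [q₁, x]) (v₀ ++ [w, x])) :
    Conn K A (u₀ ++ [q₁, x]) (v₀ ++ [w, x]) := by
  have hx : x ∈ A := hu.mem.1 (by simp)
  have hu1 : Wd (A.erase x) (u₀ ++ [q₁]) := (wd_append hx).1 (by simpa using hu)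
  have hv1 : Wd (A.erase x) (v₀ ++ [w]) := (wd_append hx).1 (by simpa using hv)
  rw [adm_iff] at hadm
  obtain ⟨P, t, hh, hl, _⟩ := hG x hx _ _ hu1 hv1 (adm_of_inq (by
    intro k hk h
    exact hadm k (mem_stb.1 hk).1 ⟨h, (mem_stb.1 hk).2⟩))
  refine ⟨P.map (· ++ [x]), t.lift.congr ?_, ?_, ?_, ?_⟩
  · intro w
    constructor
    · rintro ⟨k, hk, w', hw', rfl⟩
      exact ((wd_append hx).2 hw').map (hp k hk)
    · intro hw
      obtain ⟨w', y, hy, rfl, hw'⟩ := hw.exists_last ⟨x, hx⟩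
      have h1 := hone x hx y hy
      unfold Inq at h1
      push Not at h1
      obtain ⟨k, hk, hky⟩ := h1
      have hky' : k⁻¹ y = x := by rw [← hky]; simp
      refine ⟨k, hk, w'.map (k⁻¹ : Equiv.Perm α), ?_, ?_⟩
      · have h2 := hw.map (hp k⁻¹ (K.inv_mem hk))
        rw [List.map_append, List.map_cons, List.map_nil, hky', wd_append hx] at h2
        exact h2
      · rw [List.map_append, List.map_map]
        simp [hky]
  · rw [List.head?_map, hh]
    simp
  · rw [List.getLast?_map, hl]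
    simp
  · intro y hy y' hy' hi
    exact absurd hi (hone y hy y' hy')

end One

theorem conn_one {R K : Subgroup (Equiv.Perm α)} {A : Finset α} (hc : Cls R K A)
    (h6 : 6 ≤ A.card) (hG : ∀ x ∈ A, Good (stb K x) (A.erase x))
    (hG2 : ∀ x ∈ A, (7 ≤ A.card ∨ stb K x = ⊥) → ∀ q ∈ A.erase x,
      Good (stb (stb K x) q) ((A.erase x).erase q))
    (hC : ∀ x ∈ A, (7 ≤ A.card ∨ stb K x = ⊥) → ChainHyp (stb K x) (A.erase x))
    (hone : ∀ x ∈ A, ∀ y ∈ A, ¬ Inq K x y)
    {u v : List α} {x x' : α} (hu : Wd A (u ++ [x])) (hv : Wd A (v ++ [x']))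
    (hadm : Adm K (u ++ [x]) (v ++ [x'])) :
    Conn K A (u ++ [x]) (v ++ [x']) := by
  have hx : x ∈ A := hu.mem.1 (by simp)
  have hx' : x' ∈ A := hv.mem.1 (by simp)
  have hu1 : Wd (A.erase x) u := (wd_append hx).1 hu
  have hv1 : Wd (A.erase x') v := (wd_append hx').1 hv
  have hne : (A.erase x).Nonempty := by
    apply Finset.card_pos.1
    rw [Finset.card_erase_of_mem hx]; omega
  have hne' : (A.erase x').Nonempty := by
    apply Finset.card_pos.1
    rw [Finset.card_erase_of_mem hx']; omega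
  obtain ⟨u₀, q₁, hq₁, rfl, _⟩ := hu1.exists_last hne
  obtain ⟨v₀, w, hw, rfl, _⟩ := hv1.exists_last hne'
  rw [List.append_assoc, List.singleton_append] at hu hadm ⊢
  rw [List.append_assoc, List.singleton_append] at hv hadm ⊢
  by_cases hxx : x = x'
  · subst hxx
    exact One.same hc.pres hG hone hu hv hadm
  obtain ⟨htr, hreg⟩ := hc.transitive h6 hone
  obtain ⟨κ, hκR, hκx⟩ := htr x hx x' hx'
  have hκ : κ ∈ K := hc.le hκR
  have hκ' : κ⁻¹ x' = x := by rw [← hκx]; simp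
  by_cases hKR : ∀ k ∈ K, k ∈ R
  · have hbot : ∀ y ∈ A, stb K y = ⊥ := by
      intro y hy
      rw [Subgroup.eq_bot_iff_forall]
      intro k hk
      rw [mem_stb] at hk
      exact hreg k (hKR k hk.1) y hy hk.2
    by_cases h1 : q₁ = x'
    · by_cases h2 : w = x
      · subst h1 h2
        refine One.optM hc h6 hC hone hbot hu hv hκ hκx ?_
        intro h
        exact (adm_iff.1 hadm) κ hκ ⟨h, hκx⟩
      · exact (One.optF1 hc h6 hG2 hC hone hbot hv hu hadm.symm (K.inv_mem hκ) hκ'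
          (fun h => hxx h.symm) h2).symm
    · exact One.optF1 hc h6 hG2 hC hone hbot hu hv hadm hκ hκx hxx h1
  · push Not at hKR
    obtain ⟨k₀, hk₀, hk₀R⟩ := hKR
    have hτ : ∀ y ∈ A, ∃ τ ∈ stb K y, τ ∉ R := by
      intro y hy
      obtain ⟨r, hr, hry⟩ := htr (k₀ y) (hc.pres k₀ hk₀ y hy) y hy
      refine ⟨r * k₀, mem_stb.2 ⟨K.mul_mem (hc.le hr) hk₀, ?_⟩, ?_⟩
      · rw [Equiv.Perm.mul_apply, hry]
      · intro h
        apply hk₀R
        have := R.mul_mem (R.inv_mem hr) h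
        simpa using this
    have huniq : ∀ y ∈ A, ∀ k ∈ stb K y, ∀ l ∈ stb K y, k ∉ R → l ∉ R → k = l := by
      intro y hy k hk l hl hkR hlR
      have hk' := mem_stb.1 hk
      have hl' := mem_stb.1 hl
      have e1 : k * l = 1 := hreg _ (hc.idx k hk'.1 l hl'.1 hkR hlR) y hy
        (by rw [Equiv.Perm.mul_apply, hl'.2, hk'.2])
      have e2 : l * l = 1 := hreg _ (hc.idx l hl'.1 l hl'.1 hlR hlR) y hy
        (by rw [Equiv.Perm.mul_apply, hl'.2, hl'.2])
      exact mul_right_cancel (e1.trans e2.symm)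
    have hinv : ∀ k ∈ K, k ∉ R → ∀ r ∈ R, ∀ y, k (r y) = r⁻¹ (k y) := by
      intro k hk hkR r hr y
      have := hc.inv k hk hkR r hr
      rw [mul_inv_eq_iff_eq_mul] at this
      have h2 := congrArg (fun t => t y) this
      simpa [Equiv.Perm.mul_apply] using h2
    obtain ⟨τ', hτ', hτ'R⟩ := hτ x' hx'
    obtain ⟨τ, hτx, hτR⟩ := hτ x hx
    have hcl' : ∀ k ∈ stb K x', k = 1 ∨ k = τ' := by
      intro k hk
      by_cases hkR : k ∈ R
      · exact Or.inl (hreg k hkR x' hx' (mem_stb.1 hk).2)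
      · exact Or.inr (huniq x' hx' k hk τ' hτ' hkR hτ'R)
    have hcl : ∀ k ∈ stb K x, k = 1 ∨ k = τ := by
      intro k hk
      by_cases hkR : k ∈ R
      · exact Or.inl (hreg k hkR x hx (mem_stb.1 hk).2)
      · exact Or.inr (huniq x hx k hk τ hτx hkR hτR)
    have h7 : 7 ≤ A.card := by
      have hsub : (A.filter fun a => τ a ≠ a) ⊆ A.erase x := by
        intro a ha
        rw [Finset.mem_filter] at ha
        rw [Finset.mem_erase]
        refine ⟨?_, ha.1⟩
        rintro rfl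
        exact ha.2 (mem_stb.1 hτx).2
      have h1 := Finset.card_le_card hsub
      have h2 := hc.refl τ (mem_stb.1 hτx).1 hτR
      rw [Finset.card_erase_of_mem hx] at h1
      omega
    have hadm' := adm_iff.1 hadm
    -- `τ' x` and `τ x'`
    have e1 : κ (τ' x) = κ (κ x') := by
      have h := hinv τ' (mem_stb.1 hτ').1 hτ'R κ⁻¹ (R.inv_mem hκR) x'
      rw [hκ', (mem_stb.1 hτ').2, inv_inv] at h
      rw [h]
    have e1' : τ' x = κ x' := κ.injective e1
    have e2' : τ x' = κ⁻¹ x := by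
      have h := hinv τ (mem_stb.1 hτx).1 hτR κ hκR x
      rw [hκx, (mem_stb.1 hτx).2] at h
      exact h
    by_cases hF : q₁ ≠ x' ∧ (q₁ ≠ τ' x ∨ w = x)
    · exact One.optF7 hc h7 hG2 hC hone hu hv hadm hκ hκx hxx hF.1 hτ' hτ'R hcl' hF.2
    by_cases hL : w ≠ x ∧ (w ≠ τ x' ∨ q₁ = x')
    · exact (One.optF7 hc h7 hG2 hC hone hv hu hadm.symm (K.inv_mem hκ) hκ'
          (fun h => hxx h.symm) hL.1 hτx hτR hcl hL.2).symm
    exfalso
    by_cases h1 : q₁ = x'
    · have h2 : w = x := by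
        by_contra h2
        exact hL ⟨h2, Or.inr h1⟩
      refine hadm' (κ⁻¹ * τ') (K.mul_mem (K.inv_mem hκ) (mem_stb.1 hτ').1) ⟨?_, ?_⟩
      · rw [Equiv.Perm.mul_apply, h1, (mem_stb.1 hτ').2, hκ', h2]
      · rw [Equiv.Perm.mul_apply, e1']
        simp
    · have h3 : q₁ = τ' x ∧ w ≠ x := by
        by_contra h3
        apply hF
        refine ⟨h1, ?_⟩
        by_cases h4 : q₁ = τ' x
        · right
          by_contra h5
          exact h3 ⟨h4, h5⟩
        · exact Or.inl h4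
      have h4 : w = τ x' := by
        by_contra h4
        exact hL ⟨h3.2, Or.inl h4⟩
      refine hadm' (τ' * κ) (K.mul_mem (mem_stb.1 hτ').1 hκ) ⟨?_, ?_⟩
      · rw [Equiv.Perm.mul_apply, h3.1, e1', hinv τ' (mem_stb.1 hτ').1 hτ'R κ hκR,
          hinv τ' (mem_stb.1 hτ').1 hτ'R κ hκR, (mem_stb.1 hτ').2, hκ', h4, e2']
      · rw [Equiv.Perm.mul_apply, hκx, (mem_stb.1 hτ').2]

end Pan
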