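import Pool.Agent.Hhelper18.Pan.Split
import Pool.Agent.Hhelper18.Pan.Pick
import Pool.Agent.Hhelper18.Pan.Copy

/-! # MODULE TW : equivalent last letters, two orbits -/

set_option linter.unusedSectionVars false

namespace Pan

variable {α : Type*} [DecidableEq α]

lemma erase_pres {K : Subgroup (Equiv.Perm α)} {A : Finset α} (hp : ∀ k ∈ K, ∀ a ∈ A, k a ∈ A)
    (x : α) : ∀ k ∈ stb K x, ∀ a ∈ A.erase x, k a ∈ A.erase x := by
  intro k hk a ha
  rw [Finset.mem_erase] at ha ⊢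
  refine ⟨?_, hp k (stb_le K x hk) a ha.2⟩
  intro e
  apply ha.1
  have := (mem_stb.1 hk).2
  exact k.injective (e.trans this.symm)

/-- gluing three pieces -/
theorem conn_of_pieces {K : Subgroup (Equiv.Perm α)} {A : Finset α}
    (hp : ∀ k ∈ K, ∀ a ∈ A, k a ∈ A) (h2 : 2 ≤ A.card) {x x' y : α} (hx : x ∈ A) (hx'A : x' ∈ A)
    (hxy : Inq K x y) (hcov : ∀ b ∈ A, (∃ k ∈ K, k x = b) ∨ (∃ k ∈ K, k y = b))
    {κ : Equiv.Perm α} (hκ : κ ∈ K) (hx' : κ x = x') {X X' : List α}
    (hXd : ∀ q ∈ X, ∀ q' ∈ X', Inq (stb K x') (κ q) q')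
    (hXc : ∀ r ∈ A.erase x', (∃ q ∈ X, ∃ l ∈ stb K x', l (κ q) = r) ∨
      (∃ q ∈ X', ∃ l ∈ stb K x', l q = r))
    {P₁ P₂ P₃ : List (List α)} (h₁ : TPon K (Piece K A x X) P₁) (h₂ : TPon K (LastIn K A [y]) P₂)
    (h₃ : TPon K (Piece K A x' X') P₃) {u v a a' : List α} (hu : P₁.head? = some u)
    (ha : P₁.getLast? = some a) (hb : P₂.head? = some a.reverse)
    (hb' : P₂.getLast? = some a'.reverse) (ha' : P₃.head? = some a') (hv : P₃.getLast? = some v)
    (hay : a.head? = some y) (hax : a.getLast? = some x) (hlen : 2 ≤ a.length)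
    (hlen' : 2 ≤ a'.length) :
    Conn K A u v := by
  have hd12 : ∀ w w', Piece K A x X w → LastIn K A [y] w' → ¬ Eqv K w w' := fun w w' h h' =>
    lastIn_disj hxy (h.lastIn hp hx) h'
  have hyx' : Inq K y x' := by
    have := (hxy.symm).map K.one_mem hκ
    simpa [hx'] using this
  have hj12 : ∀ p ∈ P₁.getLast?, ∀ q ∈ P₂.head?, Adj p q := by
    intro p hp' q hq
    rw [ha] at hp'
    rw [hb] at hq
    simp only [Option.mem_def, Option.some.injEq] at hp' hq
    subst hp' hq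
    exact adj_reverse hlen
  have h12 := h₁.append h₂ hd12 hj12
  have hne1 : P₁ ≠ [] := by rintro rfl; simp at hu
  have hne2 : P₂ ≠ [] := by rintro rfl; simp at hb
  have hne3 : P₃ ≠ [] := by rintro rfl; simp at ha'
  have hj23 : ∀ p ∈ (P₁ ++ P₂).getLast?, ∀ q ∈ P₃.head?, Adj p q := by
    intro p hp' q hq
    rw [List.getLast?_append, hb'] at hp'
    rw [ha'] at hq
    simp only [Option.some_or, Option.mem_def, Option.some.injEq] at hp' hq
    subst hp' hq
    have := adj_reverse (w := a'.reverse) (by simpa using hlen')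
    simpa using this
  have hd : ∀ w w', (Piece K A x X w ∨ LastIn K A [y] w) → Piece K A x' X' w' →
      ¬ Eqv K w w' := by
    rintro w w' (h | h) h'
    · exact piece_disj hp hx hx'A hκ hx' hXd h h'
    · exact lastIn_disj hyx' h (h'.lastIn hp hx'A)
  have h123 := h12.append h₃ hd hj23
  refine ⟨P₁ ++ P₂ ++ P₃, h123.congr ?_, ?_, ?_, ?_⟩
  · intro w
    constructor
    · rintro ((h | h) | h)
      · exact (h.lastIn hp hx).1
      · exact h.1
      · exact (h.lastIn hp hx'A).1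
    · intro hw
      obtain ⟨w', b, hb, rfl, -⟩ := hw.exists_last ⟨x, hx⟩
      rcases hcov b hb with ⟨k, hk, rfl⟩ | ⟨k, hk, rfl⟩
      · have : LastIn K A [x'] (w' ++ [k x]) := by
          refine ⟨hw, x', by simp, k * κ⁻¹, K.mul_mem hk (K.inv_mem hκ), ?_⟩
          simp [← hx']
        rcases piece_cover hp hx hx'A hκ hx' h2 hXc this with h | h
        · exact Or.inl (Or.inl h)
        · exact Or.inr h
      · left; right
        exact ⟨hw, y, by simp, k, hk, by simp⟩
  · rw [List.append_assoc, List.head?_append, hu]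
    simp
  · rw [List.getLast?_append, hv]
    simp
  · -- edges
    have hE : HasEdge K (P₁ ++ P₂ ++ P₃) y x := by
      refine ⟨a, a.reverse, ?_, Or.inl ⟨1, K.one_mem, 1, K.one_mem, by simpa using hay, by
        simpa using hax⟩⟩
      obtain ⟨P₁', rfl⟩ : ∃ P₁', P₁ = P₁' ++ [a] := by
        rw [List.getLast?_eq_some_iff] at ha; exact ha
      obtain ⟨P₂', rfl⟩ : ∃ P₂', P₂ = a.reverse :: P₂' := by
        rw [List.head?_eq_some_iff] at hb; exact hb
      exact ⟨P₁', P₂' ++ P₃, by simp⟩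
    intro y1 hy1 y2 hy2 hi
    rcases hcov y1 hy1 with ⟨k, hk, rfl⟩ | ⟨k, hk, rfl⟩ <;>
      rcases hcov y2 hy2 with ⟨l, hl, rfl⟩ | ⟨l, hl, rfl⟩
    · exact absurd (by simp) (hi (l * k⁻¹) (K.mul_mem hl (K.inv_mem hk)))
    · exact hE.swap.letters hk hl
    · exact hE.letters hk hl
    · exact absurd (by simp) (hi (l * k⁻¹) (K.mul_mem hl (K.inv_mem hk)))

lemma exists_two_last {A : Finset α} {w : List α} (h : Wd A w) (h2 : 2 ≤ A.card) :
    ∃ w0 p q, w = w0 ++ [p, q] := by
  have h1 := h.length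
  have hne : w ≠ [] := by rintro rfl; simp at h1; omega
  have e1 := (List.dropLast_append_getLast hne).symm
  have hne2 : w.dropLast ≠ [] := by
    intro h3
    have := congrArg List.length h3
    simp at this
    omega
  refine ⟨w.dropLast.dropLast, w.dropLast.getLast hne2, w.getLast hne, ?_⟩
  rw [show [w.dropLast.getLast hne2, w.getLast hne] = [w.dropLast.getLast hne2] ++ [w.getLast hne]
    from rfl, ← List.append_assoc, List.dropLast_append_getLast, List.dropLast_append_getLast]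

/-- the common data of the construction -/
structure TwoData (R K : Subgroup (Equiv.Perm α)) (A : Finset α) (x x' y q1 w : α)
    (κ : Equiv.Perm α) (u0 v0 : List α) : Prop where
  hc : Cls R K A
  h6 : 6 ≤ A.card
  hG : ∀ x ∈ A, Good (stb K x) (A.erase x)
  h7 : 7 ≤ A.card ∨ stb K x = ⊥
  h7' : 7 ≤ A.card ∨ stb K x' = ⊥
  hG2 : ∀ q ∈ A.erase x, Good (stb (stb K x) q) ((A.erase x).erase q)
  hG2' : ∀ q ∈ A.erase x', Good (stb (stb K x') q) ((A.erase x').erase q)
  hC' : ChainHyp (stb K x') (A.erase x')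
  hx : x ∈ A
  hx'A : x' ∈ A
  hκ : κ ∈ K
  hx' : κ x = x'
  hy : y ∈ A
  hxy : Inq K x y
  hcov : ∀ b ∈ A, (∃ k ∈ K, k x = b) ∨ (∃ k ∈ K, k y = b)
  hu : Wd A (u0 ++ [q1, x])
  hv : Wd A (v0 ++ [w, x'])
  hadm : ∀ k ∈ K, ¬ (k q1 = w ∧ k x = x')
  hyq : y ≠ q1

namespace TwoData

variable {R K : Subgroup (Equiv.Perm α)} {A : Finset α} {x x' y q1 w : α}
    {κ : Equiv.Perm α} {u0 v0 : List α}

lemma hu1 (D : TwoData R K A x x' y q1 w κ u0 v0) : Wd (A.erase x) (u0 ++ [q1]) := by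
  rw [← wd_append D.hx]
  simpa using D.hu

lemma hv1 (D : TwoData R K A x x' y q1 w κ u0 v0) : Wd (A.erase x') (v0 ++ [w]) := by
  rw [← wd_append D.hx'A]
  simpa using D.hv

lemma hq1 (D : TwoData R K A x x' y q1 w κ u0 v0) : q1 ∈ A.erase x := D.hu1.mem.1 (by simp)

lemma hw (D : TwoData R K A x x' y q1 w κ u0 v0) : w ∈ A.erase x' := D.hv1.mem.1 (by simp)

lemma hu2 (D : TwoData R K A x x' y q1 w κ u0 v0) : Wd ((A.erase x).erase q1) u0 :=
  (wd_append D.hq1).1 D.hu1

lemma hv2 (D : TwoData R K A x x' y q1 w κ u0 v0) : Wd ((A.erase x').erase w) v0 :=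
  (wd_append D.hw).1 D.hv1

lemma y_ne_x (D : TwoData R K A x x' y q1 w κ u0 v0) : y ≠ x := by
  rintro rfl
  exact D.hxy 1 K.one_mem rfl

lemma y_ne_x' (D : TwoData R K A x x' y q1 w κ u0 v0) : y ≠ x' := by
  rintro rfl
  exact D.hxy κ D.hκ D.hx'

lemma card1 (D : TwoData R K A x x' y q1 w κ u0 v0) {z : α} (hz : z ∈ A) :
    (A.erase z).card = A.card - 1 := Finset.card_erase_of_mem hz

lemma card2 (D : TwoData R K A x x' y q1 w κ u0 v0) {z t : α} (hz : z ∈ A) (ht : t ∈ A.erase z) :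
    ((A.erase z).erase t).card = A.card - 2 := by
  rw [Finset.card_erase_of_mem ht, Finset.card_erase_of_mem hz]; omega

/-- the first piece, and the data for the second one -/
lemma first (D : TwoData R K A x x' y q1 w κ u0 v0) : ∃ e f rest P,
    Wd A ([y, e, f] ++ rest ++ [q1, x]) ∧ TPon K (Piece K A x [q1]) P ∧
      P.head? = some (u0 ++ [q1, x]) ∧ P.getLast? = some ([y, e, f] ++ rest ++ [q1, x]) := by
  have hp := D.hc.pres
  have hcard2 := D.card2 D.hx D.hq1
  have h6 := D.h6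
  have hc2 := (D.hc.stb D.hx).stb D.hq1
  have hyB : y ∈ (A.erase x).erase q1 := by
    simp only [Finset.mem_erase]
    exact ⟨D.hyq, D.y_ne_x, D.hy⟩
  obtain ⟨u00, β, β', rfl⟩ := exists_two_last D.hu2 (by omega)
  have hLcard : (((A.erase x).erase q1).erase y).card = A.card - 3 := by
    rw [Finset.card_erase_of_mem hyB, hcard2]; omega
  obtain ⟨g, hg, h, hh, hgh, hne⟩ := hc2.pair (((A.erase x).erase q1).erase y)
    (Finset.erase_subset _ _) (by omega) β β'
  rw [Finset.mem_erase] at hg hh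
  obtain ⟨m, hm⟩ := exists_word ((A.erase x).erase q1) [y] [g, h]
    (by simp [hg.1.symm, hh.1.symm, hgh]) (by
      intro a ha
      simp only [List.cons_append, List.nil_append, List.mem_cons, List.not_mem_nil,
        or_false] at ha
      rcases ha with rfl | rfl | rfl
      · exact hyB
      · exact hg.2
      · exact hh.2)
  have hmlen := hm.length
  rw [hcard2] at hmlen
  simp only [List.length_append, List.length_cons, List.length_nil] at hmlen
  -- the first two letters of `m ++ [g, h]`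
  obtain ⟨e, f, rest, hefr⟩ : ∃ e f rest, m ++ [g, h] = [e, f] ++ rest := by
    match m, hmlen with
    | [], hmlen => simp at hmlen; omega
    | [a], _ => exact ⟨a, g, [h], by simp⟩
    | a :: b :: m', _ => exact ⟨a, b, m' ++ [g, h], by simp⟩
  have hword : [y, e, f] ++ rest = [y] ++ m ++ [g, h] := by
    rw [List.append_assoc, hefr]; simp
  have hW2 : Wd ((A.erase x).erase q1) ([y, e, f] ++ rest) := by rw [hword]; exact hm
  have hW1 : Wd (A.erase x) (([y, e, f] ++ rest) ++ [q1]) := (wd_append D.hq1).2 hW2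
  have hadm2 : Adm (Pan.stb (Pan.stb K x) q1) (u00 ++ [β, β']) ([y, e, f] ++ rest) := by
    rw [hword, adm_iff]
    exact hne
  obtain ⟨bs, hbs, hfst, hhead, hlast, -⟩ := blockOne (K := stb K x) (A := A.erase x) D.hq1
    (erase_pres hp x) (D.hG2 q1 D.hq1) D.hu1 hW1 hadm2
  have hpiece := hbs.piece (by rw [D.card1 D.hx]; omega) (erase_pres hp x)
    (by rw [hfst]; simp)
  rw [hfst] at hpiece
  refine ⟨e, f, rest, _, ?_, hpiece, ?_, ?_⟩
  · have := (wd_append D.hx).2 hW1
    simpa using this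
  · rw [List.head?_map, hhead]; simp
  · rw [List.getLast?_map, hlast]; simp

/-- the second piece -/
lemma second (D : TwoData R K A x x' y q1 w κ u0 v0) {e f e' f' q' : α} {rest rest' : List α}
    (ha : Wd A ([y, e, f] ++ rest ++ [q1, x])) (ha' : Wd A ([y, e', f'] ++ rest' ++ [q', x']))
    (hne : ∀ k ∈ stb K y, ¬ (k f = f' ∧ k e = e')) :
    ∃ P, TPon K (LastIn K A [y]) P ∧
      P.head? = some ([y, e, f] ++ rest ++ [q1, x]).reverse ∧
      P.getLast? = some ([y, e', f'] ++ rest' ++ [q', x']).reverse := by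
  have hp := D.hc.pres
  have h1 : ([y, e, f] ++ rest ++ [q1, x]).reverse = (x :: q1 :: rest.reverse ++ [f, e]) ++ [y] := by
    simp
  have h1' : ([y, e', f'] ++ rest' ++ [q', x']).reverse
      = (x' :: q' :: rest'.reverse ++ [f', e']) ++ [y] := by simp
  have hadm : Adm (stb K y) (x :: q1 :: rest.reverse ++ [f, e])
      (x' :: q' :: rest'.reverse ++ [f', e']) := adm_iff.2 hne
  obtain ⟨bs, hbs, hfst, hhead, hlast, -⟩ := blockOne (K := K) (A := A) D.hy hp (D.hG y D.hy)
    (h1 ▸ ha.reverse) (h1' ▸ ha'.reverse) hadm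
  have htp := hbs.tpon (by have := D.h6; omega) hp (by rw [hfst]; simp)
  rw [hfst] at htp
  exact ⟨flat bs, htp, by rw [hhead, h1], by rw [hlast, h1']⟩

/-- many classes -/
theorem many (D : TwoData R K A x x' y q1 w κ u0 v0) {q' : α} (hq' : q' ∈ A.erase x')
    (hq'y : q' ≠ y) (h₁ : ∀ l ∈ stb K x', l (κ q1) ≠ q') (h₂ : ∀ l ∈ stb K x', l w ≠ q') :
    Conn K A (u0 ++ [q1, x]) (v0 ++ [w, x']) := by
  classical
  have hp := D.hc.pres
  have h6 := D.h6
  have hpe := erase_pres hp x'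
  -- the letters outside the class of `κ q1`
  set B : Finset α := (A.erase x').filter fun b => ¬ ∃ l ∈ stb K x', l (κ q1) = b with hB
  have hBinv : ∀ k ∈ stb K x', ∀ b ∈ B, k b ∈ B := by
    intro k hk b hb
    rw [hB, Finset.mem_filter] at hb ⊢
    refine ⟨hpe k hk b hb.1, ?_⟩
    rintro ⟨l, hl, e⟩
    exact hb.2 ⟨k⁻¹ * l, (stb K x').mul_mem ((stb K x').inv_mem hk) hl, by simp [e]⟩
  have hq'B : q' ∈ B := by
    rw [hB, Finset.mem_filter]
    exact ⟨hq', fun ⟨l, hl, e⟩ => h₁ l hl e⟩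
  have hwB : w ∈ B := by
    rw [hB, Finset.mem_filter]
    refine ⟨D.hw, ?_⟩
    rintro ⟨l, hl, e⟩
    refine D.hadm (l * κ) (K.mul_mem (stb_le K _ hl) D.hκ) ⟨by simpa using e, ?_⟩
    simp only [Equiv.Perm.coe_mul, Function.comp_apply, D.hx']
    exact (mem_stb.1 hl).2
  have hInq : Inq (stb K x') q' w := by
    intro l hl e
    refine h₂ l⁻¹ ((stb K x').inv_mem hl) ?_
    rw [← e]; simp
  obtain ⟨xs, hhd, hlst, hlen, hpw, hsub, hall⟩ := exists_reps (stb K x') B hBinv hq'B hwB hInq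
  obtain ⟨e, f, rest, P₁, hwa, hP₁, hP₁h, hP₁l⟩ := D.first
  -- letters of a'
  have hyA' : y ∈ A.erase x' := Finset.mem_erase.2 ⟨D.y_ne_x', D.hy⟩
  have hq'x' : q' ≠ x' := (Finset.mem_erase.1 hq').1
  have hq'A : q' ∈ A := (Finset.mem_erase.1 hq').2
  have hcy : (A.erase y).card = A.card - 1 := D.card1 D.hy
  have hq'e : q' ∈ A.erase y := Finset.mem_erase.2 ⟨hq'y, hq'A⟩
  have hx'e : x' ∈ (A.erase y).erase q' := by
    simp only [Finset.mem_erase]
    exact ⟨hq'x'.symm, D.y_ne_x'.symm, D.hx'A⟩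
  have hLcard : (((A.erase y).erase q').erase x').card = A.card - 3 := by
    rw [Finset.card_erase_of_mem hx'e, Finset.card_erase_of_mem hq'e, hcy]; omega
  obtain ⟨f', hf', e', he', hfe, hne⟩ := (D.hc.stb D.hy).pair (((A.erase y).erase q').erase x')
    ((Finset.erase_subset _ _).trans (Finset.erase_subset _ _)) (by omega) f e
  simp only [Finset.mem_erase] at hf' he'
  obtain ⟨rest', hrest'⟩ := exists_word (A.erase x') [y, e', f'] [q'] (by
    simp only [List.cons_append, List.nil_append, List.nodup_cons, List.mem_cons,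
      List.not_mem_nil, or_false, not_or, not_false_eq_true, List.nodup_nil, and_true]
    exact ⟨⟨he'.2.2.1.symm, hf'.2.2.1.symm, hq'y.symm⟩, ⟨hfe.symm, he'.2.1⟩, hf'.2.1⟩) (by
    intro a ha
    simp only [List.cons_append, List.nil_append, List.mem_cons, List.not_mem_nil, or_false] at ha
    rcases ha with rfl | rfl | rfl | rfl
    · exact hyA'
    · exact Finset.mem_erase.2 ⟨he'.1, he'.2.2.2⟩
    · exact Finset.mem_erase.2 ⟨hf'.1, hf'.2.2.2⟩
    · exact hq')
  have hwa' : Wd A ([y, e', f'] ++ rest' ++ [q', x']) := by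
    have := (wd_append D.hx'A).2 hrest'
    simpa using this
  obtain ⟨P₂, hP₂, hP₂h, hP₂l⟩ := D.second hwa hwa' hne
  obtain ⟨bs, hbs, hfst, hhead, hlast, -, -⟩ := chainSome D.hC' xs
    (fun t ht => (Finset.mem_filter.1 (hsub t ht)).1) hpw hlen
    ([y, e', f'] ++ rest' ++ [q']) (v0 ++ [w]) hrest' D.hv1 (by rw [List.getLast?_append]; simp [hhd]) (by simp [hlst])
  have hpiece := hbs.piece (by rw [D.card1 D.hx'A]; omega) hpe (by rw [hfst]; exact hpw)
  rw [hfst] at hpiece
  refine conn_of_pieces hp (by omega) D.hx D.hx'A D.hxy D.hcov D.hκ D.hx' (X := [q1]) (X' := xs)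
    ?_ ?_ hP₁ hP₂ hpiece hP₁h hP₁l hP₂h hP₂l ?_ ?_ (by simp) (by rw [List.getLast?_append]; simp)
    (by simp) (by simp)
  · intro q hq q'' hq'' l hl e
    obtain rfl : q = q1 := by simpa using hq
    exact (Finset.mem_filter.1 (hsub q'' hq'')).2 ⟨l, hl, e⟩
  · intro r hr
    by_cases h : ∃ l ∈ stb K x', l (κ q1) = r
    · exact Or.inl ⟨q1, by simp, h⟩
    · exact Or.inr (hall r (Finset.mem_filter.2 ⟨hr, h⟩))
  · rw [List.head?_map, hhead]; simp
  · rw [List.getLast?_map, hlast]; simp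

/-- two classes -/
theorem two (D : TwoData R K A x x' y q1 w κ u0 v0) (h7 : 7 ≤ A.card) (hwy : w ≠ y)
    (hcl : ∀ r ∈ A.erase x', (∃ l ∈ stb K x', l (κ q1) = r) ∨ (∃ l ∈ stb K x', l w = r)) :
    Conn K A (u0 ++ [q1, x]) (v0 ++ [w, x']) := by
  classical
  have hp := D.hc.pres
  have hpe := erase_pres hp x'
  obtain ⟨e, f, rest, P₁, hwa, hP₁, hP₁h, hP₁l⟩ := D.first
  have hyA' : y ∈ A.erase x' := Finset.mem_erase.2 ⟨D.y_ne_x', D.hy⟩
  have hwx' : w ≠ x' := (Finset.mem_erase.1 D.hw).1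
  have hwA : w ∈ A := (Finset.mem_erase.1 D.hw).2
  have hcy : (A.erase y).card = A.card - 1 := D.card1 D.hy
  have hwe : w ∈ A.erase y := Finset.mem_erase.2 ⟨hwy, hwA⟩
  have hx'e : x' ∈ (A.erase y).erase w := by
    simp only [Finset.mem_erase]
    exact ⟨hwx'.symm, D.y_ne_x'.symm, D.hx'A⟩
  have hLcard : (((A.erase y).erase w).erase x').card = A.card - 3 := by
    rw [Finset.card_erase_of_mem hx'e, Finset.card_erase_of_mem hwe, hcy]; omega
  have hcard2 := D.card2 D.hx'A D.hw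
  obtain ⟨v00, δ, δ', rfl⟩ := exists_two_last D.hv2 (by omega)
  obtain ⟨f', hf', e', he', g', hg', h', hh', hnd, hne, hne'⟩ := (D.hc.stb D.hy).pair2
    ((D.hc.stb D.hx'A).stb D.hw) (((A.erase y).erase w).erase x')
    ((Finset.erase_subset _ _).trans (Finset.erase_subset _ _)) (by
      intro a ha
      simp only [Finset.mem_erase] at ha ⊢
      exact ⟨ha.2.1, ha.1, ha.2.2.2⟩) (by omega) f e δ δ'
  simp only [Finset.mem_erase] at hf' he' hg' hh'
  simp only [List.nodup_cons, List.mem_cons, List.not_mem_nil, or_false, not_or,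
    not_false_eq_true, List.nodup_nil, and_true] at hnd
  obtain ⟨rest', hrest'⟩ := exists_word (A.erase x') [y, e', f'] [g', h', w] (by
    simp only [List.cons_append, List.nil_append, List.nodup_cons, List.mem_cons,
      List.not_mem_nil, or_false, not_or, not_false_eq_true, List.nodup_nil, and_true]
    exact ⟨⟨he'.2.2.1.symm, hf'.2.2.1.symm, hg'.2.2.1.symm, hh'.2.2.1.symm, hwy.symm⟩,
      ⟨Ne.symm hnd.1.1, hnd.2.1.1, hnd.2.1.2, he'.2.1⟩, ⟨hnd.1.2.1, hnd.1.2.2, hf'.2.1⟩,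
      ⟨hnd.2.2, hg'.2.1⟩, hh'.2.1⟩) (by
    intro a ha
    simp only [List.cons_append, List.nil_append, List.mem_cons, List.not_mem_nil, or_false] at ha
    rcases ha with rfl | rfl | rfl | rfl | rfl | rfl
    · exact hyA'
    · exact Finset.mem_erase.2 ⟨he'.1, he'.2.2.2⟩
    · exact Finset.mem_erase.2 ⟨hf'.1, hf'.2.2.2⟩
    · exact Finset.mem_erase.2 ⟨hg'.1, hg'.2.2.2⟩
    · exact Finset.mem_erase.2 ⟨hh'.1, hh'.2.2.2⟩
    · exact D.hw)
  have hrest1 : Wd (A.erase x') (([y, e', f'] ++ (rest' ++ [g', h'])) ++ [w]) := by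
    simpa using hrest'
  have hwa' : Wd A ([y, e', f'] ++ (rest' ++ [g', h']) ++ [w, x']) := by
    have := (wd_append D.hx'A).2 hrest1
    simpa using this
  obtain ⟨P₂, hP₂, hP₂h, hP₂l⟩ := D.second hwa hwa' hne
  have hadm3 : Adm (Pan.stb (Pan.stb K x') w) ([y, e', f'] ++ (rest' ++ [g', h']))
      (v00 ++ [δ, δ']) := by
    have := (adm_iff (u := v00) (v := [y, e', f'] ++ rest')).2 hne'
    simpa using this.symm
  obtain ⟨bs, hbs, hfst, hhead, hlast, -⟩ := blockOne (K := stb K x') (A := A.erase x') D.hw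
    hpe (D.hG2' w D.hw) hrest1 D.hv1 hadm3
  have hpiece := hbs.piece (by rw [D.card1 D.hx'A]; omega) hpe (by rw [hfst]; simp)
  rw [hfst] at hpiece
  refine conn_of_pieces hp (by omega) D.hx D.hx'A D.hxy D.hcov D.hκ D.hx' (X := [q1]) (X' := [w])
    ?_ ?_ hP₁ hP₂ hpiece hP₁h hP₁l hP₂h hP₂l ?_ ?_ (by simp) (by rw [List.getLast?_append]; simp)
    (by simp) (by simp)
  · intro q hq q'' hq'' l hl e
    obtain rfl : q = q1 := by simpa using hq
    obtain rfl : q'' = w := by simpa using hq''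
    refine D.hadm (l * κ) (K.mul_mem (stb_le K _ hl) D.hκ) ⟨by simpa using e, ?_⟩
    simp only [Equiv.Perm.coe_mul, Function.comp_apply, D.hx']
    exact (mem_stb.1 hl).2
  · intro r hr
    rcases hcl r hr with h | h
    · exact Or.inl ⟨q1, by simp, h⟩
    · exact Or.inr ⟨w, by simp, h⟩
  · rw [List.head?_map, hhead]; simp
  · rw [List.getLast?_map, hlast]; simp

end TwoData

lemma exists_of_not_inq {K : Subgroup (Equiv.Perm α)} {x y : α} (h : ¬ Inq K x y) :
    ∃ k ∈ K, k x = y := by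
  unfold Inq at h
  push Not at h
  exact h

lemma small_orbit {R K : Subgroup (Equiv.Perm α)} {A : Finset α} (hc : Cls R K A) {x' r : α}
    (hx' : x' ∈ A) (hr : ∃ k ∈ K, k x' = r) :
    ∃ r', (∀ l ∈ stb K x', l r = r ∨ l r = r') ∧ (stb K x' = ⊥ → r' = r) := by
  by_cases h : ∃ l ∈ stb K x', l r ≠ r
  · obtain ⟨l, hl, hlr⟩ := h
    refine ⟨l r, ?_, ?_⟩
    · intro m hm
      by_cases hmr : m r = r
      · exact Or.inl hmr
      · exact Or.inr (hc.orb2 hx' hr m hm l hl hmr hlr)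
    · intro hb
      rw [hb] at hl
      rw [Subgroup.mem_bot.1 hl]; rfl
  · push Not at h
    exact ⟨r, fun l hl => Or.inl (h l hl), fun _ => rfl⟩

lemma card_le_of_subset_list {A : Finset α} (l : List α) (h : ∀ a ∈ A, a ∈ l) :
    A.card ≤ l.length := by
  calc A.card ≤ l.toFinset.card := Finset.card_le_card (fun a ha => by simpa using h a ha)
    _ ≤ l.length := l.toFinset_card_le

theorem conn_two_aux {R K : Subgroup (Equiv.Perm α)} {A : Finset α} (hc : Cls R K A)
    (h6 : 6 ≤ A.card) (hG : ∀ x ∈ A, Good (stb K x) (A.erase x))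
    (hG2 : ∀ x ∈ A, (7 ≤ A.card ∨ stb K x = ⊥) → ∀ q ∈ A.erase x,
      Good (stb (stb K x) q) ((A.erase x).erase q))
    (hC : ∀ x ∈ A, (7 ≤ A.card ∨ stb K x = ⊥) → ChainHyp (stb K x) (A.erase x))
    {x z : α} (htwo : ∀ y ∈ A, ¬ Inq K x y ∨ ¬ Inq K z y)
    {u v : List α} {x' q1 w : α} {κ : Equiv.Perm α} (hκ : κ ∈ K) (hx' : κ x = x')
    (h7 : 7 ≤ A.card ∨ stb K x = ⊥) (h7' : 7 ≤ A.card ∨ stb K x' = ⊥)
    (hu : Wd A (u ++ [q1, x])) (hv : Wd A (v ++ [w, x']))
    (hadm : ∀ k ∈ K, ¬ (k q1 = w ∧ k x = x')) (hy : ∃ y ∈ A, Inq K x y ∧ y ≠ q1) :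
    Conn K A (u ++ [q1, x]) (v ++ [w, x']) := by
  have hp := hc.pres
  have hx : x ∈ A := hu.mem.1 (by simp)
  have hx'A : x' ∈ A := hv.mem.1 (by simp)
  have hcov : ∀ y0 ∈ A, Inq K x y0 → ∀ b ∈ A, (∃ k ∈ K, k x = b) ∨ (∃ k ∈ K, k y0 = b) := by
    intro y0 hy0 hi b hb
    rcases htwo b hb with h | h
    · exact Or.inl (exists_of_not_inq h)
    · right
      obtain ⟨k, hk, rfl⟩ := exists_of_not_inq h
      rcases htwo y0 hy0 with h' | h'
      · exact absurd hi h'
      · obtain ⟨l, hl, rfl⟩ := exists_of_not_inq h'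
        exact ⟨k * l⁻¹, K.mul_mem hk (K.inv_mem hl), by simp⟩
  have hD : ∀ y ∈ A, Inq K x y → y ≠ q1 → TwoData R K A x x' y q1 w κ u v :=
    fun y hyA hi hne => ⟨hc, h6, hG, h7, h7', hG2 x hx h7, hG2 x' hx'A h7', hC x' hx'A h7', hx,
      hx'A, hκ, hx', hyA, hi, hcov y hyA hi, hu, hv, hadm, hne⟩
  obtain ⟨y0, hy0A, hy0, hy0q⟩ := hy
  have hq1A : q1 ∈ A := hu.mem.1 (by simp)
  have hwA : w ∈ A := hv.mem.1 (by simp)
  by_cases hmain : ∃ y ∈ A, Inq K x y ∧ y ≠ q1 ∧ ∃ q' ∈ A.erase x', q' ≠ y ∧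
      (∀ l ∈ stb K x', l (κ q1) ≠ q') ∧ (∀ l ∈ stb K x', l w ≠ q')
  · obtain ⟨y, hyA, hi, hne, q', hq', hq'y, h₁, h₂⟩ := hmain
    exact (hD y hyA hi hne).many hq' hq'y h₁ h₂
  -- the classes of letters in the orbit of `x'`
  have hs : ∀ r0, ∃ r', ((∃ k ∈ K, k x' = r0) → ∀ l ∈ stb K x', l r0 = r0 ∨ l r0 = r') ∧
      (stb K x' = ⊥ → r' = r0) := by
    intro r0
    by_cases h : ∃ k ∈ K, k x' = r0
    · obtain ⟨r', h1, h2⟩ := small_orbit hc hx'A h
      exact ⟨r', fun _ => h1, h2⟩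
    · exact ⟨r0, fun h' => absurd h' h, fun _ => rfl⟩
  obtain ⟨c, hc1, hc2⟩ := hs (κ q1)
  obtain ⟨d, hd1, hd2⟩ := hs w
  -- if `l r0 = r` with `r` in the orbit of `x` then `r0` is in it
  have hin : ∀ r0 r, (∃ k ∈ K, k x = r) → (∃ l ∈ stb K x', l r0 = r) → ∃ k ∈ K, k x' = r0 := by
    rintro r0 r ⟨k, hk, rfl⟩ ⟨l, hl, e⟩
    refine ⟨l⁻¹ * k * κ⁻¹, K.mul_mem (K.mul_mem (K.inv_mem (stb_le K _ hl)) hk) (K.inv_mem hκ), ?_⟩
    have h1 : (κ⁻¹ : Equiv.Perm α) x' = x := by rw [← hx']; simp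
    simp only [Equiv.Perm.coe_mul, Function.comp_apply, h1, ← e]
    simp
  have hc' : ∀ r, (∃ k ∈ K, k x = r) → (∃ l ∈ stb K x', l (κ q1) = r) → r = κ q1 ∨ r = c := by
    rintro r h1 ⟨l, hl, rfl⟩
    exact hc1 (hin _ _ h1 ⟨l, hl, rfl⟩) l hl
  have hd' : ∀ r, (∃ k ∈ K, k x = r) → (∃ l ∈ stb K x', l w = r) → r = w ∨ r = d := by
    rintro r h1 ⟨l, hl, rfl⟩
    exact hd1 (hin _ _ h1 ⟨l, hl, rfl⟩) l hl
  have hq1in : (∃ k ∈ K, k x' = κ q1) → ∃ k ∈ K, k x = q1 := by
    rintro ⟨k, hk, e⟩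
    refine ⟨κ⁻¹ * k * κ, K.mul_mem (K.mul_mem (K.inv_mem hκ) hk) hκ, ?_⟩
    simp only [Equiv.Perm.coe_mul, Function.comp_apply, hx', e]
    simp
  have hmain' : ∀ y ∈ A, Inq K x y → y ≠ q1 → ∀ q' ∈ A.erase x', q' ≠ y →
      (∃ l ∈ stb K x', l (κ q1) = q') ∨ (∃ l ∈ stb K x', l w = q') := by
    intro y hyA hi hne q' hq' hq'y
    by_contra hcon
    push Not at hcon
    exact hmain ⟨y, hyA, hi, hne, q', hq', hq'y, hcon.1, hcon.2⟩
  by_cases hE : ∃ e0 ∈ A.erase x', (∀ l ∈ stb K x', l (κ q1) ≠ e0) ∧ (∀ l ∈ stb K x', l w ≠ e0)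
  · exfalso
    obtain ⟨e0, he0, he1, he2⟩ := hE
    have hy0e : ∀ y ∈ A, Inq K x y → y ≠ q1 → e0 = y := by
      intro y hyA hi hne
      by_contra hne'
      rcases hmain' y hyA hi hne e0 he0 hne' with ⟨l, hl, h⟩ | ⟨l, hl, h⟩
      · exact he1 l hl h
      · exact he2 l hl h
    have he0y : e0 = y0 := hy0e y0 hy0A hy0 hy0q
    have hO1 : ∀ r ∈ A, (∃ k ∈ K, k x = r) → r ≠ x' →
        (∃ l ∈ stb K x', l (κ q1) = r) ∨ (∃ l ∈ stb K x', l w = r) := by
      intro r hr hk hrx
      refine hmain' y0 hy0A hy0 hy0q r (Finset.mem_erase.2 ⟨hrx, hr⟩) ?_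
      rintro rfl
      obtain ⟨k, hk, e⟩ := hk
      exact hy0 k hk e
    by_cases hq : Inq K x q1
    · have : A.card ≤ [q1, y0, x', w, d].length := by
        apply card_le_of_subset_list
        intro r hr
        by_cases hi : Inq K x r
        · by_cases hrq : r = q1
          · simp [hrq]
          · have := hy0e r hr hi hrq
            simp [← he0y, this]
        · have hk := exists_of_not_inq hi
          by_cases hrx : r = x'
          · simp [hrx]
          rcases hO1 r hr hk hrx with h | h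
          · obtain ⟨k, hk, e⟩ := hq1in (hin _ _ hk h)
            exact absurd e (hq k hk)
          · rcases hd' r hk h with h | h <;> simp [h]
      simp only [List.length_cons, List.length_nil] at this
      omega
    · have : ∀ r ∈ A, r ∈ [y0, x', κ q1, w, c, d] := by
        intro r hr
        by_cases hi : Inq K x r
        · have hrq : r ≠ q1 := by rintro rfl; exact hq hi
          have := hy0e r hr hi hrq
          simp [← he0y, this]
        · have hk := exists_of_not_inq hi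
          by_cases hrx : r = x'
          · simp [hrx]
          rcases hO1 r hr hk hrx with h | h
          · rcases hc' r hk h with h | h <;> simp [h]
          · rcases hd' r hk h with h | h <;> simp [h]
      rcases h7' with h7' | hbot
      · have := card_le_of_subset_list _ this
        simp only [List.length_cons, List.length_nil] at this
        omega
      · rw [hc2 hbot, hd2 hbot] at this
        have h4 : ∀ r ∈ A, r ∈ [y0, x', κ q1, w] := by
          intro r hr
          have := this r hr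
          simp only [List.mem_cons, List.not_mem_nil, or_false] at this ⊢
          tauto
        have := card_le_of_subset_list _ h4
        simp only [List.length_cons, List.length_nil] at this
        omega
  · have hcl : ∀ r ∈ A.erase x', (∃ l ∈ stb K x', l (κ q1) = r) ∨ (∃ l ∈ stb K x', l w = r) := by
      intro r hr
      by_contra hcon
      push Not at hcon
      exact hE ⟨r, hr, hcon.1, hcon.2⟩
    by_cases hw : ∃ y ∈ A, Inq K x y ∧ y ≠ q1 ∧ y ≠ w
    · obtain ⟨y, hyA, hi, hne, hyw⟩ := hw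
      refine (hD y hyA hi hne).two ?_ hyw.symm hcl
      rcases h7' with h | hbot
      · exact h
      · exfalso
        have : A.card ≤ [x', κ q1, w].length := by
          apply card_le_of_subset_list
          intro r hr
          by_cases hrx : r = x'
          · simp [hrx]
          rcases hcl r (Finset.mem_erase.2 ⟨hrx, hr⟩) with ⟨l, hl, e⟩ | ⟨l, hl, e⟩
          · rw [hbot] at hl
            rw [Subgroup.mem_bot.1 hl] at e
            simp only [Equiv.Perm.coe_one, id_eq] at e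
            simp [← e]
          · rw [hbot] at hl
            rw [Subgroup.mem_bot.1 hl] at e
            simp only [Equiv.Perm.coe_one, id_eq] at e
            simp [← e]
        simp only [List.length_cons, List.length_nil] at this
        omega
    · exfalso
      push Not at hw
      have hy0w : y0 = w := hw y0 hy0A hy0 hy0q
      have : A.card ≤ [q1, w, x', κ q1, c].length := by
        apply card_le_of_subset_list
        intro r hr
        by_cases hi : Inq K x r
        · by_cases hrq : r = q1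
          · simp [hrq]
          · simp [hw r hr hi hrq]
        · have hk := exists_of_not_inq hi
          by_cases hrx : r = x'
          · simp [hrx]
          rcases hcl r (Finset.mem_erase.2 ⟨hrx, hr⟩) with h | h
          · rcases hc' r hk h with h | h <;> simp [h]
          · exfalso
            obtain ⟨k, hk', e⟩ := hin _ _ hk h
            refine hy0 (k * κ) (K.mul_mem hk' hκ) ?_
            simp only [Equiv.Perm.coe_mul, Function.comp_apply, hx', e, hy0w]
      simp only [List.length_cons, List.length_nil] at this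
      omega

theorem conn_two {R K : Subgroup (Equiv.Perm α)} {A : Finset α} (hc : Cls R K A)
    (h6 : 6 ≤ A.card) (hG : ∀ x ∈ A, Good (stb K x) (A.erase x))
    (hG2 : ∀ x ∈ A, (7 ≤ A.card ∨ stb K x = ⊥) → ∀ q ∈ A.erase x,
      Good (stb (stb K x) q) ((A.erase x).erase q))
    (hC : ∀ x ∈ A, (7 ≤ A.card ∨ stb K x = ⊥) → ChainHyp (stb K x) (A.erase x))
    {x z : α} (hz : z ∈ A) (hxz : Inq K x z) (htwo : ∀ y ∈ A, ¬ Inq K x y ∨ ¬ Inq K z y)
    {u v : List α} {x' : α} {κ : Equiv.Perm α} (hκ : κ ∈ K) (hx' : κ x = x')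
    (hu : Wd A (u ++ [x])) (hv : Wd A (v ++ [x'])) (hadm : Adm K (u ++ [x]) (v ++ [x'])) :
    Conn K A (u ++ [x]) (v ++ [x']) := by
  have hp := hc.pres
  have hx : x ∈ A := hu.mem.1 (by simp)
  have hx'A : x' ∈ A := hv.mem.1 (by simp)
  obtain ⟨u0, q1, x1, hu'⟩ := exists_two_last hu (by omega)
  obtain ⟨v0, w, x2, hv'⟩ := exists_two_last hv (by omega)
  obtain ⟨rfl, rfl⟩ : u = u0 ++ [q1] ∧ x = x1 := by
    have := List.append_inj' (hu'.trans (by simp : u0 ++ [q1, x1] = (u0 ++ [q1]) ++ [x1])) rfl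
    exact ⟨this.1, by simpa using this.2⟩
  obtain ⟨rfl, rfl⟩ : v = v0 ++ [w] ∧ x' = x2 := by
    have := List.append_inj' (hv'.trans (by simp : v0 ++ [w, x2] = (v0 ++ [w]) ++ [x2])) rfl
    exact ⟨this.1, by simpa using this.2⟩
  rw [hu', hv'] at hadm ⊢
  rw [hu'] at hu
  rw [hv'] at hv
  rw [adm_iff] at hadm
  have hq1A : q1 ∈ A := hu.mem.1 (by simp)
  have hwA : w ∈ A := hv.mem.1 (by simp)
  have hq1x : q1 ≠ x := by
    rintro rfl
    have := hu.1
    simp [List.nodup_append] at this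
  have hwx' : w ≠ x' := by
    rintro rfl
    have := hv.1
    simp [List.nodup_append] at this
  -- `x` is moved
  have hmv : ∃ k ∈ K, k x ≠ x := by
    by_contra hcon
    push Not at hcon
    have hxx : x' = x := by rw [← hx']; exact hcon κ hκ
    have h1 : ∀ b ∈ A, b ≠ x → ∃ k ∈ K, k z = b := by
      intro b hb hbx
      rcases htwo b hb with h | h
      · obtain ⟨k, hk, e⟩ := exists_of_not_inq h
        exact absurd (e.symm.trans (hcon k hk)) hbx
      · exact exists_of_not_inq h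
    obtain ⟨k, hk, e1⟩ := h1 q1 hq1A hq1x
    obtain ⟨l, hl, e2⟩ := h1 w hwA (by rw [← hxx]; exact hwx')
    refine hadm (l * k⁻¹) (K.mul_mem hl (K.inv_mem hk)) ⟨?_, ?_⟩
    · rw [← e1]; simpa using e2
    · rw [hxx]; exact hcon _ (K.mul_mem hl (K.inv_mem hk))
  have htwo' : ∀ y ∈ A, ¬ Inq K x' y ∨ ¬ Inq K z y := by
    intro y hy
    rcases htwo y hy with h | h
    · left
      intro hi
      apply h
      have := hi.map (K.inv_mem hκ) K.one_mem
      rw [← hx'] at this
      simpa using this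
    · exact Or.inr h
  have hmv' : ∃ k ∈ K, k x' ≠ x' := by
    obtain ⟨k, hk, hne⟩ := hmv
    refine ⟨κ * k * κ⁻¹, K.mul_mem (K.mul_mem hκ hk) (K.inv_mem hκ), ?_⟩
    intro e
    apply hne
    rw [← hx'] at e
    simpa using e
  have h7 : ∀ t ∈ A, (∀ y ∈ A, ¬ Inq K t y ∨ ¬ Inq K z y) → (∃ k ∈ K, k t ≠ t) →
      7 ≤ A.card ∨ stb K t = ⊥ := by
    intro t ht ht2 hm
    rcases Nat.lt_or_ge 6 A.card with h | h
    · exact Or.inl h
    · exact Or.inr (hc.stb_bot (by omega) ht hz ht2 hm)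
  have h7x := h7 x hx htwo hmv
  have h7x' := h7 x' hx'A htwo' hmv'
  by_cases hy : ∃ y ∈ A, Inq K x y ∧ y ≠ q1
  · exact conn_two_aux hc h6 hG hG2 hC htwo hκ hx' h7x h7x' hu hv hadm hy
  · push Not at hy
    have hzq : z = q1 := hy z hz hxz
    apply Conn.symm
    refine conn_two_aux hc h6 hG hG2 hC htwo' (K.inv_mem hκ) (by rw [← hx']; simp) h7x' h7x hv hu
      ?_ ⟨z, hz, ?_, ?_⟩
    · rintro k hk ⟨e1, e2⟩
      refine hadm k⁻¹ (K.inv_mem hk) ⟨?_, ?_⟩
      · rw [← e1]; simp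
      · rw [← e2]; simp
    · have := hxz.map hκ K.one_mem
      rw [hx'] at this
      simpa using this
    · rintro hzw
      have hκq : κ q1 = q1 := by
        apply hy
        · exact hp κ hκ q1 hq1A
        · rw [← hzq]
          have := hxz.map K.one_mem hκ
          simpa using this
      exact hadm κ hκ ⟨by rw [hκq, ← hzq, hzw], hx'⟩

end Pan
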