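import Pool.Agent.Hhelper18.Pan.Five
import Pool.Agent.Hhelper18.Pan.Two
import Pool.Agent.Hhelper18.Pan.One

/-! # The class is good -/

set_option linter.unusedSectionVars false

namespace Pan

variable {α : Type*} [DecidableEq α]

theorem good_cls (m : ℕ) : ∀ {R K : Subgroup (Equiv.Perm α)} {A : Finset α}, Cls R K A →
    A.card = m → 5 ≤ m → Good K A := by
  induction m using Nat.strong_induction_on with
  | _ m ih =>
  intro R K A h hA hm
  rcases Nat.lt_or_ge m 6 with h5 | h6
  · exact good_five h (by omega)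
  have hG : ∀ x ∈ A, Good (stb K x) (A.erase x) := fun x hx =>
    ih (m - 1) (by omega) (h.stb hx) (by rw [Finset.card_erase_of_mem hx, hA]) (by omega)
  have hCh : ChainHyp K A := ⟨h.pres, hG, h.pick (by omega)⟩
  have hG2 : ∀ x ∈ A, (7 ≤ A.card ∨ stb K x = ⊥) → ∀ q ∈ A.erase x,
      Good (stb (stb K x) q) ((A.erase x).erase q) := by
    intro x hx h7 q hq
    have hcard : ((A.erase x).erase q).card = m - 2 := by
      rw [Finset.card_erase_of_mem hq, Finset.card_erase_of_mem hx, hA]; omega
    rcases h7 with h7 | hbot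
    · exact ih (m - 2) (by omega) ((h.stb hx).stb hq) hcard (by omega)
    · have : stb (stb K x) q = ⊥ := by
        rw [hbot]; exact le_bot_iff.1 (stb_le _ q)
      rw [this]
      exact good_bot _ (by omega)
  have hC : ∀ x ∈ A, (7 ≤ A.card ∨ stb K x = ⊥) → ChainHyp (stb K x) (A.erase x) := by
    intro x hx h7
    refine ⟨(h.stb hx).pres, hG2 x hx h7, ?_⟩
    have hcard : (A.erase x).card = m - 1 := by rw [Finset.card_erase_of_mem hx, hA]
    rcases h7 with h7 | hbot
    · exact (h.stb hx).pick (by omega)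
    · rw [hbot]; exact pick_bot _ (by omega)
  intro u v hu hv hadm
  have hne : A.Nonempty := Finset.card_pos.1 (by omega)
  obtain ⟨u', x, hx, rfl, hu'⟩ := hu.exists_last hne
  obtain ⟨v', x', hx', rfl, hv'⟩ := hv.exists_last hne
  by_cases hi : Inq K x x'
  · exact conn_chain hCh (by omega) hu hv hi
  · have hi' : ∃ κ ∈ K, κ x = x' := by
      by_contra hcon
      push_neg at hcon
      exact hi hcon
    obtain ⟨κ, hκ, hκx⟩ := hi'
    by_cases hone : ∀ x ∈ A, ∀ y ∈ A, ¬ Inq K x y
    · exact conn_one h (by omega) hG hG2 hC hone hu hv hadm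
    · have hz : ∃ z ∈ A, Inq K x z := by
        by_contra hcon
        push_neg at hcon
        apply hone
        intro a ha b hb hab
        have h1 := hcon a ha
        have h2 := hcon b hb
        unfold Inq at h1 h2
        push_neg at h1 h2
        obtain ⟨k, hk, rfl⟩ := h1
        obtain ⟨l, hl, rfl⟩ := h2
        exact hab (l * k⁻¹) (K.mul_mem hl (K.inv_mem hk)) (by simp)
      obtain ⟨z, hzA, hxz⟩ := hz
      by_cases htwo : ∀ y ∈ A, ¬ Inq K x y ∨ ¬ Inq K z y
      · exact conn_two h (by omega) hG hG2 hC hzA hxz htwo hκ hκx hu hv hadm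
      · push_neg at htwo
        obtain ⟨y, hy, hxy, hzy⟩ := htwo
        exact conn_split hCh hκ hκx hu hv hadm hzA hy hxz hxy hzy

end Pan
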