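import Pool.Agent.Hhelper18.Pan.Perms

/-! # Orders of permutations -/

namespace Pan

/-- `c` is the order of a permutation of `n` letters if and only if the prime powers which exactly
divide `c` have sum at most `n` -/
theorem orders_iff (n c : ℕ) : (∃ g : Equiv.Perm (Fin n), orderOf g = c) ↔
    c ≠ 0 ∧ ∑ p ∈ c.primeFactors, p ^ c.factorization p ≤ n := by
  constructor
  · rintro ⟨g, rfl⟩
    exact ⟨(orderOf_pos g).ne', PM.S_order g⟩
  · rintro ⟨hc, h⟩
    obtain ⟨f, hf⟩ : ∃ f, PM.S c + f = n := ⟨n - PM.S c, Nat.add_sub_cancel' h⟩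
    have : ∀ i, NeZero (PM.fl c i) := fun i => ⟨PM.fl_pos c i⟩
    have hcard : Fintype.card (PM.X (PM.fl c) f) = n := by
      rw [PM.card_X, PM.fl_sum]; exact hf
    have e : PM.X (PM.fl c) f ≃ Fin n := Fintype.equivFinOfCardEq hcard
    refine ⟨e.permCongrHom (PM.tr (PM.fl c) f 1), ?_⟩
    rw [MulEquiv.orderOf_eq, PM.order_tr _ _ (PM.fl_cop c), PM.fl_prod hc]

end Pan
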