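import Pool.Agent.Hhelper18.Pan.ExactCyc
import Pool.Agent.Hhelper18.Pan.ExactDih
import Pool.Agent.Hhelper18.Pan.Asm
import Pool.Agent.Hhelper18.Pan.Graph

/-! # MODULE SM : checker for block chain certificates, arithmetic of codes -/

set_option linter.unusedSectionVars false

namespace Pan.SM

open Pan

/-! ### codes of words -/

/-- octal code of a word, first letter = lowest digit -/
def enc {n : ℕ} : List (Fin n) → ℕ
  | [] => 0
  | a :: w => (a : ℕ) + 8 * enc w

/-- octal digit -/
def look (m i : ℕ) : ℕ := Nat.mod (Nat.shiftRight m (Nat.mul 3 i)) 8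

/-- reversal of the first `k` octal digits -/
def revLow : ℕ → ℕ → ℕ
  | 0, _ => 0
  | Nat.succ k, w => Nat.add (Nat.mul (Nat.mod w 8) (Nat.pow 8 k)) (revLow k (Nat.div w 8))

def rvN (k w : ℕ) : ℕ :=
  Nat.add (revLow k w) (Nat.mul (Nat.pow 8 k) (Nat.div w (Nat.pow 8 k)))

/-- relabeling: apply the map coded by `t` to the first `n` digits of `w` -/
def relab (t : ℕ) : ℕ → ℕ → ℕ
  | 0, _ => 0
  | Nat.succ n, w => Nat.add (look t (Nat.mod w 8)) (Nat.mul 8 (relab t n (Nat.div w 8)))

/-- column `d` of the table `C` with slots of `S` bits -/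
def col (S C d : ℕ) : ℕ := Nat.mod (Nat.shiftRight C (Nat.mul S d)) (Nat.pow 2 S)

/-- the codes of all translates of a word, packed in slots -/
def V (S C : ℕ) : ℕ → ℕ → ℕ
  | 0, _ => 0
  | Nat.succ n, w => Nat.add (col S C (Nat.mod w 8)) (Nat.mul 8 (V S C n (Nat.div w 8)))

def mn (a b : ℕ) : ℕ := cond (Nat.ble a b) a b

/-- minimum of the slots -/
def minS : ℕ → ℕ → ℕ
  | 0, _ => 16777216
  | Nat.succ j, v => mn (Nat.mod v 16777216) (minS j (Nat.div v 16777216))

/-- popcount table -/
def PC : ℕ := 95125173855764218123276304889944061997689682402263585766959741291920687686033329201817409157123347502415384089435969498586180241031507595463600295898153685276653211633572815512294064538494957912327413386667662218713394765509704508661031522276467630197481635010039778342554499416459730172574551513689147646224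

/-- rank of a permutation word (only used as a hash function) -/
def rank : ℕ → ℕ → ℕ → ℕ → ℕ
  | 0, _, _, r => r
  | Nat.succ n, w, used, r => rank n (Nat.div w 8) (Nat.add used (Nat.pow 2 (Nat.mod w 8)))
      (Nat.add (Nat.mul r (Nat.succ n)) (Nat.sub (Nat.mod w 8)
        (Nat.mod (Nat.shiftRight PC (Nat.mul 4 (Nat.mod used (Nat.pow 2 (Nat.mod w 8))))) 16)))

/-- the hash of the orbit of a word -/
def hsh (S n s C w : ℕ) : ℕ := rank n (minS s (V S C n w)) 0 0

def tb (M c : ℕ) : Bool := Nat.beq (Nat.mod (Nat.shiftRight M c) 2) 0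

/-- all hashes along the path are different (and not in the mask `M`) -/
def chk (S n s C : ℕ) : List ℕ → ℕ → ℕ → Bool
  | [], w, M => tb M (hsh S n s C w)
  | k :: ks, w, M => cond (tb M (hsh S n s C w))
      (chk S n s C ks (rvN k w) (Nat.lor M (Nat.shiftLeft 1 (hsh S n s C w)))) false

/-! ### arithmetic of codes -/

section codes

variable {n : ℕ}

@[simp] lemma enc_nil : enc ([] : List (Fin n)) = 0 := rfl
@[simp] lemma enc_cons (a : Fin n) (w : List (Fin n)) : enc (a :: w) = a + 8 * enc w := rfl

lemma enc_append (u v : List (Fin n)) : enc (u ++ v) = enc u + 8 ^ u.length * enc v := by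
  induction u with
  | nil => simp
  | cons a u ih => simp only [List.cons_append, enc_cons, ih, List.length_cons, pow_succ]; ring

lemma enc_lt (hn : n ≤ 8) (w : List (Fin n)) : enc w < 8 ^ w.length := by
  induction w with
  | nil => simp
  | cons a w ih =>
    have := a.2
    simp only [enc_cons, List.length_cons, pow_succ]
    omega

lemma cons_mod (hn : n ≤ 8) (a : Fin n) (w : List (Fin n)) : ((a : ℕ) + 8 * enc w) % 8 = a := by
  have := a.2
  omega

lemma cons_div (hn : n ≤ 8) (a : Fin n) (w : List (Fin n)) :
    ((a : ℕ) + 8 * enc w) / 8 = enc w := by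
  have := a.2
  omega

lemma enc_inj (hn : n ≤ 8) : ∀ {u v : List (Fin n)}, u.length = v.length → enc u = enc v → u = v
  | [], [], _, _ => rfl
  | a :: u, [], h, _ => by simp at h
  | [], b :: v, h, _ => by simp at h
  | a :: u, b :: v, h, e => by
    simp only [enc_cons] at e
    have h1 := cons_mod hn a u
    have h2 := cons_mod hn b v
    have h3 := cons_div hn a u
    have h4 := cons_div hn b v
    rw [e] at h1 h3
    have ha : a = b := Fin.ext (by rw [← h1, h2])
    have hu : enc u = enc v := by rw [← h3, h4]
    rw [ha, enc_inj hn (by simpa using h) hu]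

lemma revLow_succ (k w : ℕ) : revLow (k + 1) w = (w % 8) * 8 ^ k + revLow k (w / 8) := rfl

lemma revLow_enc (hn : n ≤ 8) : ∀ (k : ℕ) (w : List (Fin n)), k ≤ w.length →
    revLow k (enc w) = enc (w.take k).reverse
  | 0, w, _ => by simp [revLow]
  | k + 1, [], h => by simp at h
  | k + 1, a :: w, h => by
    rw [revLow_succ, enc_cons, cons_mod hn, cons_div hn, revLow_enc hn k w (by simpa using h)]
    rw [List.take_succ_cons, List.reverse_cons, enc_append]
    have : (w.take k).reverse.length = k := by
      simp only [List.length_reverse, List.length_take]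
      simp only [List.length_cons] at h
      omega
    rw [this]
    simp
    ring

lemma enc_div (hn : n ≤ 8) : ∀ (k : ℕ) (w : List (Fin n)), enc w / 8 ^ k = enc (w.drop k)
  | 0, w => by simp
  | k + 1, [] => by simp
  | k + 1, a :: w => by
    rw [pow_succ, mul_comm, ← Nat.div_div_eq_div_mul, enc_cons, cons_div hn, enc_div hn k w]
    simp

lemma rvN_enc (hn : n ≤ 8) {k : ℕ} {w : List (Fin n)} (hk : k ≤ w.length) :
    rvN k (enc w) = enc (rv k w) := by
  have h1 : rvN k (enc w) = revLow k (enc w) + 8 ^ k * (enc w / 8 ^ k) := rfl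
  rw [h1, revLow_enc hn k w hk, enc_div hn, rv, enc_append]
  congr 2
  simp [hk]

lemma look_eq (m i : ℕ) : look m i = m / 8 ^ i % 8 := by
  show (m >>> (3 * i)) % 8 = _
  rw [Nat.shiftRight_eq_div_pow, pow_mul]; norm_num

/-- `m` is the code of the permutation `g` -/
def Rep (m : ℕ) (g : Equiv.Perm (Fin n)) : Prop := ∀ i : Fin n, look m i = g i

lemma relab_succ (t k w : ℕ) : relab t (k + 1) w = look t (w % 8) + 8 * relab t k (w / 8) := rfl

lemma relab_enc (hn : n ≤ 8) {t : ℕ} {g : Equiv.Perm (Fin n)} (ht : Rep t g) :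
    ∀ w : List (Fin n), relab t w.length (enc w) = enc (w.map g)
  | [] => rfl
  | a :: w => by
    rw [List.length_cons, relab_succ, enc_cons, cons_mod hn, cons_div hn, relab_enc hn ht w, ht a]
    rfl

/-- packed translates -/
lemma V_succ (S C k w : ℕ) : V S C (k + 1) w = col S C (w % 8) + 8 * V S C k (w / 8) := rfl

lemma ofDigits_add_mul (B c : ℕ) : ∀ (xs ys : List ℕ), xs.length = ys.length →
    Nat.ofDigits B xs + c * Nat.ofDigits B ys = Nat.ofDigits B (List.zipWith (fun x y => x + c * y) xs ys)
  | [], [], _ => by simp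
  | x :: xs, [], h => by simp at h
  | [], y :: ys, h => by simp at h
  | x :: xs, y :: ys, h => by
    have ih := ofDigits_add_mul B c xs ys (by simpa using h)
    simp only [List.zipWith_cons_cons, Nat.ofDigits_cons, ← ih]
    ring

lemma V_enc (hn : n ≤ 8) {S C : ℕ} {KL : List (Equiv.Perm (Fin n))}
    (hC : ∀ i : Fin n, col S C i = Nat.ofDigits 16777216 (KL.map fun g => ((g i : Fin n) : ℕ))) :
    ∀ w : List (Fin n), V S C w.length (enc w) =
      Nat.ofDigits 16777216 (KL.map fun g : Equiv.Perm (Fin n) => enc (w.map g))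
  | [] => by
    have : (KL.map fun g : Equiv.Perm (Fin n) => enc (([] : List (Fin n)).map g)) = List.replicate KL.length 0 := by
      simp
    rw [this]
    have h0 : ∀ j : ℕ, Nat.ofDigits 16777216 (List.replicate j 0) = 0 := by
      intro j
      induction j with
      | zero => rfl
      | succ j ih => rw [List.replicate_succ, Nat.ofDigits_cons, ih]
    rw [h0]; rfl
  | a :: w => by
    rw [List.length_cons, V_succ, enc_cons, cons_mod hn, cons_div hn, V_enc hn hC w, hC a,
      ofDigits_add_mul _ _ _ _ (by simp)]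
    congr 1
    rw [List.zipWith_map, List.zipWith_self]
    simp

lemma mn_eq (a b : ℕ) : mn a b = min a b := by
  unfold mn
  rcases le_total a b with h | h
  · have : Nat.ble a b = true := Nat.ble_eq_true_of_le h
    rw [this, min_eq_left h]; rfl
  · rcases eq_or_lt_of_le h with h' | h'
    · subst h'
      simp
    · have : Nat.ble a b = false := by
        rw [Bool.eq_false_iff]
        intro h2
        have := Nat.le_of_ble_eq_true h2
        omega
      rw [this, min_eq_right h]; rfl

lemma minS_ofDigits : ∀ xs : List ℕ, (∀ x ∈ xs, x < 16777216) →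
    minS xs.length (Nat.ofDigits 16777216 xs) = xs.foldr min 16777216
  | [], _ => rfl
  | x :: xs, h => by
    have hx : x < 16777216 := h x (by simp)
    have h1 : minS (x :: xs).length (Nat.ofDigits 16777216 (x :: xs)) =
      mn (Nat.ofDigits 16777216 (x :: xs) % 16777216)
        (minS xs.length (Nat.ofDigits 16777216 (x :: xs) / 16777216)) := rfl
    rw [h1, Nat.ofDigits_cons]
    have h2 : (x + 16777216 * Nat.ofDigits 16777216 xs) % 16777216 = x := by omega
    have h3 : (x + 16777216 * Nat.ofDigits 16777216 xs) / 16777216 =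
      Nat.ofDigits 16777216 xs := by omega
    rw [h2, h3, minS_ofDigits xs (fun y hy => h y (by simp [hy])), mn_eq]
    rfl

lemma foldr_min_le (b : ℕ) : ∀ (xs : List ℕ), ∀ x ∈ xs, xs.foldr min b ≤ x
  | [], x, h => by simp at h
  | y :: xs, x, h => by
    rw [List.foldr_cons]
    rcases List.mem_cons.1 h with rfl | h
    · exact min_le_left _ _
    · exact (min_le_right _ _).trans (foldr_min_le b xs x h)

lemma foldr_min_mem (b : ℕ) : ∀ (xs : List ℕ), xs.foldr min b = b ∨ xs.foldr min b ∈ xs
  | [] => Or.inl rfl
  | y :: xs => by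
    rw [List.foldr_cons]
    rcases min_choice y (xs.foldr min b) with h | h
    · right; rw [h]; simp
    · rw [h]
      rcases foldr_min_mem b xs with h2 | h2
      · exact Or.inl h2
      · right; exact List.mem_cons_of_mem _ h2

lemma foldr_min_le_base (b : ℕ) : ∀ (xs : List ℕ), xs.foldr min b ≤ b
  | [] => le_rfl
  | y :: xs => by
    rw [List.foldr_cons]
    exact (min_le_right _ _).trans (foldr_min_le_base b xs)

/-- the minimum only depends on the set of values -/
lemma foldr_min_congr (b : ℕ) (xs ys : List ℕ) (h : ∀ x ∈ xs, x ∈ ys) :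
    ys.foldr min b ≤ xs.foldr min b := by
  rcases foldr_min_mem b xs with h1 | h1
  · rw [h1]; exact foldr_min_le_base b ys
  · exact foldr_min_le b ys _ (h _ h1)

/-- the hash is invariant -/
lemma hsh_map (hn : n ≤ 8) {S C : ℕ} {KL : List (Equiv.Perm (Fin n))}
    (hC : ∀ i : Fin n, col S C i = Nat.ofDigits 16777216 (KL.map fun g => ((g i : Fin n) : ℕ)))
    {k : Equiv.Perm (Fin n)} (h1 : ∀ g ∈ KL, g * k ∈ KL) (h2 : ∀ g ∈ KL, g * k⁻¹ ∈ KL)
    {w : List (Fin n)} (hw : w.length = n) :
    hsh S n KL.length C (enc (w.map k)) = hsh S n KL.length C (enc w) := by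
  unfold hsh
  congr 1
  have key : ∀ w : List (Fin n), w.length = n →
      minS KL.length (V S C n (enc w)) = (KL.map fun g : Equiv.Perm (Fin n) => enc (w.map g)).foldr min 16777216 := by
    intro w hw
    have e := V_enc hn hC w
    rw [hw] at e
    rw [e]
    have := minS_ofDigits (KL.map fun g : Equiv.Perm (Fin n) => enc (w.map g)) ?_
    · rw [List.length_map] at this
      exact this
    · intro x hx
      obtain ⟨g, -, rfl⟩ := List.mem_map.1 hx
      have := enc_lt hn (w.map g)
      rw [List.length_map, hw] at this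
      calc enc (w.map g) < 8 ^ n := this
        _ ≤ 8 ^ 8 := Nat.pow_le_pow_right (by norm_num) hn
        _ = 16777216 := by norm_num
  rw [key _ (by simpa using hw), key w hw]
  apply le_antisymm
  · apply foldr_min_congr
    intro x hx
    obtain ⟨g, hg, rfl⟩ := List.mem_map.1 hx
    refine List.mem_map.2 ⟨g * k⁻¹, h2 g hg, ?_⟩
    congr 1
    rw [List.map_map]
    congr 1
    funext a
    simp
  · apply foldr_min_congr
    intro x hx
    obtain ⟨g, hg, rfl⟩ := List.mem_map.1 hx
    refine List.mem_map.2 ⟨g * k, h1 g hg, ?_⟩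
    congr 1
    rw [List.map_map]
    rfl

end codes

end Pan.SM
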