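import Pool.Agent.Hhelper18.Pan.SmallPath

/-! # MODULE SM : block chains from certificates, the certificate theorems -/

set_option linter.unusedSectionVars false

namespace Pan.SM

open Pan

/-! ### blocks -/

section blocks

variable {α : Type*} [DecidableEq α] [Inhabited α]

/-- last letter -/
def lst (w : List α) : α := w.getLastD default

lemma dropLast_append_lst {w : List α} (h : w ≠ []) : w.dropLast ++ [lst w] = w := by
  unfold lst
  rw [List.getLastD_eq_getLast?, List.getLast?_eq_some_getLast h]
  exact List.dropLast_append_getLast h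

/-- add a word in front of the first block -/
def push (w : List α) : List (α × List (List α)) → List (α × List (List α))
  | [] => []
  | (x, S) :: rest => (x, w :: S) :: rest

/-- the blocks of the path from `w` with reversal lengths `ks` -/
def bl : List α → List ℕ → List (α × List (List α))
  | w, [] => [(lst w, [w.dropLast])]
  | w, k :: ks =>
    if k = w.length then (lst w, [w.dropLast]) :: bl (rv k w) ks
    else push w.dropLast (bl (rv k w) ks)

lemma rv_ne {k : ℕ} {w : List α} (h : w ≠ []) : rv k w ≠ [] := by
  intro e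
  have := rv_length k w
  rw [e] at this
  exact h (List.length_eq_zero_iff.1 this.symm)

lemma rv_lt {k : ℕ} {w : List α} (h : w ≠ []) (hk : k < w.length) :
    rv k w = rv k w.dropLast ++ [lst w] := by
  conv_lhs => rw [← dropLast_append_lst h]
  rw [rv_append]
  simp; omega

lemma lst_append (w : List α) (x : α) : lst (w ++ [x]) = x := by
  simp [lst]

/-- shape of the blocks -/
lemma bl_spec (ks : List ℕ) (w : List α) (hw : 2 ≤ w.length)
    (hk : ∀ k ∈ ks, 2 ≤ k ∧ k ≤ w.length) :
    (∃ S rest, bl w ks = (lst w, w.dropLast :: S) :: rest) ∧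
    flat (bl w ks) = path w ks ∧
    (∀ b ∈ bl w ks, b.2.IsChain Adj ∧ b.2 ≠ []) ∧
    (bl w ks).IsChain (fun b c => ∀ p ∈ b.2.getLast?, ∀ q ∈ c.2.head?,
      q ++ [c.1] = (p ++ [b.1]).reverse) := by
  induction ks generalizing w with
  | nil =>
    have hne : w ≠ [] := by rintro rfl; simp at hw
    refine ⟨⟨[], [], rfl⟩, ?_, ?_, ?_⟩
    · simp [flat, bl, path, dropLast_append_lst hne]
    · intro b hb
      simp only [bl, List.mem_singleton] at hb
      subst hb
      simp
    · simp [bl]
  | cons k ks ih =>
    have hne : w ≠ [] := by rintro rfl; simp at hw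
    have hlen : (rv k w).length = w.length := rv_length k w
    obtain ⟨⟨S, rest, e⟩, h2, h3, h4⟩ := ih (rv k w) (by rw [hlen]; exact hw)
      (fun k' hk' => by rw [hlen]; exact hk k' (by simp [hk']))
    have hk2 := hk k (by simp)
    by_cases hkn : k = w.length
    · have e0 : bl w (k :: ks) = (lst w, [w.dropLast]) :: bl (rv k w) ks := by
        simp [bl, hkn]
      rw [e0]
      refine ⟨⟨[], _, rfl⟩, ?_, ?_, ?_⟩
      · have : flat ((lst w, [w.dropLast]) :: bl (rv k w) ks) = w :: flat (bl (rv k w) ks) := by
          simp [flat, dropLast_append_lst hne]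
        rw [this, h2]; rfl
      · intro b hb
        rcases List.mem_cons.1 hb with rfl | hb
        · simp
        · exact h3 b hb
      · rw [List.isChain_cons]
        refine ⟨?_, h4⟩
        intro c hc p hp q hq
        rw [e] at hc
        simp only [List.head?_cons, Option.mem_def, Option.some.injEq] at hc
        subst hc
        simp only [List.getLast?_singleton, Option.mem_def, Option.some.injEq] at hp
        simp only [List.head?_cons, Option.mem_def, Option.some.injEq] at hq
        subst hp hq
        rw [dropLast_append_lst (rv_ne hne), dropLast_append_lst hne, hkn, rv_full]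
    · have hklt : k < w.length := lt_of_le_of_ne hk2.2 hkn
      have hrv := rv_lt hne hklt
      have hlst : lst (rv k w) = lst w := by rw [hrv, lst_append]
      have hdrop : (rv k w).dropLast = rv k w.dropLast := by rw [hrv]; simp
      have e0 : bl w (k :: ks) = (lst w, w.dropLast :: (rv k w).dropLast :: S) :: rest := by
        have : bl w (k :: ks) = push w.dropLast (bl (rv k w) ks) := by simp [bl, hkn]
        rw [this, e, push, hlst]
      have hflat : flat (bl w (k :: ks)) = w :: flat (bl (rv k w) ks) := by
        rw [e0, e, hlst]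
        simp [flat, dropLast_append_lst hne]
      rw [hflat, h2, e0]
      refine ⟨⟨_, _, rfl⟩, rfl, ?_, ?_⟩
      · intro b hb
        rcases List.mem_cons.1 hb with rfl | hb
        · refine ⟨?_, by simp⟩
          have := (h3 (lst (rv k w), (rv k w).dropLast :: S) (by rw [e]; simp)).1
          rw [List.isChain_cons]
          refine ⟨?_, this⟩
          intro y hy
          simp only [List.head?_cons, Option.mem_def, Option.some.injEq] at hy
          subst hy
          rw [hdrop]
          exact ⟨k, hk2.1, by simp; omega, rfl⟩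
        · exact h3 b (by rw [e]; simp [hb])
      · rw [e] at h4
        rw [List.isChain_cons] at h4 ⊢
        refine ⟨?_, h4.2⟩
        intro c hc p hp q hq
        refine h4.1 c hc p ?_ q hq |>.trans ?_
        · rw [List.getLast?_cons_cons] at hp
          exact hp
        · rw [hlst]

variable [Fintype α]

/-- A chain of blocks from a transversal path. -/
lemma bc_of_flat {K : Subgroup (Equiv.Perm α)} {bs : List (α × List (List α))}
    (hT : TPon K (Wd Finset.univ) (flat bs)) (hpw : (bs.map Prod.fst).Pairwise (Inq K))
    (hch : ∀ b ∈ bs, b.2.IsChain Adj)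
    (hj : bs.IsChain (fun b c => ∀ p ∈ b.2.getLast?, ∀ q ∈ c.2.head?,
      q ++ [c.1] = (p ++ [b.1]).reverse)) : BC K Finset.univ bs := by
  refine ⟨fun b _ => Finset.mem_univ _, ?_, hj⟩
  intro b hb
  have hmemflat : ∀ b ∈ bs, ∀ w ∈ b.2, w ++ [b.1] ∈ flat bs := by
    intro b hb w hw
    unfold flat
    rw [List.mem_flatten]
    exact ⟨_, List.mem_map_of_mem hb, List.mem_map_of_mem hw⟩
  refine ⟨hch b hb, ?_, ?_, ?_⟩
  · intro w hw
    have := hT.mem _ (hmemflat b hb w hw)
    exact (wd_append (Finset.mem_univ _)).1 this
  · intro w hw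
    have h1 : Wd Finset.univ (w ++ [b.1]) := (wd_append (Finset.mem_univ _)).2 hw
    obtain ⟨q, hq, k, hk, e⟩ := hT.cover _ h1
    unfold flat at hq
    rw [List.mem_flatten] at hq
    obtain ⟨l, hl, hql⟩ := hq
    obtain ⟨c, hc, rfl⟩ := List.mem_map.1 hl
    obtain ⟨p, hp, rfl⟩ := List.mem_map.1 hql
    simp only [List.map_append, List.map_cons, List.map_nil] at e
    obtain ⟨e1, e2⟩ := List.append_inj' e rfl
    have e3 : b.1 = k c.1 := by simpa using e2
    -- the blocks are the same
    have hcb : c = b := by
      by_contra hne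
      have hsymm : Std.Symm (fun p q : α × List (List α) => Inq K p.1 q.1) :=
        ⟨fun a b h => h.symm⟩
      rw [List.pairwise_map] at hpw
      exact hpw.forall hc hb hne k hk e3.symm
    subst hcb
    exact ⟨p, hp, k, mem_stb.2 ⟨hk, e3.symm⟩, e1⟩
  · have hsub : (b.2.map (· ++ [b.1])).Sublist (flat bs) := by
      unfold flat
      exact List.sublist_flatten_of_mem (List.mem_map_of_mem hb)
    have h1 := hT.inj.sublist hsub
    rw [List.pairwise_map] at h1
    refine h1.imp ?_
    intro p q hpq hpq'
    apply hpq
    obtain ⟨k, hk, rfl⟩ := hpq'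
    refine ⟨k, stb_le K _ hk, ?_⟩
    simp [(mem_stb.1 hk).2]

lemma hall_of_tpon {K : Subgroup (Equiv.Perm α)} {bs : List (α × List (List α))}
    (hT : TPon K (Wd Finset.univ) (flat bs)) :
    ∀ y, ∃ x ∈ bs.map Prod.fst, ∃ k ∈ K, k x = y := by
  intro y
  obtain ⟨w, hw⟩ := exists_wd (Finset.univ.erase y)
  have h1 : Wd Finset.univ (w ++ [y]) := (wd_append (Finset.mem_univ _)).2 hw
  obtain ⟨q, hq, k, hk, e⟩ := hT.cover _ h1
  unfold flat at hq
  rw [List.mem_flatten] at hq
  obtain ⟨l, hl, hql⟩ := hq
  obtain ⟨c, hc, rfl⟩ := List.mem_map.1 hl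
  obtain ⟨p, hp, rfl⟩ := List.mem_map.1 hql
  simp only [List.map_append, List.map_cons, List.map_nil] at e
  obtain ⟨e1, e2⟩ := List.append_inj' e rfl
  have e3 : y = k c.1 := by simpa using e2
  exact ⟨c.1, List.mem_map_of_mem hc, k, hk, e3.symm⟩

end blocks

/-! ### reading off the blocks from the codes -/

/-- block letters -/
def letsN (n : ℕ) : ℕ → List ℕ → List ℕ
  | w, [] => [w / 8 ^ (n - 1)]
  | w, k :: ks => cond (Nat.beq k n) (w / 8 ^ (n - 1) :: letsN n (rvN k w) ks)
      (letsN n (rvN k w) ks)

/-- first and last words of the blocks -/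
def summ (n : ℕ) : ℕ → List ℕ → List (ℕ × ℕ)
  | w, [] => [(w, w)]
  | w, k :: ks => cond (Nat.beq k n) ((w, w) :: summ n (rvN k w) ks)
      (match summ n (rvN k w) ks with
        | [] => []
        | (_, q) :: rest => (w, q) :: rest)

section read

variable {n : ℕ} [NeZero n]

lemma enc_lst (hn : n ≤ 8) {w : List (Fin n)} (hw : w.length = n) :
    enc w / 8 ^ (n - 1) = ((lst w : Fin n) : ℕ) := by
  have hne : w ≠ [] := by
    rintro rfl
    have := NeZero.ne n
    simp at hw; omega
  rw [enc_div hn]
  conv_lhs => rw [← dropLast_append_lst hne]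
  have : w.dropLast.length = n - 1 := by simp [hw]
  rw [← this, List.drop_left]
  simp

lemma beq_eq (a b : ℕ) : Nat.beq a b = decide (a = b) := by
  rcases eq_or_ne a b with h | h
  · subst h; simp
  · simp only [h, decide_false]
    rw [Bool.eq_false_iff]
    intro h2
    exact h (Nat.eq_of_beq_eq_true h2)

lemma letsN_eq (hn : n ≤ 8) (ks : List ℕ) (w : List (Fin n)) (hw : w.length = n) (h2 : 2 ≤ n)
    (hk : ∀ k ∈ ks, 2 ≤ k ∧ k ≤ n) :
    letsN n (enc w) ks = (bl w ks).map fun b => (b.1 : ℕ) := by
  induction ks generalizing w with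
  | nil => simp [letsN, bl, enc_lst hn hw]
  | cons k ks ih =>
    have hlen : (rv k w).length = n := by rw [rv_length, hw]
    have ih' := ih (rv k w) hlen (fun k' hk' => hk k' (by simp [hk']))
    have hk' := hk k (by simp)
    simp only [letsN]
    rw [rvN_enc hn (by rw [hw]; exact hk'.2), beq_eq]
    by_cases hkn : k = n
    · have e0 : bl w (k :: ks) = (lst w, [w.dropLast]) :: bl (rv k w) ks := by
        simp [bl, hkn, hw]
      rw [e0]
      simp only [hkn, decide_true, cond_true, List.map_cons]
      rw [enc_lst hn hw]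
      rw [hkn] at ih'
      rw [ih']
    · have e0 : bl w (k :: ks) = push w.dropLast (bl (rv k w) ks) := by simp [bl, hkn, hw]
      rw [e0]
      simp only [hkn, decide_false, cond_false]
      rw [ih']
      obtain ⟨⟨S, rest, e⟩, -⟩ := bl_spec ks (rv k w) (by rw [hlen]; exact h2)
        (fun k' hk' => by rw [hlen]; exact hk k' (by simp [hk']))
      rw [e]
      simp [push]

/-- first and last word of a block -/
def fl (b : Fin n × List (List (Fin n))) : Option (ℕ × ℕ) :=
  match (b.2.map (· ++ [b.1])).head?, (b.2.map (· ++ [b.1])).getLast? with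
  | some p, some q => some (enc p, enc q)
  | _, _ => none

lemma summ_eq (hn : n ≤ 8) (ks : List ℕ) (w : List (Fin n)) (hw : w.length = n) (h2 : 2 ≤ n)
    (hk : ∀ k ∈ ks, 2 ≤ k ∧ k ≤ n) :
    (summ n (enc w) ks).map some = (bl w ks).map fl := by
  have hne : ∀ w : List (Fin n), w.length = n → w ≠ [] := by
    rintro w hw rfl
    have := NeZero.ne n
    simp at hw; omega
  induction ks generalizing w with
  | nil => simp [summ, bl, fl, dropLast_append_lst (hne w hw)]
  | cons k ks ih =>
    have hlen : (rv k w).length = n := by rw [rv_length, hw]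
    have ih' := ih (rv k w) hlen (fun k' hk' => hk k' (by simp [hk']))
    have hk' := hk k (by simp)
    simp only [summ]
    rw [rvN_enc hn (by rw [hw]; exact hk'.2), beq_eq]
    by_cases hkn : k = n
    · have e0 : bl w (k :: ks) = (lst w, [w.dropLast]) :: bl (rv k w) ks := by
        simp [bl, hkn, hw]
      rw [e0]
      simp only [hkn, decide_true, cond_true, List.map_cons]
      rw [hkn] at ih'
      rw [ih']
      simp [fl, dropLast_append_lst (hne w hw)]
    · have e0 : bl w (k :: ks) = push w.dropLast (bl (rv k w) ks) := by simp [bl, hkn, hw]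
      rw [e0]
      simp only [hkn, decide_false, cond_false]
      obtain ⟨⟨S, rest, e⟩, -⟩ := bl_spec ks (rv k w) (by rw [hlen]; exact h2)
        (fun k' hk' => by rw [hlen]; exact hk k' (by simp [hk']))
      have hlst : lst (rv k w) = lst w := by
        rw [rv_lt (hne w hw) (by rw [hw]; omega), lst_append]
      rw [e] at ih' ⊢
      rw [hlst] at ih' ⊢
      cases hs : summ n (enc (rv k w)) ks with
      | nil => rw [hs] at ih'; simp at ih'
      | cons pq rs =>
        rw [hs] at ih'
        obtain ⟨p, q⟩ := pq
        simp only [List.map_cons, List.cons.injEq] at ih' ⊢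
        simp only [push, List.map_cons, List.cons.injEq]
        refine ⟨?_, ih'.2⟩
        have h1 := ih'.1
        simp only [fl, List.map_cons, List.head?_cons, List.getLast?_cons_cons,
          List.getLast?_cons] at h1 ⊢
        simp only [Option.some.injEq, Prod.mk.injEq] at h1 ⊢
        exact ⟨by rw [dropLast_append_lst (hne w hw)], h1.2⟩

end read

end Pan.SM
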