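import Pool.Agent.Hhelper18.Pan.SmallThm

/-! # MODULE SM : certificates -/

set_option maxRecDepth 100000

namespace Pan.SM

open Pan

def five2_ks : List ℕ := [3, 4, 2, 3, 4, 3, 4, 3, 4, 3, 2, 5, 3, 2, 3, 4, 2, 4, 2, 3, 2, 3, 2, 4, 3, 4, 2, 3, 4, 2, 3, 2, 4, 2, 3, 5, 3, 2, 4, 2, 4, 3, 2, 4, 3, 2, 4, 5, 4, 2, 3, 4, 3, 4, 3, 4, 3, 2, 4]
def five2_C : ℕ := 421249191782636810771719538449534650555648336046131834496734986240
theorem five2 : SizeAt (Fin 5) 2 :=
  cyc_cert (n := 5) (by norm_num) (by norm_num) 18049 48 five2_C [18049] [18056, 18049] [3, 1, 2, 0, 4] five2_ks [4, 1, 2, 3] [(16523, 17937), (5148, 4322), (10433, 8459), (13058, 12428)]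
    (by decide +kernel) (by decide +kernel) (by decide +kernel) (by decide +kernel) (by decide +kernel) (by decide +kernel) (by decide +kernel) (by decide +kernel) (by decide +kernel) (by decide +kernel) (by decide +kernel) (by decide +kernel) (by decide +kernel) (by decide +kernel) (by decide +kernel) (by decide +kernel) (by decide +kernel)

def five3_ks : List ℕ := [4, 2, 4, 2, 3, 4, 2, 3, 4, 2, 4, 2, 3, 2, 3, 2, 4, 3, 4, 2, 3, 4, 2, 5, 4, 2, 4, 2, 4, 2, 4, 5, 3, 4, 3, 4, 3, 4, 2]
def five3_C : ℕ := 559936218919250478196615175040728650307013089047290807668239510327246297086031288096042709404310568960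
theorem five3 : SizeAt (Fin 5) 3 :=
  cyc_cert (n := 5) (by norm_num) (by norm_num) 17937 72 five3_C [17937, 17937] [18056, 17937, 17986] [3, 4, 0, 2, 1] five3_ks [1, 4, 3] [(5155, 5764), (16537, 16523), (12932, 14402)]
    (by decide +kernel) (by decide +kernel) (by decide +kernel) (by decide +kernel) (by decide +kernel) (by decide +kernel) (by decide +kernel) (by decide +kernel) (by decide +kernel) (by decide +kernel) (by decide +kernel) (by decide +kernel) (by decide +kernel) (by decide +kernel) (by decide +kernel) (by decide +kernel) (by decide +kernel)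

def five4_ks : List ℕ := [3, 4, 3, 2, 4, 5, 3, 2, 4, 2, 3, 2, 4, 3, 2, 4, 2, 3, 2, 3, 2, 4, 2, 3, 2, 3, 2, 4, 2]
def five4_C : ℕ := 744282898041419206079578101555822060351080968413260004138421031495657273133042534685949266917312757380278613133487843305227483082066493440
theorem five4 : SizeAt (Fin 5) 4 :=
  cyc_cert (n := 5) (by norm_num) (by norm_num) 16593 96 five4_C [16593, 16593, 16593] [18056, 16593, 16922, 17475] [3, 2, 0, 1, 4] five4_ks [4, 0] [(16915, 18056), (668, 1620)]
    (by decide +kernel) (by decide +kernel) (by decide +kernel) (by decide +kernel) (by decide +kernel) (by decide +kernel) (by decide +kernel) (by decide +kernel) (by decide +kernel) (by decide +kernel) (by decide +kernel) (by decide +kernel) (by decide +kernel) (by decide +kernel) (by decide +kernel) (by decide +kernel) (by decide +kernel)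

def five5_ks : List ℕ := [4, 3, 4, 2, 3, 2, 4, 3, 4, 2, 4, 2, 4, 3, 4, 2, 3, 2, 4, 2, 3, 4, 3]
def five5_C : ℕ := 741991233903395924793899874176617246332952446865970258097191934518036455017070883200415129910922656773944092127613607347916954354189051978058473581086863224003591010045132800
theorem five5 : SizeAt (Fin 5) 5 :=
  cyc_cert (n := 5) (by norm_num) (by norm_num) 2257 120 five5_C [2257, 2257, 2257, 2257] [18056, 2257, 4378, 8739, 13380] [2, 1, 4, 0, 3] five5_ks [3] [(12554, 13324)]
    (by decide +kernel) (by decide +kernel) (by decide +kernel) (by decide +kernel) (by decide +kernel) (by decide +kernel) (by decide +kernel) (by decide +kernel) (by decide +kernel) (by decide +kernel) (by decide +kernel) (by decide +kernel) (by decide +kernel) (by decide +kernel) (by decide +kernel) (by decide +kernel) (by decide +kernel)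

def five6_ks : List ℕ := [4, 3, 4, 2, 4, 3, 4, 3, 4, 3, 4, 5, 3, 4, 2, 3, 2, 3, 2]
def five6_C : ℕ := 986275559922456507079837397339984928521317973766549003029140177138887223028405334744977671407199118281958697739464752700334328245793505523481910257934200603319809005197306862999862445895258283741011106762588160
theorem five6 : SizeAt (Fin 5) 6 :=
  cyc_cert (n := 5) (by norm_num) (by norm_num) 14353 144 five6_C [14353, 14353, 14353, 14353, 14353] [18056, 14353, 17986, 14472, 17937, 14402] [4, 2, 3, 0, 1] five6_ks [1, 3] [(4308, 5155), (14353, 12554)]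
    (by decide +kernel) (by decide +kernel) (by decide +kernel) (by decide +kernel) (by decide +kernel) (by decide +kernel) (by decide +kernel) (by decide +kernel) (by decide +kernel) (by decide +kernel) (by decide +kernel) (by decide +kernel) (by decide +kernel) (by decide +kernel) (by decide +kernel) (by decide +kernel) (by decide +kernel)

def five8_ks : List ℕ := [2, 3, 5, 2, 4, 2, 4, 2, 4, 2, 3, 4, 2, 4]
def five8_C : ℕ := 2323464057985785860252344000568673241864332514686140107727565081133381991630378346851400263277684910032686249963852243194916535728998190509703004439220970194469268124725253672310923133004676565058987581123530562448887035264822302870299351521766276239566891587760753999173257139322880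
theorem five8 : SizeAt (Fin 5) 8 :=
  dih_cert (n := 5) (by norm_num) (by norm_num) 17048 17601 4 192 five8_C [17048, 17601, 17048, 17601, 17048, 17601, 17048] [18056, 17048, 16593, 16467, 16922, 17930, 17475, 17601] [1, 0, 3, 2, 4] five8_ks [4, 3] 3 5
    (by decide +kernel) (by decide +kernel) (by decide +kernel) (by decide +kernel) (by decide +kernel) (by decide +kernel) (by decide +kernel) (by decide +kernel) (by decide +kernel) (by decide +kernel) (by decide +kernel) (by decide +kernel) (by decide +kernel) (by decide +kernel) (by decide +kernel) (by decide +kernel) (by decide +kernel) (by decide +kernel) (by decide +kernel) (by decide +kernel) (by decide +kernel) (by decide +kernel) (by decide +kernel) (by decide +kernel) (by decide +kernel) (by decide +kernel) (by decide +kernel)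

def five10_ks : List ℕ := [2, 3, 2, 3, 4, 3, 2, 3, 2, 3, 4]
def five10_C : ℕ := 1026301351570233739499510756240620707240624997594565004238218202580729965574953659860522631172476081247128582740111482647381543855448170435529728724805600756748636184836265631682822630910245449161278563864309304902311634656768412772090207628118236124107066717625042035652793677837592812263396690470122294487259494092987607337916164034663452998259808665600
theorem five10 : SizeAt (Fin 5) 10 :=
  dih_cert (n := 5) (by norm_num) (by norm_num) 9985 5344 5 240 five10_C [9985, 5344, 9985, 5344, 9985, 5344, 9985, 5344, 9985] [18056, 9985, 13380, 14346, 8739, 16467, 4378, 668, 2257, 5344] [1, 2, 4, 0, 3] five10_ks [3] 4 5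
    (by decide +kernel) (by decide +kernel) (by decide +kernel) (by decide +kernel) (by decide +kernel) (by decide +kernel) (by decide +kernel) (by decide +kernel) (by decide +kernel) (by decide +kernel) (by decide +kernel) (by decide +kernel) (by decide +kernel) (by decide +kernel) (by decide +kernel) (by decide +kernel) (by decide +kernel) (by decide +kernel) (by decide +kernel) (by decide +kernel) (by decide +kernel) (by decide +kernel) (by decide +kernel) (by decide +kernel) (by decide +kernel) (by decide +kernel) (by decide +kernel)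

def five12_ks : List ℕ := [4, 3, 4, 5, 4, 3, 2, 4, 2]
def five12_C : ℕ := 5439952916046336083751724060781143020889684983398585611567042115324232024997652030886685711564245914245847937978114684282788913204966756994719896218999913875212757488416107790849688561826947799760447733639308824887128752874730393242526851783563415649550398530549985411458219561936527588863514309842010197312488153305967220220895772886026566827928382128161768054073053790100110142126497213433460825786064398667564117024644792320
theorem five12 : SizeAt (Fin 5) 12 :=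
  dih_cert (n := 5) (by norm_num) (by norm_num) 18000 14465 6 288 five12_C [18000, 14465, 18000, 14465, 18000, 14465, 18000, 14465, 18000, 14465, 18000] [18056, 18000, 14353, 14346, 17986, 18049, 14472, 14416, 17937, 17930, 14402, 14465] [2, 3, 1, 0, 4] five12_ks [4, 2] 3 4
    (by decide +kernel) (by decide +kernel) (by decide +kernel) (by decide +kernel) (by decide +kernel) (by decide +kernel) (by decide +kernel) (by decide +kernel) (by decide +kernel) (by decide +kernel) (by decide +kernel) (by decide +kernel) (by decide +kernel) (by decide +kernel) (by decide +kernel) (by decide +kernel) (by decide +kernel) (by decide +kernel) (by decide +kernel) (by decide +kernel) (by decide +kernel) (by decide +kernel) (by decide +kernel) (by decide +kernel) (by decide +kernel) (by decide +kernel) (by decide +kernel)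

def six8_ks : List ℕ := [5, 3, 5, 4, 2, 3, 5, 2, 5, 3, 5, 2, 4, 2, 4, 2, 3, 5, 4, 2, 5, 3, 5, 2, 5, 2, 4, 5, 2, 4, 2, 4, 5, 4, 3, 2, 5, 2, 3, 4, 5, 4, 2, 4, 5, 4, 5, 4, 5, 4, 3, 5, 3, 4, 5, 3, 5, 3, 4, 6, 4, 2, 4, 3, 4, 3, 5, 3, 2, 5, 4, 2, 3, 4, 6, 4, 5, 2, 5, 3, 2, 5, 3, 2, 4, 5, 2, 5, 4]
def six8_C : ℕ := 18230775338113944856769253335313914380049315021426619093274255741527249247350018356833744128717369523769089656825681391174214402788070587448263047495648675991341225258151210331210813103529658581869495086988534211000105513584677106694155532771973351996752222237887345502160608261222246441253010470427513824879111206411684231679347317559787520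
theorem six8 : SizeAt (Fin 6) 8 :=
  dih_cert (n := 6) (by norm_num) (by norm_num) 180888 181441 4 192 six8_C [180888, 181441, 180888, 181441, 180888, 181441, 180888] [181896, 180888, 180433, 180307, 180762, 181770, 181315, 181441] [3, 1, 5, 2, 4, 0] six8_ks [0, 4, 5] 2 5
    (by decide +kernel) (by decide +kernel) (by decide +kernel) (by decide +kernel) (by decide +kernel) (by decide +kernel) (by decide +kernel) (by decide +kernel) (by decide +kernel) (by decide +kernel) (by decide +kernel) (by decide +kernel) (by decide +kernel) (by decide +kernel) (by decide +kernel) (by decide +kernel) (by decide +kernel) (by decide +kernel) (by decide +kernel) (by decide +kernel) (by decide +kernel) (by decide +kernel) (by decide +kernel) (by decide +kernel) (by decide +kernel) (by decide +kernel) (by decide +kernel)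

def six10_ks : List ℕ := [2, 5, 4, 5, 3, 2, 4, 3, 2, 5, 3, 5, 4, 2, 4, 3, 5, 2, 3, 2, 4, 2, 3, 2, 5, 4, 5, 3, 4, 2, 3, 2, 4, 2, 5, 3, 4, 3, 5, 3, 5, 2, 3, 2, 4, 3, 5, 2, 4, 2, 3, 2, 3, 2, 4, 3, 5, 2, 5, 6, 2, 3, 2, 3, 2, 4, 3, 2, 3, 2, 3]
def six10_C : ℕ := 9066588193410549402588908507746514851256059692340473668590976811657012608136982177540182975561041901438791644553705237989638362163413707609025425535863795438131412693817173882219932416824850272702449668906622624328280160247571920548182365036247676257324317649427043680057500393649198182240607008146460137781516243272942835788292942337403638917443070175220368317380309752084781107158156770588294034381894997403225957050246758400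
theorem six10 : SizeAt (Fin 6) 10 :=
  dih_cert (n := 6) (by norm_num) (by norm_num) 169184 173825 5 240 six10_C [169184, 173825, 169184, 173825, 169184, 173825, 169184, 173825, 169184] [181896, 169184, 166097, 164508, 168218, 180307, 172579, 178186, 177220, 173825] [4, 3, 2, 1, 5, 0] six10_ks [0, 5] 4 4
    (by decide +kernel) (by decide +kernel) (by decide +kernel) (by decide +kernel) (by decide +kernel) (by decide +kernel) (by decide +kernel) (by decide +kernel) (by decide +kernel) (by decide +kernel) (by decide +kernel) (by decide +kernel) (by decide +kernel) (by decide +kernel) (by decide +kernel) (by decide +kernel) (by decide +kernel) (by decide +kernel) (by decide +kernel) (by decide +kernel) (by decide +kernel) (by decide +kernel) (by decide +kernel) (by decide +kernel) (by decide +kernel) (by decide +kernel) (by decide +kernel)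

def six12b_ks : List ℕ := [2, 4, 2, 3, 4, 5, 4, 5, 4, 5, 3, 4, 3, 5, 4, 3, 2, 5, 4, 3, 4, 5, 4, 3, 5, 3, 2, 3, 5, 6, 5, 3, 5, 4, 3, 4, 5, 4, 3, 5, 3, 5, 4, 2, 4, 5, 4, 5, 4, 6, 5, 4, 3, 4, 5, 4, 5, 2, 4]
def six12b_C : ℕ := 4509024983541695037016725180355996805874133081627562139013697253650103298885173190291181676820564371104886084478381621907373104888403732680116910943900067603510344146674707774114447332355744314444687948956036927096894568206875322983673478192672234712820146296162365805071704665994050002412044309893427042852298609939436948111254402601738403971979476158896760292057551739790639708790041096336022016724466699194650041239156153517019135337242018830699042656991413748824435395713472314987247383071258433065057549025280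
theorem six12b : SizeAt (Fin 6) 12 :=
  dih_cert (n := 6) (by norm_num) (by norm_num) 178256 181889 6 288 six12b_C [178256, 181889, 178256, 181889, 178256, 181889, 178256, 181889, 178256, 181889, 178256] [181896, 178256, 178193, 181770, 181826, 178305, 178312, 181840, 181777, 178186, 178242, 181889] [4, 1, 2, 3, 5, 0] six12b_ks [0, 3, 5] 4 3
    (by decide +kernel) (by decide +kernel) (by decide +kernel) (by decide +kernel) (by decide +kernel) (by decide +kernel) (by decide +kernel) (by decide +kernel) (by decide +kernel) (by decide +kernel) (by decide +kernel) (by decide +kernel) (by decide +kernel) (by decide +kernel) (by decide +kernel) (by decide +kernel) (by decide +kernel) (by decide +kernel) (by decide +kernel) (by decide +kernel) (by decide +kernel) (by decide +kernel) (by decide +kernel) (by decide +kernel) (by decide +kernel) (by decide +kernel) (by decide +kernel)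

def seven8_ks : List ℕ := [5, 6, 2, 5, 6, 5, 2, 6, 4, 2, 4, 3, 5, 6, 2, 5, 4, 2, 6, 2, 6, 4, 3, 5, 6, 2, 4, 6, 3, 6, 5, 6, 4, 3, 6, 4, 6, 5, 4, 3, 2, 3, 2, 5, 3, 4, 5, 3, 6, 2, 6, 3, 6, 2, 5, 6, 2, 4, 2, 3, 6, 4, 3, 4, 2, 6, 3, 2, 4, 2, 5, 4, 3, 5, 2, 5, 2, 4, 2, 6, 5, 6, 4, 5, 2, 3, 6, 4, 2, 6, 2, 6, 2, 4, 6, 5, 6, 5, 3, 5, 6, 3, 4, 3, 4, 6, 3, 5, 6, 3, 5, 3, 6, 2, 4, 6, 3, 4, 6, 2, 6, 4, 3, 5, 4, 3, 4, 5, 2, 4, 5, 6, 5, 3, 6, 4, 3, 5, 2, 5, 4, 2, 3, 4, 3, 4, 5, 4, 2, 6, 3, 6, 5, 3, 6, 5, 6, 4, 5, 2, 4, 5, 6, 4, 6, 2, 4, 3, 6, 2, 6, 3, 2, 4, 5, 2, 4, 6, 2, 6, 4, 5, 2, 6, 4, 3, 2, 3, 6, 4, 6, 2, 3, 4, 6, 2, 3, 2, 5, 2, 6, 5, 4, 2, 6, 4, 3, 4, 3, 2, 6, 3, 5, 4, 3, 5, 4, 2, 3, 5, 3, 5, 3, 5, 2, 3, 5, 4, 3, 5, 6, 2, 6, 4, 5, 4, 6, 5, 3, 6, 4, 5, 6, 5, 6, 3, 5, 4, 2, 5, 2, 6, 2, 4, 2, 4, 3, 2, 4, 5, 4, 3, 4, 3, 6, 2, 4, 3, 2, 3, 5, 6, 2, 6, 5, 3, 4, 6, 5, 6, 5, 4, 2, 4, 6, 3, 4, 6, 4, 5, 2, 3, 2, 3, 2, 5, 2, 4, 2, 4, 6, 4, 6, 4, 2, 6, 5, 4, 2, 3, 5, 2, 6, 5, 2, 6, 2, 4, 6, 4, 6, 2, 6, 5, 2, 6, 4, 3, 5, 3, 6, 5, 2, 6, 2, 5, 3, 6, 5, 2, 5, 4, 6,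 2, 3, 4, 2, 3, 4, 6, 4, 5, 3, 4, 2, 4, 3, 6, 2, 7, 2, 4, 3, 5, 2, 3, 2, 5, 3, 5, 6, 2, 6, 4, 3, 6, 5, 4, 5, 6, 2, 5, 4, 6, 4, 5, 6, 4, 2, 4, 5, 2, 5, 4, 6, 4, 3, 4, 6, 5, 4, 6, 3, 6, 5, 3, 4, 3, 5, 3, 4, 5, 6, 2, 6, 3, 4, 6, 2, 5, 2, 6, 4, 3, 2, 3, 5, 3, 4, 3, 5, 4, 6, 4, 2, 6, 2, 5, 4, 6, 5, 2, 5, 2, 4, 5, 4, 3, 6, 3, 2, 6, 5, 4, 2, 6, 2, 4, 6, 4, 5, 6, 5, 2, 6, 2, 5, 2, 5, 4, 5, 4, 2, 6, 3, 6, 5, 3, 4, 3, 2, 5, 3, 4, 5, 6, 5, 4, 6, 3, 5, 6, 2, 3, 6, 3, 5, 6, 2, 4, 5, 4, 5, 2, 6, 3, 5, 3, 4, 3, 5, 6, 4, 3, 4, 3, 2, 5, 2, 5, 3, 4, 5, 6, 3, 4, 5, 3, 5, 2, 4, 3, 6, 5, 4, 2, 4, 6, 5, 7, 5, 2, 4, 5, 3, 4, 5, 2, 3, 4, 3, 6, 5, 3, 2, 3, 6, 3, 6, 5, 2, 5, 4, 2, 3, 5, 4, 5, 3, 4, 3, 6, 3, 5, 4, 2, 6, 3, 5, 6, 2, 3, 5, 2, 5, 6, 3, 5, 2, 3, 2, 5, 4, 6, 4, 2, 3, 2, 6, 4, 3, 2, 4, 5, 3, 5, 4, 5, 2, 4, 2, 6, 3, 2, 6, 2, 4, 3, 2, 3, 2, 6, 3, 5, 3, 6, 2, 4, 5]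
def seven8_C : ℕ := 137323717814783694025417414786055727571937767312198910520652664614545169317561438404406345704939492747170102685816374053517914390615818398321649440942600850032137677136681751682059039805034932951985840018368225457356063381562594755933849129371994246425909738200110860897116358129009125493711214606762307331782514504891652051166225071434813123601328447259700392034089325997326648105091543865038471168
theorem seven8 : SizeAt (Fin 7) 8 :=
  dih_cert (n := 7) (by norm_num) (by norm_num) 1725080 1725633 4 192 seven8_C [1725080, 1725633, 1725080, 1725633, 1725080, 1725633, 1725080] [1754760, 1725080, 1753297, 1724499, 1753626, 1725962, 1754179, 1725633] [4, 3, 1, 5, 0, 6, 2] seven8_ks [2, 4, 6] 4 6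
    (by decide +kernel) (by decide +kernel) (by decide +kernel) (by decide +kernel) (by decide +kernel) (by decide +kernel) (by decide +kernel) (by decide +kernel) (by decide +kernel) (by decide +kernel) (by decide +kernel) (by decide +kernel) (by decide +kernel) (by decide +kernel) (by decide +kernel) (by decide +kernel) (by decide +kernel) (by decide +kernel) (by decide +kernel) (by decide +kernel) (by decide +kernel) (by decide +kernel) (by decide +kernel) (by decide +kernel) (by decide +kernel) (by decide +kernel) (by decide +kernel)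

def seven20_ks : List ℕ := [2, 3, 2, 3, 6, 2, 4, 2, 4, 2, 6, 4, 3, 2, 3, 6, 5, 3, 2, 5, 6, 3, 6, 2, 5, 2, 3, 2, 3, 2, 4, 3, 2, 3, 5, 3, 2, 3, 5, 2, 6, 4, 3, 6, 5, 3, 2, 3, 4, 2, 4, 2, 5, 2, 4, 3, 2, 3, 2, 4, 3, 5, 3, 5, 2, 5, 2, 5, 2, 4, 2, 7, 2, 3, 5, 3, 4, 3, 6, 5, 4, 6, 5, 4, 2, 6, 5, 6, 4, 5, 6, 5, 2, 6, 5, 4, 2, 5, 3, 2, 6, 2, 4, 2, 3, 5, 3, 4, 3, 4, 6, 3, 6, 4, 5, 2, 4, 6, 3, 5, 2, 5, 4, 2, 4, 3, 4, 2, 3, 4, 6, 2, 6, 4, 5, 4, 6, 3, 4, 6, 5, 4, 5, 2, 5, 4, 5, 6, 5, 3, 5, 3, 6, 4, 6, 5, 2, 5, 3, 4, 3, 5, 3, 4, 5, 2, 6, 4, 2, 3, 5, 2, 5, 3, 2, 6, 3, 2, 4, 2, 5, 4, 2, 4, 5, 6, 2, 4, 5, 2, 5, 4, 6, 2, 4, 5, 4, 3, 2, 5, 2, 4, 2, 3, 4, 2, 4, 6, 3, 5, 6, 5, 3, 2, 3, 5, 3, 4, 2, 6, 2, 5, 2, 5, 4, 3, 5, 6, 5, 2, 3, 4, 3, 2, 5, 2, 3, 4, 6, 5, 6, 5, 3, 6, 4, 3, 6, 2, 6, 5, 3]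
def seven20_C : ℕ := 861064263610822638629555502369326963520079742457039685793866724197880879827169497673510744796798363084226082342305306356126739321991824659359681463875768126353582577297646452856845648126087610952002434277660513712176752513652519314726224054973409646846433209907470512319441070102261917759096501590742690697026715522490395723335849097052711800937244359271760990649261301276142519065228994038204196392384884336590545186643091511143094855398975119967985462379095475754895148126756911664237334517582716222442805784374441961391977843918551260445047909284571682886680723362493867329813127036147074730313747676015711306566438057654791029000519504340142999287952889873952728679194385801963903805413407304846071600936147062303396449319868160804277822844877458448446171853499474076985776846523676107126371206175119695307249302891193438711219651343069180203865725650309281075179604569506931031498600532547534412015865480726350161788834805115547967878452889078176954635520691539481156298572316834981293701755064811520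
theorem seven20 : SizeAt (Fin 7) 20 :=
  dih_cert (n := 7) (by norm_num) (by norm_num) 1742048 1517313 10 480 seven20_C [1742048, 1517313, 1742048, 1517313, 1742048, 1517313, 1742048, 1517313, 1742048, 1517313, 1742048, 1517313, 1742048, 1517313, 1742048, 1517313, 1742048, 1517313, 1742048] [1754760, 1742048, 1509585, 1507996, 1741082, 1753171, 1516067, 1521674, 1750084, 1746689, 1525384, 1512672, 1738961, 1737372, 1511706, 1523795, 1745443, 1751050, 1520708, 1517313] [1, 3, 2, 4, 0, 5, 6] seven20_ks [6, 3] 4 6
    (by decide +kernel) (by decide +kernel) (by decide +kernel) (by decide +kernel) (by decide +kernel) (by decide +kernel) (by decide +kernel) (by decide +kernel) (by decide +kernel) (by decide +kernel) (by decide +kernel) (by decide +kernel) (by decide +kernel) (by decide +kernel) (by decide +kernel) (by decide +kernel) (by decide +kernel) (by decide +kernel) (by decide +kernel) (by decide +kernel) (by decide +kernel) (by decide +kernel) (by decide +kernel) (by decide +kernel) (by decide +kernel) (by decide +kernel) (by decide +kernel)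

def seven24_ks : List ℕ := [2, 5, 2, 3, 2, 5, 4, 2, 5, 3, 2, 4, 2, 3, 6, 5, 2, 4, 2, 6, 2, 5, 2, 3, 4, 3, 5, 2, 5, 3, 2, 4, 2, 4, 3, 2, 5, 6, 2, 4, 6, 2, 3, 2, 3, 6, 5, 3, 2, 4, 6, 2, 5, 6, 4, 2, 5, 6, 2, 5, 2, 6, 3, 6, 2, 6, 3, 5, 6, 2, 6, 3, 2, 6, 3, 5, 3, 2, 5, 3, 2, 4, 2, 3, 2, 4, 6, 5, 2, 7, 6, 4, 3, 5, 6, 5, 2, 3, 6, 2, 6, 4, 5, 2, 4, 5, 2, 6, 2, 5, 4, 6, 4, 5, 3, 5, 2, 5, 4, 5, 6, 2, 6, 5, 3, 2, 5, 6, 2, 6, 4, 3, 4, 5, 6, 3, 2, 6, 4, 6, 5, 2, 6, 2, 3, 5, 2, 6, 3, 5, 3, 6, 2, 6, 5, 6, 4, 3, 6, 3, 6, 5, 6, 4, 3, 4, 6, 4, 5, 6, 5, 6, 5, 6, 4, 2, 6, 4, 3, 6, 5, 4, 3, 6, 4, 2, 6, 2, 3, 6, 5, 4, 3, 6, 2, 4, 6, 5, 3, 5, 3, 5, 2, 5, 2, 5, 6, 2, 5]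
def seven24_C : ℕ := 16873013401626053764651111361823281895885106246878597010654003929111786143009180197136513505806378375943299830182098128620225147596922904174374065424552655595037698443173051580997876587520317136519755300108422857851604869619286464957595445600870220033941615096498492202856636779343803794512443736004375932881192377116839631145328379933609470306664720155309204639726412884576171595169596198963742243289519549180226933758468734631565017733404478358943006945433401082856723263010635274326472953300131474751676070820295842103372636085360799741696033383324777517088077328361837229421766361442421313106757181461425309923431395537213508201719811470559862227310463756333319922746144180136266718228908998301715790967556619366902873234275325220779992854679758534040349291919512894830319347139851780769475554294417205076365852162919402094677026946096361780189241198959146856361819548058658980473053781837139791055990764322386489728655379154110413569178676873313163125323187712347024250974256201521169340061186812559146757543783628602870072529114506067819364821853854402376266397167292422513557935629271597959977937509821170022328845444954882223100927015535254091420239986600039025004311605795756810102543368706750152704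
theorem seven24 : SizeAt (Fin 7) 24 :=
  dih_cert (n := 7) (by norm_num) (by norm_num) 1238608 1521793 12 576 seven24_C [1238608, 1521793, 1238608, 1521793, 1238608, 1521793, 1238608, 1521793, 1238608, 1521793, 1238608, 1521793, 1238608, 1521793, 1238608, 1521793, 1238608, 1521793, 1238608, 1521793, 1238608, 1521793, 1238608] [1754760, 1238608, 1005585, 941066, 1174082, 1690241, 1457288, 1521744, 1754641, 1238538, 1005634, 941185, 1174152, 1690192, 1457169, 1521674, 1754690, 1238657, 1005704, 941136, 1174033, 1690122, 1457218, 1521793] [6, 2, 5, 1, 4, 3, 0] seven24_ks [0, 6] 5 7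
    (by decide +kernel) (by decide +kernel) (by decide +kernel) (by decide +kernel) (by decide +kernel) (by decide +kernel) (by decide +kernel) (by decide +kernel) (by decide +kernel) (by decide +kernel) (by decide +kernel) (by decide +kernel) (by decide +kernel) (by decide +kernel) (by decide +kernel) (by decide +kernel) (by decide +kernel) (by decide +kernel) (by decide +kernel) (by decide +kernel) (by decide +kernel) (by decide +kernel) (by decide +kernel) (by decide +kernel) (by decide +kernel) (by decide +kernel) (by decide +kernel)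

end Pan.SM
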