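import Pool.Agent.Hhelper18.Pan.SmallBase

/-! # MODULE SM : groups, paths and blocks from certificates -/

set_option linter.unusedSectionVars false

namespace Pan.SM

open Pan

variable {n : ℕ}

/-! ### codes of permutations -/

/-- code of a permutation -/
def cd (g : Equiv.Perm (Fin n)) : ℕ := enc (word g)

lemma cd_inj (hn : n ≤ 8) {g h : Equiv.Perm (Fin n)} (e : cd g = cd h) : g = h :=
  word_injective (enc_inj hn (by simp) e)

lemma look_enc (hn : n ≤ 8) (w : List (Fin n)) (i : ℕ) (hi : i < w.length) :
    look (enc w) i = (w[i] : ℕ) := by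
  rw [look_eq, enc_div hn, List.drop_eq_getElem_cons hi, enc_cons, cons_mod hn]

lemma rep_cd (hn : n ≤ 8) (g : Equiv.Perm (Fin n)) : Rep (cd g) g := by
  intro i
  unfold cd
  rw [look_enc hn _ _ (by simp)]
  simp [word]

lemma relab_cd (hn : n ≤ 8) {t : ℕ} {g : Equiv.Perm (Fin n)} (ht : Rep t g)
    (h : Equiv.Perm (Fin n)) : relab t n (cd h) = cd (g * h) := by
  have := relab_enc hn ht (word h)
  rw [word_length, word_map] at this
  exact this

/-- the code of the identity -/
def idc : ℕ → ℕ
  | 0 => 0
  | n + 1 => idc n + n * 8 ^ n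

lemma enc_finRange (hn : n ≤ 8) : ∀ (w : List (Fin n)), (∀ i (h : i < w.length), (w[i] : ℕ) = i) →
    enc w = idc w.length := by
  intro w
  induction w using List.reverseRecOn with
  | nil => intro _; rfl
  | append_singleton w a ih =>
    intro h
    rw [enc_append, ih ?_]
    · have := h w.length (by simp)
      simp only [List.getElem_concat_length] at this
      simp only [enc_cons, enc_nil, List.length_append, List.length_singleton, idc, this]
      ring
    · intro i hi
      have := h i (by simp; omega)
      rwa [List.getElem_append_left hi] at this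

lemma cd_one (hn : n ≤ 8) : cd (1 : Equiv.Perm (Fin n)) = idc n := by
  unfold cd
  rw [enc_finRange hn]
  · simp
  · intro i h
    simp [word]

/-- validity of the code of a permutation -/
def Valid (n m : ℕ) : Prop := (∀ i < n, look m i < n) ∧ ∀ i < n, ∀ j < n, look m i = look m j → i = j

instance (n m : ℕ) : Decidable (Valid n m) := by unfold Valid; infer_instance

noncomputable def toPerm (n m : ℕ) : Equiv.Perm (Fin n) :=
  if h : Valid n m then
    Equiv.ofBijective (fun i : Fin n => (⟨look m i, h.1 i i.2⟩ : Fin n))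
      (Finite.injective_iff_bijective.1 (by
        intro i j e
        exact Fin.ext (h.2 i i.2 j j.2 (congrArg Fin.val e))))
  else 1

lemma rep_toPerm {m : ℕ} (h : Valid n m) : Rep m (toPerm n m) := by
  intro i
  unfold toPerm
  rw [dif_pos h]
  rfl

/-! ### the list of the elements of the group -/

def orbN (n : ℕ) : List ℕ → ℕ → List ℕ
  | [], e => [e]
  | t :: ts, e => e :: orbN n ts (relab t n e)

def orbP : List (Equiv.Perm (Fin n)) → Equiv.Perm (Fin n) → List (Equiv.Perm (Fin n))
  | [], e => [e]
  | t :: ts, e => e :: orbP ts (t * e)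

lemma orbN_eq (hn : n ≤ 8) (ts : List ℕ) (ht : ∀ t ∈ ts, Valid n t) (g : Equiv.Perm (Fin n)) :
    orbN n ts (cd g) = (orbP (ts.map (toPerm n)) g).map cd := by
  induction ts generalizing g with
  | nil => rfl
  | cons t ts ih =>
    simp only [orbN, List.map_cons, orbP]
    rw [relab_cd hn (rep_toPerm (ht t (by simp))), ih (fun t' ht' => ht t' (by simp [ht']))]

lemma orbP_mem {K : Subgroup (Equiv.Perm (Fin n))} (ts : List (Equiv.Perm (Fin n)))
    (ht : ∀ t ∈ ts, t ∈ K) (g : Equiv.Perm (Fin n)) (hg : g ∈ K) : ∀ h ∈ orbP ts g, h ∈ K := by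
  induction ts generalizing g with
  | nil => intro h hh; simp only [orbP, List.mem_singleton] at hh; rw [hh]; exact hg
  | cons t ts ih =>
    intro h hh
    simp only [orbP, List.mem_cons] at hh
    rcases hh with rfl | hh
    · exact hg
    · exact ih (fun t' ht' => ht t' (by simp [ht'])) _ (K.mul_mem (ht t (by simp)) hg) h hh

lemma mem_orbP (ts : List (Equiv.Perm (Fin n))) (g : Equiv.Perm (Fin n)) : g ∈ orbP ts g := by
  cases ts <;> simp [orbP]

/-- Membership in the group generated by `gens`. -/
lemma mem_closure_iff (gens : List (Equiv.Perm (Fin n))) (KL : List (Equiv.Perm (Fin n)))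
    (h0 : 1 ∈ KL) (h1 : ∀ t ∈ gens, ∀ g ∈ KL, t * g ∈ KL)
    (h2 : ∀ g ∈ KL, g ∈ Subgroup.closure {t | t ∈ gens}) (g : Equiv.Perm (Fin n)) :
    g ∈ Subgroup.closure {t | t ∈ gens} ↔ g ∈ KL := by
  classical
  refine ⟨fun hg => ?_, h2 g⟩
  -- left multiplication by a generator is a bijection of the set of elements of `KL`
  have h3 : ∀ t ∈ gens, ∀ g ∈ KL, t⁻¹ * g ∈ KL := by
    intro t ht g hg
    have hsub : (KL.toFinset.image fun x => t * x) ⊆ KL.toFinset := by
      intro x hx
      obtain ⟨y, hy, rfl⟩ := Finset.mem_image.1 hx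
      rw [List.mem_toFinset] at hy ⊢
      exact h1 t ht y hy
    have heq : (KL.toFinset.image fun x => t * x) = KL.toFinset := by
      apply Finset.eq_of_subset_of_card_le hsub
      rw [Finset.card_image_of_injective _ (mul_right_injective t)]
    have hg' : g ∈ KL.toFinset := by simpa using hg
    rw [← heq] at hg'
    obtain ⟨y, hy, rfl⟩ := Finset.mem_image.1 hg'
    simpa using hy
  have key : ∀ x ∈ Subgroup.closure {t | t ∈ gens}, ∀ y ∈ KL, x * y ∈ KL := by
    intro x hx
    induction hx using Subgroup.closure_induction with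
    | mem x hx => exact fun y hy => h1 x hx y hy
    | one => intro y hy; simpa using hy
    | mul x z _ _ ihx ihz => intro y hy; rw [mul_assoc]; exact ihx _ (ihz y hy)
    | inv x _ ih =>
      intro y hy
      have hsub : (KL.toFinset.image fun z => x * z) ⊆ KL.toFinset := by
        intro z hz
        obtain ⟨y, hy, rfl⟩ := Finset.mem_image.1 hz
        rw [List.mem_toFinset] at hy ⊢
        exact ih y hy
      have heq : (KL.toFinset.image fun z => x * z) = KL.toFinset := by
        apply Finset.eq_of_subset_of_card_le hsub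
        rw [Finset.card_image_of_injective _ (mul_right_injective x)]
      have hg' : y ∈ KL.toFinset := by simpa using hy
      rw [← heq] at hg'
      obtain ⟨z, hz, rfl⟩ := Finset.mem_image.1 hg'
      simpa using hz
  have := key g hg 1 h0
  simpa using this

/-! ### paths -/

def path {α : Type*} : List α → List ℕ → List (List α)
  | w, [] => [w]
  | w, k :: ks => w :: path (rv k w) ks

lemma path_head {α : Type*} (w : List α) (ks : List ℕ) : (path w ks).head? = some w := by
  cases ks <;> rfl

lemma path_ne {α : Type*} (w : List α) (ks : List ℕ) : path w ks ≠ [] := by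
  cases ks <;> simp [path]

lemma path_length {α : Type*} (w : List α) (ks : List ℕ) : (path w ks).length = ks.length + 1 := by
  induction ks generalizing w with
  | nil => rfl
  | cons k ks ih => simp [path, ih]

lemma path_chain {α : Type*} [DecidableEq α] (ks : List ℕ) (w : List α)
    (h : ∀ k ∈ ks, 2 ≤ k ∧ k ≤ w.length) : (path w ks).IsChain Adj := by
  induction ks generalizing w with
  | nil => simp [path]
  | cons k ks ih =>
    simp only [path]
    rw [List.isChain_cons]
    refine ⟨?_, ih _ (fun k' hk' => by rw [rv_length]; exact h k' (by simp [hk']))⟩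
    intro y hy
    rw [path_head] at hy
    simp only [Option.mem_def, Option.some.injEq] at hy
    subst hy
    exact ⟨k, (h k (by simp)).1, (h k (by simp)).2, rfl⟩

lemma path_perm {α : Type*} [DecidableEq α] (ks : List ℕ) (w : List α) : ∀ w' ∈ path w ks, w'.Perm w := by
  induction ks generalizing w with
  | nil => intro w' h; simp only [path, List.mem_singleton] at h; rw [h]
  | cons k ks ih =>
    intro w' h
    simp only [path, List.mem_cons] at h
    rcases h with rfl | h
    · exact List.Perm.refl _
    · exact (ih _ w' h).trans (rv_perm k w)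

/-- the last word of the path -/
def pend {α : Type*} : List α → List ℕ → List α
  | w, [] => w
  | w, k :: ks => pend (rv k w) ks

lemma path_getLast {α : Type*} (ks : List ℕ) (w : List α) :
    (path w ks).getLast? = some (pend w ks) := by
  induction ks generalizing w with
  | nil => rfl
  | cons k ks ih =>
    simp only [path, pend]
    rw [List.getLast?_cons, ih]
    rfl

def pendN : ℕ → List ℕ → ℕ
  | w, [] => w
  | w, k :: ks => pendN (rvN k w) ks

lemma pendN_enc (hn : n ≤ 8) (ks : List ℕ) (w : List (Fin n)) (h : ∀ k ∈ ks, k ≤ w.length) :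
    pendN (enc w) ks = enc (pend w ks) := by
  induction ks generalizing w with
  | nil => rfl
  | cons k ks ih =>
    simp only [pendN, pend]
    rw [rvN_enc hn (h k (by simp)), ih _ (fun k' hk' => by rw [rv_length]; exact h k' (by simp [hk']))]

lemma pend_length {α : Type*} [DecidableEq α] (ks : List ℕ) (w : List α) : (pend w ks).length = w.length := by
  induction ks generalizing w with
  | nil => rfl
  | cons k ks ih => simp only [pend]; rw [ih, rv_length]

lemma tb_eq (M c : ℕ) : tb M c = !(M.testBit c) := by
  unfold tb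
  show Nat.beq ((M >>> c) % 2) 0 = _
  rw [Nat.testBit_eq_decide_div_mod_eq, Nat.shiftRight_eq_div_pow]
  rcases Nat.mod_two_eq_zero_or_one (M / 2 ^ c) with h | h <;> rw [h] <;> rfl

lemma chk_spec (hn : n ≤ 8) {S s C : ℕ} (ks : List ℕ) (w : List (Fin n)) (M : ℕ)
    (hk : ∀ k ∈ ks, k ≤ w.length) (h : chk S n s C ks (enc w) M = true) :
    ((path w ks).map fun w => hsh S n s C (enc w)).Nodup ∧
      ∀ x ∈ (path w ks).map (fun w => hsh S n s C (enc w)), M.testBit x = false := by
  induction ks generalizing w M with
  | nil =>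
    simp only [path, List.map_cons, List.map_nil, List.mem_singleton, forall_eq]
    have h' : tb M (hsh S n s C (enc w)) = true := h
    rw [tb_eq] at h'
    exact ⟨List.nodup_singleton _, by simpa using h'⟩
  | cons k ks ih =>
    have h' : cond (tb M (hsh S n s C (enc w)))
      (chk S n s C ks (rvN k (enc w)) (Nat.lor M (Nat.shiftLeft 1 (hsh S n s C (enc w))))) false
        = true := h
    rw [Bool.cond_false_right, Bool.and_eq_true, tb_eq] at h'
    obtain ⟨h1, h2⟩ := h'
    rw [rvN_enc hn (hk k (by simp))] at h2
    obtain ⟨i1, i2⟩ := ih _ _ (fun k' hk' => by rw [rv_length]; exact hk k' (by simp [hk'])) h2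
    have i3 : ∀ x ∈ (path (rv k w) ks).map (fun w => hsh S n s C (enc w)),
        M.testBit x = false ∧ x ≠ hsh S n s C (enc w) := by
      intro x hx
      have := i2 x hx
      have e : (Nat.lor M (Nat.shiftLeft 1 (hsh S n s C (enc w)))) =
        (M ||| (1 <<< (hsh S n s C (enc w)))) := rfl
      rw [e, Nat.testBit_or, Bool.or_eq_false_iff] at this
      refine ⟨this.1, ?_⟩
      intro hx2
      rw [hx2] at this
      have h3 := this.2
      rw [Nat.testBit_shiftLeft] at h3
      simp at h3
    simp only [path, List.map_cons, List.nodup_cons, List.mem_cons, forall_eq_or_imp]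
    refine ⟨⟨?_, i1⟩, ?_, fun x hx => (i3 x hx).1⟩
    · intro hx
      exact (i3 _ hx).2 rfl
    · simpa using h1

/-! ### the path is transversal -/

lemma card_words_eq : (Finset.univ.image (word (n := n))).card = n.factorial := by
  rw [Finset.card_image_of_injective _ word_injective, Finset.card_univ, Fintype.card_perm,
    Fintype.card_fin]

theorem tpon_path (hn : n ≤ 8) {S C : ℕ} {K : Subgroup (Equiv.Perm (Fin n))}
    {KL : List (Equiv.Perm (Fin n))} (hKL : ∀ g, g ∈ K ↔ g ∈ KL) (hnd : KL.Nodup)
    (hC : ∀ i : Fin n, col S C i = Nat.ofDigits 16777216 (KL.map fun g => ((g i : Fin n) : ℕ)))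
    {u : List (Fin n)} (hu : Wd Finset.univ u) {ks : List ℕ} (hks : ∀ k ∈ ks, 2 ≤ k ∧ k ≤ n)
    (hchk : chk S n KL.length C ks (enc u) 0 = true)
    (hcount : (ks.length + 1) * KL.length = n.factorial) :
    TPon K (Wd Finset.univ) (path u ks) := by
  have hul : u.length = n := by rw [hu.length]; simp
  have hmem : ∀ w ∈ path u ks, Wd Finset.univ w := by
    intro w hw
    have hp := path_perm ks u w hw
    exact ⟨hp.nodup_iff.2 hu.1, by rw [List.toFinset_eq_of_perm _ _ hp]; exact hu.2⟩
  have hspec := chk_spec hn ks u 0 (fun k hk => by rw [hul]; exact (hks k hk).2) hchk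
  have hinj : (path u ks).Pairwise fun p q => ¬ Eqv K p q := by
    have h1 : (path u ks).Pairwise fun p q =>
        hsh S n KL.length C (enc p) ≠ hsh S n KL.length C (enc q) := by
      have := hspec.1
      rw [List.Nodup, List.pairwise_map] at this
      exact this
    refine List.Pairwise.imp_of_mem ?_ h1
    rintro p q hp _ hne ⟨k, hk, rfl⟩
    apply hne
    symm
    apply hsh_map hn hC
    · intro g hg
      rw [← hKL] at hg ⊢
      exact K.mul_mem hg hk
    · intro g hg
      rw [← hKL] at hg ⊢
      exact K.mul_mem hg (K.inv_mem hk)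
    · rw [(hmem p hp).length]; simp
  refine ⟨path_chain ks u (fun k hk => by rw [hul]; exact hks k hk), hmem, ?_, hinj⟩
  -- covering by counting
  intro w hw
  have hsymm : Std.Symm (fun p q : List (Fin n) => ¬ Eqv K p q) := ⟨fun a b hab h' => hab h'.symm⟩
  have hPnd : (path u ks).Nodup :=
    List.Pairwise.imp (R := fun p q => ¬ Eqv K p q) (S := fun a b => a ≠ b)
      (fun {a b} hab e => hab (by rw [← e]; exact Eqv.refl K a)) hinj
  set I : Finset (List (Fin n)) := ((path u ks).toFinset ×ˢ KL.toFinset).image
    (fun pk : List (Fin n) × Equiv.Perm (Fin n) => pk.1.map pk.2) with hI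
  have hIsub : I ⊆ Finset.univ.image (word (n := n)) := by
    intro x hx
    obtain ⟨⟨p, k⟩, hpk, rfl⟩ := Finset.mem_image.1 hx
    rw [Finset.mem_product, List.mem_toFinset, List.mem_toFinset] at hpk
    obtain ⟨g, rfl⟩ := exists_perm_word (hmem p hpk.1)
    rw [word_map]
    exact Finset.mem_image_of_mem _ (Finset.mem_univ _)
  have hIcard : I.card = n.factorial := by
    rw [hI, Finset.card_image_of_injOn, Finset.card_product, List.toFinset_card_of_nodup hPnd,
      List.toFinset_card_of_nodup hnd, path_length, hcount]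
    rintro ⟨p, k⟩ hpk ⟨q, l⟩ hql e
    simp only [Finset.coe_product, Set.mem_prod, Finset.mem_coe, List.mem_toFinset] at hpk hql e
    have hk := (hKL k).2 hpk.2
    have hl := (hKL l).2 hql.2
    have hpq : Eqv K p q := (Eqv.trans ⟨k, hk, rfl⟩ (by rw [e]; exact Eqv.symm ⟨l, hl, rfl⟩))
    have hpq' : p = q := by
      by_contra hne
      exact hinj.forall hpk.1 hql.1 hne hpq
    subst hpq'
    have hkl : k = l := by
      ext a
      have hap : a ∈ p := (hmem p hpk.1).mem.2 (Finset.mem_univ a)
      rw [List.map_inj_left.1 e a hap]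
    rw [hkl]
  have hIeq : I = Finset.univ.image (word (n := n)) := by
    apply Finset.eq_of_subset_of_card_le hIsub
    rw [hIcard, card_words_eq]
  obtain ⟨g, rfl⟩ := exists_perm_word hw
  have : word g ∈ I := by
    rw [hIeq]; exact Finset.mem_image_of_mem _ (Finset.mem_univ _)
  obtain ⟨⟨p, k⟩, hpk, e⟩ := Finset.mem_image.1 this
  rw [Finset.mem_product, List.mem_toFinset, List.mem_toFinset] at hpk
  exact ⟨p, hpk.1, k, (hKL k).2 hpk.2, e.symm⟩

end Pan.SM
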