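import Pool.Agent.Hhelper18.Pan.SmallCert

/-! # MODULE SM : the certificate theorems -/

set_option linter.unusedSectionVars false

namespace Pan.SM

open Pan

/-- orbit size from codes -/
def orbS (n : ℕ) (KN : List ℕ) (x : ℕ) : ℕ :=
  ((List.range n).filter fun y => KN.any fun m => Nat.beq (look m x) y).length

/-- packing of a list of numbers in slots -/
def pack : List ℕ → ℕ
  | [] => 0
  | x :: xs => Nat.add x (Nat.mul 16777216 (pack xs))

lemma pack_eq (xs : List ℕ) : pack xs = Nat.ofDigits 16777216 xs := by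
  induction xs with
  | nil => rfl
  | cons x xs ih =>
    rw [Nat.ofDigits_cons, ← ih]
    rfl

/-- `(t₁ t₂)^j` in codes -/
def powN (n T1 T2 : ℕ) : ℕ → ℕ
  | 0 => idc n
  | j + 1 => relab T1 n (relab T2 n (powN n T1 T2 j))

/-- there is no relabeling taking `(U, A)` to `(P, Q)` -/
def norel (n U A P Q : ℕ) : Bool :=
  (List.range n).any fun i => (List.range n).any fun j =>
    Nat.beq (look U i) (look A j) && !(Nat.beq (look P i) (look Q j))

section

variable {n : ℕ}

lemma orb_eq (hn : n ≤ 8) {K : Subgroup (Equiv.Perm (Fin n))} {KL : List (Equiv.Perm (Fin n))}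
    (hKL : ∀ g, g ∈ K ↔ g ∈ KL) (x : Fin n) : orb K x = orbS n (KL.map cd) x := by
  classical
  unfold orb orbS
  rw [Nat.card_eq_fintype_card, Fintype.card_subtype]
  have h1 : ((List.range n).filter fun y => (KL.map cd).any fun m => Nat.beq (look m x) y).length =
      ((Finset.range n).filter fun y => ((KL.map cd).any fun m => Nat.beq (look m x) y) = true).card := by
    rw [← List.toFinset_card_of_nodup (List.Nodup.filter _ List.nodup_range)]
    congr 1
    ext y
    simp
  rw [h1, ← Finset.card_map Fin.valEmbedding]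
  congr 1
  ext y
  simp only [Finset.mem_map, Finset.mem_filter, Finset.mem_univ, true_and, Finset.mem_range,
    Fin.valEmbedding_apply, List.any_eq_true, List.mem_map]
  constructor
  · rintro ⟨y', ⟨k, hk, rfl⟩, rfl⟩
    refine ⟨(k x).2, cd k, ⟨k, (hKL k).1 hk, rfl⟩, ?_⟩
    rw [rep_cd hn k x]
    simp
  · rintro ⟨hy, m, ⟨k, hk, rfl⟩, e⟩
    rw [rep_cd hn k x] at e
    exact ⟨k x, ⟨k, (hKL k).2 hk, rfl⟩, Nat.eq_of_beq_eq_true e⟩

lemma norel_spec (hn : n ≤ 8) {u a p q : List (Fin n)} (hu : u.length = n) (ha : a.length = n)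
    (hp : p.length = n) (hq : q.length = n) (h : norel n (enc u) (enc a) (enc p) (enc q) = true) :
    ¬ ∃ g : Equiv.Perm (Fin n), u.map g = p ∧ a.map g = q := by
  rintro ⟨g, rfl, rfl⟩
  unfold norel at h
  simp only [List.any_eq_true, List.mem_range, Bool.and_eq_true, Bool.not_eq_true'] at h
  obtain ⟨i, hi, j, hj, h1, h2⟩ := h
  have e1 := Nat.eq_of_beq_eq_true h1
  rw [look_enc hn u i (by omega), look_enc hn a j (by omega)] at e1
  have e2 : u[i]'(by omega) = a[j]'(by omega) := Fin.ext e1
  rw [look_enc hn _ i (by simpa using (by omega : i < u.length)),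
    look_enc hn _ j (by simpa using (by omega : j < a.length))] at h2
  simp only [List.getElem_map, e2] at h2
  rw [Nat.beq_refl] at h2
  exact Bool.noConfusion h2

/-- the group with a complete list of elements -/
lemma group_data (hn : n ≤ 8) (gens ts : List ℕ) (KN : List ℕ)
    (hg : ∀ t ∈ gens, Valid n t) (hts : ∀ t ∈ ts, t ∈ gens) (hKN : orbN n ts (idc n) = KN)
    (hnd : KN.Nodup) (hcl : ∀ t ∈ gens, ∀ m ∈ KN, relab t n m ∈ KN) :
    ∃ KL : List (Equiv.Perm (Fin n)), KL.map cd = KN ∧ KL.Nodup ∧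
      ∀ g, g ∈ Subgroup.closure {t | t ∈ gens.map (toPerm n)} ↔ g ∈ KL := by
  refine ⟨orbP (ts.map (toPerm n)) 1, ?_, ?_, ?_⟩
  · rw [← hKN, ← cd_one hn, orbN_eq hn ts (fun t ht => hg t (hts t ht))]
  · apply List.Nodup.of_map cd
    rw [← orbN_eq hn ts (fun t ht => hg t (hts t ht)), cd_one hn, hKN]
    exact hnd
  · have hmap : (orbP (ts.map (toPerm n)) 1).map cd = KN := by
      rw [← hKN, ← cd_one hn, orbN_eq hn ts (fun t ht => hg t (hts t ht))]
    intro g
    apply mem_closure_iff
    · exact mem_orbP _ _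
    · intro t ht g hgm
      obtain ⟨T, hT, rfl⟩ := List.mem_map.1 ht
      have h1 : cd g ∈ KN := by rw [← hmap]; exact List.mem_map_of_mem hgm
      have h2 := hcl T hT _ h1
      rw [relab_cd hn (rep_toPerm (hg T hT)), ← hmap] at h2
      obtain ⟨g', hg', e⟩ := List.mem_map.1 h2
      rw [← cd_inj hn e]; exact hg'
    · apply orbP_mem
      · intro t ht
        obtain ⟨T, hT, rfl⟩ := List.mem_map.1 ht
        exact Subgroup.subset_closure (List.mem_map_of_mem (hts T hT))
      · exact Subgroup.one_mem _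

lemma col_data (hn : n ≤ 8) {S C : ℕ} {KL : List (Equiv.Perm (Fin n))} {KN : List ℕ}
    (hmap : KL.map cd = KN) (hC : ∀ i < n, col S C i = pack (KN.map fun m => look m i)) :
    ∀ i : Fin n, col S C i = Nat.ofDigits 16777216 (KL.map fun g => ((g i : Fin n) : ℕ)) := by
  intro i
  rw [hC i i.2, pack_eq, ← hmap, List.map_map]
  congr 1
  apply List.map_congr_left
  intro g _
  exact rep_cd hn g i

lemma wd_of (u : List (Fin n)) (h : u.Nodup) (hl : u.length = n) : Wd Finset.univ u := by
  refine ⟨h, ?_⟩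
  apply Finset.eq_univ_of_card
  rw [List.toFinset_card_of_nodup h, hl, Fintype.card_fin]

lemma pow_data (hn : n ≤ 8) {T1 T2 : ℕ} (h1 : Valid n T1) (h2 : Valid n T2) (j : ℕ) :
    powN n T1 T2 j = cd ((toPerm n T1 * toPerm n T2) ^ j) := by
  induction j with
  | zero => rw [pow_zero, cd_one hn]; rfl
  | succ j ih =>
    rw [pow_succ', powN, ih, relab_cd hn (rep_toPerm h2), relab_cd hn (rep_toPerm h1), mul_assoc]

end

variable {n : ℕ} [NeZero n]

/-- common part of the certificates: the block chain -/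
lemma blocks_data (hn : n ≤ 8) (h3 : 3 ≤ n) {K : Subgroup (Equiv.Perm (Fin n))}
    {KL : List (Equiv.Perm (Fin n))} {KN : List ℕ} {S C : ℕ}
    (hmap : KL.map cd = KN) (hnd : KL.Nodup) (hKL : ∀ g, g ∈ K ↔ g ∈ KL)
    (hC : ∀ i < n, col S C i = pack (KN.map fun m => look m i))
    {u : List (Fin n)} {ks xs : List ℕ} (hu : u.Nodup) (hul : u.length = n)
    (hks : ∀ k ∈ ks, 2 ≤ k ∧ k ≤ n) (hchk : chk S n KN.length C ks (enc u) 0 = true)
    (hcount : (ks.length + 1) * KN.length = n.factorial)
    (hxs : letsN n (enc u) ks = xs)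
    (hpw : xs.Pairwise fun x y => ∀ m ∈ KN, look m x ≠ y) :
    TPon K (Wd Finset.univ) (flat (bl u ks)) ∧ BC K Finset.univ (bl u ks) ∧
      ((bl u ks).map Prod.fst).Pairwise (Inq K) ∧
      (∀ y, ∃ x ∈ (bl u ks).map Prod.fst, ∃ k ∈ K, k x = y) ∧
      (flat (bl u ks)).head? = some u ∧ (flat (bl u ks)).getLast? = some (pend u ks) ∧
      (bl u ks).map (fun b => (b.1 : ℕ)) = xs ∧ (∀ b ∈ bl u ks, orb K b.1 = orbS n KN b.1) := by
  have hlen : KL.length = KN.length := by rw [← hmap, List.length_map]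
  have hks' : ∀ k ∈ ks, 2 ≤ k ∧ k ≤ u.length := by rw [hul]; exact hks
  obtain ⟨-, hflat, hch, hj⟩ := bl_spec ks u (by omega) hks'
  have hT : TPon K (Wd Finset.univ) (flat (bl u ks)) := by
    rw [hflat]
    exact tpon_path hn hKL hnd (col_data hn hmap hC) (wd_of u hu hul) hks
      (by rw [hlen]; exact hchk) (by rw [hlen]; exact hcount)
  have hxs' : (bl u ks).map (fun b => (b.1 : ℕ)) = xs := by
    rw [← hxs, letsN_eq hn ks u hul (by omega) hks]
  have hpw' : ((bl u ks).map Prod.fst).Pairwise (Inq K) := by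
    rw [List.pairwise_map]
    rw [← hxs', List.pairwise_map] at hpw
    refine hpw.imp ?_
    intro b c hbc k hk e
    refine hbc (cd k) ?_ ?_
    · rw [← hmap]; exact List.mem_map_of_mem ((hKL k).1 hk)
    · rw [rep_cd hn k b.1, e]
  refine ⟨hT, bc_of_flat hT hpw' (fun b hb => (hch b hb).1) hj, hpw', hall_of_tpon hT, ?_, ?_,
    hxs', ?_⟩
  · rw [hflat, path_head]
  · rw [hflat, path_getLast]
  · intro b _
    rw [orb_eq hn hKL, hmap]

lemma orbS_ne_of_mem {xs : List ℕ} {bs : List (Fin n × List (List (Fin n)))}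
    (h : bs.map (fun b => (b.1 : ℕ)) = xs) {b : Fin n × List (List (Fin n))} (hb : b ∈ bs) :
    (b.1 : ℕ) ∈ xs := by
  rw [← h]; exact List.mem_map_of_mem hb

/-- certificate theorem, dihedral case -/
theorem dih_cert (hn : n ≤ 8) (h3 : 3 ≤ n) (T1 T2 c S C : ℕ) (ts KN : List ℕ)
    (u : List (Fin n)) (ks xs : List ℕ) (a b : ℕ)
    (hT1 : Valid n T1) (hT2 : Valid n T2) (hts : ∀ t ∈ ts, t ∈ [T1, T2])
    (hKN : orbN n ts (idc n) = KN) (hnd : KN.Nodup)
    (hcl : ∀ t ∈ [T1, T2], ∀ m ∈ KN, relab t n m ∈ KN)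
    (hi1 : relab T1 n (relab T1 n (idc n)) = idc n) (hi2 : relab T2 n (relab T2 n (idc n)) = idc n)
    (hc0 : 0 < c) (hc : KN.length = 2 * c) (ho : powN n T1 T2 c = idc n)
    (ho' : ∀ j < c, 0 < j → powN n T1 T2 j ≠ idc n)
    (hC : ∀ i < n, col S C i = pack (KN.map fun m => look m i))
    (hu : u.Nodup) (hul : u.length = n)
    (hks : ∀ k ∈ ks, 2 ≤ k ∧ k ≤ n) (hchk : chk S n KN.length C ks (enc u) 0 = true)
    (hcount : (ks.length + 1) * KN.length = n.factorial)
    (hxs : letsN n (enc u) ks = xs)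
    (hpw : xs.Pairwise fun x y => ∀ m ∈ KN, look m x ≠ y)
    (ha2 : 2 ≤ a) (ha : a < n) (hb2 : 2 ≤ b) (hb : b ≤ n)
    (hua : rvN a (enc u) = relab T1 n (enc u))
    (hvb : rvN b (pendN (enc u) ks) = relab T2 n (pendN (enc u) ks))
    (hcase : (xs.length = 1 ∧ b = n) ∨ (2 ≤ xs.length ∧
      (∀ x ∈ xs.tail, (xs.getLast? = some x → b = n) →
        orbS n KN x ≠ 2 * orbS n KN (xs.headD 0)) ∧
      (b < n → orbS n KN (xs.getLastD 0) ≠ orbS n KN (xs.headD 0)))) :
    SizeAt (Fin n) KN.length := by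
  have hg : ∀ t ∈ [T1, T2], Valid n t := by
    intro t ht
    simp only [List.mem_cons, List.not_mem_nil, or_false] at ht
    rcases ht with rfl | rfl
    · exact hT1
    · exact hT2
  obtain ⟨KL, hmap, hKLnd, hKL⟩ := group_data hn [T1, T2] ts KN hg hts hKN hnd hcl
  set t₁ := toPerm n T1 with ht1
  set t₂ := toPerm n T2 with ht2
  have hset : ({t | t ∈ [T1, T2].map (toPerm n)} : Set (Equiv.Perm (Fin n))) = {t₁, t₂} := by
    ext t
    simp [ht1, ht2]
  rw [hset] at hKL
  set K := Subgroup.closure ({t₁, t₂} : Set (Equiv.Perm (Fin n))) with hK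
  have hk1 : t₁ ∈ K := Subgroup.subset_closure (by simp)
  have hk2 : t₂ ∈ K := Subgroup.subset_closure (by simp)
  have hlen : KL.length = KN.length := by rw [← hmap, List.length_map]
  have hKcard : Nat.card K = KN.length := by
    classical
    have h1 : (K : Set (Equiv.Perm (Fin n))) = ((KL.toFinset : Finset (Equiv.Perm (Fin n))) :
        Set (Equiv.Perm (Fin n))) := by
      ext g
      simp [hKL g]
    have h2 : Nat.card K = (K : Set (Equiv.Perm (Fin n))).ncard := by
      rw [← Nat.card_coe_set_eq]; rfl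
    rw [h2, h1, Set.ncard_coe_finset, List.toFinset_card_of_nodup hKLnd, hlen]
  obtain ⟨hT, hBC, hpw', hall, hhead, hlast, hxs', horb⟩ :=
    blocks_data hn h3 hmap hKLnd hKL hC hu hul hks hchk hcount hxs hpw
  set bs := bl u ks with hbs
  set v := pend u ks with hv
  have hvl : v.length = n := by rw [hv, pend_length, hul]
  have hvenc : pendN (enc u) ks = enc v := pendN_enc hn ks u (fun k hk => by rw [hul]; exact (hks k hk).2)
  have hua' : rv a u = u.map t₁ := by
    apply enc_inj hn (by simp)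
    rw [← rvN_enc hn (by omega), hua]
    have := relab_enc hn (rep_toPerm hT1) u
    rw [hul] at this
    exact this
  have hvb' : rv b v = v.map t₂ := by
    apply enc_inj hn (by simp)
    rw [← rvN_enc hn (by omega), ← hvenc, hvb, hvenc]
    have := relab_enc hn (rep_toPerm hT2) v
    rw [hvl] at this
    exact this
  have hadj1 : Adj u (u.map t₁) := ⟨a, ha2, by omega, hua'.symm⟩
  have hadj2 : Adj v (v.map t₂) := ⟨b, hb2, by omega, hvb'.symm⟩
  have hinv : ∀ T, Valid n T → relab T n (relab T n (idc n)) = idc n →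
      toPerm n T * toPerm n T = 1 := by
    intro T hT h
    apply cd_inj hn
    rw [← cd_one hn, relab_cd hn (rep_toPerm hT), relab_cd hn (rep_toPerm hT), mul_one] at h
    rw [h]
  have horder : orderOf (t₁ * t₂) = c := by
    rw [orderOf_eq_iff hc0]
    constructor
    · apply cd_inj hn
      rw [← pow_data hn hT1 hT2, ho, cd_one hn]
    · intro j hj hj0 e
      apply ho' j hj hj0
      rw [pow_data hn hT1 hT2, e, cd_one hn]
  obtain ⟨L, hL, hE⟩ := asm_dih (K := K) (τ₁ := t₁) (τ₂ := t₂) rfl (hinv T1 hT1 hi1)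
    (hinv T2 hT2 hi2) (by rw [hKcard, horder, hc]) (by simpa using h3) hT hhead hlast hadj1 hadj2
  rw [← hKcard]
  refine size_of_exact hL hE ?_
  have hcardF : Fintype.card (Fin n) = n := Fintype.card_fin n
  rcases hcase with ⟨hl1, hbn⟩ | ⟨hl2, hmid, hlast'⟩
  · -- one block
    have hbl1 : bs.length = 1 := by
      rw [← hl1, ← hxs', List.length_map]
    obtain ⟨⟨x, S'⟩, hbx⟩ := List.length_eq_one_iff.1 hbl1
    rw [hbx] at hBC hhead hlast hall ⊢
    apply exact_dih_one (by rw [hcardF]; exact h3) hBC ?_ hk1 hk2 hhead hlast ha2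
      (by rw [hcardF]; exact ha) hua' ?_
    · intro y
      obtain ⟨x', hx', hk⟩ := hall y
      simp only [List.map_cons, List.map_nil, List.mem_singleton] at hx'
      rw [← hx']; exact hk
    · rw [← hvb', hbn]
      have := rv_full v
      rw [hvl] at this
      exact this.symm
  · have hbl2 : 2 ≤ bs.length := by
      rw [← hxs', List.length_map] at hl2; exact hl2
    obtain ⟨b₁, rest, hbr⟩ : ∃ b₁ rest, bs = b₁ :: rest := by
      cases hbs2 : bs with
      | nil => rw [hbs2] at hbl2; simp at hbl2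
      | cons b₁ rest => exact ⟨b₁, rest, rfl⟩
    have hb1mem : b₁ ∈ bs := by rw [hbr]; simp
    have hxhead : xs.headD 0 = (b₁.1 : ℕ) := by rw [← hxs', hbr]; simp
    have hlastx : ∀ c, bs.getLast? = some c → xs.getLast? = some (c.1 : ℕ) := by
      intro c hc
      rw [← hxs', List.getLast?_map, hc]; rfl
    -- letters determine blocks
    have hdet : ∀ c ∈ bs, ∀ c' ∈ bs, (c.1 : ℕ) = c'.1 → c = c' := by
      intro c hc c' hc' e
      by_contra hne
      have hsymm : Std.Symm (fun p q : Fin n × List (List (Fin n)) => Inq K p.1 q.1) :=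
        ⟨fun a b h => h.symm⟩
      rw [List.pairwise_map] at hpw'
      exact hpw'.forall hc hc' hne 1 K.one_mem (by simpa using Fin.ext e)
    apply exact_dih (by rw [hcardF]; exact h3) hBC hbl2 hpw' hall hk1 hk2 hhead hlast ha2
      (by rw [hcardF]; exact ha) hb2 (by rw [hcardF]; exact hb) hua' hvb' (b₁ := b₁)
      (by rw [hbr]; rfl)
    · intro c hc hcl
      have hcm : c ∈ bs := List.mem_of_mem_tail hc
      rw [horb c hcm, horb b₁ hb1mem, ← hxhead]
      apply hmid
      · rw [← hxs', ← List.map_tail]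
        exact List.mem_map_of_mem hc
      · intro hl
        rw [hcardF] at hcl
        apply hcl
        obtain ⟨c', hc'⟩ : ∃ c', bs.getLast? = some c' := by
          cases h : bs.getLast? with
          | none => rw [List.getLast?_eq_none_iff] at h; rw [h] at hcm; simp at hcm
          | some c' => exact ⟨c', rfl⟩
        have h1 := hlastx c' hc'
        rw [hl] at h1
        have h2 : (c.1 : ℕ) = c'.1 := Option.some.inj h1
        rw [hc', hdet c hcm c' (List.mem_of_getLast? hc') h2]
    · intro c hc hbn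
      rw [hcardF] at hbn
      have hcm : c ∈ bs := List.mem_of_getLast? hc
      rw [horb c hcm, horb b₁ hb1mem, ← hxhead]
      have := hlast' hbn
      rw [List.getLastD_eq_getLast?, hlastx c hc] at this
      exact this

/-- certificate theorem, cyclic case -/
theorem cyc_cert (hn : n ≤ 8) (h3 : 3 ≤ n) (T S C : ℕ) (ts KN : List ℕ)
    (u : List (Fin n)) (ks xs : List ℕ) (sm : List (ℕ × ℕ))
    (hT1 : Valid n T) (hts : ∀ t ∈ ts, t ∈ [T])
    (hKN : orbN n ts (idc n) = KN) (hnd : KN.Nodup)
    (hcl : ∀ t ∈ [T], ∀ m ∈ KN, relab t n m ∈ KN)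
    (hC : ∀ i < n, col S C i = pack (KN.map fun m => look m i))
    (hu : u.Nodup) (hul : u.length = n)
    (hks : ∀ k ∈ ks, 2 ≤ k ∧ k ≤ n) (hchk : chk S n KN.length C ks (enc u) 0 = true)
    (hcount : (ks.length + 1) * KN.length = n.factorial)
    (hxs : letsN n (enc u) ks = xs) (hsm : summ n (enc u) ks = sm)
    (hpw : xs.Pairwise fun x y => ∀ m ∈ KN, look m x ≠ y)
    (hclose : rvN n (pendN (enc u) ks) = relab T n (enc u))
    (h₁ : norel n (enc u) (sm.headD (0, 0)).2 (sm.headD (0, 0)).2 (enc u) = true)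
    (h₂ : ∀ pq ∈ sm.tail, orbS n KN (pq.1 / 8 ^ (n - 1)) = orbS n KN (xs.headD 0) →
      norel n (enc u) (sm.headD (0, 0)).2 pq.1 pq.2 = true ∧
      norel n (enc u) (sm.headD (0, 0)).2 pq.2 pq.1 = true) :
    SizeAt (Fin n) KN.length := by
  have hg : ∀ t ∈ [T], Valid n t := by
    intro t ht
    rw [List.mem_singleton.1 ht]; exact hT1
  obtain ⟨KL, hmap, hKLnd, hKL⟩ := group_data hn [T] ts KN hg hts hKN hnd hcl
  set t₁ := toPerm n T with ht1
  have hset : ({t | t ∈ [T].map (toPerm n)} : Set (Equiv.Perm (Fin n))) = {t₁} := by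
    ext t
    simp [ht1]
  rw [hset] at hKL
  set K := Subgroup.closure ({t₁} : Set (Equiv.Perm (Fin n))) with hK
  have hk1 : t₁ ∈ K := Subgroup.subset_closure (by simp)
  have hlen : KL.length = KN.length := by rw [← hmap, List.length_map]
  have hKcard : Nat.card K = KN.length := by
    classical
    have h1 : (K : Set (Equiv.Perm (Fin n))) = ((KL.toFinset : Finset (Equiv.Perm (Fin n))) :
        Set (Equiv.Perm (Fin n))) := by
      ext g
      simp [hKL g]
    have h2 : Nat.card K = (K : Set (Equiv.Perm (Fin n))).ncard := by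
      rw [← Nat.card_coe_set_eq]; rfl
    rw [h2, h1, Set.ncard_coe_finset, List.toFinset_card_of_nodup hKLnd, hlen]
  obtain ⟨hT, hBC, hpw', hall, hhead, hlast, hxs', horb⟩ :=
    blocks_data hn h3 hmap hKLnd hKL hC hu hul hks hchk hcount hxs hpw
  have hsm' := summ_eq hn ks u hul (by omega) hks
  set bs := bl u ks with hbs
  set v := pend u ks with hv
  have hvl : v.length = n := by rw [hv, pend_length, hul]
  have hvenc : pendN (enc u) ks = enc v := pendN_enc hn ks u (fun k hk => by rw [hul]; exact (hks k hk).2)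
  have hrev : v.reverse = u.map t₁ := by
    apply enc_inj hn (by simp [hul, hvl])
    rw [← rv_full, ← rvN_enc hn le_rfl, hvl, ← hvenc, hclose]
    have := relab_enc hn (rep_toPerm hT1) u
    rw [hul] at this
    exact this
  have hadj : Adj v (u.map t₁) := by
    rw [← hrev]; exact adj_reverse (by omega)
  have hKz : K = Subgroup.zpowers t₁ := by rw [hK, Subgroup.zpowers_eq_closure]
  obtain ⟨L, hL, hE⟩ := asm_cyc hKz (by simpa using h3) hT hhead hlast hadj
  rw [← hKcard]
  refine size_of_exact hL hE ?_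
  rw [← hrev]
  have hcardF : Fintype.card (Fin n) = n := Fintype.card_fin n
  obtain ⟨⟨S0, rest, hbr⟩, -, -, -⟩ := bl_spec ks u (by omega) (by rw [hul]; exact hks)
  rw [← hbs] at hbr
  set b₁ : Fin n × List (List (Fin n)) := (lst u, u.dropLast :: S0) with hb₁
  have hb1mem : b₁ ∈ bs := by rw [hbr]; simp
  have hxhead : xs.headD 0 = ((b₁.1 : Fin n) : ℕ) := by rw [← hxs', hbr]; simp
  -- all words of the blocks have length `n`
  have hwl : ∀ b ∈ bs, ∀ w ∈ b.2.map (· ++ [b.1]), w.length = n := by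
    intro b hb w hw
    have : w ∈ flat bs := by
      unfold flat
      rw [List.mem_flatten]
      exact ⟨_, List.mem_map_of_mem hb, hw⟩
    rw [(hT.mem w this).length]; simp
  obtain ⟨a, ha⟩ : ∃ a, (b₁.2.map (· ++ [b₁.1])).getLast? = some a := by
    rw [hb₁]
    simp only [List.map_cons, List.getLast?_cons]
    exact ⟨_, rfl⟩
  have hane : u ≠ [] := by rintro rfl; simp at hul; omega
  have hheadu : (b₁.2.map (· ++ [b₁.1])).head? = some u := by
    simp [hb₁, dropLast_append_lst hane]
  have hal : a.length = n := hwl b₁ hb1mem a (List.mem_of_getLast? ha)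
  rw [hsm] at hsm'
  have hsmh : sm.headD (0, 0) = (enc u, enc a) := by
    have h1 := congrArg List.head? hsm'
    rw [List.head?_map, List.head?_map, hbr] at h1
    simp only [List.head?_cons, Option.map_some] at h1
    have h2 : fl b₁ = some (enc u, enc a) := by
      unfold fl
      rw [hheadu, ha]
    rw [h2] at h1
    cases sm with
    | nil => simp at h1
    | cons p sm => simpa using h1
  rw [hsmh] at h₁ h₂
  have hex := exact_cyc (K := K) (bs := bs) (by rw [hcardF]; exact h3) hBC hpw' hall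
    (u := u) (v := v) (a := a) (κ := t₁) hk1 hhead hlast hrev (b₁ := b₁) (by rw [hbr]; rfl) ha
    (norel_spec hn hul hal hal hul h₁) ?_
  · exact hex
  · intro b hb p hp q hq ho
    have hbm : b ∈ bs := List.mem_of_mem_tail hb
    rw [horb b hbm, horb b₁ hb1mem] at ho
    have hpl : p.length = n := hwl b hbm p (List.mem_of_mem_head? hp)
    have hql : q.length = n := hwl b hbm q (List.mem_of_getLast? hq)
    have hfl : fl b = some (enc p, enc q) := by
      unfold fl
      rw [Option.mem_def] at hp hq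
      rw [hp, hq]
    have hmem : (enc p, enc q) ∈ sm.tail := by
      have h1 : some (enc p, enc q) ∈ (bs.map fl).tail := by
        rw [← List.map_tail, ← hfl]
        exact List.mem_map_of_mem hb
      rw [← hsm', ← List.map_tail] at h1
      obtain ⟨pq, hpq, e⟩ := List.mem_map.1 h1
      rw [← Option.some.inj e]; exact hpq
    have hlet : enc p / 8 ^ (n - 1) = ((b.1 : Fin n) : ℕ) := by
      rw [enc_lst hn hpl]
      rw [Option.mem_def] at hp
      have : p ∈ b.2.map (· ++ [b.1]) := List.mem_of_mem_head? hp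
      obtain ⟨p', -, rfl⟩ := List.mem_map.1 this
      rw [lst_append]
    have := h₂ _ hmem (by
      show orbS n KN (enc p / 8 ^ (n - 1)) = _
      rw [hlet, ho, hxhead])
    exact ⟨norel_spec hn hul hal hpl hql this.1, norel_spec hn hul hal hql hpl this.2⟩

end Pan.SM
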