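import Pool.Agent.Hhelper18.Pan.Main
import Pool.Agent.Hhelper18.Pan.ExactCyc
import Pool.Agent.Hhelper18.Pan.Asm

/-! # MODULE TC : Hamiltonian cycles with cyclic symmetry group -/

set_option linter.unusedSectionVars false

namespace Pan

variable {α : Type*} [DecidableEq α] [Fintype α]

namespace TopCyc

/-- gluing a first block and a chain -/
lemma glue {K : Subgroup (Equiv.Perm α)} {A : Finset α} {bs₁ bs₂ : List (α × List (List α))}
    {x : α} {u a v : List α}
    (h₁ : BC K A bs₁) (hx : bs₁.map Prod.fst = [x]) (hu : (flat bs₁).head? = some u)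
    (ha : (flat bs₁).getLast? = some a)
    (h₂ : BC K A bs₂) (ha' : (flat bs₂).head? = some a.reverse)
    (hv : (flat bs₂).getLast? = some v) :
    BC K A (bs₁ ++ bs₂) ∧ (flat (bs₁ ++ bs₂)).head? = some u ∧
      (flat (bs₁ ++ bs₂)).getLast? = some v ∧
      ∃ b₁, (bs₁ ++ bs₂).head? = some b₁ ∧ (bs₁ ++ bs₂).tail = bs₂ ∧ b₁.1 = x ∧
        (b₁.2.map (· ++ [b₁.1])).getLast? = some a := by
  have hflat : flat (bs₁ ++ bs₂) = flat bs₁ ++ flat bs₂ := by
    simp [flat]
  obtain ⟨b, rfl⟩ : ∃ b, bs₁ = [b] := by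
    cases bs₁ with
    | nil => simp at hx
    | cons b t =>
      cases t with
      | nil => exact ⟨b, rfl⟩
      | cons c t => simp at hx
  have hbx : b.1 = x := by simpa using hx
  have hfb : flat [b] = b.2.map (· ++ [b.1]) := by simp [flat]
  refine ⟨⟨?_, ?_, ?_⟩, ?_, ?_, b, by simp, by simp, hbx, ?_⟩
  · intro c hc
    rcases List.mem_append.1 hc with hc | hc
    · exact h₁.mem c hc
    · exact h₂.mem c hc
  · intro c hc
    rcases List.mem_append.1 hc with hc | hc
    · exact h₁.tp c hc
    · exact h₂.tp c hc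
  · rw [List.isChain_append]
    refine ⟨h₁.junc, h₂.junc, ?_⟩
    intro b' hb' c hc p hp q hq
    have hb'' : b' = b := by simpa using hb'.symm
    subst hb''
    have e1 : a = p ++ [b'.1] := by
      rw [hfb, List.getLast?_map] at ha
      rw [Option.mem_def] at hp
      rw [hp] at ha
      simpa using ha.symm
    have e2 : a.reverse = q ++ [c.1] := by
      cases bs₂ with
      | nil => simp at hc
      | cons c' t =>
        have hc' : c' = c := by simpa using hc
        subst hc'
        rw [Option.mem_def] at hq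
        obtain ⟨r, hr⟩ : ∃ r, c'.2 = q :: r := by
          cases hcc : c'.2 with
          | nil => rw [hcc] at hq; simp at hq
          | cons q' r => rw [hcc] at hq; simp at hq; exact ⟨r, by rw [hq]⟩
        have : flat (c' :: t) = (q ++ [c'.1]) :: (r.map (· ++ [c'.1]) ++ flat t) := by
          simp [flat, hr]
        rw [this] at ha'
        simpa using ha'.symm
    rw [← e2, e1]
  · rw [hflat, List.head?_append, hu]; rfl
  · rw [hflat, List.getLast?_append, hv]; rfl
  · rw [← hfb]; exact ha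

/-- the general conclusion -/
lemma wrap {σ : Equiv.Perm α}
    (h6 : 6 ≤ Fintype.card α) {bs : List (α × List (List α))}
    (hbc : BC (Subgroup.zpowers σ) Finset.univ bs)
    (hpw : (bs.map Prod.fst).Pairwise (Inq (Subgroup.zpowers σ)))
    (hall : ∀ y, ∃ x ∈ bs.map Prod.fst, ∃ k ∈ Subgroup.zpowers σ, k x = y)
    {u a : List α} (hu : (flat bs).head? = some u)
    (hv : (flat bs).getLast? = some (u.map σ).reverse)
    {b₁ : α × List (List α)} (hb₁ : bs.head? = some b₁)
    (ha : (b₁.2.map (· ++ [b₁.1])).getLast? = some a)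
    (h₁ : ¬ ∃ g : Equiv.Perm α, u.map g = a ∧ a.map g = u)
    (h₂ : ∀ b ∈ bs.tail, orb (Subgroup.zpowers σ) b.1 ≠ orb (Subgroup.zpowers σ) b₁.1) :
    SizeAt α (orderOf σ) := by
  have hcard : (Finset.univ : Finset α).card = Fintype.card α := Finset.card_univ
  have hT := hbc.tpon (by omega) (fun k _ a _ => Finset.mem_univ _) hpw
  have hT' : TPon (Subgroup.zpowers σ) (Wd Finset.univ) (flat bs) := by
    refine hT.congr fun w => ⟨fun h => h.1, fun h => ⟨h, ?_⟩⟩
    have hne : w ≠ [] := by
      intro e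
      have := h.length
      rw [e, hcard] at this
      simp at this
      omega
    obtain ⟨x, hx, k, hk, e⟩ := hall (w.getLast hne)
    exact ⟨x, hx, k, hk, by rw [List.getLast?_eq_some_getLast hne, e]⟩
  have huW : Wd Finset.univ u := hT'.mem u (List.mem_of_mem_head? hu)
  have hul : u.length = Fintype.card α := by rw [huW.length, hcard]
  obtain ⟨L, hL, hE⟩ := asm_cyc (K := Subgroup.zpowers σ) (σ := σ) rfl (by omega) hT' hu hv
    (adj_reverse (w := u.map σ) (by simp; omega)).symm
  have key := size_of_exact hL hE (by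
    intro g hg
    have hcl : ((u.map σ).reverse).reverse = u.map σ := List.reverse_reverse _
    have hex := exact_cyc (by omega) hbc hpw hall (Subgroup.mem_zpowers σ) hu hv hcl hb₁ ha h₁
      (fun b hb p _ q _ he => absurd he (h₂ b hb))
    apply hex g
    rw [hcl]
    exact hg)
  rwa [Nat.card_zpowers] at key

lemma orb_ne {σ : Equiv.Perm α} (hc : Cls (Subgroup.zpowers σ) (Subgroup.zpowers σ) Finset.univ)
    {x y : α} (hmv : σ x ≠ x) (hi : Inq (Subgroup.zpowers σ) x y) :
    orb (Subgroup.zpowers σ) y ≠ orb (Subgroup.zpowers σ) x := by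
  intro e
  have h1 := hc.coprime (Finset.mem_univ x) (Finset.mem_univ y) hi
  rw [e, Nat.coprime_self] at h1
  unfold orb at h1
  rw [Nat.card_eq_one_iff_unique] at h1
  obtain ⟨h2, _⟩ := h1
  have := h2.elim (⟨x, 1, Subgroup.one_mem _, rfl⟩ : {y : α // ∃ k ∈ Subgroup.zpowers σ, k x = y})
    ⟨σ x, σ, Subgroup.mem_zpowers σ, rfl⟩
  exact hmv (Subtype.ext_iff.1 this).symm

lemma finish {σ : Equiv.Perm α}
    (hc : Cls (Subgroup.zpowers σ) (Subgroup.zpowers σ) Finset.univ)
    (h6 : 6 ≤ Fintype.card α) (hG : ∀ x, Good (stb (Subgroup.zpowers σ) x) (Finset.univ.erase x))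
    {x : α} (hmv : σ x ≠ x) {u₀ a₀ : List α}
    (hu : Wd Finset.univ (u₀ ++ [x])) (ha : Wd Finset.univ (a₀ ++ [x]))
    (hadm : Adm (stb (Subgroup.zpowers σ) x) u₀ a₀)
    (h₁ : ¬ ∃ g : Equiv.Perm α, (u₀ ++ [x]).map g = a₀ ++ [x] ∧ (a₀ ++ [x]).map g = u₀ ++ [x])
    {bs₂ : List (α × List (List α))} (h₂ : BC (Subgroup.zpowers σ) Finset.univ bs₂)
    (hh : (flat bs₂).head? = some (a₀ ++ [x]).reverse)
    (hl : (flat bs₂).getLast? = some ((u₀ ++ [x]).map σ).reverse)
    (hpw : (bs₂.map Prod.fst).Pairwise (Inq (Subgroup.zpowers σ)))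
    (hi : ∀ y ∈ bs₂.map Prod.fst, Inq (Subgroup.zpowers σ) x y)
    (hall : ∀ y, Inq (Subgroup.zpowers σ) x y →
      ∃ z ∈ bs₂.map Prod.fst, ∃ k ∈ Subgroup.zpowers σ, k z = y) :
    SizeAt α (orderOf σ) := by
  obtain ⟨bs₁, hb1, hb2, hb3, hb4, -⟩ := blockOne (K := Subgroup.zpowers σ) (A := Finset.univ)
    (Finset.mem_univ x) (fun k _ a _ => Finset.mem_univ _) (hG x) hu ha hadm
  obtain ⟨g1, g2, g3, b₁, g4, g5, g6, g7⟩ := glue hb1 hb2 hb3 hb4 h₂ hh hl
  refine wrap h6 g1 ?_ ?_ g2 g3 g4 g7 h₁ ?_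
  · rw [List.map_append, hb2, List.singleton_append, List.pairwise_cons]
    exact ⟨hi, hpw⟩
  · intro y
    by_cases hy : Inq (Subgroup.zpowers σ) x y
    · obtain ⟨z, hz, k, hk, e⟩ := hall y hy
      exact ⟨z, by rw [List.map_append]; exact List.mem_append_right _ hz, k, hk, e⟩
    · unfold Inq at hy
      push Not at hy
      obtain ⟨k, hk, e⟩ := hy
      exact ⟨x, by rw [List.map_append, hb2]; simp, k, hk, e⟩
  · intro b hb
    rw [g5] at hb
    rw [g6]
    exact orb_ne hc hmv (hi b.1 (List.mem_map_of_mem hb))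

/-- distinct powers -/
lemma pow_inj {σ : Equiv.Perm α} {x : α} {S : Finset α} {m : ℕ}
    (hS : ∀ y, y ∉ S → ∃ k ∈ Subgroup.zpowers σ, k x = y) (hm : m + S.card ≤ Fintype.card α)
    {i j : ℕ} (hi : i < m) (hj : j < m) (h : (σ ^ i) x = (σ ^ j) x) : i = j := by
  have hsub : (Finset.univ : Finset α) ⊆
      S ∪ (Finset.range (Function.minimalPeriod σ x)).image (fun i => (σ ^ i) x) := by
    intro y _
    rw [Finset.mem_union]
    by_cases hy : y ∈ S
    · exact Or.inl hy
    · right
      obtain ⟨k, hk, e⟩ := hS y hy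
      obtain ⟨n, hn⟩ := (Submonoid.mem_powers_iff k σ).1 (by
        rw [mem_powers_iff_mem_zpowers]; exact hk)
      rw [Finset.mem_image]
      have hpos : 0 < Function.minimalPeriod σ x := by
        apply Function.minimalPeriod_pos_of_mem_periodicPts
        refine ⟨orderOf σ, orderOf_pos σ, ?_⟩
        rw [Function.IsPeriodicPt, Function.IsFixedPt, ← Equiv.Perm.coe_pow, pow_orderOf_eq_one]
        rfl
      refine ⟨n % Function.minimalPeriod σ x, Finset.mem_range.2 (Nat.mod_lt _ hpos), ?_⟩
      have := Function.iterate_mod_minimalPeriod_eq (f := σ) (x := x) (n := n)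
      rw [Equiv.Perm.coe_pow, this, ← Equiv.Perm.coe_pow, hn, e]
  have hle : Fintype.card α ≤ S.card + Function.minimalPeriod σ x := by
    calc Fintype.card α = (Finset.univ : Finset α).card := Finset.card_univ.symm
      _ ≤ _ := Finset.card_le_card hsub
      _ ≤ _ := Finset.card_union_le _ _
      _ ≤ _ := by
        have := Finset.card_image_le (s := Finset.range (Function.minimalPeriod σ x))
          (f := fun i => (σ ^ i) x)
        rw [Finset.card_range] at this
        omega
  have hinj := Function.iterate_injOn_Iio_minimalPeriod (f := σ) (x := x)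
  apply hinj (by simp only [Set.mem_Iio]; omega) (by simp only [Set.mem_Iio]; omega)
  simp only
  rw [← Equiv.Perm.coe_pow, ← Equiv.Perm.coe_pow]
  exact h

/-- rotations which fix a letter fix its orbit -/
lemma fix_orbit {σ k l : Equiv.Perm α} (hk : k ∈ Subgroup.zpowers σ)
    (hl : l ∈ Subgroup.zpowers σ) {x : α} (h : k x = x) : k (l x) = l x := by
  obtain ⟨i, rfl⟩ := Subgroup.mem_zpowers_iff.1 hk
  obtain ⟨j, rfl⟩ := Subgroup.mem_zpowers_iff.1 hl
  rw [← Equiv.Perm.mul_apply, ← zpow_add, add_comm, zpow_add, Equiv.Perm.mul_apply, h]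

end TopCyc

open TopCyc in
theorem size_cyc {σ : Equiv.Perm α} (hc : Cls (Subgroup.zpowers σ) (Subgroup.zpowers σ) Finset.univ)
    (h6 : 6 ≤ Fintype.card α) (hσ : σ ≠ 1) : SizeAt α (orderOf σ) := by
  classical
  have hcard : (Finset.univ : Finset α).card = Fintype.card α := Finset.card_univ
  have hG : ∀ x, Good (stb (Subgroup.zpowers σ) x) (Finset.univ.erase x) := by
    intro x
    exact good_cls (Fintype.card α - 1) (hc.stb (Finset.mem_univ x))
      (by rw [Finset.card_erase_of_mem (Finset.mem_univ x), hcard]) (by omega)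
  have hCh : ChainHyp (Subgroup.zpowers σ) (Finset.univ : Finset α) :=
    ⟨fun k _ a _ => Finset.mem_univ _, fun x _ => hG x, hc.pick (by omega)⟩
  have hσm : σ ∈ Subgroup.zpowers σ := Subgroup.mem_zpowers σ
  obtain ⟨x1, hmv⟩ : ∃ x, σ x ≠ x := by
    by_contra hcon
    push Not at hcon
    exact hσ (Equiv.ext hcon)
  have hinvm : σ⁻¹ ∈ Subgroup.zpowers σ := Subgroup.inv_mem _ hσm
  -- words for the first two cases
  have hwords : ∀ x2 xt, Inq (Subgroup.zpowers σ) x1 x2 → Inq (Subgroup.zpowers σ) x1 xt →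
      σ⁻¹ xt ≠ x2 → ∃ m m' : List α,
        Wd Finset.univ (([σ⁻¹ xt, x2] ++ m ++ [σ x1]) ++ [x1]) ∧
        Wd Finset.univ (([x2, σ x1] ++ m' ++ [σ⁻¹ xt]) ++ [x1]) ∧
        Adm (stb (Subgroup.zpowers σ) x1) ([σ⁻¹ xt, x2] ++ m ++ [σ x1])
          ([x2, σ x1] ++ m' ++ [σ⁻¹ xt]) ∧
        ¬ ∃ g : Equiv.Perm α, (([σ⁻¹ xt, x2] ++ m ++ [σ x1]) ++ [x1]).map g =
            ([x2, σ x1] ++ m' ++ [σ⁻¹ xt]) ++ [x1] ∧
          (([x2, σ x1] ++ m' ++ [σ⁻¹ xt]) ++ [x1]).map g =
            ([σ⁻¹ xt, x2] ++ m ++ [σ x1]) ++ [x1] := by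
    intro x2 xt hi2 hit hne
    have n1 : x1 ≠ x2 := by simpa using hi2 1 (Subgroup.one_mem _)
    have n2 : σ x1 ≠ x2 := hi2 σ hσm
    have n3 : x1 ≠ σ⁻¹ xt := by
      intro e
      apply hit σ hσm
      rw [e]; simp
    have n4 : σ x1 ≠ σ⁻¹ xt := by
      intro e
      apply hit (σ * σ) (Subgroup.mul_mem _ hσm hσm)
      rw [Equiv.Perm.mul_apply, e]; simp
    obtain ⟨m, hm⟩ := exists_word (Finset.univ : Finset α) [σ⁻¹ xt, x2] [σ x1, x1] (by
      simp only [List.cons_append, List.nil_append, List.nodup_cons, List.mem_cons,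
        List.not_mem_nil, or_false, not_or, List.nodup_nil, not_false_eq_true, and_true]
      exact ⟨⟨hne, n4.symm, n3.symm⟩, ⟨n2.symm, n1.symm⟩, hmv⟩) (fun a _ => Finset.mem_univ a)
    obtain ⟨m', hm'⟩ := exists_word (Finset.univ : Finset α) [x2, σ x1] [σ⁻¹ xt, x1] (by
      simp only [List.cons_append, List.nil_append, List.nodup_cons, List.mem_cons,
        List.not_mem_nil, or_false, not_or, List.nodup_nil, not_false_eq_true, and_true]
      exact ⟨⟨n2.symm, hne.symm, n1.symm⟩, ⟨n4, hmv⟩, n3.symm⟩) (fun a _ => Finset.mem_univ a)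
    refine ⟨m, m', by simpa using hm, by simpa using hm', ?_, ?_⟩
    · apply adm_of_inq
      intro k hk e
      apply hit (σ * k * σ) (Subgroup.mul_mem _ (Subgroup.mul_mem _ hσm (stb_le _ _ hk)) hσm)
      rw [Equiv.Perm.mul_apply, Equiv.Perm.mul_apply, e]; simp
    · rintro ⟨g, h1, h2⟩
      simp only [List.cons_append, List.nil_append, List.append_assoc, List.map_cons,
        List.cons.injEq] at h1 h2
      exact n4 (h1.2.1.symm.trans h2.1)
  by_cases hA1 : ∃ x2 xt, Inq (Subgroup.zpowers σ) x1 x2 ∧ Inq (Subgroup.zpowers σ) x1 xt ∧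
      Inq (Subgroup.zpowers σ) x2 xt
  · -- at least three orbits
    obtain ⟨x2, xt, hi2, hit, h2t⟩ := hA1
    have hne : σ⁻¹ xt ≠ x2 := by
      intro e
      apply h2t σ hσm
      rw [← e]; simp
    obtain ⟨m, m', hu, ha, hadm, h₁⟩ := hwords x2 xt hi2 hit hne
    set B : Finset α := Finset.univ.filter (fun b => Inq (Subgroup.zpowers σ) x1 b) with hB
    have hBm : ∀ b, b ∈ B ↔ Inq (Subgroup.zpowers σ) x1 b := by
      intro b; simp [hB]
    obtain ⟨xs, e1, e2, e3, e4, e5, e6⟩ := exists_reps (Subgroup.zpowers σ) B (by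
      intro k hk b hb
      rw [hBm] at hb ⊢
      have := hb.map (Subgroup.one_mem _) hk
      simpa using this) ((hBm x2).2 hi2) ((hBm xt).2 hit) h2t
    obtain ⟨bs₂, f1, f2, f3, f4, -, -⟩ := chainSome hCh xs (fun _ _ => Finset.mem_univ _) e4 e3
      ((([x2, σ x1] ++ m' ++ [σ⁻¹ xt]) ++ [x1]).reverse)
      (((([σ⁻¹ xt, x2] ++ m ++ [σ x1]) ++ [x1]).map σ).reverse)
      ha.reverse (hu.map (k := σ) (fun _ _ => Finset.mem_univ _)).reverse
      (by rw [e1, List.getLast?_reverse]; simp) (by rw [e2, List.getLast?_reverse]; simp)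
    refine finish hc h6 hG hmv hu ha hadm h₁ f1 f3 f4 (by rw [f2]; exact e4) ?_ ?_
    · intro y hy
      rw [f2] at hy
      exact (hBm y).1 (e5 y hy)
    · intro y hy
      rw [f2]
      exact e6 y ((hBm y).2 hy)
  · push Not at hA1
    by_cases hA2 : ∃ x2, Inq (Subgroup.zpowers σ) x1 x2
    · obtain ⟨x2, hi2⟩ := hA2
      have htwo : ∀ y, Inq (Subgroup.zpowers σ) x1 y → ∃ k ∈ Subgroup.zpowers σ, k x2 = y := by
        intro y hy
        have := hA1 x2 y hi2 hy
        unfold Inq at this
        push Not at this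
        exact this
      by_cases hm2 : σ x2 = x2
      · -- one more letter
        have hfix : ∀ k ∈ Subgroup.zpowers σ, k x2 = x2 := by
          intro k hk
          obtain ⟨j, rfl⟩ := Subgroup.mem_zpowers_iff.1 hk
          have : (σ ^ j) x2 = x2 := by
            have h := Function.IsFixedPt.perm_zpow (e := σ) (x := x2) hm2 j
            exact h
          exact this
        have hS : ∀ y, y ∉ ({x2} : Finset α) → ∃ k ∈ Subgroup.zpowers σ, k x1 = y := by
          intro y hy
          by_contra hcon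
          push Not at hcon
          obtain ⟨k, hk, e⟩ := htwo y hcon
          rw [hfix k hk] at e
          exact hy (by simp [e])
        have hinj : ∀ i j : ℕ, i < 5 → j < 5 → (σ ^ i) x1 = (σ ^ j) x1 → i = j := by
          intro i j hi hj h
          exact pow_inj (m := 5) hS (by simp; omega) hi hj h
        have hpm : ∀ i : ℕ, σ ^ i ∈ Subgroup.zpowers σ := fun i =>
          Subgroup.pow_mem _ hσm i
        have hne2 : ∀ i : ℕ, (σ ^ i) x1 ≠ x2 := fun i => hi2 _ (hpm i)
        have d : ∀ i j : ℕ, i < 5 → j < 5 → i ≠ j → (σ ^ i) x1 ≠ (σ ^ j) x1 :=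
          fun i j hi hj hij h => hij (hinj i j hi hj h)
        have hsucc : ∀ i : ℕ, σ ((σ ^ i) x1) = (σ ^ (i + 1)) x1 := by
          intro i; rw [← Equiv.Perm.mul_apply, ← pow_succ']
        obtain ⟨m, hm⟩ := exists_word (Finset.univ : Finset α) [x2, (σ ^ 2) x1, (σ ^ 3) x1]
          [(σ ^ 1) x1, (σ ^ 0) x1] (by
          simp only [List.cons_append, List.nil_append, List.nodup_cons, List.mem_cons,
            List.not_mem_nil, or_false, not_or, List.nodup_nil, not_false_eq_true, and_true]
          exact ⟨⟨(hne2 2).symm, (hne2 3).symm, (hne2 1).symm, (hne2 0).symm⟩,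
            ⟨d 2 3 (by omega) (by omega) (by omega), d 2 1 (by omega) (by omega) (by omega),
              d 2 0 (by omega) (by omega) (by omega)⟩,
            ⟨d 3 1 (by omega) (by omega) (by omega), d 3 0 (by omega) (by omega) (by omega)⟩,
            d 1 0 (by omega) (by omega) (by omega)⟩) (fun a _ => Finset.mem_univ a)
        obtain ⟨m', hm'⟩ := exists_word (Finset.univ : Finset α) [x2, (σ ^ 3) x1, (σ ^ 1) x1]
          [(σ ^ 2) x1, (σ ^ 0) x1] (by
          simp only [List.cons_append, List.nil_append, List.nodup_cons, List.mem_cons,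
            List.not_mem_nil, or_false, not_or, List.nodup_nil, not_false_eq_true, and_true]
          exact ⟨⟨(hne2 3).symm, (hne2 1).symm, (hne2 2).symm, (hne2 0).symm⟩,
            ⟨d 3 1 (by omega) (by omega) (by omega), d 3 2 (by omega) (by omega) (by omega),
              d 3 0 (by omega) (by omega) (by omega)⟩,
            ⟨d 1 2 (by omega) (by omega) (by omega), d 1 0 (by omega) (by omega) (by omega)⟩,
            d 2 0 (by omega) (by omega) (by omega)⟩) (fun a _ => Finset.mem_univ a)
        have hu : Wd Finset.univ (([x2, (σ ^ 2) x1, (σ ^ 3) x1] ++ m ++ [(σ ^ 1) x1]) ++ [x1]) := by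
          simpa using hm
        have ha : Wd Finset.univ (([x2, (σ ^ 3) x1, (σ ^ 1) x1] ++ m' ++ [(σ ^ 2) x1]) ++ [x1]) := by
          simpa using hm'
        have hr1 : (([x2, (σ ^ 3) x1, (σ ^ 1) x1] ++ m' ++ [(σ ^ 2) x1]) ++ [x1]).reverse =
            ([x1, (σ ^ 2) x1] ++ m'.reverse ++ [(σ ^ 1) x1, (σ ^ 3) x1]) ++ [x2] := by
          simp
        have hr2 : ((([x2, (σ ^ 2) x1, (σ ^ 3) x1] ++ m ++ [(σ ^ 1) x1]) ++ [x1]).map σ).reverse =
            ([(σ ^ 1) x1, (σ ^ 2) x1] ++ (m.map σ).reverse ++ [(σ ^ 4) x1, (σ ^ 3) x1]) ++ [x2] := by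
          simp only [List.map_append, List.map_cons, List.map_nil, hsucc, hm2]
          simp
        have w1 := ha.reverse
        have w2 := (hu.map (k := σ) (fun _ _ => Finset.mem_univ _)).reverse
        rw [hr1] at w1
        rw [hr2] at w2
        obtain ⟨bs₂, f1, f2, f3, f4, -⟩ := blockOne (K := Subgroup.zpowers σ) (A := Finset.univ)
          (Finset.mem_univ x2) (fun k _ a _ => Finset.mem_univ _) (hG x2) w1 w2 (by
            rw [adm_iff]
            rintro k hk ⟨k1, k3⟩
            have hk' := stb_le _ _ hk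
            have h3 : k ((σ ^ 1) x1) = (σ ^ 1) x1 := by
              have := fix_orbit hk' (Subgroup.mul_mem _ (hpm 1) (Subgroup.inv_mem _ (hpm 3))) k3
              simpa using this
            rw [h3] at k1
            exact d 1 4 (by omega) (by omega) (by omega) k1)
        refine finish hc h6 hG hmv hu ha ?_ ?_ f1 (by rw [f3, hr1]) (by rw [f4, hr2])
          (by rw [f2]; simp) ?_ ?_
        · apply adm_of_inq
          intro k hk e
          have hk' := mem_stb.1 hk
          rw [fix_orbit hk'.1 (hpm 1) hk'.2] at e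
          exact d 1 2 (by omega) (by omega) (by omega) e
        · rintro ⟨g, h1, h2⟩
          simp only [List.cons_append, List.nil_append, List.append_assoc, List.map_cons,
            List.cons.injEq] at h1 h2
          exact d 1 2 (by omega) (by omega) (by omega) (h1.2.2.1.symm.trans h2.2.1)
        · intro y hy
          rw [f2] at hy
          rw [List.mem_singleton.1 hy]
          exact hi2
        · intro y hy
          rw [f2]
          obtain ⟨k, hk, e⟩ := htwo y hy
          exact ⟨x2, by simp, k, hk, e⟩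
      · -- two orbits, both nontrivial
        have hne : σ⁻¹ x2 ≠ x2 := by
          intro e
          apply hm2
          rw [Equiv.Perm.inv_eq_iff_eq] at e
          exact e.symm
        obtain ⟨m, m', hu, ha, hadm, h₁⟩ := hwords x2 x2 hi2 hi2 hne
        have hr1 : (([x2, σ x1] ++ m' ++ [σ⁻¹ x2]) ++ [x1]).reverse =
            ([x1, σ⁻¹ x2] ++ m'.reverse ++ [σ x1]) ++ [x2] := by
          simp
        have hr2 : ((([σ⁻¹ x2, x2] ++ m ++ [σ x1]) ++ [x1]).map σ).reverse =
            ([σ x1, σ (σ x1)] ++ (m.map σ).reverse ++ [σ x2]) ++ [x2] := by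
          simp
        have w1 := ha.reverse
        have w2 := (hu.map (k := σ) (fun _ _ => Finset.mem_univ _)).reverse
        rw [hr1] at w1
        rw [hr2] at w2
        obtain ⟨bs₂, f1, f2, f3, f4, -⟩ := blockOne (K := Subgroup.zpowers σ) (A := Finset.univ)
          (Finset.mem_univ x2) (fun k _ a _ => Finset.mem_univ _) (hG x2) w1 w2 (by
            apply adm_of_inq
            exact (hi2.map hσm hσm).mono (stb_le _ _))
        refine finish hc h6 hG hmv hu ha hadm h₁ f1 (by rw [f3, hr1]) (by rw [f4, hr2])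
          (by rw [f2]; simp) ?_ ?_
        · intro y hy
          rw [f2] at hy
          rw [List.mem_singleton.1 hy]
          exact hi2
        · intro y hy
          rw [f2]
          obtain ⟨k, hk, e⟩ := htwo y hy
          exact ⟨x2, by simp, k, hk, e⟩
    · -- one orbit
      push Not at hA2
      have hone : ∀ y, ∃ k ∈ Subgroup.zpowers σ, k x1 = y := by
        intro y
        have := hA2 y
        unfold Inq at this
        push Not at this
        exact this
      have hS : ∀ y, y ∉ (∅ : Finset α) → ∃ k ∈ Subgroup.zpowers σ, k x1 = y := fun y _ => hone y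
      have hinj : ∀ i j : ℕ, i < 6 → j < 6 → (σ ^ i) x1 = (σ ^ j) x1 → i = j := by
        intro i j hi hj h
        exact pow_inj (m := 6) hS (by simp; omega) hi hj h
      have hpm : ∀ i : ℕ, σ ^ i ∈ Subgroup.zpowers σ := fun i =>
        Subgroup.pow_mem _ hσm i
      have d : ∀ i j : ℕ, i < 6 → j < 6 → i ≠ j → (σ ^ i) x1 ≠ (σ ^ j) x1 :=
        fun i j hi hj hij h => hij (hinj i j hi hj h)
      have hsucc : ∀ i : ℕ, σ ((σ ^ i) x1) = (σ ^ (i + 1)) x1 := by
        intro i; rw [← Equiv.Perm.mul_apply, ← pow_succ']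
      obtain ⟨m, hm⟩ := exists_word (Finset.univ : Finset α) [(σ ^ 0) x1, (σ ^ 2) x1]
          [(σ ^ 4) x1, (σ ^ 1) x1] (by
          simp only [List.cons_append, List.nil_append, List.nodup_cons, List.mem_cons,
            List.not_mem_nil, or_false, not_or, List.nodup_nil, not_false_eq_true, and_true]
          exact ⟨⟨d 0 2 (by omega) (by omega) (by omega), d 0 4 (by omega) (by omega) (by omega),
              d 0 1 (by omega) (by omega) (by omega)⟩,
            ⟨d 2 4 (by omega) (by omega) (by omega), d 2 1 (by omega) (by omega) (by omega)⟩,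
            d 4 1 (by omega) (by omega) (by omega)⟩) (fun a _ => Finset.mem_univ a)
      have hu : Wd Finset.univ (([(σ ^ 0) x1, (σ ^ 2) x1] ++ m ++ [(σ ^ 4) x1]) ++
          [(σ ^ 1) x1]) := by
        simpa using hm
      have hr2 : ((([(σ ^ 0) x1, (σ ^ 2) x1] ++ m ++ [(σ ^ 4) x1]) ++
          [(σ ^ 1) x1]).map σ).reverse =
            ([(σ ^ 2) x1, (σ ^ 5) x1] ++ (m.map σ).reverse ++ [(σ ^ 3) x1]) ++ [(σ ^ 1) x1] := by
        simp only [List.map_append, List.map_cons, List.map_nil, hsucc]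
        simp
      have w2 := (hu.map (k := σ) (fun _ _ => Finset.mem_univ _)).reverse
      rw [hr2] at w2
      obtain ⟨bs, f1, f2, f3, f4, -⟩ := blockOne (K := Subgroup.zpowers σ) (A := Finset.univ)
          (Finset.mem_univ ((σ ^ 1) x1)) (fun k _ a _ => Finset.mem_univ _) (hG ((σ ^ 1) x1)) hu w2 (by
            apply adm_of_inq
            intro k hk e
            have hk' := mem_stb.1 hk
            have h4 : k ((σ ^ 4) x1) = (σ ^ 4) x1 := by
              have := fix_orbit hk'.1 (Subgroup.mul_mem _ (hpm 4) (Subgroup.inv_mem _ (hpm 1))) hk'.2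
              simpa using this
            rw [h4] at e
            exact d 4 3 (by omega) (by omega) (by omega) e)
      obtain ⟨b, rfl⟩ : ∃ b, bs = [b] := by
        cases bs with
        | nil => simp at f2
        | cons b t =>
          cases t with
          | nil => exact ⟨b, rfl⟩
          | cons c t => simp at f2
      refine wrap h6 f1 (by rw [f2]; simp) ?_ f3 (by rw [f4, hr2]) (b₁ := b) rfl
        (a := ([(σ ^ 2) x1, (σ ^ 5) x1] ++ (m.map σ).reverse ++ [(σ ^ 3) x1]) ++ [(σ ^ 1) x1]) ?_ ?_ ?_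
      · intro y
        rw [f2]
        obtain ⟨k, hk, e⟩ := hone y
        refine ⟨(σ ^ 1) x1, by simp, k * σ⁻¹, Subgroup.mul_mem _ hk hinvm, ?_⟩
        simp [e]
      · have hfb : flat [b] = b.2.map (· ++ [b.1]) := by simp [flat]
        rw [← hfb]; exact f4
      · rintro ⟨g, h1, h2⟩
        simp only [List.cons_append, List.nil_append, List.append_assoc, List.map_cons,
          List.cons.injEq] at h1 h2
        exact d 5 0 (by omega) (by omega) (by omega) (h1.2.1.symm.trans h2.1)
      · intro b' hb'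
        simp at hb'

end Pan
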